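import Pool.Agent.MP_650c5e_an.Params

/-! The unit balls of the Calderon products. -/

namespace Pool.Agent.MP_650c5e_an

open Finset

lemma amgm {κ : Type*} (F : Finset κ) (g r : κ → ℝ) (hg : ∀ k ∈ F, 0 ≤ g k)
    (hg1 : ∑ k ∈ F, g k ≤ 1) (hr : ∀ k ∈ F, 0 ≤ r k) :
    ∏ k ∈ F, r k ^ g k ≤ ∑ k ∈ F, g k * r k + (1 - ∑ k ∈ F, g k) := by
  have := Real.geom_mean_le_arith_mean_weighted (insertNone F)
    (fun o => o.elim (1 - ∑ k ∈ F, g k) g) (fun o => o.elim 1 r)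
    (by
      intro o ho
      cases o with
      | none => simpa using hg1
      | some k => exact hg k (some_mem_insertNone.1 ho))
    (by simp [sum_insertNone])
    (by
      intro o ho
      cases o with
      | none => simp
      | some k => exact hr k (some_mem_insertNone.1 ho))
  simp only [prod_insertNone, sum_insertNone, Option.elim_none, Option.elim_some, Real.one_rpow,
    one_mul, mul_one] at this
  linarith

lemma gm_concave {ι κ : Type*} (J : Finset ι) (w : ι → ℝ) (hw : ∀ j ∈ J, 0 ≤ w j)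
    (hw1 : ∑ j ∈ J, w j ≤ 1) (F : Finset κ) (g : κ → ℝ) (hg : ∀ k ∈ F, 0 ≤ g k)
    (hg1 : ∑ k ∈ F, g k ≤ 1) (a : ι → κ → ℝ) (ha : ∀ j ∈ J, ∀ k ∈ F, 0 ≤ a j k) :
    ∑ j ∈ J, w j * ∏ k ∈ F, a j k ^ g k ≤ ∏ k ∈ F, (∑ j ∈ J, w j * a j k) ^ g k := by
  have hc : ∀ k ∈ F, 0 ≤ ∑ j ∈ J, w j * a j k :=
    fun k hk => sum_nonneg fun j hj => mul_nonneg (hw j hj) (ha j hj k hk)
  have hP : 0 ≤ ∏ k ∈ F, (∑ j ∈ J, w j * a j k) ^ g k :=
    prod_nonneg fun k hk => Real.rpow_nonneg (hc k hk) _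
  by_cases h : ∃ k ∈ F, g k ≠ 0 ∧ ∑ j ∈ J, w j * a j k = 0
  · obtain ⟨k, hk, hgk, h0⟩ := h
    rw [sum_eq_zero]
    · exact hP
    · intro j hj
      have := (sum_eq_zero_iff_of_nonneg fun j hj => mul_nonneg (hw j hj) (ha j hj k hk)).1 h0 j hj
      rcases mul_eq_zero.1 this with h1 | h1
      · rw [h1, zero_mul]
      · rw [prod_eq_zero hk (by rw [h1, Real.zero_rpow hgk]), mul_zero]
  · push Not at h
    have h1 : ∀ j ∈ J, ∏ k ∈ F, a j k ^ g k =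
        (∏ k ∈ F, (a j k / ∑ j ∈ J, w j * a j k) ^ g k) *
          ∏ k ∈ F, (∑ j ∈ J, w j * a j k) ^ g k := by
      intro j hj
      rw [← prod_mul_distrib]
      refine prod_congr rfl fun k hk => ?_
      by_cases hgk : g k = 0
      · simp [hgk]
      · rw [← Real.mul_rpow (div_nonneg (ha j hj k hk) (hc k hk)) (hc k hk),
          div_mul_cancel₀ _ (h k hk hgk)]
    have h2 : ∑ j ∈ J, w j * ∏ k ∈ F, (a j k / ∑ j ∈ J, w j * a j k) ^ g k ≤ 1 := by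
      calc _ ≤ ∑ j ∈ J, w j * (∑ k ∈ F, g k * (a j k / ∑ j ∈ J, w j * a j k) +
            (1 - ∑ k ∈ F, g k)) :=
            sum_le_sum fun j hj => mul_le_mul_of_nonneg_left
              (amgm F g _ hg hg1 fun k hk => div_nonneg (ha j hj k hk) (hc k hk)) (hw j hj)
        _ = ∑ k ∈ F, g k * ((∑ j ∈ J, w j * a j k) / ∑ j ∈ J, w j * a j k) +
            (∑ j ∈ J, w j) * (1 - ∑ k ∈ F, g k) := by
            simp_rw [mul_add, sum_add_distrib, ← sum_mul, mul_sum (s := F)]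
            congr 1
            rw [sum_comm]
            refine sum_congr rfl fun k _ => ?_
            rw [sum_div, mul_sum]
            exact sum_congr rfl fun j _ => by ring
        _ ≤ ∑ k ∈ F, g k * 1 + 1 * (1 - ∑ k ∈ F, g k) := by
            refine add_le_add (sum_le_sum fun k hk => mul_le_mul_of_nonneg_left
              (div_self_le_one _) (hg k hk)) (mul_le_mul_of_nonneg_right hw1 (by linarith))
        _ = 1 := by simp
    calc _ = (∑ j ∈ J, w j * ∏ k ∈ F, (a j k / ∑ j ∈ J, w j * a j k) ^ g k) *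
          ∏ k ∈ F, (∑ j ∈ J, w j * a j k) ^ g k := by
          rw [sum_mul]
          exact sum_congr rfl fun j hj => by rw [h1 j hj]; ring
      _ ≤ _ := mul_le_of_le_one_left hP h2

/-- Admissible families of factors. -/
def Adm (t : ℕ → ℕ → ℝ) : Prop := ∀ k, t k ∈ BB (nk k)

/-- The weighted product of the factors with index in `[a, b)`. -/
noncomputable def GP (a b : ℕ) (t : ℕ → ℕ → ℝ) (i : ℕ) : ℝ := ∏ k ∈ Ico a b, t k i ^ gam k

lemma Adm.nonneg {t : ℕ → ℕ → ℝ} (h : Adm t) (k i : ℕ) : 0 ≤ t k i := (h k).1 i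

lemma Adm.le_one {t : ℕ → ℕ → ℝ} (h : Adm t) (k i : ℕ) : t k i ≤ 1 := BB_le_one _ _ (h k) i

lemma GP_nonneg {t : ℕ → ℕ → ℝ} (h : ∀ k i, 0 ≤ t k i) (a b i : ℕ) : 0 ≤ GP a b t i :=
  prod_nonneg fun k _ => Real.rpow_nonneg (h k i) _

lemma GP_le_one {t : ℕ → ℕ → ℝ} (h : Adm t) (a b i : ℕ) : GP a b t i ≤ 1 :=
  prod_le_one (fun k _ => Real.rpow_nonneg (h.nonneg k i) _) fun k _ =>
    Real.rpow_le_one (h.nonneg k i) (h.le_one k i) (gam_pos k).le

lemma GP_split {a b c : ℕ} (hab : a ≤ b) (hbc : b ≤ c) (t : ℕ → ℕ → ℝ) (i : ℕ) :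
    GP a c t i = GP a b t i * GP b c t i := (prod_Ico_consecutive _ hab hbc).symm

lemma GP_congr {a b : ℕ} {t t' : ℕ → ℕ → ℝ} {i i' : ℕ} (h : ∀ k, a ≤ k → k < b → t k i = t' k i') :
    GP a b t i = GP a b t' i' :=
  prod_congr rfl fun k hk => by rw [h k (mem_Ico.1 hk).1 (mem_Ico.1 hk).2]

lemma GP_const {a b : ℕ} (hab : a ≤ b) {t : ℕ → ℕ → ℝ} {i : ℕ} {c : ℝ} (hc : 0 ≤ c)
    (h : ∀ k, a ≤ k → k < b → t k i = c) : GP a b t i = c ^ (Gam a - Gam b) := by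
  rw [← sum_gam hab, Real.rpow_sum_of_nonneg hc fun k _ => (gam_pos k).le]
  exact prod_congr rfl fun k hk => by rw [h k (mem_Ico.1 hk).1 (mem_Ico.1 hk).2]

lemma GP_mono {a b : ℕ} {t t' : ℕ → ℕ → ℝ} {i : ℕ} (h0 : ∀ k, 0 ≤ t k i)
    (h : ∀ k, a ≤ k → k < b → t k i ≤ t' k i) : GP a b t i ≤ GP a b t' i :=
  prod_le_prod (fun k _ => Real.rpow_nonneg (h0 k) _) fun k hk =>
    Real.rpow_le_rpow (h0 k) (h k (mem_Ico.1 hk).1 (mem_Ico.1 hk).2) (gam_pos k).le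

lemma GP_mul {a b : ℕ} {t t' : ℕ → ℕ → ℝ} {i i' : ℕ} (h0 : ∀ k, 0 ≤ t k i)
    (h0' : ∀ k, 0 ≤ t' k i') :
    GP a b (fun k j => t k j * t' k i') i = GP a b t i * GP a b t' i' := by
  unfold GP
  rw [← prod_mul_distrib]
  exact prod_congr rfl fun k _ => Real.mul_rpow (h0 k) (h0' k)

/-- The ball in which the first `k` factors are merged with a part of `s` into an `l_1` factor. -/
def Bl (k K : ℕ) : Set (ℕ → ℝ) :=
  {x | ∃ (h s : ℕ → ℝ) (t : ℕ → ℕ → ℝ), (∀ i, 0 ≤ h i) ∧ ∑ i ∈ range K, h i ≤ 1 ∧ s ∈ SB 1 ∧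
    Adm t ∧ ∀ i < K, x i ^ 2 ≤ h i ^ (1 - Gam k) * s i ^ Gam k * GP k K t i}

/-- The unit ball at stage `K`. -/
def Ball (K : ℕ) : Set (ℕ → ℝ) :=
  {x | ∃ s ∈ SB 1, ∃ t : ℕ → ℕ → ℝ, Adm t ∧ ∀ i < K, x i ^ 2 ≤ s i * GP 0 K t i}

lemma Bl_zero (K : ℕ) : Bl 0 K = Ball K := by
  ext x
  constructor
  · rintro ⟨h, s, t, -, -, hs, ht, hx⟩
    exact ⟨s, hs, t, ht, by simpa [Gam_zero] using hx⟩
  · rintro ⟨s, hs, t, ht, hx⟩
    exact ⟨0, s, t, fun _ => le_rfl, by simp, hs, ht, by simpa [Gam_zero] using hx⟩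

lemma Bl.comb {k K : ℕ} (hk : k ≤ K) {p : ℝ} (hp : 0 < p) (hpk : p / 2 * (1 + Gam k) ≤ 1)
    {ι : Type*} (J : Finset ι) (w : ι → ℝ) (hw : ∀ j ∈ J, 0 ≤ w j) (hw1 : ∑ j ∈ J, w j ≤ 1)
    (x : ι → ℕ → ℝ) (hx : ∀ j ∈ J, x j ∈ Bl k K) {u : ℕ → ℝ}
    (hu : ∀ i < K, |u i| ^ p ≤ ∑ j ∈ J, w j * |x j i| ^ p) : u ∈ Bl k K := by
  classical
  have hx' : ∀ j, ∃ (h s : ℕ → ℝ) (t : ℕ → ℕ → ℝ), j ∈ J → ((∀ i, 0 ≤ h i) ∧
      ∑ i ∈ range K, h i ≤ 1 ∧ s ∈ SB 1 ∧ Adm t ∧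
      ∀ i < K, x j i ^ 2 ≤ h i ^ (1 - Gam k) * s i ^ Gam k * GP k K t i) := by
    intro j
    by_cases hj : j ∈ J
    · obtain ⟨h, s, t, H⟩ := hx j hj
      exact ⟨h, s, t, fun _ => H⟩
    · exact ⟨0, 0, 0, fun h => absurd h hj⟩
  choose h s t H using hx'
  have hH : ∀ i, 0 ≤ ∑ j ∈ J, w j * h j i :=
    fun i => sum_nonneg fun j hj => mul_nonneg (hw j hj) ((H j hj).1 i)
  have hS : (fun i => ∑ j ∈ J, w j * s j i) ∈ SB 1 :=
    polar.comb J w s hw hw1 fun j hj => (H j hj).2.2.1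
  have hT : Adm (fun κ i => ∑ j ∈ J, w j * t j κ i) :=
    fun κ => polar.comb J w (fun j => t j κ) hw hw1 fun j hj => (H j hj).2.2.2.1 κ
  refine ⟨fun i => ∑ j ∈ J, w j * h j i, _, _, hH, ?_, hS, hT, fun i hi => ?_⟩
  · rw [sum_comm]
    calc _ ≤ ∑ j ∈ J, w j * 1 := sum_le_sum fun j hj => by
          rw [← mul_sum]; exact mul_le_mul_of_nonneg_left (H j hj).2.1 (hw j hj)
      _ ≤ 1 := by simpa using hw1
  · have hG := Gam_pos k
    have hG1 := Gam_le_one k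
    have hp2 : 0 < p / 2 := by positivity
    have e : ∀ (a b : ℝ) (c : ℕ → ℕ → ℝ), 0 ≤ a → 0 ≤ b → (∀ κ, 0 ≤ c κ i) →
        (a ^ (1 - Gam k) * b ^ Gam k * GP k K c i) ^ (p / 2) =
        a ^ ((1 - Gam k) * (p / 2)) * (b ^ (Gam k * (p / 2)) *
          ∏ κ ∈ Ico k K, c κ i ^ (gam κ * (p / 2))) := by
      intro a b c ha hb hc
      have : 0 ≤ GP k K c i := prod_nonneg fun κ _ => Real.rpow_nonneg (hc κ) _
      rw [Real.mul_rpow (by positivity) this, Real.mul_rpow (by positivity) (by positivity),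
        Real.rpow_mul ha, Real.rpow_mul hb, mul_assoc]
      congr 2
      unfold GP
      rw [← Real.finsetProd_rpow _ _ fun κ _ => Real.rpow_nonneg (hc κ) _]
      exact prod_congr rfl fun κ _ => (Real.rpow_mul (hc κ) _ _).symm
    have e2 : ∀ a : ℝ, |a| ^ p = (a ^ 2) ^ (p / 2) := by
      intro a
      rw [← sq_abs, ← Real.rpow_natCast, ← Real.rpow_mul (abs_nonneg a)]
      congr 1; push_cast; ring
    have key := gm_concave J w hw hw1 (insertNone (insertNone (Ico k K)))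
      (fun o => o.elim ((1 - Gam k) * (p / 2)) fun o' => o'.elim (Gam k * (p / 2))
        fun κ => gam κ * (p / 2))
      (by
        rintro (_ | _ | κ) _
        · exact mul_nonneg (by linarith) hp2.le
        · exact mul_nonneg hG.le hp2.le
        · exact mul_nonneg (gam_pos κ).le hp2.le)
      (by
        simp only [sum_insertNone, Option.elim_none, Option.elim_some]
        rw [← sum_mul, sum_gam hk]
        nlinarith [Gam_pos K])
      (fun j o => o.elim (h j i) fun o' => o'.elim (s j i) fun κ => t j κ i)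
      (by
        rintro j hj (_ | _ | κ) _
        · exact (H j hj).1 i
        · exact (H j hj).2.2.1.1 i
        · exact (H j hj).2.2.2.1.nonneg κ i)
    simp only [prod_insertNone, Option.elim_none, Option.elim_some] at key
    have h1 : (u i ^ 2) ^ (p / 2) ≤ ((∑ j ∈ J, w j * h j i) ^ (1 - Gam k) *
        (∑ j ∈ J, w j * s j i) ^ Gam k *
        GP k K (fun κ i => ∑ j ∈ J, w j * t j κ i) i) ^ (p / 2) := by
      rw [← e2, e _ _ _ (hH i) (hS.1 i) fun κ => hT.nonneg κ i]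
      refine (hu i hi).trans (le_trans (sum_le_sum fun j hj => ?_) key)
      refine mul_le_mul_of_nonneg_left ?_ (hw j hj)
      rw [← e _ _ _ ((H j hj).1 i) ((H j hj).2.2.1.1 i) fun κ => (H j hj).2.2.2.1.nonneg κ i, e2]
      exact Real.rpow_le_rpow (sq_nonneg _) ((H j hj).2.2.2.2 i hi) hp2.le
    exact (Real.rpow_le_rpow_iff (sq_nonneg _) (mul_nonneg (mul_nonneg
      (Real.rpow_nonneg (hH i) _) (Real.rpow_nonneg (hS.1 i) _))
      (GP_nonneg hT.nonneg _ _ _)) hp2).1 h1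

lemma geom2_le {a b θ : ℝ} (ha : 0 ≤ a) (hb : 0 ≤ b) (h0 : 0 ≤ θ) (h1 : θ ≤ 1) :
    a ^ (1 - θ) * b ^ θ ≤ (1 - θ) * a + θ * b :=
  Real.geom_mean_le_arith_mean2_weighted (by linarith) h0 ha hb (by ring)

lemma Bl_subset {k K : ℕ} (hk : k ≤ K) : Bl k K ⊆ Ball K := by
  rintro x ⟨h, s, t, h0, h1, hs, ht, hx⟩
  obtain ⟨s', hs', t', ht', e⟩ := lozanovskii h0 (range K) h1
  have hG := Gam_pos k
  have hG1 := Gam_le_one k
  refine ⟨fun i => (1 - Gam k) * s' i + Gam k * s i,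
    polar.comb2 (by linarith) hG.le (by linarith) hs' hs,
    fun κ => if κ < k then t' else t κ, fun κ => ?_, fun i hi => ?_⟩
  · by_cases hκ : κ < k
    · simp only [hκ, if_true]; exact BB_mono (nk_pos κ) ht'
    · simp only [hκ, if_false]; exact ht κ
  · refine (hx i hi).trans ?_
    have e0 : GP k K (fun κ => if κ < k then t' else t κ) i = GP k K t i :=
      GP_congr fun κ hκ _ => by simp only [show ¬ κ < k by omega, if_false]
    rw [GP_split (Nat.zero_le k) hk, GP_const (Nat.zero_le k) (ht'.1 i)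
      (fun κ _ hκ => by simp only [hκ, if_true]), e0, e i (mem_range.2 hi),
      Real.mul_rpow (hs'.1 i) (ht'.1 i), Gam_zero]
    have h2 := geom2_le (hs'.1 i) (hs.1 i) hG.le hG1
    have h3 : 0 ≤ t' i ^ (1 - Gam k) * GP k K t i :=
      mul_nonneg (Real.rpow_nonneg (ht'.1 i) _) (GP_nonneg ht.nonneg _ _ _)
    calc _ = (s' i ^ (1 - Gam k) * s i ^ Gam k) * (t' i ^ (1 - Gam k) * GP k K t i) := by ring
      _ ≤ _ := mul_le_mul_of_nonneg_right h2 h3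

lemma Ball_subset {k K : ℕ} (hk1 : 1 ≤ k) (hk : k ≤ K) {x : ℕ → ℝ} (hx : x ∈ Ball K) :
    (fun i => (1 / 2 : ℝ) ^ dk k * x i) ∈ Bl k K := by
  obtain ⟨s, hs, t, ht, hx⟩ := hx
  have hG := Gam_pos k
  have hG1 : Gam k ≤ 1 / 2 := (Gam_anti hk1).trans Gam_one_le
  have hg : 0 < 1 - Gam k := by linarith
  have hsum : ∑ κ ∈ Ico 0 k, gam κ / (1 - Gam k) = 1 := by
    rw [← sum_div, sum_gam (Nat.zero_le k), Gam_zero, div_self hg.ne']
  have htb : (fun i => ∑ κ ∈ Ico 0 k, gam κ / (1 - Gam k) * t κ i) ∈ BB (R (dk k)) :=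
    polar.comb _ _ _ (fun κ _ => div_nonneg (gam_pos κ).le hg.le) hsum.le
      fun κ hκ => BB_mono (nk_mono (mem_Ico.1 hκ).2.le) (ht κ)
  have htc := BB.shrink htb
  set c : ℝ := (1 / 2 : ℝ) ^ dk k with hc
  have hc0 : 0 < c := by positivity
  have hc1 : c ≤ 1 := pow_le_one₀ (by norm_num) (by norm_num)
  refine ⟨fun i => s i * (c * ∑ κ ∈ Ico 0 k, gam κ / (1 - Gam k) * t κ i), s, t,
    fun i => mul_nonneg (hs.1 i) (htc.1 i), pair_le_one hs htc _, hs, ht, fun i hi => ?_⟩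
  set τ := ∑ κ ∈ Ico 0 k, gam κ / (1 - Gam k) * t κ i with hτ
  have hτ0 : 0 ≤ τ := htb.1 i
  have h1 : GP 0 k t i ≤ τ ^ (1 - Gam k) := by
    have h2 := amgm (Ico 0 k) (fun κ => gam κ / (1 - Gam k)) (fun κ => t κ i)
      (fun κ _ => div_nonneg (gam_pos κ).le hg.le) hsum.le fun κ _ => ht.nonneg κ i
    rw [hsum, sub_self, add_zero] at h2
    refine le_trans (le_of_eq ?_) (Real.rpow_le_rpow
      (prod_nonneg fun κ _ => Real.rpow_nonneg (ht.nonneg κ i) _) h2 hg.le)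
    rw [← Real.finsetProd_rpow _ _ fun κ _ => Real.rpow_nonneg (ht.nonneg κ i) _]
    refine prod_congr rfl fun κ _ => ?_
    rw [← Real.rpow_mul (ht.nonneg κ i), div_mul_cancel₀ _ hg.ne']
  have h3 : s i = s i ^ (1 - Gam k) * s i ^ Gam k := by
    rw [← Real.rpow_add' (hs.1 i) (by simp)]; simp
  have h4 : c ^ 2 ≤ c ^ (1 - Gam k) := by
    rw [← Real.rpow_natCast]
    exact Real.rpow_le_rpow_of_exponent_ge hc0 hc1 (by push_cast; linarith)
  have h5 := GP_nonneg ht.nonneg k K i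
  have h6 := hs.1 i
  rw [mul_pow, Real.mul_rpow h6 (mul_nonneg hc0.le hτ0), Real.mul_rpow hc0.le hτ0]
  calc c ^ 2 * x i ^ 2 ≤ c ^ (1 - Gam k) * (s i * (GP 0 k t i * GP k K t i)) := by
        rw [← GP_split (Nat.zero_le k) hk]
        exact mul_le_mul h4 (hx i hi) (sq_nonneg _) (by positivity)
    _ ≤ c ^ (1 - Gam k) * (s i * (τ ^ (1 - Gam k) * GP k K t i)) := by gcongr
    _ = _ := by
        conv_lhs => rw [h3]
        ring

lemma Bl.theta {k K : ℕ} {x h s θ : ℕ → ℝ} {t : ℕ → ℕ → ℝ} (h0 : ∀ i, 0 ≤ h i)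
    (h1 : ∑ i ∈ range K, h i ≤ 1) (hs : s ∈ SB 1) (ht : Adm t) (hθ : ∀ i, 0 ≤ θ i) {a η : ℝ}
    (ha : 0 < a) (hak : a ≤ 1 - Gam k) (hη : 0 < η) (hη' : ∑ i ∈ range K, h i * θ i ≤ η)
    (hx : ∀ i < K, x i ^ 2 ≤ θ i ^ a * (h i ^ (1 - Gam k) * s i ^ Gam k * GP k K t i)) :
    (fun i => (η ^ (a / 2))⁻¹ * x i) ∈ Bl k K := by
  have hg : 0 < 1 - Gam k := lt_of_lt_of_le ha hak
  set b := a / (1 - Gam k) with hb
  have hb0 : 0 ≤ b := by positivity
  have hb1 : b ≤ 1 := (div_le_one hg).2 hak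
  refine ⟨fun i => (1 - b) * h i + b * (h i * θ i / η), s, t, fun i => ?_, ?_, hs, ht,
    fun i hi => ?_⟩
  · have := h0 i; have := hθ i
    have : 0 ≤ 1 - b := by linarith
    positivity
  · rw [sum_add_distrib, ← mul_sum, ← mul_sum, ← sum_div]
    have : (∑ i ∈ range K, h i * θ i) / η ≤ 1 := (div_le_one hη).2 hη'
    nlinarith
  · have h2 := h0 i
    have h3 := hθ i
    have h4 := geom2_le h2 (show 0 ≤ h i * θ i / η by positivity) hb0 hb1
    have h5 : θ i ^ a * h i ^ (1 - Gam k) / η ^ a ≤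
        ((1 - b) * h i + b * (h i * θ i / η)) ^ (1 - Gam k) := by
      refine le_trans (le_of_eq ?_) (Real.rpow_le_rpow (by positivity) h4 hg.le)
      have e1 : b * (1 - Gam k) = a := div_mul_cancel₀ _ hg.ne'
      rw [Real.mul_rpow (by positivity) (by positivity), ← Real.rpow_mul h2,
        ← Real.rpow_mul (by positivity), e1, Real.div_rpow (by positivity) hη.le,
        Real.mul_rpow h2 h3]
      have e2 : h i ^ (1 - Gam k) = h i ^ ((1 - b) * (1 - Gam k)) * h i ^ a := by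
        rw [← Real.rpow_add' h2 (by rw [← e1]; ring_nf; linarith)]
        congr 1; rw [← e1]; ring
      rw [e2]; ring
    have h6 : ((η ^ (a / 2))⁻¹) ^ 2 = (η ^ a)⁻¹ := by
      rw [inv_pow, ← Real.rpow_natCast, ← Real.rpow_mul hη.le]
      congr 2; push_cast; ring
    have h7 : 0 ≤ s i ^ Gam k * GP k K t i :=
      mul_nonneg (Real.rpow_nonneg (hs.1 i) _) (GP_nonneg ht.nonneg _ _ _)
    have h8 : 0 < η ^ a := Real.rpow_pos_of_pos hη a
    rw [mul_pow, h6]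
    calc _ ≤ (η ^ a)⁻¹ * (θ i ^ a * (h i ^ (1 - Gam k) * s i ^ Gam k * GP k K t i)) := by
          have := hx i hi
          gcongr
      _ = θ i ^ a * h i ^ (1 - Gam k) / η ^ a * (s i ^ Gam k * GP k K t i) := by ring
      _ ≤ _ := by rw [mul_assoc]; exact mul_le_mul_of_nonneg_right h5 h7

end Pool.Agent.MP_650c5e_an
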