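import Mathlib

/-! Definitions used in the statement. -/

namespace Pool.Agent.MP_650c5e_an

/-- The quadratic Rademacher average of a finite family of vectors. -/
noncomputable def radAvg {X : Type} [NormedAddCommGroup X] [NormedSpace ℝ X] {n : ℕ}
    (x : Fin n → X) : ℝ :=
  √((∑ ε : Fin n → Bool, ‖∑ i, (if ε i then (1 : ℝ) else -1) • x i‖ ^ 2) / 2 ^ n)

/-- Rademacher type `p`. -/
def HasType (X : Type) [NormedAddCommGroup X] [NormedSpace ℝ X] (p : ℝ) : Prop :=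
  ∃ C : ℝ, ∀ (n : ℕ) (x : Fin n → X), radAvg x ≤ C * (∑ i, ‖x i‖ ^ p) ^ (1 / p)

/-- Rademacher cotype `q` for finite `q`. -/
def HasCotype (X : Type) [NormedAddCommGroup X] [NormedSpace ℝ X] (q : ℝ) : Prop :=
  ∃ C : ℝ, ∀ (n : ℕ) (x : Fin n → X), (∑ i, ‖x i‖ ^ q) ^ (1 / q) ≤ C * radAvg x

/-- Type `p` and cotype `q` for all `1 ≤ p < 2 < q ≤ ∞`. -/
def NearHilbert (X : Type) [NormedAddCommGroup X] [NormedSpace ℝ X] : Prop :=
  (∀ p : ℝ, 1 ≤ p → p < 2 → HasType X p) ∧ (∀ q : ℝ, 2 < q → HasCotype X q) ∧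
    ∃ C : ℝ, ∀ (n : ℕ) (x : Fin n → X) (i : Fin n), ‖x i‖ ≤ C * radAvg x

/-- Isomorphic to a Hilbert space. -/
def Hilbertian (X : Type) [NormedAddCommGroup X] [NormedSpace ℝ X] : Prop :=
  ∃ (H : Type) (_ : NormedAddCommGroup H) (_ : InnerProductSpace ℝ H) (_ : CompleteSpace H),
    Nonempty (X ≃L[ℝ] H)

/-- The Banach-Mazur distance. -/
noncomputable def bmDist (E F : Type) [NormedAddCommGroup E] [NormedSpace ℝ E]
    [NormedAddCommGroup F] [NormedSpace ℝ F] : ℝ :=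
  sInf {r : ℝ | ∃ T : E ≃L[ℝ] F, r = ‖(T : E →L[ℝ] F)‖ * ‖(T.symm : F →L[ℝ] E)‖}

/-- Asymptotically Hilbertian spaces. -/
def AsympHilbertian (X : Type) [NormedAddCommGroup X] [NormedSpace ℝ X] : Prop :=
  ∃ K : ℝ, ∀ n : ℕ, ∃ Y : Submodule ℝ X, IsClosed (Y : Set X) ∧ FiniteDimensional ℝ (X ⧸ Y) ∧
    ∀ E : Submodule ℝ X, E ≤ Y → FiniteDimensional ℝ E → Module.finrank ℝ E = n →
      bmDist E (EuclideanSpace ℝ (Fin n)) ≤ K

/-- A Schauder basis equivalent to each of its permutations. -/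
def HasSymmetricBasis (X : Type) [NormedAddCommGroup X] [NormedSpace ℝ X] : Prop :=
  ∃ b : SchauderBasis ℝ X, ∀ π : Equiv.Perm ℕ, ∃ T : X ≃L[ℝ] X, ∀ n, T (b n) = b (π n)

end Pool.Agent.MP_650c5e_an
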