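import Mathlib

/-! Definitions used in the statements over real or complex scalars. -/

namespace Pool.Agent.MP_650c5e_an.K

/-- The quadratic Rademacher average of a finite family of vectors. -/
noncomputable def radAvg {X : Type} [NormedAddCommGroup X] {n : ℕ} (x : Fin n → X) : ℝ :=
  √((∑ ε : Fin n → Bool, ‖∑ i, if ε i then x i else -x i‖ ^ 2) / 2 ^ n)

/-- Rademacher type `p`. -/
def HasType (X : Type) [NormedAddCommGroup X] (p : ℝ) : Prop :=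
  ∃ C : ℝ, ∀ (n : ℕ) (x : Fin n → X), radAvg x ≤ C * (∑ i, ‖x i‖ ^ p) ^ (1 / p)

/-- Rademacher cotype `q` for finite `q`. -/
def HasCotype (X : Type) [NormedAddCommGroup X] (q : ℝ) : Prop :=
  ∃ C : ℝ, ∀ (n : ℕ) (x : Fin n → X), (∑ i, ‖x i‖ ^ q) ^ (1 / q) ≤ C * radAvg x

/-- Type `p` and cotype `q` for all `1 ≤ p < 2 < q ≤ ∞`. -/
def NearHilbert (X : Type) [NormedAddCommGroup X] : Prop :=
  (∀ p : ℝ, 1 ≤ p → p < 2 → HasType X p) ∧ (∀ q : ℝ, 2 < q → HasCotype X q) ∧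
    ∃ C : ℝ, ∀ (n : ℕ) (x : Fin n → X) (i : Fin n), ‖x i‖ ≤ C * radAvg x

variable (𝕜 : Type) [RCLike 𝕜]

/-- Isomorphic to a Hilbert space. -/
def Hilbertian (X : Type) [NormedAddCommGroup X] [NormedSpace 𝕜 X] : Prop :=
  ∃ (H : Type) (_ : NormedAddCommGroup H) (_ : InnerProductSpace 𝕜 H) (_ : CompleteSpace H),
    Nonempty (X ≃L[𝕜] H)

/-- The Banach-Mazur distance. -/
noncomputable def bmDist (E F : Type) [NormedAddCommGroup E] [NormedSpace 𝕜 E]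
    [NormedAddCommGroup F] [NormedSpace 𝕜 F] : ℝ :=
  sInf {r : ℝ | ∃ T : E ≃L[𝕜] F, r = ‖(T : E →L[𝕜] F)‖ * ‖(T.symm : F →L[𝕜] E)‖}

/-- Asymptotically Hilbertian spaces. -/
def AsympHilbertian (X : Type) [NormedAddCommGroup X] [NormedSpace 𝕜 X] : Prop :=
  ∃ K : ℝ, ∀ n : ℕ, ∃ Y : Submodule 𝕜 X, IsClosed (Y : Set X) ∧ FiniteDimensional 𝕜 (X ⧸ Y) ∧
    ∀ E : Submodule 𝕜 X, E ≤ Y → FiniteDimensional 𝕜 E → Module.finrank 𝕜 E = n →
      bmDist 𝕜 E (EuclideanSpace 𝕜 (Fin n)) ≤ K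

/-- A Schauder basis equivalent to each of its permutations. -/
def HasSymmetricBasis (X : Type) [NormedAddCommGroup X] [NormedSpace 𝕜 X] : Prop :=
  ∃ b : SchauderBasis 𝕜 X, ∀ π : Equiv.Perm ℕ, ∃ T : X ≃L[𝕜] X, ∀ n, T (b n) = b (π n)

/-- Orlicz functions: convex and nonnegative on `[0, ∞)`, zero at zero, tending to infinity. -/
def IsOrlicz (M : ℝ → ℝ) : Prop :=
  ConvexOn ℝ (Set.Ici 0) M ∧ (∀ t, 0 ≤ t → 0 ≤ M t) ∧ M 0 = 0 ∧
    Filter.Tendsto M Filter.atTop Filter.atTop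

/-- The Musielak-Orlicz norm of a finitely supported scalar sequence. -/
noncomputable def moNorm (M : ℕ → ℝ → ℝ) (a : ℕ →₀ 𝕜) : ℝ :=
  sInf {ρ : ℝ | 0 < ρ ∧ ∑' n, M n (‖a n‖ / ρ) ≤ 1}

/-- `X` is a Musielak-Orlicz sequence space: it is the closed linear span of vectors `e n` whose
finite linear combinations have the Musielak-Orlicz norm of their coefficients. -/
def IsMusielakOrlicz (X : Type) [NormedAddCommGroup X] [NormedSpace 𝕜 X] : Prop :=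
  ∃ (M : ℕ → ℝ → ℝ) (e : ℕ → X), (∀ n, IsOrlicz (M n)) ∧
    (Submodule.span 𝕜 (Set.range e)).topologicalClosure = ⊤ ∧
    ∀ a : ℕ →₀ 𝕜, ‖Finsupp.linearCombination 𝕜 e a‖ = moNorm 𝕜 M a

end Pool.Agent.MP_650c5e_an.K
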