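import Pool.Agent.MP_650c5e_an.Sym
import Pool.Agent.MP_650c5e_an.Defs

/-! Khintchine inequalities and type and cotype estimates for finitely supported sequences. -/

namespace Pool.Agent.MP_650c5e_an

open Finset

/-- A sign. -/
def sg (b : Bool) : ℝ := if b then 1 else -1

lemma abs_sg (b : Bool) : |sg b| = 1 := by cases b <;> simp [sg]

lemma sum_signs_succ {n : ℕ} (F : (Fin (n + 1) → Bool) → ℝ) :
    ∑ ε, F ε = ∑ ε : Fin n → Bool, (F (Fin.cons true ε) + F (Fin.cons false ε)) := by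
  rw [← (Fin.consEquiv fun _ => Bool).sum_comp, Fintype.sum_prod_type, Fintype.sum_bool,
    ← sum_add_distrib]
  rfl

lemma parallelogram {H : Type*} [NormedAddCommGroup H] [InnerProductSpace ℝ H] {n : ℕ}
    (x : Fin n → H) :
    ∑ ε : Fin n → Bool, ‖∑ i, sg (ε i) • x i‖ ^ 2 = 2 ^ n * ∑ i, ‖x i‖ ^ 2 := by
  induction n with
  | zero => simp
  | succ n ih =>
    rw [sum_signs_succ]
    simp only [Fin.sum_univ_succ, Fin.cons_zero, Fin.cons_succ]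
    have h : ∀ f : H, ‖sg true • x 0 + f‖ ^ 2 + ‖sg false • x 0 + f‖ ^ 2 =
        2 * ‖x 0‖ ^ 2 + 2 * ‖f‖ ^ 2 := fun f => by
      have := parallelogram_law_with_norm ℝ f (x 0)
      rw [show sg true • x 0 + f = f + x 0 by simp [sg, add_comm],
        show sg false • x 0 + f = f - x 0 by simp [sg, sub_eq_add_neg, add_comm]]
      linarith
    simp_rw [h]
    rw [sum_add_distrib, ← mul_sum, ← mul_sum, ih]
    simp only [sum_const, card_univ, Fintype.card_pi, Fintype.card_bool, prod_const,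
      Fintype.card_fin, nsmul_eq_mul]
    push_cast; ring

lemma khin2 {n : ℕ} (a : Fin n → ℝ) :
    ∑ ε : Fin n → Bool, (∑ i, sg (ε i) * a i) ^ 2 = 2 ^ n * ∑ i, a i ^ 2 := by
  simpa using parallelogram a

lemma khin4 {n : ℕ} (a : Fin n → ℝ) :
    ∑ ε : Fin n → Bool, (∑ i, sg (ε i) * a i) ^ 4 ≤ 2 ^ n * (3 * (∑ i, a i ^ 2) ^ 2) := by
  induction n with
  | zero => simp
  | succ n ih =>
    rw [sum_signs_succ]
    simp only [Fin.sum_univ_succ, Fin.cons_zero, Fin.cons_succ]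
    have h : ∀ f : ℝ, (sg true * a 0 + f) ^ 4 + (sg false * a 0 + f) ^ 4 =
        2 * a 0 ^ 4 + 12 * a 0 ^ 2 * f ^ 2 + 2 * f ^ 4 := fun f => by
      simp only [sg]; norm_num; ring
    simp_rw [h]
    rw [sum_add_distrib, sum_add_distrib, ← mul_sum, ← mul_sum, ← mul_sum, khin2]
    simp only [sum_const, card_univ, Fintype.card_pi, Fintype.card_bool, prod_const,
      Fintype.card_fin, nsmul_eq_mul]
    have h1 := ih fun i => a i.succ
    have h2 : (0 : ℝ) ≤ 2 ^ n * a 0 ^ 4 := by positivity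
    push_cast
    rw [pow_succ (2 : ℝ) n]
    nlinarith

lemma khin1 {n : ℕ} (a : Fin n → ℝ) :
    2 ^ n * √(∑ i, a i ^ 2) ≤ 4 * ∑ ε : Fin n → Bool, |∑ i, sg (ε i) * a i| := by
  set σ := √(∑ i, a i ^ 2) with hσ
  have hσ0 : 0 ≤ σ := Real.sqrt_nonneg _
  have hσ2 : σ ^ 2 = ∑ i, a i ^ 2 := Real.sq_sqrt (sum_nonneg fun _ _ => sq_nonneg _)
  rcases hσ0.eq_or_lt with h | h
  · rw [← h, mul_zero]; positivity
  have h1 : ∀ f : ℝ, 6 * σ ^ 2 * f ^ 2 - f ^ 4 ≤ 12 * σ ^ 3 * |f| := fun f => by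
    have hs := abs_nonneg f
    rw [← sq_abs f, show f ^ 4 = |f| ^ 4 by rw [show 4 = 2 * 2 from rfl, pow_mul, pow_mul, sq_abs]]
    have q1 := mul_nonneg (mul_nonneg hs (add_nonneg hs (mul_nonneg (by norm_num : (0 : ℝ) ≤ 3) hσ0)))
      (sq_nonneg (|f| - 3 / 2 * σ))
    have q2 : 0 ≤ σ ^ 2 * |f| ^ 2 := by positivity
    have q3 : 0 ≤ σ ^ 3 * |f| := by positivity
    nlinarith
  have h2 := sum_le_sum fun (ε : Fin n → Bool) (_ : ε ∈ univ) => h1 (∑ i, sg (ε i) * a i)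
  rw [sum_sub_distrib, ← mul_sum, ← mul_sum, khin2, ← hσ2] at h2
  have h3 := khin4 a
  rw [← hσ2] at h3
  refine le_of_mul_le_mul_left ?_ (show 0 < 3 * σ ^ 3 by positivity)
  nlinarith

/-- The square function. -/
noncomputable def sqf {n : ℕ} (x : Fin n → ℕ →₀ ℝ) : ℕ →₀ ℝ :=
  Finsupp.onFinset (univ.biUnion fun j => (x j).support) (fun i => √(∑ j, x j i ^ 2)) fun i hi => by
    by_contra h
    apply hi
    have : ∀ j, x j i = 0 := fun j => Finsupp.notMem_support_iff.1 fun h' =>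
      h (mem_biUnion.2 ⟨j, mem_univ _, h'⟩)
    simp [this]

lemma abs_sqf {n : ℕ} (x : Fin n → ℕ →₀ ℝ) (i : ℕ) : |sqf x i| = √(∑ j, x j i ^ 2) :=
  abs_of_nonneg (Real.sqrt_nonneg _)

lemma abs_sqf_rpow {n : ℕ} (x : Fin n → ℕ →₀ ℝ) (i : ℕ) (p : ℝ) :
    |sqf x i| ^ p = (∑ j, x j i ^ 2) ^ (p / 2) := by
  rw [abs_sqf, Real.sqrt_eq_rpow, ← Real.rpow_mul (sum_nonneg fun _ _ => sq_nonneg _)]
  congr 1; ring

lemma sq_rpow_half (a p : ℝ) : (a ^ 2) ^ (p / 2) = |a| ^ p := by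
  rw [← sq_abs, ← Real.rpow_natCast, ← Real.rpow_mul (abs_nonneg a)]
  congr 1; push_cast; ring

lemma rad_apply {n : ℕ} (x : Fin n → ℕ →₀ ℝ) (ε : Fin n → Bool) (i : ℕ) :
    (∑ j, sg (ε j) • x j) i = ∑ j, sg (ε j) * x j i := by
  rw [Finsupp.finsetSum_apply]; rfl

lemma type_c00 {p : ℝ} (hp1 : 1 ≤ p) (hp2 : p < 2) : ∃ C : ℝ, ∀ (n : ℕ) (x : Fin n → ℕ →₀ ℝ),
    √((∑ ε : Fin n → Bool, XN (∑ i, sg (ε i) • x i) ^ 2) / 2 ^ n) ≤
      C * (∑ i, XN (x i) ^ p) ^ (1 / p) := by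
  have hp : 0 < p := by linarith
  obtain ⟨C4, hC4, H4⟩ := XN_qconcave (q := 4) (by norm_num)
  obtain ⟨Cp, hCp, Hp⟩ := XN_pconvex hp1 hp2
  refine ⟨(3 * C4 + 1) * Cp ^ (1 / p), fun n x => ?_⟩
  have hS : 0 ≤ ∑ i, XN (x i) ^ p := sum_nonneg fun _ _ => Real.rpow_nonneg (XN_nonneg _) _
  have h1 : XN (sqf x) ≤ Cp ^ (1 / p) * (∑ i, XN (x i) ^ p) ^ (1 / p) := by
    rw [← Real.mul_rpow hCp.le hS, one_div,
      Real.le_rpow_inv_iff_of_pos (XN_nonneg _) (mul_nonneg hCp.le hS) hp]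
    refine Hp univ x _ fun i => ?_
    rw [abs_sqf_rpow]
    simp_rw [← sq_rpow_half]
    exact rpow_sum_le_sum_rpow _ (fun _ _ => sq_nonneg _) (by positivity) (by linarith)
  set c : ℝ := (3 * 2 ^ n : ℝ) ^ (4 : ℝ)⁻¹ with hc
  have hc0 : 0 ≤ c := by positivity
  have hc4 : c ^ 4 = 3 * 2 ^ n := by
    rw [hc, ← Real.rpow_natCast]
    exact Real.rpow_inv_rpow (by positivity) (by norm_num)
  have h2 := H4 univ (fun ε : Fin n → Bool => ∑ i, sg (ε i) • x i) (c • sqf x) fun i => by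
    have e : ∀ a : ℝ, |a| ^ (4 : ℝ) = a ^ 4 := fun a => by
      rw [show (4 : ℝ) = (4 : ℕ) by norm_num, Real.rpow_natCast, show 4 = 2 * 2 from rfl, pow_mul,
        pow_mul, sq_abs]
    simp_rw [e, rad_apply]
    refine (khin4 _).trans (le_of_eq ?_)
    rw [Finsupp.smul_apply, smul_eq_mul, mul_pow, hc4, show 4 = 2 * 2 from rfl, pow_mul,
      ← sq_abs (sqf x i), abs_sqf, Real.sq_sqrt (sum_nonneg fun _ _ => sq_nonneg _)]
    ring
  have h3 : XN (c • sqf x) ≤ c * XN (sqf x) :=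
    XN_le_mul hc0 fun i => by rw [Finsupp.smul_apply, smul_eq_mul, abs_mul, abs_of_nonneg hc0]
  simp_rw [show (4 : ℝ) = (4 : ℕ) by norm_num, Real.rpow_natCast] at h2
  have h4 : XN (c • sqf x) ^ 4 ≤ 3 * 2 ^ n * XN (sqf x) ^ 4 := by
    rw [← hc4, ← mul_pow]; exact pow_le_pow_left₀ (XN_nonneg _) h3 4
  have h5 : (∑ ε : Fin n → Bool, XN (∑ i, sg (ε i) • x i) ^ 2) ^ 2 ≤
      2 ^ n * ∑ ε : Fin n → Bool, XN (∑ i, sg (ε i) • x i) ^ 4 := by
    have := sq_sum_le_card_mul_sum_sq (s := (univ : Finset (Fin n → Bool)))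
      (f := fun ε => XN (∑ i, sg (ε i) • x i) ^ 2)
    simpa [← pow_mul] using this
  have h6 : (∑ ε : Fin n → Bool, XN (∑ i, sg (ε i) • x i) ^ 2) / 2 ^ n ≤
      ((3 * C4 + 1) * XN (sqf x)) ^ 2 := by
    rw [div_le_iff₀ (by positivity)]
    refine (abs_le_of_sq_le_sq' ?_ (by positivity)).2
    refine h5.trans ?_
    have h7 : 3 * C4 ≤ (3 * C4 + 1) ^ 4 := by
      have : 3 * C4 + 1 ≤ (3 * C4 + 1) ^ 4 := le_self_pow₀ (by linarith) (by norm_num)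
      linarith
    calc _ ≤ 2 ^ n * (C4 * (3 * 2 ^ n * XN (sqf x) ^ 4)) := by
          refine mul_le_mul_of_nonneg_left (h2.trans ?_) (by positivity)
          exact mul_le_mul_of_nonneg_left h4 hC4.le
      _ = 3 * C4 * (XN (sqf x) ^ 4 * (2 ^ n) ^ 2) := by ring
      _ ≤ (3 * C4 + 1) ^ 4 * (XN (sqf x) ^ 4 * (2 ^ n) ^ 2) := by gcongr
      _ = _ := by ring
  rw [mul_assoc]
  refine (Real.sqrt_le_sqrt h6).trans ?_
  rw [Real.sqrt_sq (mul_nonneg (by positivity) (XN_nonneg _))]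
  exact mul_le_mul_of_nonneg_left h1 (by positivity)

lemma cotype_c00 {q : ℝ} (hq2 : 2 < q) : ∃ C : ℝ, ∀ (n : ℕ) (x : Fin n → ℕ →₀ ℝ),
    (∑ i, XN (x i) ^ q) ^ (1 / q) ≤
      C * √((∑ ε : Fin n → Bool, XN (∑ i, sg (ε i) • x i) ^ 2) / 2 ^ n) := by
  have hq : 0 < q := by linarith
  obtain ⟨Cq, hCq, Hq⟩ := XN_qconcave hq2
  refine ⟨Cq ^ (1 / q) * 4, fun n x => ?_⟩
  have hS : 0 ≤ ∑ i, XN (x i) ^ q := sum_nonneg fun _ _ => Real.rpow_nonneg (XN_nonneg _) _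
  have h1 : (∑ i, XN (x i) ^ q) ^ (1 / q) ≤ Cq ^ (1 / q) * XN (sqf x) := by
    have h2 := Hq univ x (sqf x) fun i => by
      rw [abs_sqf_rpow]
      simp_rw [← sq_rpow_half]
      exact sum_rpow_le_rpow_sum _ (fun _ _ => sq_nonneg _) (by linarith)
    refine (Real.rpow_le_rpow hS h2 (by positivity)).trans (le_of_eq ?_)
    rw [Real.mul_rpow hCq.le (Real.rpow_nonneg (XN_nonneg _) _), one_div,
      Real.rpow_rpow_inv (XN_nonneg _) hq.ne']
  have h3 : XN (sqf x) ≤ ∑ ε : Fin n → Bool, 4 / 2 ^ n * XN (∑ i, sg (ε i) • x i) :=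
    XN_comb univ (fun _ => 4 / 2 ^ n) (fun _ _ => by positivity) _ fun i => by
      simp_rw [rad_apply]
      rw [abs_sqf, ← mul_sum, div_mul_eq_mul_div, le_div_iff₀ (by positivity), mul_comm]
      exact khin1 _
  have h4 : (∑ ε : Fin n → Bool, XN (∑ i, sg (ε i) • x i)) / 2 ^ n ≤
      √((∑ ε : Fin n → Bool, XN (∑ i, sg (ε i) • x i) ^ 2) / 2 ^ n) := by
    refine Real.le_sqrt_of_sq_le ?_
    have := sq_sum_le_card_mul_sum_sq (s := (univ : Finset (Fin n → Bool)))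
      (f := fun ε => XN (∑ i, sg (ε i) • x i))
    simp only [card_univ, Fintype.card_pi, Fintype.card_bool, prod_const, Fintype.card_fin,
      Nat.cast_pow, Nat.cast_ofNat] at this
    rw [div_pow, div_le_div_iff₀ (by positivity) (by positivity)]
    have h5 : (0 : ℝ) < 2 ^ n := by positivity
    nlinarith
  rw [← mul_sum] at h3
  refine h1.trans ?_
  rw [mul_assoc]
  refine mul_le_mul_of_nonneg_left (h3.trans ?_) (by positivity)
  rw [div_mul_eq_mul_div, mul_div_assoc]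
  linarith

end Pool.Agent.MP_650c5e_an
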