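import Pool.Agent.MP_650c5e_an.Main
import Pool.Agent.MP_650c5e_an.MOMain

/-! The symmetric counterexample over real or complex scalars. -/

namespace Pool.Agent.MP_650c5e_an.K

open Finset UniformSpace

set_option maxHeartbeats 400000

lemma XN_le_of_KF {x u : ℕ →₀ ℝ} {c : ℝ} (hc : 0 ≤ c) (h : ∀ t, KF t u ≤ c * KF t x) :
    XN u ≤ c * XN x := XN_le fun K => by
  refine (NK_mono (x := fun l => c * prof x l) fun l _ => ?_).trans ?_
  · rw [abs_prof, abs_of_nonneg (mul_nonneg hc (prof_nonneg _ _)), prof, prof, mul_left_comm]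
    exact mul_le_mul_of_nonneg_left (h _) (tw_pos _).le
  · rw [NK_smul, abs_of_nonneg hc]
    exact mul_le_mul_of_nonneg_left (le_XN x K) hc

lemma XN_inj {x u : ℕ →₀ ℝ} (f : ℕ ↪ ℕ) (h : ∀ i, |u i| ≤ |x (f i)|) : XN u ≤ XN x := by
  simpa using XN_le_of_KF (x := x) (u := u) zero_le_one fun t => KF_le fun A hA => by
    have := le_KF x (A := A.map f) (t := t) (by simpa using hA)
    rw [sum_map] at this
    rw [one_mul]
    exact (sum_le_sum fun i _ => h i).trans this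

lemma XN_half {x u : ℕ →₀ ℝ} (h : ∀ i, |u i| ≤ |x (i / 2)|) : XN u ≤ 2 * XN x :=
  XN_le_of_KF zero_le_two fun t => KF_le fun A hA => by
    have h1 := le_KF x (A := A.image (· / 2)) (t := t) (card_image_le.trans hA)
    refine (sum_le_sum fun i _ => h i).trans ?_
    rw [sum_comp (fun k => |x k|) (· / 2)]
    refine le_trans (sum_le_sum fun k _ => ?_) ((mul_sum _ _ _).symm.trans_le
      (mul_le_mul_of_nonneg_left h1 zero_le_two))
    rw [nsmul_eq_mul]
    refine mul_le_mul_of_nonneg_right ?_ (abs_nonneg _)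
    have h2 : ({a ∈ A | a / 2 = k} : Finset ℕ) ⊆ {2 * k, 2 * k + 1} := fun a ha => by
      have := (mem_filter.1 ha).2
      simp only [mem_insert, mem_singleton]; omega
    exact_mod_cast (card_le_card h2).trans card_le_two

variable {𝕜 : Type} [RCLike 𝕜]

/-- The sequence of absolute values. -/
noncomputable def ab (x : ℕ →₀ 𝕜) : ℕ →₀ ℝ := x.mapRange norm norm_zero

lemma abs_ab (x : ℕ →₀ 𝕜) (i : ℕ) : |ab x i| = ‖x i‖ := by simp [ab]

/-- Finitely supported sequences with the symmetric norm. -/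
def CK (𝕜 : Type) [RCLike 𝕜] : Type := ℕ →₀ 𝕜

noncomputable instance : AddCommGroup (CK 𝕜) := inferInstanceAs (AddCommGroup (ℕ →₀ 𝕜))

noncomputable instance : Module 𝕜 (CK 𝕜) := inferInstanceAs (Module 𝕜 (ℕ →₀ 𝕜))

/-- The identification. -/
noncomputable def toK : (ℕ →₀ 𝕜) ≃ₗ[𝕜] CK 𝕜 := LinearEquiv.refl 𝕜 (ℕ →₀ 𝕜)

/-- The symmetric norm. -/
noncomputable def ckNorm : AddGroupNorm (CK 𝕜) where
  toFun x := XN (ab (toK.symm x))
  map_zero' := le_antisymm (by simpa [l1, ab] using XN_le_l1 0) (XN_nonneg _)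
  add_le' x y := by
    rw [map_add]
    refine le_trans (XN_mono fun i => ?_) (XN_add_le _ _)
    rw [abs_ab]
    refine le_trans ?_ (le_abs_self _)
    simpa [ab] using norm_add_le _ _
  neg' x := by
    rw [map_neg]
    exact le_antisymm (XN_mono fun i => by simp [abs_ab]) (XN_mono fun i => by simp [abs_ab])
  eq_zero_of_map_eq_zero' x h := by
    have : toK.symm x = 0 := Finsupp.ext fun i => norm_le_zero_iff.1
      ((abs_ab _ i).symm.trans_le ((abs_le_XN (ab (toK.symm x)) i).trans (le_of_eq h)))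
    simpa using this

noncomputable instance : NormedAddCommGroup (CK 𝕜) := ckNorm.toNormedAddCommGroup

lemma CK_norm (x : CK 𝕜) : ‖x‖ = XN (ab (toK.symm x)) := rfl

noncomputable instance : NormedSpace 𝕜 (CK 𝕜) where
  norm_smul_le c x := by
    rw [CK_norm, CK_norm, map_smul]
    exact XN_le_mul (norm_nonneg c) fun i => by simp [abs_ab]

/-- The Banach space. -/
abbrev XK (𝕜 : Type) [RCLike 𝕜] : Type := Completion (CK 𝕜)

/-- The embedding of the finitely supported sequences. -/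
noncomputable def embK : (ℕ →₀ 𝕜) →ₗ[𝕜] XK 𝕜 :=
  (Completion.toComplL : CK 𝕜 →L[𝕜] XK 𝕜).toLinearMap ∘ₗ toK.toLinearMap

lemma embK_apply (x : ℕ →₀ 𝕜) : embK x = (toK x : CK 𝕜) := rfl

lemma norm_embK (x : ℕ →₀ 𝕜) : ‖embK x‖ = XN (ab x) := by
  rw [embK_apply, Completion.norm_coe, CK_norm, LinearEquiv.symm_apply_apply]

lemma dense_embK : DenseRange (embK (𝕜 := 𝕜)) :=
  Completion.denseRange_coe.comp toK.surjective.denseRange (Completion.continuous_coe _)

/-- Coordinate functionals. -/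
noncomputable def crdK (i : ℕ) : XK 𝕜 →L[𝕜] 𝕜 :=
  ((Finsupp.lapply i ∘ₗ toK.symm.toLinearMap).mkContinuous 1 fun x => by
    rw [one_mul]; exact (abs_ab _ i).symm.trans_le (abs_le_XN _ i)).fromCompletion

lemma crdK_emb (i : ℕ) (x : ℕ →₀ 𝕜) : crdK i (embK x) = x i := by
  rw [embK_apply, crdK, ContinuousLinearMap.fromCompletion_apply_coe]; rfl

/-- Truncation. -/
noncomputable def truncK (n : ℕ) (f : ℕ → 𝕜) : ℕ →₀ 𝕜 := ∑ i ∈ range n, Finsupp.single i (f i)

lemma truncK_apply (n : ℕ) (f : ℕ → 𝕜) (j : ℕ) : truncK n f j = if j < n then f j else 0 := by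
  rw [truncK, Finsupp.finsetSum_apply]
  simp [Finsupp.single_apply]

lemma emb_truncK (n : ℕ) (f : ℕ → 𝕜) :
    embK (truncK n f) = ∑ i ∈ range n, f i • embK (Finsupp.single i 1) := by
  rw [truncK, map_sum]
  exact sum_congr rfl fun i _ => by rw [← map_smul]; simp

lemma tendsto_truncK (x : XK 𝕜) :
    Filter.Tendsto (fun n => embK (truncK n fun i => crdK i x)) Filter.atTop (nhds x) := by
  have hcont : ∀ n, Continuous fun x : XK 𝕜 => embK (truncK n fun i => crdK i x) := fun n => by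
    simp_rw [emb_truncK]; fun_prop
  have hle : ∀ n (x : XK 𝕜), ‖embK (truncK n fun i => crdK i x)‖ ≤ ‖x‖ := fun n x => by
    refine dense_embK.induction_on x (isClosed_le (hcont n).norm continuous_norm) fun y => ?_
    rw [norm_embK, norm_embK]
    refine XN_mono fun i => ?_
    rw [abs_ab, abs_ab, truncK_apply, crdK_emb]
    split_ifs <;> simp
  rw [Metric.tendsto_atTop]
  intro ε hε
  obtain ⟨y, hy⟩ := dense_embK.exists_dist_lt x (half_pos hε)
  obtain ⟨N, hN⟩ := y.support.exists_nat_subset_range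
  refine ⟨N, fun n hn => ?_⟩
  have h1 : truncK n (fun i => crdK i x) = y + truncK n (fun i => crdK i (x - embK y)) := by
    ext j
    rw [Finsupp.add_apply, truncK_apply, truncK_apply, map_sub, crdK_emb]
    split_ifs with h
    · ring
    · rw [Finsupp.notMem_support_iff.1 fun h' => h (lt_of_lt_of_le (mem_range.1 (hN h')) hn)]
      simp
  have h2 := hle n (x - embK y)
  rw [dist_eq_norm] at hy ⊢
  rw [h1, map_add, add_sub_right_comm]
  refine (norm_add_le _ _).trans_lt ?_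
  rw [norm_sub_rev]
  linarith

/-- The unit vector basis. -/
noncomputable def basK : SchauderBasis 𝕜 (XK 𝕜) where
  basis i := embK (Finsupp.single i 1)
  coord := crdK
  ortho i j := by rw [crdK_emb]; simp [Finsupp.single_apply, Pi.single_apply, eq_comm]
  expansion x := by
    rw [HasSum, SummationFilter.conditional_filter_eq_map_range, Filter.tendsto_map'_iff]
    refine (tendsto_truncK x).congr fun n => ?_
    rw [emb_truncK]; rfl

lemma basK_apply (n : ℕ) : (basK n : XK 𝕜) = embK (Finsupp.single n 1) := rfl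

lemma norm_perm (π : Equiv.Perm ℕ) (x : ℕ →₀ 𝕜) :
    ‖embK ((Finsupp.domLCongr π : (ℕ →₀ 𝕜) ≃ₗ[𝕜] (ℕ →₀ 𝕜)) x)‖ = ‖embK x‖ := by
  rw [norm_embK, norm_embK]
  exact XN_perm π fun i => by simp [Finsupp.domLCongr_apply, ab]

lemma exists_ext {V W : Type} [AddCommGroup V] [Module 𝕜 V] [NormedAddCommGroup W]
    [NormedSpace 𝕜 W] [CompleteSpace W] (f : V ≃ₗ[𝕜] V) (e : V →ₗ[𝕜] W) (he : DenseRange e)
    (h : ∀ x, ‖e (f x)‖ = ‖e x‖) : ∃ T : W ≃L[𝕜] W, ∀ x, T (e x) = e (f x) :=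
  ⟨(f.extendOfIsometry e e he he h).toContinuousLinearEquiv,
    LinearEquiv.extendOfIsometry_eq f e e he he h⟩

lemma symmetric_XK : HasSymmetricBasis 𝕜 (XK 𝕜) := by
  refine ⟨basK, fun π => ?_⟩
  obtain ⟨T, hT⟩ := exists_ext (W := XK 𝕜)
    (Finsupp.domLCongr π : (ℕ →₀ 𝕜) ≃ₗ[𝕜] (ℕ →₀ 𝕜)) embK dense_embK fun x => norm_perm π x
  refine ⟨T, fun n => ?_⟩
  rw [basK_apply, basK_apply, hT, Finsupp.domLCongr_single]

lemma not_finite_XK : ¬ FiniteDimensional 𝕜 (XK 𝕜) := fun _ =>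
  Module.Finite.not_linearIndependent_of_infinite _ (basK (𝕜 := 𝕜)).linearIndependent

/-- Interleaving real and imaginary parts. -/
noncomputable def il : (ℕ →₀ 𝕜) →+ (ℕ →₀ ℝ) where
  toFun x := Finsupp.onFinset (x.support.biUnion fun k => {2 * k, 2 * k + 1})
    (fun i => if i % 2 = 0 then RCLike.re (x (i / 2)) else RCLike.im (x (i / 2))) fun i hi => by
      refine mem_biUnion.2 ⟨i / 2, Finsupp.mem_support_iff.2 fun h => hi (by simp [h]), ?_⟩
      simp only [mem_insert, mem_singleton]; omega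
  map_zero' := by ext i; simp
  map_add' x y := by ext i; simp only [Finsupp.onFinset_apply, Finsupp.add_apply]; split_ifs <;> simp

lemma il_apply (x : ℕ →₀ 𝕜) (i : ℕ) :
    il x i = if i % 2 = 0 then RCLike.re (x (i / 2)) else RCLike.im (x (i / 2)) := rfl

lemma XN_il_le (x : ℕ →₀ 𝕜) : XN (il x) ≤ 2 * XN (ab x) := XN_half fun i => by
  rw [abs_ab, il_apply]
  split_ifs
  exacts [RCLike.abs_re_le_norm _, RCLike.abs_im_le_norm _]

lemma le_XN_il (x : ℕ →₀ 𝕜) : XN (ab x) ≤ 2 * XN (il x) := by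
  set r : ℕ →₀ ℝ := x.mapRange (fun z => |RCLike.re z|) (by simp)
  set s : ℕ →₀ ℝ := x.mapRange (fun z => |RCLike.im z|) (by simp)
  have h1 : XN (ab x) ≤ XN (r + s) := XN_mono fun i => by
    rw [abs_ab]
    refine le_trans ?_ (le_abs_self _)
    have := norm_add_le ((RCLike.re (x i) : ℝ) : 𝕜) ((RCLike.im (x i) : ℝ) * RCLike.I)
    rw [RCLike.re_add_im, norm_mul, RCLike.norm_ofReal, RCLike.norm_ofReal] at this
    refine this.trans (add_le_add le_rfl ?_)
    refine mul_le_of_le_one_right (abs_nonneg _) ?_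
    rcases eq_or_ne (RCLike.I : 𝕜) 0 with h | h
    · simp [h]
    · exact (RCLike.norm_I_of_ne_zero h).le
  have h2 : XN r ≤ XN (il x) := XN_inj ⟨fun k => 2 * k, fun a b h => by simpa using h⟩
    fun i => by simp [r, il_apply]
  have h3 : XN s ≤ XN (il x) := XN_inj ⟨fun k => 2 * k + 1, fun a b h => by simpa using h⟩
    fun i => by simp [s, il_apply, show (2 * i + 1) / 2 = i by omega]
  linarith [XN_add_le r s]

lemma exists_J : ∃ J : XK 𝕜 →+ XX, (∀ (r : ℝ) x, J ((r : 𝕜) • x) = r • J x) ∧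
    (∀ x, ‖x‖ ≤ 2 * ‖J x‖) ∧ ∀ x, ‖J x‖ ≤ 2 * ‖x‖ := by
  set J₀ : CK 𝕜 →+ XX := emb.toAddMonoidHom.comp (il.comp toK.symm.toLinearMap.toAddMonoidHom)
  have hc : Continuous J₀ := AddMonoidHomClass.continuous_of_bound J₀ 2 fun x =>
    (norm_emb _).trans_le (XN_il_le _)
  have hJ := J₀.continuous_extension hc
  have he : ∀ x, J₀.extension hc (embK x) = emb (il x) := fun x => J₀.extension_coe hc _
  refine ⟨J₀.extension hc, fun r x => ?_, fun x => ?_, fun x => ?_⟩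
  · refine dense_embK.induction_on x (isClosed_eq (hJ.comp (continuous_const_smul (r : 𝕜)))
      (hJ.const_smul r)) fun y => ?_
    rw [← map_smul, he, he, ← map_smul]
    congr 1
    ext i
    simp only [il_apply, Finsupp.smul_apply, smul_eq_mul]
    split_ifs <;> simp
  · refine dense_embK.induction_on x (isClosed_le continuous_norm
      (continuous_const.mul hJ.norm)) fun y => ?_
    rw [he, norm_emb, norm_embK]; exact le_XN_il y
  · refine dense_embK.induction_on x (isClosed_le hJ.norm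
      (continuous_const.mul continuous_norm)) fun y => ?_
    rw [he, norm_emb, norm_embK]; exact XN_il_le y

lemma not_asym_add {V : Type} [AddCommGroup V] [Module ℝ V] (hV : ¬ FiniteDimensional ℝ V)
    (J : V →ₗ[ℝ] XX) (hJ : Function.Injective J) (Y : ℕ → Submodule ℝ V) (hY : ∀ n, (Y n).CoFG)
    {K : ℝ} (hK : 0 < K)
    (par : ∀ n, ∀ m ≤ n, ∀ x : Fin m → V, (∀ i, x i ∈ Y n) →
      2 ^ m * ∑ i, ‖J (x i)‖ ^ 2 ≤ K * ∑ ε : Fin m → Bool, ‖J (∑ i, sg (ε i) • x i)‖ ^ 2 ∧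
      ∑ ε : Fin m → Bool, ‖J (∑ i, sg (ε i) • x i)‖ ^ 2 ≤ K * (2 ^ m * ∑ i, ‖J (x i)‖ ^ 2)) :
    False := by
  letI := NormedAddCommGroup.induced V XX J hJ
  letI := NormedSpace.induced ℝ V XX J
  exact not_asymptotic hV ⟨J, fun _ => rfl⟩ Y hY hK par

variable {W : Type} [NormedAddCommGroup W] [NormedSpace 𝕜 W]

lemma not_asym (hW : ¬ FiniteDimensional 𝕜 W) (ι : W →ₗᵢ[𝕜] XK 𝕜)
    (Y : ℕ → Submodule 𝕜 W) (hY : ∀ n, (Y n).CoFG) {K : ℝ} (hK : 0 < K)
    (par : ∀ n, ∀ m ≤ n, ∀ x : Fin m → W, (∀ i, x i ∈ Y n) →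
      2 ^ m * ∑ i, ‖x i‖ ^ 2 ≤
        K * ∑ ε : Fin m → Bool, ‖∑ i, if ε i then x i else -x i‖ ^ 2 ∧
      ∑ ε : Fin m → Bool, ‖∑ i, if ε i then x i else -x i‖ ^ 2 ≤
        K * (2 ^ m * ∑ i, ‖x i‖ ^ 2)) : False := by
  obtain ⟨J, hJ1, hJ2, hJ3⟩ := exists_J (𝕜 := 𝕜)
  letI : Module ℝ W := Module.compHom W (algebraMap ℝ 𝕜)
  have hsm : ∀ (r : ℝ) (w : W), r • w = (r : 𝕜) • w := fun _ _ => rfl
  haveI : IsScalarTower ℝ 𝕜 W := ⟨fun r c w => by rw [hsm, smul_smul, RCLike.real_smul_eq_coe_mul]⟩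
  set J' : W →ₗ[ℝ] XX :=
    { toFun := fun w => J (ι w)
      map_add' := fun a b => by rw [map_add, map_add]
      map_smul' := fun r w => by rw [hsm, map_smul, hJ1]; rfl }
  have h2 : ∀ w, ‖w‖ ^ 2 ≤ 4 * ‖J' w‖ ^ 2 := fun w => by
    have := hJ2 (ι w)
    rw [ι.norm_map] at this
    have h : J' w = J (ι w) := rfl
    rw [h]
    nlinarith [norm_nonneg w]
  have h3 : ∀ w, ‖J' w‖ ^ 2 ≤ 4 * ‖w‖ ^ 2 := fun w => by
    have := hJ3 (ι w)
    rw [ι.norm_map] at this
    have h : J' w = J (ι w) := rfl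
    rw [h]
    nlinarith [norm_nonneg (J (ι w))]
  refine not_asym_add (fun h => hW (Module.Finite.of_restrictScalars_finite ℝ 𝕜 W)) J' ?_
    (fun n => (Y n).restrictScalars ℝ) (fun n => ?_) (K := 16 * K) (by positivity)
    fun n m hm x hx => ?_
  · rw [injective_iff_map_eq_zero]
    intro w hw
    have := h2 w
    rw [hw] at this
    simpa using this
  · have := hY n
    have : Module.Finite ℝ (W ⧸ Y n) := Module.Finite.trans 𝕜 _
    exact Module.Finite.equiv (Submodule.Quotient.restrictScalarsEquiv ℝ (Y n)).symm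
  · obtain ⟨p1, p2⟩ := par n m hm x hx
    have e : ∀ ε : Fin m → Bool, ∑ i, sg (ε i) • x i = ∑ i, if ε i then x i else -x i :=
      fun ε => sum_congr rfl fun i _ => by cases ε i <;> simp [sg]
    simp only [e]
    have q1 := sum_le_sum fun i (_ : i ∈ univ) => h2 (x i)
    have q2 := sum_le_sum fun i (_ : i ∈ univ) => h3 (x i)
    have q3 := sum_le_sum fun (ε : Fin m → Bool) (_ : ε ∈ univ) =>
      h2 (∑ i, if ε i then x i else -x i)
    have q4 := sum_le_sum fun (ε : Fin m → Bool) (_ : ε ∈ univ) =>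
      h3 (∑ i, if ε i then x i else -x i)
    rw [← mul_sum] at q1 q2 q3 q4
    have h2m : (0 : ℝ) < 2 ^ m := by positivity
    constructor
    · nlinarith [mul_le_mul_of_nonneg_left q2 h2m.le, mul_le_mul_of_nonneg_left q3 hK.le]
    · nlinarith [mul_le_mul_of_nonneg_left q1 (mul_pos hK h2m).le]

lemma exists_extendK (hW : ¬ FiniteDimensional 𝕜 W) {Y : Submodule 𝕜 W} (hY : Y.CoFG)
    (S : Submodule 𝕜 W) [FiniteDimensional 𝕜 S] (hS : S ≤ Y) {n : ℕ}
    (hn : Module.finrank 𝕜 S ≤ n) :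
    ∃ E : Submodule 𝕜 W, S ≤ E ∧ E ≤ Y ∧ FiniteDimensional 𝕜 E ∧ Module.finrank 𝕜 E = n := by
  induction n, hn using Nat.le_induction with
  | base => exact ⟨S, le_rfl, hS, inferInstance, rfl⟩
  | succ n _ ih =>
    obtain ⟨E, h1, h2, h3, h4⟩ := ih
    obtain ⟨v, hv, hvE⟩ : ∃ v ∈ Y, v ∉ E := by
      by_contra h
      push Not at h
      have : FiniteDimensional 𝕜 Y := Submodule.finiteDimensional_of_le (S₂ := E) h
      exact hW (Module.Finite.of_submodule_quotient Y)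
    have hv0 : v ≠ 0 := fun h => hvE (h ▸ E.zero_mem)
    refine ⟨E ⊔ Submodule.span 𝕜 {v}, h1.trans le_sup_left,
      sup_le h2 ((Submodule.span_singleton_le_iff_mem _ _).2 hv), inferInstance, ?_⟩
    have h5 := Submodule.finrank_sup_add_finrank_inf_eq E (Submodule.span 𝕜 {v})
    rw [((Submodule.disjoint_span_singleton' hv0).2 hvE).eq_bot, finrank_bot,
      finrank_span_singleton hv0] at h5
    omega

lemma not_hilbertian_XK : ¬ Hilbertian 𝕜 (XK 𝕜) := by
  rintro ⟨H, _, _, _, ⟨T⟩⟩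
  exact not_asym not_finite_XK LinearIsometry.id (fun _ => ⊤) (fun _ => Submodule.CoFG.top)
    (K := (‖(T : XK 𝕜 →L[𝕜] H)‖ * ‖(T.symm : H →L[𝕜] XK 𝕜)‖ + 1) ^ 2) (by positivity)
    fun _ _ _ x _ => par_of_equiv T (by linarith) x

lemma finite_of_asympK (ι : W →ₗᵢ[𝕜] XK 𝕜) (h : AsympHilbertian 𝕜 W) :
    FiniteDimensional 𝕜 W := by
  by_contra hW
  obtain ⟨K, hK⟩ := h
  choose Yn _ hY hE using hK
  refine not_asym hW ι Yn hY (K := (|K| + 1) ^ 2) (by positivity) fun n m hm x hx => ?_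
  have := FiniteDimensional.span_of_finite 𝕜 (Set.finite_range x)
  obtain ⟨E, h1, h2, h3, h4⟩ := exists_extendK hW (hY n) (Submodule.span 𝕜 (Set.range x))
    (Submodule.span_le.2 (by rintro _ ⟨i, rfl⟩; exact hx i))
    ((finrank_range_le_card x).trans (by simpa using hm))
  have h5 := hE n E h2 h3 h4
  obtain ⟨_, ⟨T, rfl⟩, hT⟩ := exists_lt_of_csInf_lt
    (s := {r : ℝ | ∃ T : E ≃L[𝕜] EuclideanSpace 𝕜 (Fin n),
      r = ‖(T : E →L[𝕜] EuclideanSpace 𝕜 (Fin n))‖ *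
        ‖(T.symm : EuclideanSpace 𝕜 (Fin n) →L[𝕜] E)‖})
    ⟨_, ContinuousLinearEquiv.ofFinrankEq (by simp [h4]), rfl⟩
    (lt_of_le_of_lt h5 (show K < |K| + 1 by linarith [le_abs_self K]))
  have := par_of_equiv T hT.le
    (fun i => (⟨x i, h1 (Submodule.subset_span ⟨i, rfl⟩)⟩ : E))
  simpa only [← Submodule.norm_coe, Submodule.coe_sum, apply_ite Subtype.val,
    Submodule.coe_neg] using this

lemma lp_le {n : ℕ} {a b : Fin n → ℝ} (ha : ∀ i, 0 ≤ a i) (hb : ∀ i, 0 ≤ b i)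
    (h : ∀ i, a i ≤ 2 * b i) {p : ℝ} (hp : 0 < p) :
    (∑ i, a i ^ p) ^ (1 / p) ≤ 2 * (∑ i, b i ^ p) ^ (1 / p) := by
  have h1 : ∑ i, a i ^ p ≤ 2 ^ p * ∑ i, b i ^ p := by
    rw [mul_sum]
    refine sum_le_sum fun i _ => ?_
    rw [← Real.mul_rpow zero_le_two (hb i)]
    exact Real.rpow_le_rpow (ha i) (h i) hp.le
  have h2 : 0 ≤ ∑ i, b i ^ p := sum_nonneg fun i _ => Real.rpow_nonneg (hb i) _
  refine (Real.rpow_le_rpow (sum_nonneg fun i _ => Real.rpow_nonneg (ha i) _) h1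
    (by positivity)).trans (le_of_eq ?_)
  rw [Real.mul_rpow (by positivity) h2, ← Real.rpow_mul zero_le_two, mul_one_div_cancel hp.ne',
    Real.rpow_one]

lemma sqrt_avg_le {ι : Type} [Fintype ι] {a b : ι → ℝ} (ha : ∀ i, 0 ≤ a i)
    (h : ∀ i, a i ≤ 2 * b i) {c : ℝ} (hc : 0 < c) :
    √((∑ i, a i ^ 2) / c) ≤ 2 * √((∑ i, b i ^ 2) / c) := by
  have h1 : ∑ i, a i ^ 2 ≤ 2 ^ 2 * ∑ i, b i ^ 2 := by
    rw [mul_sum]
    exact sum_le_sum fun i _ => by rw [← mul_pow]; exact pow_le_pow_left₀ (ha i) (h i) 2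
  refine (Real.sqrt_le_sqrt (div_le_div_of_nonneg_right h1 hc.le)).trans (le_of_eq ?_)
  rw [mul_div_assoc, Real.sqrt_mul (by positivity), Real.sqrt_sq zero_le_two]

lemma nearHilbert_XK : NearHilbert (XK 𝕜) := by
  obtain ⟨J, -, hJ2, hJ3⟩ := exists_J (𝕜 := 𝕜)
  have e : ∀ (n : ℕ) (x : Fin n → XK 𝕜) (ε : Fin n → Bool),
      ∑ i, (if ε i then (1 : ℝ) else -1) • J (x i) = J (∑ i, if ε i then x i else -x i) := by
    intro n x ε
    rw [map_sum]
    exact sum_congr rfl fun i _ => by cases ε i <;> simp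
  have r1 : ∀ (n : ℕ) (x : Fin n → XK 𝕜),
      radAvg x ≤ 2 * MP_650c5e_an.radAvg fun i => J (x i) := fun n x => by
    simp only [radAvg, MP_650c5e_an.radAvg, e]
    exact sqrt_avg_le (fun _ => norm_nonneg _) (fun _ => hJ2 _) (by positivity)
  have r2 : ∀ (n : ℕ) (x : Fin n → XK 𝕜),
      (MP_650c5e_an.radAvg fun i => J (x i)) ≤ 2 * radAvg x := fun n x => by
    simp only [radAvg, MP_650c5e_an.radAvg, e]
    exact sqrt_avg_le (fun _ => norm_nonneg _) (fun _ => hJ3 _) (by positivity)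
  have hco : ∀ q : ℝ, 2 < q → HasCotype (XK 𝕜) q := fun q hq => by
    obtain ⟨C, hC⟩ := cotype_XX hq
    refine ⟨2 * (|C| * 2), fun n x => ?_⟩
    refine (lp_le (fun _ => norm_nonneg _) (fun _ => norm_nonneg _) (fun i => hJ2 (x i))
      (by linarith)).trans ?_
    rw [mul_assoc, mul_assoc]
    refine mul_le_mul_of_nonneg_left ((hC n _).trans ?_) zero_le_two
    exact mul_le_mul (le_abs_self C) (r2 n x) (Real.sqrt_nonneg _) (abs_nonneg C)
  refine ⟨fun p hp1 hp2 => ?_, hco, ?_⟩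
  · obtain ⟨C, hC⟩ := type_XX hp1 hp2
    refine ⟨2 * (|C| * 2), fun n x => (r1 n x).trans ?_⟩
    rw [mul_assoc, mul_assoc]
    refine mul_le_mul_of_nonneg_left ((hC n _).trans ?_) zero_le_two
    exact mul_le_mul (le_abs_self C) (lp_le (fun _ => norm_nonneg _) (fun _ => norm_nonneg _)
      (fun i => hJ3 (x i)) (by linarith)) (by positivity) (abs_nonneg C)
  · obtain ⟨C, hC⟩ := hco 3 (by norm_num)
    refine ⟨C, fun n x i => le_trans ?_ (hC n x)⟩
    rw [one_div, Real.le_rpow_inv_iff_of_pos (norm_nonneg _)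
      (sum_nonneg fun _ _ => by positivity) (by norm_num)]
    exact single_le_sum (f := fun i => ‖x i‖ ^ (3 : ℝ)) (fun _ _ => by positivity) (mem_univ i)

theorem sym_main (𝕜 : Type) [RCLike 𝕜] : ∃ (X : Type) (_ : NormedAddCommGroup X)
    (_ : NormedSpace 𝕜 X) (_ : CompleteSpace X), HasSymmetricBasis 𝕜 X ∧ NearHilbert X ∧
      ¬ Hilbertian 𝕜 X ∧
      ∀ Y : Submodule 𝕜 X, IsClosed (Y : Set X) → AsympHilbertian 𝕜 Y → Hilbertian 𝕜 Y :=
  ⟨XK 𝕜, inferInstance, inferInstance, inferInstance, symmetric_XK, nearHilbert_XK,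
    not_hilbertian_XK, fun Y _ h =>
      have := finite_of_asympK Y.subtypeₗᵢ h
      ⟨EuclideanSpace 𝕜 (Fin (Module.finrank 𝕜 Y)), inferInstance, inferInstance, inferInstance,
        ⟨ContinuousLinearEquiv.ofFinrankEq (by simp)⟩⟩⟩

end Pool.Agent.MP_650c5e_an.K
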