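import Pool.Agent.MP_650c5e_an.Ris

/-! Weighted geometric means, entropy maximisers and concentration. -/

namespace Pool.Agent.MP_650c5e_an

open Finset

/-- The (multiplicative) entropy of `t` with respect to the weights `y` on `D`. -/
noncomputable def PP (y : ℕ → ℝ) (D : Finset ℕ) (t : ℕ → ℝ) : ℝ := ∏ i ∈ D, t i ^ y i

variable {y : ℕ → ℝ} {D : Finset ℕ}

lemma PP_nonneg {t : ℕ → ℝ} (ht : ∀ i ∈ D, 0 ≤ t i) : 0 ≤ PP y D t :=
  prod_nonneg fun i hi => Real.rpow_nonneg (ht i hi) _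

lemma PP_pos (hy : ∀ i, 0 ≤ y i) {t : ℕ → ℝ} (ht : ∀ i ∈ D, 0 < y i → 0 < t i) : 0 < PP y D t :=
  prod_pos fun i hi => by
    rcases (hy i).eq_or_lt with h | h
    · rw [← h, Real.rpow_zero]; exact one_pos
    · exact Real.rpow_pos_of_pos (ht i hi h) _

lemma PP_congr (hy : ∀ i, 0 ≤ y i) {t u : ℕ → ℝ} (h : ∀ i ∈ D, 0 < y i → t i = u i) :
    PP y D t = PP y D u :=
  prod_congr rfl fun i hi => by
    rcases (hy i).eq_or_lt with h0 | h0
    · rw [← h0, Real.rpow_zero, Real.rpow_zero]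
    · rw [h i hi h0]

lemma PP_mono (hy : ∀ i, 0 ≤ y i) {t u : ℕ → ℝ} (ht : ∀ i ∈ D, 0 ≤ t i)
    (h : ∀ i ∈ D, 0 < y i → t i ≤ u i) : PP y D t ≤ PP y D u :=
  prod_le_prod (fun i hi => Real.rpow_nonneg (ht i hi) _) fun i hi => by
    rcases (hy i).eq_or_lt with h0 | h0
    · rw [← h0, Real.rpow_zero, Real.rpow_zero]
    · exact Real.rpow_le_rpow (ht i hi) (h i hi h0) h0.le

lemma PP_mul {t u : ℕ → ℝ} (ht : ∀ i ∈ D, 0 ≤ t i) (hu : ∀ i ∈ D, 0 ≤ u i) :
    PP y D (fun i => t i * u i) = PP y D t * PP y D u := by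
  unfold PP
  rw [← prod_mul_distrib]
  exact prod_congr rfl fun i hi => Real.mul_rpow (ht i hi) (hu i hi)

lemma PP_const (hy : ∀ i, 0 ≤ y i) {c : ℝ} (hc : 0 ≤ c) :
    PP y D (fun _ => c) = c ^ (∑ i ∈ D, y i) :=
  (Real.rpow_sum_of_nonneg hc fun i _ => hy i).symm

lemma PP_rpow {t : ℕ → ℝ} (ht : ∀ i ∈ D, 0 ≤ t i) (g : ℝ) :
    PP y D (fun i => t i ^ g) = PP y D t ^ g := by
  unfold PP
  rw [← Real.finsetProd_rpow _ _ fun i hi => Real.rpow_nonneg (ht i hi) _]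
  exact prod_congr rfl fun i hi => by
    rw [← Real.rpow_mul (ht i hi), ← Real.rpow_mul (ht i hi), mul_comm]

lemma PP_prod (J : Finset ℕ) {t : ℕ → ℕ → ℝ} (ht : ∀ k ∈ J, ∀ i ∈ D, 0 ≤ t k i) :
    PP y D (fun i => ∏ k ∈ J, t k i) = ∏ k ∈ J, PP y D (t k) := by
  unfold PP
  rw [prod_comm]
  exact prod_congr rfl fun i hi => (Real.finsetProd_rpow _ _ (fun k hk => ht k hk i hi) _).symm

lemma PP_le_exp {t g : ℕ → ℝ} (ht : ∀ i ∈ D, 0 ≤ t i) (h : ∀ i ∈ D, t i ^ y i ≤ Real.exp (g i)) :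
    PP y D t ≤ Real.exp (∑ i ∈ D, g i) := by
  rw [Real.exp_sum]
  exact prod_le_prod (fun i hi => Real.rpow_nonneg (ht i hi) _) h

lemma rpow_le_exp_mul {r a b : ℝ} (hr : 0 ≤ r) (hb : 0 ≤ b) (h : r ≤ Real.exp a) :
    r ^ b ≤ Real.exp (b * a) := by
  rw [mul_comm, Real.exp_mul]
  exact Real.rpow_le_rpow hr h hb

lemma le_exp_sub_one (r : ℝ) : r ≤ Real.exp (r - 1) := by
  linarith [Real.add_one_le_exp (r - 1)]

lemma PP_le_exp_sub (hy : ∀ i, 0 ≤ y i) {r : ℕ → ℝ} (hr : ∀ i ∈ D, 0 ≤ r i) :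
    PP y D r ≤ Real.exp (∑ i ∈ D, y i * r i - ∑ i ∈ D, y i) := by
  rw [← sum_sub_distrib]
  refine PP_le_exp hr fun i hi => ?_
  rw [show y i * r i - y i = y i * (r i - 1) by ring]
  exact rpow_le_exp_mul (hr i hi) (hy i) (le_exp_sub_one _)

lemma PP_le_one (hy : ∀ i, 0 ≤ y i) {r : ℕ → ℝ} (hr : ∀ i ∈ D, 0 ≤ r i)
    (h : ∑ i ∈ D, y i * r i ≤ ∑ i ∈ D, y i) : PP y D r ≤ 1 :=
  (PP_le_exp_sub hy hr).trans (Real.exp_le_one_iff.2 (by linarith))

lemma PP_div (hy : ∀ i, 0 ≤ y i) {t w : ℕ → ℝ} (ht : ∀ i ∈ D, 0 ≤ t i) (hw : ∀ i ∈ D, 0 ≤ w i)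
    (hw' : ∀ i ∈ D, 0 < y i → 0 < w i) :
    PP y D t = PP y D (fun i => t i / w i) * PP y D w := by
  rw [← PP_mul (fun i hi => div_nonneg (ht i hi) (hw i hi)) hw]
  exact PP_congr hy fun i hi h => by rw [div_mul_cancel₀ _ (hw' i hi h).ne']

lemma prod_blocks {M : Type*} [CommMonoid M] {A : ℕ → ℕ} (hA : Monotone A) (f : ℕ → M) (a b : ℕ)
    (hab : a ≤ b) :
    ∏ j ∈ Ico a b, ∏ i ∈ Ico (A j) (A (j + 1)), f i = ∏ i ∈ Ico (A a) (A b), f i := by
  induction b, hab using Nat.le_induction with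
  | base => simp
  | succ b hab ih =>
    rw [prod_Ico_succ_top hab, ih, prod_Ico_consecutive _ (hA hab) (hA (Nat.le_succ b))]

lemma sum_blocks {A : ℕ → ℕ} (hA : Monotone A) (f : ℕ → ℝ) (a b : ℕ) (hab : a ≤ b) :
    ∑ j ∈ Ico a b, ∑ i ∈ Ico (A j) (A (j + 1)), f i = ∑ i ∈ Ico (A a) (A b), f i := by
  induction b, hab using Nat.le_induction with
  | base => simp
  | succ b hab ih =>
    rw [sum_Ico_succ_top hab, ih, sum_Ico_consecutive _ (hA hab) (hA (Nat.le_succ b))]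

/-- Concentration: a ratio with mean at most one and almost full entropy is close to one. -/
lemma conc (hy : ∀ i, 0 ≤ y i) {r : ℕ → ℝ} (hr : ∀ i ∈ D, 0 ≤ r i)
    (h : ∑ i ∈ D, y i * r i ≤ ∑ i ∈ D, y i) {ε : ℝ} (hε : Real.exp (-ε) ≤ PP y D r) :
    ∑ i ∈ D, (if 2 < r i ∨ r i < 1 / 2 then y i else 0) ≤ 6 * ε := by
  have h1 : PP y D r ≤ Real.exp (∑ i ∈ D, (y i * r i - y i -
      (if 2 < r i ∨ r i < 1 / 2 then y i else 0) / 6)) := by
    refine PP_le_exp hr fun i hi => ?_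
    split_ifs with hb
    · rw [show y i * r i - y i - y i / 6 = y i * (r i - 1 - 1 / 6) by ring]
      refine rpow_le_exp_mul (hr i hi) (hy i) ?_
      rcases (hr i hi).eq_or_lt with h0 | h0
      · rw [← h0]; positivity
      rw [← Real.log_le_iff_le_exp h0]
      have l1 := Real.log_two_gt_d9
      have l2 := Real.log_two_lt_d9
      rcases hb with hb | hb
      · have e1 : Real.log (r i) = Real.log 2 + Real.log (r i / 2) := by
          rw [Real.log_div h0.ne' two_ne_zero]; ring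
        have e2 := Real.log_le_sub_one_of_pos (show 0 < r i / 2 by positivity)
        linarith
      · have e1 : Real.log (r i) = Real.log (2 * r i) - Real.log 2 := by
          rw [Real.log_mul two_ne_zero h0.ne']; ring
        have e2 := Real.log_le_sub_one_of_pos (show 0 < 2 * r i by positivity)
        linarith
    · rw [show y i * r i - y i - 0 / 6 = y i * (r i - 1) by ring]
      exact rpow_le_exp_mul (hr i hi) (hy i) (le_exp_sub_one _)
  have h2 := Real.exp_le_exp.1 (hε.trans h1)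
  rw [sum_sub_distrib, sum_sub_distrib, ← sum_div] at h2
  linarith

/-- A subprobability vector with almost full entropy has little mass where `y` has little mass. -/
lemma conc_mass (hy : ∀ i, 0 ≤ y i) {h : ℕ → ℝ} (hh : ∀ i ∈ D, 0 ≤ h i)
    (h1 : ∑ i ∈ D, h i ≤ ∑ i ∈ D, y i) {ε : ℝ}
    (hε : Real.exp (-ε) ≤ PP y D fun i => h i / y i) (G : Finset ℕ) :
    ∑ i ∈ D, (if i ∈ G then 0 else h i) ≤ 2 * ε + 2 * ∑ i ∈ D, (if i ∈ G then 0 else y i) := by
  have h2 : PP y D (fun i => h i / y i) ≤ Real.exp (∑ i ∈ D, (h i - y i -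
      (if i ∈ G then 0 else h i) / 2 + (if i ∈ G then 0 else y i))) := by
    refine PP_le_exp (fun i hi => div_nonneg (hh i hi) (hy i)) fun i hi => ?_
    have h0 := hh i hi
    rcases (hy i).eq_or_lt with hy0 | hy0
    · rw [← hy0, Real.rpow_zero]
      refine Real.one_le_exp ?_
      split_ifs <;> linarith
    · have hr : 0 ≤ h i / y i := div_nonneg h0 hy0.le
      split_ifs with hG
      · rw [show h i - y i - 0 / 2 + 0 = y i * (h i / y i - 1) by field_simp; ring]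
        exact rpow_le_exp_mul hr hy0.le (le_exp_sub_one _)
      · rw [show h i - y i - h i / 2 + y i = y i * (h i / y i / 2) by field_simp; ring]
        refine rpow_le_exp_mul hr hy0.le ?_
        have := Real.quadratic_le_exp_of_nonneg (show 0 ≤ h i / y i / 2 by positivity)
        nlinarith [sq_nonneg (h i / y i - 2)]
  have h3 := Real.exp_le_exp.1 (hε.trans h2)
  rw [sum_add_distrib, sum_sub_distrib, sum_sub_distrib, ← sum_div] at h3
  linarith

/-- `w` maximises the entropy over `S`, in first-order form. -/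
def IsOpt (S : Set (ℕ → ℝ)) (y : ℕ → ℝ) (D : Finset ℕ) (w : ℕ → ℝ) : Prop :=
  w ∈ S ∧ (∀ i ∈ D, 0 < y i → 0 < w i) ∧ ∀ t ∈ S, ∑ i ∈ D, y i * (t i / w i) ≤ ∑ i ∈ D, y i

lemma exists_opt (hy : ∀ i, 0 ≤ y i) (D : Finset ℕ) {n : ℕ} (hn : 1 ≤ n) :
    ∃ w, IsOpt (BB n) y D w := by
  have hcomp : IsCompact (BB n) :=
    (isCompact_Icc (a := (0 : ℕ → ℝ)) (b := 1)).of_isClosed_subset polar.isClosed
      fun t ht => ⟨fun i => ht.1 i, fun i => BB_le_one n t ht i⟩
  have hcont : Continuous (PP y D) :=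
    continuous_finsetProd _ fun i _ =>
      (Real.continuous_rpow_const (hy i)).comp (continuous_apply i)
  set c : ℝ := 1 / (D.card + 1) with hc
  have hcpos : 0 < c := by positivity
  have hmem : res D (fun _ => c) ∈ BB n := by
    refine mem_BB_of_sum_le hn (res_nonneg fun _ => hcpos.le) fun E => ?_
    have := sum_res_mul (E := E) (W := D) (fun _ => c) (fun _ => 1)
    simp only [mul_one] at this
    rw [this, sum_const, nsmul_eq_mul, hc, mul_one_div, div_le_one (by positivity)]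
    have : (E ∩ D).card ≤ D.card := card_le_card inter_subset_right
    have : ((E ∩ D).card : ℝ) ≤ D.card := by exact_mod_cast this
    linarith
  obtain ⟨w, hw, hmax⟩ := hcomp.exists_isMaxOn ⟨_, hmem⟩ hcont.continuousOn
  have hwpos : ∀ i ∈ D, 0 < y i → 0 < w i := by
    have h1 : 0 < PP y D w :=
      lt_of_lt_of_le (PP_pos hy fun i hi _ => by rw [res_of_mem hi]; exact hcpos) (hmax hmem)
    intro i hi hyi
    refine lt_of_le_of_ne (hw.1 i) fun h0 => h1.ne' ?_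
    exact prod_eq_zero hi (by rw [← h0, Real.zero_rpow hyi.ne'])
  refine ⟨w, hw, hwpos, fun t ht => ?_⟩
  have hPw : 0 < PP y D w := PP_pos hy hwpos
  set ρ : ℕ → ℝ := fun i => t i / w i - 1 with hρ
  have hρ1 : ∀ i, -1 ≤ ρ i := fun i => by
    have := div_nonneg (ht.1 i) (hw.1 i); simp only [hρ]; linarith
  have key : ∀ l : ℝ, 0 < l → l < 1 → ∑ i ∈ D, y i * (ρ i / (1 + l * ρ i)) ≤ 0 := by
    intro l hl0 hl1
    have hpos : ∀ i, 0 < 1 + l * ρ i := fun i => by nlinarith [hρ1 i]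
    have hm : (fun i => (1 - l) * w i + l * t i) ∈ BB n :=
      polar.comb2 (by linarith) hl0.le (by linarith) hw ht
    have h1 : PP y D (fun i => (1 - l) * w i + l * t i) ≤ PP y D w := hmax hm
    have h2 : PP y D (fun i => (1 - l) * w i + l * t i) =
        PP y D (fun i => 1 + l * ρ i) * PP y D w := by
      rw [← PP_mul (fun i _ => (hpos i).le) fun i _ => hw.1 i]
      refine PP_congr hy fun i hi h => ?_
      have := (hwpos i hi h).ne'
      simp only [hρ]; field_simp; ring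
    have h3 : PP y D (fun i => 1 + l * ρ i) ≤ 1 := by
      rw [h2] at h1
      exact (mul_le_iff_le_one_left hPw).1 h1
    have h4 : Real.exp (∑ i ∈ D, y i * (l * ρ i / (1 + l * ρ i))) ≤
        PP y D (fun i => 1 + l * ρ i) := by
      rw [Real.exp_sum]
      refine prod_le_prod (fun i _ => (Real.exp_pos _).le) fun i _ => ?_
      rw [mul_comm, Real.exp_mul]
      refine Real.rpow_le_rpow (Real.exp_pos _).le ?_ (hy i)
      rw [← Real.le_log_iff_exp_le (hpos i)]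
      have := Real.one_sub_inv_le_log_of_pos (hpos i)
      have e : l * ρ i / (1 + l * ρ i) = 1 - (1 + l * ρ i)⁻¹ := by
        have := (hpos i).ne'
        field_simp; ring
      rw [e]; exact this
    have h5 := Real.exp_le_one_iff.1 (h4.trans h3)
    have h6 : ∑ i ∈ D, y i * (l * ρ i / (1 + l * ρ i)) =
        l * ∑ i ∈ D, y i * (ρ i / (1 + l * ρ i)) := by
      rw [mul_sum]; exact sum_congr rfl fun i _ => by ring
    rw [h6] at h5
    exact le_of_mul_le_mul_left (by simpa using h5) hl0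
  have hlim : Filter.Tendsto (fun l : ℝ => ∑ i ∈ D, y i * (ρ i / (1 + l * ρ i)))
      (nhdsWithin 0 (Set.Ioi 0)) (nhds (∑ i ∈ D, y i * (ρ i / (1 + 0 * ρ i)))) := by
    refine Filter.Tendsto.mono_left ?_ nhdsWithin_le_nhds
    refine tendsto_finsetSum _ fun i _ => ?_
    refine Filter.Tendsto.const_mul _ (Filter.Tendsto.div tendsto_const_nhds ?_ (by simp))
    exact (Continuous.tendsto (by fun_prop) 0)
  have h7 : ∑ i ∈ D, y i * (ρ i / (1 + 0 * ρ i)) ≤ 0 := by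
    refine le_of_tendsto hlim ?_
    filter_upwards [Ioo_mem_nhdsGT (show (0 : ℝ) < 1 by norm_num)] with l hl
    exact key l hl.1 hl.2
  have h8 : ∑ i ∈ D, y i * (ρ i / (1 + 0 * ρ i)) =
      ∑ i ∈ D, y i * (t i / w i) - ∑ i ∈ D, y i := by
    rw [← sum_sub_distrib]
    exact sum_congr rfl fun i _ => by simp only [hρ]; ring
  linarith

lemma IsOpt.le {n : ℕ} {w : ℕ → ℝ} (hy : ∀ i, 0 ≤ y i) (h : IsOpt (BB n) y D w) {t : ℕ → ℝ}
    (ht : t ∈ BB n) : PP y D t ≤ PP y D w := by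
  rw [PP_div hy (fun i _ => ht.1 i) (fun i _ => h.1.1 i) h.2.1]
  exact mul_le_of_le_one_left (PP_nonneg fun i _ => h.1.1 i)
    (PP_le_one hy (fun i _ => div_nonneg (ht.1 i) (h.1.1 i)) (h.2.2 t ht))

lemma IsOpt.pos {n : ℕ} {w : ℕ → ℝ} (hy : ∀ i, 0 ≤ y i) (h : IsOpt (BB n) y D w) :
    0 < PP y D w := PP_pos hy h.2.1

lemma IsOpt.dual {n : ℕ} {w : ℕ → ℝ} (hy : ∀ i, 0 ≤ y i) (h : IsOpt (BB n) y D w) {c : ℝ}
    (hc : 0 < c) (hyc : ∑ i ∈ D, y i ≤ c) :
    (fun i => c⁻¹ * res D (fun i => y i / w i) i) ∈ SB n :=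
  polar.scale (VS_nonneg n) (fun i => div_nonneg (hy i) (h.1.1 i)) D hc fun v hv =>
    le_trans (le_of_eq (sum_congr rfl fun i _ => by ring))
      ((h.2.2 v (VS_subset_BB n hv)).trans hyc)

/-- Lozanovskii factorisation. -/
lemma lozanovskii {h : ℕ → ℝ} (h0 : ∀ i, 0 ≤ h i) (D : Finset ℕ) (h1 : ∑ i ∈ D, h i ≤ 1) :
    ∃ s ∈ SB 1, ∃ t ∈ BB 1, ∀ i ∈ D, h i = s i * t i := by
  obtain ⟨w, hw⟩ := exists_opt h0 D le_rfl
  refine ⟨_, hw.dual h0 one_pos h1, w, hw.1, fun i hi => ?_⟩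
  rw [res_of_mem hi]
  rcases (h0 i).eq_or_lt with e | e
  · rw [← e]; simp
  · have := (hw.2.1 i hi e).ne'
    field_simp

end Pool.Agent.MP_650c5e_an
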