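import Pool.Agent.MP_650c5e_an.MOBasic

/-! A criterion for a Musielak-Orlicz space to be asymptotically Hilbertian. -/

namespace Pool.Agent.MP_650c5e_an.K

open Finset Filter Topology

set_option maxHeartbeats 400000

variable {𝕜 : Type} [RCLike 𝕜]

lemma exists_auerbach {E : Type} [NormedAddCommGroup E] [NormedSpace 𝕜 E] [FiniteDimensional 𝕜 E]
    {n : ℕ} (hn : Module.finrank 𝕜 E = n) :
    ∃ (b : Fin n → E) (c : Fin n → E →ₗ[𝕜] 𝕜), (∀ i, ‖b i‖ ≤ 1) ∧ (∀ i z, ‖c i z‖ ≤ ‖z‖) ∧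
      ∀ z, ∑ i, c i z • b i = z := by
  classical
  have := FiniteDimensional.proper_rclike 𝕜 E
  set v := Module.finBasisOfFinrankEq 𝕜 E hn
  have hc : Continuous fun x : Fin n → E => ‖v.det x‖ := by
    refine Continuous.norm ?_
    rw [show (v.det : (Fin n → E) → 𝕜) = fun x => Matrix.det (v.toMatrix x) from
      funext fun x => v.det_apply x]
    refine Continuous.matrix_det (continuous_pi fun i => continuous_pi fun k => ?_)
    exact (LinearMap.continuous_of_finiteDimensional (v.coord i)).comp (continuous_apply k)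
  have hK : IsCompact (Set.pi Set.univ fun _ : Fin n => Metric.closedBall (0 : E) 1) :=
    isCompact_univ_pi fun _ => isCompact_closedBall _ _
  obtain ⟨b, hb, hmax⟩ := hK.exists_isMaxOn ⟨0, fun _ _ => by simp⟩ hc.continuousOn
  have hb1 : ∀ i, ‖b i‖ ≤ 1 := fun i => by simpa using hb i trivial
  have hpos : 0 < ‖v.det b‖ := by
    have h1 : (fun i => ((‖v i‖⁻¹ : ℝ) : 𝕜) • v i) ∈
        Set.pi Set.univ fun _ : Fin n => Metric.closedBall (0 : E) 1 := fun i _ => by
      simp [norm_smul, inv_mul_le_one]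
    refine lt_of_lt_of_le ?_ (hmax h1)
    have h2 := v.det.map_smul_univ (fun i => ((‖v i‖⁻¹ : ℝ) : 𝕜)) v
    simp only [Set.mem_setOf_eq]
    rw [h2, Module.Basis.det_self, norm_pos_iff]
    simp [Finset.prod_ne_zero_iff, v.ne_zero]
  obtain ⟨hli, hsp⟩ := v.is_basis_iff_det.2 (IsUnit.mk0 _ (norm_pos_iff.1 hpos))
  refine ⟨b, fun i => (Module.Basis.mk hli hsp.ge).coord i, hb1, fun i z => ?_, fun z => ?_⟩
  · have h1 : ∀ w : E, ‖w‖ ≤ 1 → ‖(Module.Basis.mk hli hsp.ge).coord i w‖ ≤ 1 := fun w hw => by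
      have h2 := LinearMap.congr_fun (v.det_smul_mk_coord_eq_det_update hli hsp.ge i) w
      have h3 : Function.update b i w ∈
          Set.pi Set.univ fun _ : Fin n => Metric.closedBall (0 : E) 1 := fun k _ => by
        rcases eq_or_ne k i with rfl | h
        · simpa using hw
        · simpa [h] using hb1 k
      have h4 : ‖v.det (Function.update b i w)‖ ≤ ‖v.det b‖ := hmax h3
      have h5 : v.det b * (Module.Basis.mk hli hsp.ge).coord i w =
          v.det (Function.update b i w) := h2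
      rw [← h5, norm_mul] at h4
      exact le_of_mul_le_mul_left (by simpa using h4) hpos
    rcases eq_or_ne z 0 with rfl | hz
    · rw [map_zero, norm_zero, norm_zero]
    · have hz0 : 0 < ‖z‖ := norm_pos_iff.2 hz
      have := h1 (((‖z‖⁻¹ : ℝ) : 𝕜) • z) (by simp [norm_smul, hz0.ne'])
      rw [map_smul, norm_smul, RCLike.norm_ofReal, abs_of_pos (inv_pos.2 hz0),
        inv_mul_le_iff₀ hz0, mul_one] at this
      exact this
  · have := (Module.Basis.mk hli hsp.ge).sum_repr z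
    simpa using this

lemma bmDist_le {E F : Type} [NormedAddCommGroup E] [NormedSpace 𝕜 E] [FiniteDimensional 𝕜 E]
    [NormedAddCommGroup F] [InnerProductSpace 𝕜 F] {n : ℕ} (hn : Module.finrank 𝕜 E = n)
    (L : E →ₗ[𝕜] F) {A B : ℝ} (hA : 0 ≤ A) (hB : 0 ≤ B) (h1 : ∀ z, ‖z‖ ≤ A * ‖L z‖)
    (h2 : ∀ z, ‖L z‖ ≤ B * ‖z‖) : bmDist 𝕜 E (EuclideanSpace 𝕜 (Fin n)) ≤ B * A := by
  have hinj : Function.Injective L := by
    rw [injective_iff_map_eq_zero]
    intro z hz
    have := h1 z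
    rw [hz, norm_zero, mul_zero] at this
    exact norm_le_zero_iff.1 this
  have hr : Module.finrank 𝕜 (LinearMap.range L) = n := by
    rw [LinearMap.finrank_range_of_inj hinj, hn]
  set U := ((stdOrthonormalBasis 𝕜 (LinearMap.range L)).reindex (finCongr hr)).repr
  set T : E ≃L[𝕜] EuclideanSpace 𝕜 (Fin n) :=
    ((LinearEquiv.ofInjective L hinj).trans U.toLinearEquiv).toContinuousLinearEquiv
  have hT : ∀ z, ‖T z‖ = ‖L z‖ := fun z => U.norm_map (LinearEquiv.ofInjective L hinj z)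
  unfold bmDist
  refine csInf_le_of_le ⟨0, ?_⟩ ⟨T, rfl⟩ (mul_le_mul ?_ ?_ (norm_nonneg _) hB)
  · rintro _ ⟨T, rfl⟩; positivity
  · exact ContinuousLinearMap.opNorm_le_bound _ hB fun z => (hT z).trans_le (h2 z)
  · refine ContinuousLinearMap.opNorm_le_bound _ hA fun w => ?_
    have := h1 (T.symm w)
    rw [← hT, T.apply_symm_apply] at this
    exact this

/-- The modular is asymptotically quadratic. -/
def Hyp (𝕜 : Type) [RCLike 𝕜] (G : ℕ → ℝ → ℝ) : Prop :=
  ∃ K : ℝ, 0 < K ∧ ∀ (U : ℕ) (η : ℝ), 0 < η → ∃ k : ℕ, ∀ a : ℕ →₀ 𝕜, (∀ n, a n ≠ 0 → k ≤ n) →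
    η ≤ md G a 1 → md G a 1 ≤ 1 → ∀ u ≤ U,
      md G a 1 ≤ K * (4 ^ u * md G a ((1 / 2) ^ u)) ∧ 4 ^ u * md G a ((1 / 2) ^ u) ≤ K * md G a 1

variable {G : ℕ → ℝ → ℝ}

lemma quad (hG : ∀ n, Orl (G n)) {K η τ : ℝ} (hK : 0 < K) (hη : 0 < η) {U k : ℕ}
    (H : ∀ a : ℕ →₀ 𝕜, (∀ n, a n ≠ 0 → k ≤ n) → η ≤ md G a 1 → md G a 1 ≤ 1 → ∀ u ≤ U,
      md G a 1 ≤ K * (4 ^ u * md G a ((1 / 2) ^ u)) ∧ 4 ^ u * md G a ((1 / 2) ^ u) ≤ K * md G a 1)
    {t : ℕ → ℝ} (ht : ∀ n, 0 ≤ t n) {S : Finset ℕ} (hτ : ∑ n ∈ S, G n (t n) ≤ τ)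
    {a : ℕ →₀ 𝕜} (ha : ∀ n, a n ≠ 0 → k ≤ n) (hS : a.support ⊆ S) (ha1 : md G a 1 ≤ 1)
    (hU : ∀ n, a n ≠ 0 → ‖a n‖ < 2 ^ U * t n) :
    ∑ n ∈ S, G n (t n) / t n ^ 2 * ‖a n‖ ^ 2 ≤ 4 * K * md G a 1 + (U * (4 ^ U * η) + τ) ∧
    md G a 1 ≤ 4 * K * ∑ n ∈ S, G n (t n) / t n ^ 2 * ‖a n‖ ^ 2 + (U * η + τ) := by
  classical
  have hex : ∀ n, ∃ l : ℕ, a n ≠ 0 → ‖a n‖ < 2 ^ l * t n := fun n => ⟨U, hU n⟩
  set lev : ℕ → ℕ := fun n => Nat.find (hex n) with hlev
  have hl1 : ∀ n, ‖a n‖ ≤ 2 ^ lev n * t n := fun n => by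
    by_cases h : a n = 0
    · rw [h, norm_zero]; exact mul_nonneg (by positivity) (ht n)
    · exact (Nat.find_spec (hex n) h).le
  have hl2 : ∀ n u, lev n = u + 1 → 0 < t n ∧ 2 ^ u * t n ≤ ‖a n‖ := fun n u h => by
    have h1 := Nat.find_min (hex n) (show u < lev n by omega)
    push Not at h1
    refine ⟨?_, h1.2⟩
    have h2 := (norm_nonneg _).trans_lt (hU n h1.1)
    exact (pos_iff_pos_of_mul_pos h2).1 (by positivity)
  have hmaps : ∀ n ∈ S, lev n ∈ range (U + 1) := fun n _ =>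
    mem_range.2 (Nat.lt_succ_of_le (Nat.find_min' (hex n) (hU n)))
  have hG0 : ∀ n, 0 ≤ G n (t n) := fun n => (hG n).nonneg _ (ht n)
  set Q : ℕ → ℝ := fun l => ∑ n ∈ S with lev n = l, G n (t n) / t n ^ 2 * ‖a n‖ ^ 2 with hQ
  set R : ℕ → ℝ → ℝ := fun l s => ∑ n ∈ S with lev n = l, G n (s * ‖a n‖) with hR
  have hRm : ∀ l s, md G (a.filter fun n => lev n = l) s = R l s := fun l s => by
    rw [md_eq hG (S := S.filter fun n => lev n = l)
      (by rw [Finsupp.support_filter]; exact filter_subset_filter _ hS)]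
    exact sum_congr rfl fun n hn => by rw [Finsupp.filter_apply, if_pos (mem_filter.1 hn).2]
  have e1 : ∑ n ∈ S, G n (t n) / t n ^ 2 * ‖a n‖ ^ 2 = ∑ l ∈ range (U + 1), Q l :=
    (sum_fiberwise_of_maps_to hmaps _).symm
  have e2 : md G a 1 = ∑ l ∈ range (U + 1), R l 1 := by
    rw [md_eq hG hS]; exact (sum_fiberwise_of_maps_to hmaps _).symm
  have hτ0 : ∑ n ∈ S with lev n = 0, G n (t n) ≤ τ :=
    (sum_le_sum_of_subset_of_nonneg (filter_subset _ _) fun n _ _ => hG0 n).trans hτ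
  have hQ0 : ∀ l, 0 ≤ Q l := fun l => sum_nonneg fun n _ => by have := hG0 n; positivity
  have hR0 : ∀ l, 0 ≤ R l 1 := fun l => by rw [← hRm]; exact (orl_md hG _).nonneg 1 zero_le_one
  have z1 : Q 0 ≤ τ := le_trans (sum_le_sum fun n hn => by
    have h1 := hl1 n
    rw [(mem_filter.1 hn).2, pow_zero, one_mul] at h1
    rcases (ht n).eq_or_lt with h0 | h0
    · rw [← h0]; simp [(hG n).zero]
    · rw [div_mul_eq_mul_div, div_le_iff₀ (by positivity)]
      exact mul_le_mul_of_nonneg_left (pow_le_pow_left₀ (norm_nonneg _) h1 2) (hG0 n)) hτ0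
  have z2 : R 0 1 ≤ τ := le_trans (sum_le_sum fun n hn => by
    have h1 := hl1 n
    rw [(mem_filter.1 hn).2, pow_zero, one_mul] at h1
    rw [one_mul]
    exact (hG n).mono (norm_nonneg _) h1) hτ0
  have hs : ∀ u ∈ range U, Q (u + 1) ≤ 4 * K * R (u + 1) 1 + 4 ^ U * η ∧
      R (u + 1) 1 ≤ 4 * K * Q (u + 1) + η := by
    intro u hu
    have hu' := mem_range.1 hu
    have q1 : Q (u + 1) ≤ 4 * (4 ^ u * R (u + 1) ((1 / 2) ^ u)) := by
      simp only [hQ, hR, mul_sum]
      refine sum_le_sum fun n hn => ?_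
      have h0 := (mem_filter.1 hn).2
      obtain ⟨h1, h2⟩ := hl2 n u h0
      have h3 := hl1 n
      rw [h0] at h3
      have h4 : G n (t n) ≤ G n ((1 / 2) ^ u * ‖a n‖) := (hG n).mono (ht n) (by
        rw [one_div, inv_pow, le_inv_mul_iff₀ (by positivity)]; exact h2)
      have h5 : ‖a n‖ ^ 2 ≤ 4 * 4 ^ u * t n ^ 2 := by
        refine (pow_le_pow_left₀ (norm_nonneg _) h3 2).trans (le_of_eq ?_)
        rw [mul_pow, ← pow_mul, mul_comm (u + 1) 2, pow_mul, pow_succ' _ u]; norm_num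
      rw [div_mul_eq_mul_div, div_le_iff₀ (by positivity)]
      calc _ ≤ G n ((1 / 2) ^ u * ‖a n‖) * (4 * 4 ^ u * t n ^ 2) :=
            mul_le_mul h4 h5 (by positivity) ((hG0 n).trans h4)
        _ = _ := by ring
    have q2 : 4 ^ (u + 1) * R (u + 1) ((1 / 2) ^ (u + 1)) ≤ 4 * Q (u + 1) := by
      simp only [hQ, hR, mul_sum]
      refine sum_le_sum fun n hn => ?_
      have h0 := (mem_filter.1 hn).2
      obtain ⟨h1, h2⟩ := hl2 n u h0
      have h3 := hl1 n
      rw [h0] at h3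
      have h4 : G n ((1 / 2) ^ (u + 1) * ‖a n‖) ≤ G n (t n) := (hG n).mono (by positivity) (by
        rw [one_div, inv_pow, inv_mul_le_iff₀ (by positivity)]; exact h3)
      have h5 : 4 ^ u * t n ^ 2 ≤ ‖a n‖ ^ 2 := by
        refine le_trans (le_of_eq ?_) (pow_le_pow_left₀ (by positivity) h2 2)
        rw [mul_pow, ← pow_mul, mul_comm u 2, pow_mul]; norm_num
      rw [div_mul_eq_mul_div, ← mul_div_assoc, le_div_iff₀ (by positivity)]
      calc _ ≤ 4 ^ (u + 1) * G n (t n) * t n ^ 2 := by gcongr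
        _ = 4 * (G n (t n) * (4 ^ u * t n ^ 2)) := by ring
        _ ≤ _ := by have := hG0 n; gcongr
    have h4U : (0 : ℝ) ≤ 4 ^ U * η := by positivity
    by_cases hc : η ≤ R (u + 1) 1
    · have h1 := H (a.filter fun n => lev n = u + 1)
        (fun n hn => ha n fun h => hn (by simp [Finsupp.filter_apply, h]))
        (by rwa [hRm]) ((md_mono hG (fun n => by
          rw [Finsupp.filter_apply]; split_ifs <;> simp) zero_le_one).trans ha1)
      have h2 := (h1 u hu'.le).2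
      have h3 := (h1 (u + 1) hu').1
      simp only [hRm] at h2 h3
      constructor
      · nlinarith
      · nlinarith [mul_le_mul_of_nonneg_left q2 hK.le]
    · push Not at hc
      have h1 : R (u + 1) ((1 / 2) ^ u) ≤ R (u + 1) 1 := by
        rw [← hRm, ← hRm]
        exact (orl_md hG _).mono (by positivity) (pow_le_one₀ (by norm_num) (by norm_num))
      have h2 : (4 : ℝ) * 4 ^ u ≤ 4 ^ U := by
        rw [← pow_succ']; exact pow_le_pow_right₀ (by norm_num) hu'
      have h3 : 0 ≤ 4 * K * R (u + 1) 1 := by have := hR0 (u + 1); positivity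
      have h4 : 0 ≤ 4 * K * Q (u + 1) := by have := hQ0 (u + 1); positivity
      constructor
      · have h5 : 4 * (4 ^ u * R (u + 1) ((1 / 2) ^ u)) ≤ 4 ^ U * η := by
          rw [← mul_assoc]
          exact (mul_le_mul_of_nonneg_left (h1.trans hc.le) (by positivity)).trans
            (mul_le_mul_of_nonneg_right h2 hη.le)
        linarith
      · linarith
  have s1 := sum_le_sum fun u hu => (hs u hu).1
  have s2 := sum_le_sum fun u hu => (hs u hu).2
  rw [sum_add_distrib, ← mul_sum, sum_const, card_range, nsmul_eq_mul] at s1 s2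
  rw [e1, e2, sum_range_succ', sum_range_succ']
  have h3 : 0 ≤ 4 * K * R 0 1 := by have := hR0 0; positivity
  have h4 : 0 ≤ 4 * K * Q 0 := by have := hQ0 0; positivity
  constructor
  · rw [mul_add]; linarith
  · rw [mul_add]; linarith

lemma Orl.sum_le {M : ℝ → ℝ} (h : Orl M) {n : ℕ} (x : Fin n → ℝ) (hx : ∀ i, 0 ≤ x i) {θ : ℝ}
    (hθ : 0 ≤ θ) : M (θ * ∑ i, x i) ≤ ∑ i, M (θ * n * x i) := by
  rcases isEmpty_or_nonempty (Fin n) with h0 | h0
  · simp [h.zero]
  · obtain ⟨i, -, hi⟩ := exists_max_image univ x univ_nonempty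
    have h1 : ∑ i, x i ≤ n * x i := by
      simpa using sum_le_card_nsmul univ x (x i) hi
    refine le_trans (h.mono (mul_nonneg hθ (sum_nonneg fun i _ => hx i)) ?_)
      (single_le_sum (f := fun i => M (θ * n * x i))
        (fun i _ => h.nonneg _ (by have := hx i; positivity)) (mem_univ i))
    rw [mul_assoc]
    exact mul_le_mul_of_nonneg_left h1 hθ

variable {Y : Type} [NormedAddCommGroup Y] [NormedSpace 𝕜 Y] {j : (ℕ →₀ 𝕜) →ₗ[𝕜] Y}

lemma cofg_tail (hd : DenseRange j) (k : ℕ) : FiniteDimensional 𝕜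
    (Y ⧸ ((Finsupp.supported 𝕜 𝕜 {n | k ≤ n}).map j).topologicalClosure) := by
  classical
  set Z := ((Finsupp.supported 𝕜 𝕜 {n | k ≤ n}).map j).topologicalClosure
  set F : Submodule 𝕜 Y := Submodule.span 𝕜 (Set.range fun i : Fin k => j (Finsupp.single i 1))
  have hF : FiniteDimensional 𝕜 F := FiniteDimensional.span_of_finite 𝕜 (Set.finite_range _)
  have hcl : IsClosed ((Z ⊔ F : Submodule 𝕜 Y) : Set Y) :=
    Submodule.isClosed_sup_finiteDimensional _ _ (Submodule.isClosed_topologicalClosure _)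
  have hall : ∀ y, y ∈ Z ⊔ F := fun y => by
    refine hd.induction_on y hcl fun a => ?_
    induction a using Finsupp.induction_linear with
    | zero => simp
    | add f g hf hg => rw [map_add]; exact add_mem hf hg
    | single i c =>
      rw [← Finsupp.smul_single_one, map_smul]
      refine Submodule.smul_mem _ _ ?_
      rcases le_or_gt k i with h | h
      · exact Submodule.mem_sup_left (Submodule.le_topologicalClosure _
          ⟨_, Finsupp.single_mem_supported 𝕜 1 h, rfl⟩)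
      · exact Submodule.mem_sup_right (Submodule.subset_span ⟨⟨i, h⟩, rfl⟩)
  exact Submodule.FG.cofg_of_codisjoint
    (codisjoint_iff.2 (by rw [sup_comm]; exact eq_top_iff.2 fun y _ => hall y))
    (Module.Finite.iff_fg.1 hF)

theorem asymp_of_hyp (h : Rep G j) (hd : DenseRange j) (H : Hyp 𝕜 G) : AsympHilbertian 𝕜 Y := by
  classical
  obtain ⟨K, hK, H⟩ := H
  refine ⟨√(4 * K + 1) * 2 * (√(8 * K) * 2), fun n => ?_⟩
  have hn1 : (0 : ℝ) < n + 1 := by positivity
  obtain ⟨U, hU⟩ := pow_unbounded_of_one_lt (16 * ((n : ℝ) + 1) ^ 2) (one_lt_two (α := ℝ))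
  set η : ℝ := 1 / (4 * (U + 1) * 4 ^ U) with hη
  obtain ⟨k, H⟩ := H U η (by positivity)
  refine ⟨_, Submodule.isClosed_topologicalClosure _, cofg_tail hd k, fun E hE hfin hn => ?_⟩
  obtain ⟨b, c, hb, hc, hbc⟩ := exists_auerbach hn
  have hβ : ∀ i, ∃ β : ℕ →₀ 𝕜, (∀ m, β m ≠ 0 → k ≤ m) ∧ ‖j β - b i‖ ≤ 1 / (2 * (n + 1)) := by
    intro i
    obtain ⟨_, ⟨β, hβ, rfl⟩, h2⟩ := Metric.mem_closure_iff.1 (hE (b i).2) (1 / (2 * (n + 1)))
      (by positivity)
    refine ⟨β, fun m hm => hβ (Finsupp.mem_support_iff.2 hm), ?_⟩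
    rw [dist_comm, dist_eq_norm] at h2
    exact h2.le
  choose β hβk hβ using hβ
  set T : E →ₗ[𝕜] ℕ →₀ 𝕜 := ∑ i, (c i).smulRight (β i) with hT
  have hTz : ∀ z, T z = ∑ i, c i z • β i := fun z => by simp [hT]
  have hTj : ∀ z : E, ‖j (T z) - z‖ ≤ ‖z‖ / 2 := fun z => by
    have h1 : j (T z) - z = ∑ i, c i z • (j (β i) - b i) := by
      have h0 : (z : Y) = ∑ i, c i z • (b i : Y) := by
        conv_lhs => rw [← hbc z]
        simp
      rw [hTz, h0]
      simp [smul_sub]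
    rw [h1]
    refine (norm_sum_le _ _).trans ((sum_le_card_nsmul _ _ (‖z‖ * (1 / (2 * (n + 1))))
      fun i _ => ?_).trans ?_)
    · rw [norm_smul]
      exact mul_le_mul (hc i z) (hβ i) (norm_nonneg _) (norm_nonneg _)
    · simp only [card_univ, Fintype.card_fin, nsmul_eq_mul]
      rw [mul_one_div, ← mul_div_assoc, div_le_div_iff₀ (by positivity) (by positivity)]
      nlinarith [norm_nonneg z]
  have hT1 : ∀ z : E, ‖z‖ ≤ 2 * ‖j (T z)‖ ∧ ‖j (T z)‖ ≤ 2 * ‖z‖ := fun z => by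
    have h1 := (abs_norm_sub_norm_le _ _).trans (hTj z)
    rw [abs_le, Submodule.coe_norm] at h1
    rw [Submodule.coe_norm]
    constructor <;> nlinarith [norm_nonneg (z : Y)]
  set S : Finset ℕ := univ.biUnion fun i => (β i).support with hS
  set θ : ℝ := 1 / (8 * (n + 1) ^ 2) with hθ
  have hθ0 : 0 < θ := by positivity
  set t : ℕ → ℝ := fun m => θ * ∑ i, ‖β i m‖ with ht
  have ht0 : ∀ m, 0 ≤ t m := fun m => by simp only [ht]; positivity
  have hτ : ∑ m ∈ S, G m (t m) ≤ 1 / 4 := by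
    have h1 : ∀ i, md G (β i) (θ * n) ≤ 1 / (4 * (n + 1)) := fun i => by
      have h2 : ‖j (β i)‖ ≤ 2 := by
        have h3 := norm_le_norm_add_norm_sub' (j (β i)) (b i : Y)
        have h4 : (1 : ℝ) / (2 * (n + 1)) ≤ 1 := by
          rw [div_le_one (by positivity)]; linarith [Nat.cast_nonneg (α := ℝ) n]
        have h5 : ‖(b i : Y)‖ ≤ 1 := hb i
        linarith [hβ i]
      have h3 := (h.le_iff (β i) (1 / 2) (by norm_num)).2 (by linarith)
      have h4 := (orl_md h.orl (β i)).mul_le (s := 1 / (4 * (n + 1))) (t := 1 / 2) (by positivity)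
        (by rw [div_le_one (by positivity)]; linarith [Nat.cast_nonneg (α := ℝ) n]) (by norm_num)
      refine ((orl_md h.orl (β i)).mono (by positivity) ?_).trans
        (h4.trans (mul_le_of_le_one_right (by positivity) h3))
      rw [hθ, div_mul_div_comm, div_mul_eq_mul_div,
        div_le_div_iff₀ (by positivity) (by positivity)]
      nlinarith
    refine (sum_le_sum fun m _ => (h.orl m).sum_le _ (fun i => norm_nonneg _) hθ0.le).trans ?_
    rw [sum_comm]
    refine (sum_le_card_nsmul _ _ (1 / (4 * ((n : ℝ) + 1))) fun i _ => ?_).trans ?_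
    · rw [← md_eq h.orl (subset_biUnion_of_mem (fun i => (β i).support) (mem_univ i))]
      exact h1 i
    · simp only [card_univ, Fintype.card_fin, nsmul_eq_mul]
      rw [mul_one_div, div_le_div_iff₀ (by positivity) (by positivity)]
      linarith
  have hG0 : ∀ m, 0 ≤ G m (t m) / t m ^ 2 := fun m => by
    have := (h.orl m).nonneg _ (ht0 m); positivity
  set L : E →ₗ[𝕜] EuclideanSpace 𝕜 S := (WithLp.linearEquiv 2 𝕜 (S → 𝕜)).symm.toLinearMap ∘ₗ
    LinearMap.pi fun m : S => ((√(G m (t m) / t m ^ 2) : ℝ) : 𝕜) • (Finsupp.lapply m.1 ∘ₗ T)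
    with hL
  have hLz : ∀ z, ‖L z‖ ^ 2 = ∑ m ∈ S, G m (t m) / t m ^ 2 * ‖T z m‖ ^ 2 := fun z => by
    rw [EuclideanSpace.norm_sq_eq, ← sum_coe_sort S]
    refine sum_congr rfl fun m _ => ?_
    have : L z m = ((√(G m (t m) / t m ^ 2) : ℝ) : 𝕜) * T z m := rfl
    rw [this, norm_mul, mul_pow, RCLike.norm_ofReal, sq_abs, Real.sq_sqrt (hG0 m)]
  have key : ∀ z : E, ‖j (T z)‖ ^ 2 ≤ 8 * K * ‖L z‖ ^ 2 ∧
      ‖L z‖ ^ 2 ≤ (4 * K + 1) * ‖j (T z)‖ ^ 2 := fun z => by
    rcases eq_or_ne z 0 with rfl | hz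
    · simp
    have hr : 0 < ‖j (T z)‖ := by linarith [(hT1 z).1, norm_pos_iff.2 hz]
    set r := ‖j (T z)‖ with hr'
    set a : ℕ →₀ 𝕜 := ((r⁻¹ : ℝ) : 𝕜) • T z with ha
    have han : ∀ m, ‖a m‖ = r⁻¹ * ‖T z m‖ := fun m => by
      rw [ha, Finsupp.smul_apply, norm_smul, RCLike.norm_ofReal, abs_of_pos (inv_pos.2 hr)]
    have hja : ‖j a‖ = 1 := by
      rw [ha, map_smul, norm_smul, RCLike.norm_ofReal, abs_of_pos (inv_pos.2 hr),
        inv_mul_cancel₀ hr.ne']
    have hex : ∀ m, a m ≠ 0 → ∃ i, β i m ≠ 0 := fun m hm => by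
      by_contra h0
      push Not at h0
      exact hm (by simp [ha, hTz, Finsupp.finsetSum_apply, h0])
    have h1 := (h.le_iff a 1 one_pos).2 (by rw [hja]; norm_num)
    have h2 := h.one_le (a := a) one_pos (by rw [hja]; norm_num)
    obtain ⟨q1, q2⟩ := quad h.orl hK (by positivity) H ht0 hτ (a := a)
      (fun m hm => by obtain ⟨i, hi⟩ := hex m hm; exact hβk i m hi)
      (fun m hm => by
        obtain ⟨i, hi⟩ := hex m (Finsupp.mem_support_iff.1 hm)
        exact mem_biUnion.2 ⟨i, mem_univ _, Finsupp.mem_support_iff.2 hi⟩) h1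
      (fun m hm => by
        obtain ⟨i, hi⟩ := hex m hm
        have h3 : 0 < ∑ i, ‖β i m‖ := (norm_pos_iff.2 hi).trans_le
          (single_le_sum (f := fun i => ‖β i m‖) (fun _ _ => norm_nonneg _) (mem_univ i))
        have h4 : ‖T z m‖ ≤ ‖z‖ * ∑ i, ‖β i m‖ := by
          rw [hTz, Finsupp.finsetSum_apply, mul_sum]
          refine (norm_sum_le _ _).trans (sum_le_sum fun i _ => ?_)
          rw [Finsupp.smul_apply, norm_smul]
          exact mul_le_mul_of_nonneg_right (hc i z) (norm_nonneg _)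
        have h5 : 2 < 2 ^ U * θ := by
          rw [hθ, mul_one_div, lt_div_iff₀ (by positivity)]; linarith
        rw [han, inv_mul_lt_iff₀ hr]
        simp only [ht]
        calc _ ≤ 2 * r * ∑ i, ‖β i m‖ :=
              h4.trans (mul_le_mul_of_nonneg_right (hT1 z).1 h3.le)
          _ = 2 * (r * ∑ i, ‖β i m‖) := by ring
          _ < 2 ^ U * θ * (r * ∑ i, ‖β i m‖) := mul_lt_mul_of_pos_right h5 (by positivity)
          _ = _ := by ring)
    have e1 : ‖L z‖ ^ 2 = r ^ 2 * ∑ m ∈ S, G m (t m) / t m ^ 2 * ‖a m‖ ^ 2 := by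
      rw [hLz, mul_sum]
      refine sum_congr rfl fun m _ => ?_
      rw [han]; field_simp
    have e2 : U * (4 ^ U * η) ≤ 1 / 4 := by
      rw [hη, mul_one_div, ← mul_div_assoc, div_le_div_iff₀ (by positivity) (by positivity)]
      have : (0 : ℝ) < 4 ^ U := by positivity
      nlinarith
    have e3 : U * η ≤ U * (4 ^ U * η) := mul_le_mul_of_nonneg_left
      (le_mul_of_one_le_left (by positivity) (one_le_pow₀ (by norm_num))) (by positivity)
    have hr2 : 0 < r ^ 2 := by positivity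
    rw [e1]
    constructor
    · nlinarith
    · nlinarith [mul_le_mul_of_nonneg_left h1 hK.le]
  refine bmDist_le hn L (by positivity) (by positivity) (fun z => ?_) fun z => ?_
  · have h1 : ‖j (T z)‖ ≤ √(8 * K) * ‖L z‖ := by
      refine (pow_le_pow_iff_left₀ (norm_nonneg _) (by positivity) two_ne_zero).1 ?_
      rw [mul_pow, Real.sq_sqrt (by positivity)]; exact (key z).1
    linarith [(hT1 z).1]
  · have h1 : ‖L z‖ ≤ √(4 * K + 1) * ‖j (T z)‖ := by
      refine (pow_le_pow_iff_left₀ (norm_nonneg _) (by positivity) two_ne_zero).1 ?_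
      rw [mul_pow, Real.sq_sqrt (by positivity)]; exact (key z).2
    rw [mul_assoc]
    exact h1.trans (mul_le_mul_of_nonneg_left (hT1 z).2 (by positivity))

end Pool.Agent.MP_650c5e_an.K
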