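import Pool.Agent.MP_650c5e_an.KDefs

/-! Modulars of finitely supported sequences. -/

namespace Pool.Agent.MP_650c5e_an.K

open Finset Filter Topology

set_option maxHeartbeats 400000

/-- Convex nonnegative functions on the half line vanishing at zero. -/
structure Orl (M : ℝ → ℝ) : Prop where
  conv : ConvexOn ℝ (Set.Ici 0) M
  nonneg : ∀ t, 0 ≤ t → 0 ≤ M t
  zero : M 0 = 0

lemma Orl.mul_le {M : ℝ → ℝ} (h : Orl M) {s t : ℝ} (hs0 : 0 ≤ s) (hs1 : s ≤ 1) (ht : 0 ≤ t) :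
    M (s * t) ≤ s * M t := by
  have := h.conv.2 (show t ∈ Set.Ici (0 : ℝ) from ht) (Set.mem_Ici.2 le_rfl)
    hs0 (show 0 ≤ 1 - s by linarith) (by ring)
  simpa [h.zero] using this

lemma Orl.mono {M : ℝ → ℝ} (h : Orl M) {s t : ℝ} (hs : 0 ≤ s) (hst : s ≤ t) : M s ≤ M t := by
  rcases (hs.trans hst).eq_or_lt with h0 | h0
  · rw [le_antisymm (h0 ▸ hst) hs, ← h0]
  · have h1 : s / t ≤ 1 := (div_le_one h0).2 hst
    have h2 := h.mul_le (div_nonneg hs h0.le) h1 h0.le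
    rw [div_mul_cancel₀ _ h0.ne'] at h2
    have h3 := h.nonneg t h0.le
    nlinarith [div_nonneg hs h0.le]

lemma Orl.contAt {M : ℝ → ℝ} (h : Orl M) {t : ℝ} (ht : 0 < t) : ContinuousAt M t := by
  have := h.conv.continuousOn_interior
  rw [interior_Ici] at this
  exact this.continuousAt (Ioi_mem_nhds ht)

variable {𝕜 : Type} [RCLike 𝕜]

/-- The modular of `t • a`. -/
noncomputable def md (G : ℕ → ℝ → ℝ) (a : ℕ →₀ 𝕜) (t : ℝ) : ℝ :=
  ∑ n ∈ a.support, G n (t * ‖a n‖)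

variable {G : ℕ → ℝ → ℝ}

lemma md_eq (hG : ∀ n, Orl (G n)) {a : ℕ →₀ 𝕜} {S : Finset ℕ} (hS : a.support ⊆ S) (t : ℝ) :
    md G a t = ∑ n ∈ S, G n (t * ‖a n‖) :=
  sum_subset hS fun n _ hn => by
    rw [Finsupp.notMem_support_iff.1 hn, norm_zero, mul_zero, (hG n).zero]

lemma orl_md (hG : ∀ n, Orl (G n)) (a : ℕ →₀ 𝕜) : Orl (md G a) where
  conv := ⟨convex_Ici 0, fun x hx y hy p q hp hq hpq => by
    simp only [md, smul_eq_mul, mul_sum, ← sum_add_distrib]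
    refine sum_le_sum fun n _ => ?_
    have := (hG n).conv.2 (show x * ‖a n‖ ∈ Set.Ici (0 : ℝ) from mul_nonneg hx (norm_nonneg _))
      (show y * ‖a n‖ ∈ Set.Ici (0 : ℝ) from mul_nonneg hy (norm_nonneg _)) hp hq hpq
    simp only [smul_eq_mul] at this
    rw [show (p * x + q * y) * ‖a n‖ = p * (x * ‖a n‖) + q * (y * ‖a n‖) by ring]
    exact this⟩
  nonneg t ht := sum_nonneg fun n _ => (hG n).nonneg _ (mul_nonneg ht (norm_nonneg _))
  zero := by simp [md, (hG _).zero]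

lemma md_congr (hG : ∀ n, Orl (G n)) {a b : ℕ →₀ 𝕜} {c : ℝ} (h : ∀ n, ‖a n‖ = c * ‖b n‖)
    (t : ℝ) : md G a t = md G b (t * c) := by
  classical
  rw [md_eq hG (subset_union_left (s₂ := b.support)),
    md_eq hG (subset_union_right (s₁ := a.support))]
  exact sum_congr rfl fun n _ => by rw [h, mul_assoc]

lemma md_smul (hG : ∀ n, Orl (G n)) (a : ℕ →₀ 𝕜) (c : 𝕜) (t : ℝ) :
    md G (c • a) t = md G a (t * ‖c‖) :=
  md_congr hG (fun n => by simp) t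

lemma md_mono (hG : ∀ n, Orl (G n)) {a b : ℕ →₀ 𝕜} (h : ∀ n, ‖a n‖ ≤ ‖b n‖) {t : ℝ}
    (ht : 0 ≤ t) : md G a t ≤ md G b t := by
  classical
  rw [md_eq hG (subset_union_left (s₂ := b.support)),
    md_eq hG (subset_union_right (s₁ := a.support))]
  exact sum_le_sum fun n _ => (hG n).mono (mul_nonneg ht (norm_nonneg _))
    (mul_le_mul_of_nonneg_left (h n) ht)

/-- Families with pairwise disjoint supports. -/
def Dj {ι : Type} (y : ι → ℕ →₀ 𝕜) : Prop := ∀ i i' n, y i n ≠ 0 → y i' n ≠ 0 → i = i'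

lemma Dj.point {ι : Type} {y : ι → ℕ →₀ 𝕜} (hy : Dj y) (S : Finset ι) (n : ℕ) (F : 𝕜 → ℝ)
    (hF : F 0 = 0) : F ((∑ i ∈ S, y i) n) = ∑ i ∈ S, F (y i n) := by
  rw [Finsupp.finsetSum_apply]
  by_cases h : ∃ i ∈ S, y i n ≠ 0
  · obtain ⟨i, hi, hn⟩ := h
    have h0 : ∀ i' ∈ S, i' ≠ i → y i' n = 0 := fun i' _ hne => by
      by_contra h'
      exact hne (hy _ _ _ h' hn)
    rw [sum_eq_single_of_mem i hi h0, sum_eq_single_of_mem i hi fun i' hi' hne => by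
      rw [h0 i' hi' hne, hF]]
  · push Not at h
    rw [sum_eq_zero h, hF, sum_eq_zero fun i hi => by rw [h i hi, hF]]

lemma Dj.smul {ι : Type} {y : ι → ℕ →₀ 𝕜} (hy : Dj y) (c : ι → 𝕜) : Dj fun i => c i • y i :=
  fun i i' n h h' => hy i i' n (right_ne_zero_of_mul h) (right_ne_zero_of_mul h')

lemma Dj.comp {ι κ : Type} {y : ι → ℕ →₀ 𝕜} (hy : Dj y) {φ : κ → ι}
    (hφ : Function.Injective φ) : Dj fun i => y (φ i) :=
  fun _ _ n h h' => hφ (hy _ _ n h h')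

lemma md_sum (hG : ∀ n, Orl (G n)) {ι : Type} {y : ι → ℕ →₀ 𝕜} (hy : Dj y) (S : Finset ι)
    (t : ℝ) : md G (∑ i ∈ S, y i) t = ∑ i ∈ S, md G (y i) t := by
  classical
  have h1 : (∑ i ∈ S, y i).support ⊆ S.biUnion fun i => (y i).support :=
    Finsupp.support_finsetSum
  rw [md_eq hG h1, sum_congr rfl fun i hi => md_eq hG
    (subset_biUnion_of_mem (fun i => (y i).support) hi) t, sum_comm]
  exact sum_congr rfl fun n _ => hy.point S n (fun c => G n (t * ‖c‖)) (by simp [(hG n).zero])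

lemma md_blocks (hG : ∀ n, Orl (G n)) {y : ℕ → ℕ →₀ 𝕜} (hy : Dj y) (a : ℕ →₀ 𝕜) (t : ℝ) :
    md G (Finsupp.linearCombination 𝕜 y a) t = md (fun k => md G (y k)) a t := by
  rw [Finsupp.linearCombination_apply, Finsupp.sum, md_sum hG (hy.smul a)]
  exact sum_congr rfl fun k _ => md_smul hG _ _ _

variable {Y : Type} [NormedAddCommGroup Y] [NormedSpace 𝕜 Y]

/-- The norm of `j a` is the Luxemburg norm of `a`. -/
structure Rep (G : ℕ → ℝ → ℝ) (j : (ℕ →₀ 𝕜) →ₗ[𝕜] Y) : Prop where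
  orl : ∀ n, Orl (G n)
  le_iff : ∀ a t, 0 < t → (md G a t ≤ 1 ↔ t * ‖j a‖ ≤ 1)

variable {j : (ℕ →₀ 𝕜) →ₗ[𝕜] Y}

lemma Rep.one_le (h : Rep G j) {a : ℕ →₀ 𝕜} {t : ℝ} (ht : 0 < t) (ha : t * ‖j a‖ = 1) :
    1 ≤ md G a t := by
  have h1 : Tendsto (md G a) (𝓝[>] t) (𝓝 (md G a t)) :=
    ((orl_md h.orl a).contAt ht).tendsto.mono_left nhdsWithin_le_nhds
  refine ge_of_tendsto h1 (eventually_mem_nhdsWithin.mono fun s hs => ?_)
  have hs' : t < s := hs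
  by_contra h2
  have h3 := (h.le_iff a s (ht.trans hs')).1 (not_le.1 h2).le
  have h4 : 0 < ‖j a‖ := by
    rcases (norm_nonneg (j a)).eq_or_lt with h0 | h0
    · rw [← h0] at ha; simp at ha
    · exact h0
  nlinarith

lemma Rep.norm_mono (h : Rep G j) {a b : ℕ →₀ 𝕜} (hab : ∀ n, ‖a n‖ ≤ ‖b n‖) :
    ‖j a‖ ≤ ‖j b‖ := by
  refine le_of_forall_gt_imp_ge_of_dense fun r hr => ?_
  have hr0 : 0 < r := (norm_nonneg _).trans_lt hr
  have h1 := (h.le_iff b r⁻¹ (inv_pos.2 hr0)).2 (by rw [inv_mul_le_iff₀ hr0]; linarith)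
  have h2 := (h.le_iff a r⁻¹ (inv_pos.2 hr0)).1
    ((md_mono h.orl hab (inv_pos.2 hr0).le).trans h1)
  rw [inv_mul_le_iff₀ hr0] at h2
  linarith

lemma Rep.norm_signs (h : Rep G j) {ι : Type} {y : ι → ℕ →₀ 𝕜} (hy : Dj y) (S : Finset ι)
    (ε : ι → Bool) : ‖∑ i ∈ S, if ε i then j (y i) else -j (y i)‖ = ‖j (∑ i ∈ S, y i)‖ := by
  have h1 : (∑ i ∈ S, if ε i then j (y i) else -j (y i)) =
      j (∑ i ∈ S, (if ε i then (1 : 𝕜) else -1) • y i) := by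
    rw [map_sum]
    exact sum_congr rfl fun i _ => by split_ifs <;> simp
  have h2 : ∀ n, ‖(∑ i ∈ S, (if ε i then (1 : 𝕜) else -1) • y i) n‖ = ‖(∑ i ∈ S, y i) n‖ := by
    intro n
    rw [(hy.smul _).point S n norm norm_zero, hy.point S n norm norm_zero]
    exact sum_congr rfl fun i _ => by split_ifs <;> simp
  rw [h1]
  exact le_antisymm (h.norm_mono fun n => (h2 n).le) (h.norm_mono fun n => (h2 n).ge)

lemma Rep.radAvg (h : Rep G j) {m : ℕ} {y : Fin m → ℕ →₀ 𝕜} (hy : Dj y) :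
    radAvg (fun i => j (y i)) = ‖j (∑ i, y i)‖ := by
  unfold K.radAvg
  rw [sum_congr rfl fun ε _ => by rw [h.norm_signs hy univ ε]]
  simp

lemma rep_of_moNorm {M : ℕ → ℝ → ℝ} (hM : ∀ n, IsOrlicz (M n)) (hj : ∀ a, ‖j a‖ = moNorm 𝕜 M a) :
    Rep M j := by
  have hO : ∀ n, Orl (M n) := fun n => ⟨(hM n).1, (hM n).2.1, (hM n).2.2.1⟩
  refine ⟨hO, fun a t ht => ?_⟩
  have h1 : ∀ ρ : ℝ, ∑' n, M n (‖a n‖ / ρ) = md M a ρ⁻¹ := fun ρ => by
    rw [tsum_eq_sum (s := a.support) fun n hn => by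
      rw [Finsupp.notMem_support_iff.1 hn, norm_zero, zero_div, (hO n).zero]]
    exact sum_congr rfl fun n _ => by rw [div_eq_inv_mul]
  have hb : BddBelow {ρ : ℝ | 0 < ρ ∧ md M a ρ⁻¹ ≤ 1} := ⟨0, fun ρ hρ => hρ.1.le⟩
  have ho := orl_md hO a
  have hne : {ρ : ℝ | 0 < ρ ∧ md M a ρ⁻¹ ≤ 1}.Nonempty := by
    have h0 := ho.nonneg 1 zero_le_one
    have h2 : 0 < md M a 1 + 1 := by linarith
    refine ⟨md M a 1 + 1, h2, ?_⟩
    have h3 := ho.mul_le (inv_pos.2 h2).le (inv_le_one_of_one_le₀ (by linarith)) zero_le_one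
    rw [mul_one] at h3
    refine h3.trans ?_
    rw [inv_mul_le_iff₀ h2]; linarith
  rw [hj, moNorm]
  simp only [h1]
  constructor
  · intro h
    have := csInf_le hb (show t⁻¹ ∈ {ρ : ℝ | 0 < ρ ∧ md M a ρ⁻¹ ≤ 1} from
      ⟨inv_pos.2 ht, by rwa [inv_inv]⟩)
    calc _ ≤ t * t⁻¹ := mul_le_mul_of_nonneg_left this ht.le
      _ = 1 := mul_inv_cancel₀ ht.ne'
  · intro h
    have h2 : Tendsto (md M a) (𝓝[<] t) (𝓝 (md M a t)) :=
      (ho.contAt ht).tendsto.mono_left nhdsWithin_le_nhds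
    refine le_of_tendsto h2 ?_
    filter_upwards [Ioo_mem_nhdsLT ht] with s hs
    have h3 : sInf {ρ : ℝ | 0 < ρ ∧ md M a ρ⁻¹ ≤ 1} < s⁻¹ := by
      have h4 : t⁻¹ < s⁻¹ := inv_strictAnti₀ hs.1 hs.2
      refine lt_of_le_of_lt ?_ h4
      rw [← one_div, le_div_iff₀ ht]; linarith
    obtain ⟨ρ, hρ, hρs⟩ := exists_lt_of_csInf_lt hne h3
    refine (ho.mono hs.1.le ?_).trans hρ.2
    rw [le_inv_comm₀ hs.1 hρ.1]; exact hρs.le

end Pool.Agent.MP_650c5e_an.K
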