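import Pool.Agent.MP_650c5e_an.MOBasic

/-! Asymptotic profiles of the modular and their growth in near Hilbert spaces. -/

namespace Pool.Agent.MP_650c5e_an.K

open Finset Filter Topology

set_option maxHeartbeats 400000

variable {𝕜 : Type} [RCLike 𝕜] {G : ℕ → ℝ → ℝ}

/-- `f` is approximated by the dyadic values of the modular of vectors supported far away. -/
def Prof (𝕜 : Type) [RCLike 𝕜] (G : ℕ → ℝ → ℝ) (f : ℕ → ℝ) : Prop :=
  ∀ ε : ℝ, 0 < ε → ∀ J K : ℕ, ∃ a : ℕ →₀ 𝕜, (∀ n, a n ≠ 0 → K ≤ n) ∧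
    ∀ l ≤ J, |md G a ((1 / 2) ^ l) - f l| ≤ ε

lemma exists_bound (a : ℕ →₀ 𝕜) : ∃ N, ∀ n, a n ≠ 0 → n < N := by
  obtain ⟨N, hN⟩ := a.support.exists_nat_subset_range
  exact ⟨N, fun n hn => mem_range.1 (hN (Finsupp.mem_support_iff.2 hn))⟩

lemma realize (P : ℕ → (ℕ →₀ 𝕜) → Prop)
    (h : ∀ i K, ∃ a : ℕ →₀ 𝕜, (∀ n, a n ≠ 0 → K ≤ n) ∧ P i a) :
    ∃ y : ℕ → ℕ →₀ 𝕜, Dj y ∧ ∀ i, P i (y i) := by
  choose g hg1 hg2 using h
  choose N hN using exists_bound (𝕜 := 𝕜)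
  set st : ℕ → ℕ := fun i => Nat.rec 0 (fun i s => max s (N (g i s))) i
  have hst : ∀ i, st (i + 1) = max (st i) (N (g i (st i))) := fun i => rfl
  have hm : Monotone st := monotone_nat_of_le_succ fun i => by rw [hst]; exact le_max_left _ _
  have h1 : ∀ i i' n, i < i' → g i (st i) n ≠ 0 → g i' (st i') n ≠ 0 → False := by
    intro i i' n hi h h'
    have h2 := hN _ n h
    have h3 := hg1 _ _ n h'
    have h4 := hm (Nat.succ_le_of_lt hi)
    rw [hst] at h4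
    omega
  refine ⟨fun i => g i (st i), fun i i' n h h' => ?_, fun i => hg2 _ _⟩
  rcases lt_trichotomy i i' with h0 | h0 | h0
  · exact (h1 _ _ n h0 h h').elim
  · exact h0
  · exact (h1 _ _ n h0 h' h).elim

lemma prof_zero : Prof 𝕜 G fun _ => 0 := fun ε hε J K =>
  ⟨0, fun n hn => (hn rfl).elim, fun l _ => by simp [md, hε.le]⟩

lemma Prof.add (hG : ∀ n, Orl (G n)) {f g : ℕ → ℝ} (hf : Prof 𝕜 G f) (hg : Prof 𝕜 G g) :
    Prof 𝕜 G fun l => f l + g l := by
  classical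
  intro ε hε J K
  obtain ⟨a, ha, ha'⟩ := hf (ε / 2) (half_pos hε) J K
  obtain ⟨N, hN⟩ := exists_bound a
  obtain ⟨b, hb, hb'⟩ := hg (ε / 2) (half_pos hε) J (max K N)
  have h0 : ∀ n, a n = 0 ∨ b n = 0 := fun n => by
    by_contra h
    push Not at h
    have := hN n h.1
    have := hb n h.2
    omega
  refine ⟨a + b, fun n hn => ?_, fun l hl => ?_⟩
  · rcases h0 n with h | h
    · exact (le_max_left _ _).trans (hb n fun h' => hn (by simp [h, h']))
    · exact ha n fun h' => hn (by simp [h, h'])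
  · have h1 : md G (a + b) ((1 / 2) ^ l) = md G a ((1 / 2) ^ l) + md G b ((1 / 2) ^ l) := by
      rw [md_eq hG Finsupp.support_add, md_eq hG (subset_union_left (s₂ := b.support)),
        md_eq hG (subset_union_right (s₁ := a.support)), ← sum_add_distrib]
      refine sum_congr rfl fun n _ => ?_
      rcases h0 n with h | h <;> simp [h, (hG n).zero]
    have h2 := abs_le.1 (ha' l hl)
    have h3 := abs_le.1 (hb' l hl)
    rw [h1, abs_le]
    constructor <;> linarith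

lemma Prof.shift (hG : ∀ n, Orl (G n)) {f : ℕ → ℝ} (hf : Prof 𝕜 G f) (r : ℕ) :
    Prof 𝕜 G fun l => f (r + l) := by
  intro ε hε J K
  obtain ⟨a, ha, ha'⟩ := hf ε hε (r + J) K
  refine ⟨(((1 / 2) ^ r : ℝ) : 𝕜) • a, fun n hn => ha n (right_ne_zero_of_mul hn), fun l hl => ?_⟩
  rw [md_smul hG, RCLike.norm_ofReal, abs_of_pos (a := ((1 : ℝ) / 2) ^ r) (by positivity),
    ← pow_add, add_comm l r]
  exact ha' _ (by omega)

lemma Prof.sum (hG : ∀ n, Orl (G n)) {ι : Type} {f : ι → ℕ → ℝ} (S : Finset ι)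
    (hf : ∀ i, Prof 𝕜 G (f i)) : Prof 𝕜 G fun l => ∑ i ∈ S, f i l := by
  classical
  induction S using Finset.induction with
  | empty => simpa using prof_zero
  | insert i S hi ih => simpa [sum_insert hi] using (hf i).add hG ih

lemma Prof.nsmul (hG : ∀ n, Orl (G n)) {f : ℕ → ℝ} (hf : Prof 𝕜 G f) (m : ℕ) :
    Prof 𝕜 G fun l => m * f l := by
  simpa using Prof.sum hG (f := fun _ : ℕ => f) (range m) fun _ => hf

lemma Prof.nonneg (hG : ∀ n, Orl (G n)) {f : ℕ → ℝ} (hf : Prof 𝕜 G f) (l : ℕ) : 0 ≤ f l := by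
  refine le_of_forall_pos_le_add fun ε hε => ?_
  obtain ⟨a, -, ha⟩ := hf ε hε l 0
  have h1 := abs_le.1 (ha l le_rfl)
  have h2 := (orl_md hG a).nonneg ((1 / 2) ^ l) (by positivity)
  linarith

lemma Prof.le_zero (hG : ∀ n, Orl (G n)) {f : ℕ → ℝ} (hf : Prof 𝕜 G f) (l : ℕ) :
    f l ≤ (1 / 2) ^ l * f 0 := by
  refine le_of_forall_pos_le_add fun ε hε => ?_
  obtain ⟨a, -, ha⟩ := hf (ε / 2) (half_pos hε) l 0
  have h1 := abs_le.1 (ha l le_rfl)
  have h2 := abs_le.1 (ha 0 (Nat.zero_le _))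
  have h4 : ((1 : ℝ) / 2) ^ l ≤ 1 := pow_le_one₀ (by norm_num) (by norm_num)
  have h5 : (0 : ℝ) < (1 / 2) ^ l := by positivity
  have h3 := (orl_md hG a).mul_le h5.le h4 zero_le_one
  rw [pow_zero] at h2
  rw [mul_one] at h3
  nlinarith

variable {Y : Type} [NormedAddCommGroup Y] [NormedSpace 𝕜 Y] {j : (ℕ →₀ 𝕜) →ₗ[𝕜] Y}

lemma rpow_two_pow {κ : ℝ} (hκ : 0 < κ) (l : ℕ) :
    ((2 : ℝ) ^ l) ^ (2 + Real.logb 2 κ) = 4 ^ l * κ ^ l := by
  rw [← Real.rpow_natCast 2 l, ← Real.rpow_mul zero_le_two, mul_comm, Real.rpow_mul zero_le_two,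
    Real.rpow_natCast, Real.rpow_add two_pos, Real.rpow_logb two_pos (by norm_num) hκ, mul_pow]
  norm_num

lemma prof_type (h : Rep G j) {κ : ℝ} (hκ1 : 1 < κ) (hκ2 : κ ≤ 2)
    (hY : HasType Y (2 + Real.logb 2 κ⁻¹)) :
    ∃ A : ℝ, 0 < A ∧ ∀ f, Prof 𝕜 G f → f 0 ≤ 2 → ∀ l, 4 ^ l * f l ≤ A * κ ^ l := by
  obtain ⟨C, hC⟩ := hY
  set p := 2 + Real.logb 2 κ⁻¹ with hp
  have hκ0 : 0 < κ := by linarith
  have hp0 : 0 < p := by
    have := Real.logb_le_logb_of_le one_lt_two hκ0 hκ2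
    rw [Real.logb_self_eq_one one_lt_two] at this
    rw [hp, Real.logb_inv]; linarith
  refine ⟨4 * ((|C| + 1) * 3) ^ p, by positivity, fun f hf h2 l => ?_⟩
  rcases (hf.nonneg h.orl l).eq_or_lt with hx | hx
  · rw [← hx, mul_zero]; positivity
  have hx2 : f l ≤ 2 := (hf.le_zero h.orl l).trans (by
    have h4 : ((1 : ℝ) / 2) ^ l ≤ 1 := pow_le_one₀ (by norm_num) (by norm_num)
    nlinarith [hf.nonneg h.orl 0])
  obtain ⟨y, hy, hy'⟩ := realize (fun _ a => ∀ i ≤ l, |md G a ((1 / 2) ^ i) - f i| ≤ f l / 2)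
    fun _ K => hf _ (half_pos hx) l K
  set m := ⌊2 / f l⌋₊ + 1 with hm
  have hm1 : 2 / f l < m := by rw [hm]; push_cast; exact Nat.lt_floor_add_one _
  have hm2 : (m : ℝ) ≤ 4 / f l := by
    have h3 := Nat.floor_le (div_nonneg zero_le_two hx.le)
    have h4 : 1 ≤ 2 / f l := (one_le_div hx).2 hx2
    rw [hm]; push_cast
    have : 4 / f l = 2 / f l + 2 / f l := by ring
    linarith
  have hyd : Dj fun i : Fin m => y i := hy.comp Fin.val_injective
  have h3 : ∀ i, ‖j (y i)‖ ≤ 3 := fun i => by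
    have h4 := abs_le.1 (hy' i 0 (Nat.zero_le _))
    have h5 := (orl_md h.orl (y i)).mul_le (s := 1 / 3) (by norm_num) (by norm_num) zero_le_one
    rw [pow_zero] at h4
    rw [mul_one] at h5
    have h6 := (h.le_iff (y i) (1 / 3) (by norm_num)).1 (by linarith)
    linarith
  have h4 : 2 ^ l < ‖j (∑ i : Fin m, y i)‖ := by
    by_contra h5
    have h6 := (h.le_iff (∑ i : Fin m, y i) ((1 / 2) ^ l) (by positivity)).2 (by
      rw [one_div, inv_pow, inv_mul_le_iff₀ (by positivity), mul_one]; exact not_lt.1 h5)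
    rw [md_sum h.orl hyd] at h6
    have h7 := card_nsmul_le_sum univ (fun i : Fin m => md G (y i) ((1 / 2) ^ l)) (f l / 2)
      fun i _ => by linarith [abs_le.1 (hy' i l le_rfl)]
    simp only [card_univ, Fintype.card_fin, nsmul_eq_mul] at h7
    rw [div_lt_iff₀ hx] at hm1
    linarith
  have h5 := hC m fun i => j (y i)
  rw [h.radAvg hyd] at h5
  have h6 : ∑ i : Fin m, ‖j (y i)‖ ^ p ≤ m * 3 ^ p := by
    simpa using sum_le_card_nsmul univ (fun i : Fin m => ‖j (y i)‖ ^ p) (3 ^ p) fun i _ =>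
      Real.rpow_le_rpow (norm_nonneg _) (h3 i) hp0.le
  have h7 : (2 : ℝ) ^ l ≤ (|C| + 1) * (m * 3 ^ p) ^ (1 / p) := by
    refine h4.le.trans (h5.trans (mul_le_mul (by linarith [le_abs_self C]) ?_ (by positivity)
      (by positivity)))
    exact Real.rpow_le_rpow (by positivity) h6 (by positivity)
  have h8 := Real.rpow_le_rpow (by positivity) h7 hp0.le
  rw [rpow_two_pow (inv_pos.2 hκ0), Real.mul_rpow (by positivity) (by positivity),
    ← Real.rpow_mul (by positivity), one_div_mul_cancel hp0.ne', Real.rpow_one, inv_pow,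
    mul_inv_le_iff₀ (by positivity)] at h8
  rw [le_div_iff₀ hx] at hm2
  rw [Real.mul_rpow (by positivity) (by positivity)]
  calc 4 ^ l * f l ≤ (|C| + 1) ^ p * (m * 3 ^ p) * κ ^ l * f l :=
        mul_le_mul_of_nonneg_right h8 hx.le
    _ = (m * f l) * ((|C| + 1) ^ p * 3 ^ p * κ ^ l) := by ring
    _ ≤ 4 * ((|C| + 1) ^ p * 3 ^ p * κ ^ l) := mul_le_mul_of_nonneg_right hm2 (by positivity)
    _ = _ := by ring

lemma prof_cotype (h : Rep G j) {κ : ℝ} (hκ1 : 1 < κ) (hY : HasCotype Y (2 + Real.logb 2 κ)) :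
    ∃ A : ℝ, 0 < A ∧ ∀ f, Prof 𝕜 G f → 1 < f 0 → ∀ l, 1 ≤ A * κ ^ l * (4 ^ l * f l) := by
  obtain ⟨C, hC⟩ := hY
  set q := 2 + Real.logb 2 κ with hq
  have hκ0 : 0 < κ := by linarith
  have hq0 : 0 < q := by
    have := Real.logb_pos one_lt_two hκ1
    rw [hq]; linarith
  refine ⟨2 * (|C| + 1) ^ q, by positivity, fun f hf h1 l => ?_⟩
  set B : ℝ := ((|C| + 1) * 2 ^ l) ^ q with hB
  have hB1 : 1 ≤ B := Real.one_le_rpow (by
    have : (1 : ℝ) ≤ 2 ^ l := one_le_pow₀ one_le_two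
    nlinarith [abs_nonneg C]) hq0.le
  set m := ⌊B⌋₊ + 1 with hm
  have hm1 : B < m := by rw [hm]; push_cast; exact Nat.lt_floor_add_one _
  have hm2 : (m : ℝ) ≤ 2 * B := by
    have h3 := Nat.floor_le (zero_le_one.trans hB1)
    rw [hm]; push_cast; linarith
  have hm0 : (0 : ℝ) < m := by linarith
  have hx : 1 / (m : ℝ) ≤ f l := by
    by_contra hx
    push Not at hx
    obtain ⟨y, hy, hy'⟩ := realize (fun _ a => ∀ i ≤ l, |md G a ((1 / 2) ^ i) - f i| ≤
      min (1 / (m : ℝ) - f l) ((f 0 - 1) / 2)) fun _ K => hf _ (lt_min (by linarith) (by linarith)) l K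
    have hyd : Dj fun i : Fin m => y i := hy.comp Fin.val_injective
    have h3 : ∀ i, 1 ≤ ‖j (y i)‖ := fun i => by
      by_contra h4
      have h5 := (h.le_iff (y i) 1 one_pos).2 (by linarith)
      have h6 := abs_le.1 ((hy' i 0 (Nat.zero_le _)).trans (min_le_right _ _))
      rw [pow_zero] at h6
      linarith
    have h4 : ‖j (∑ i : Fin m, y i)‖ ≤ 2 ^ l := by
      have h5 := (h.le_iff (∑ i : Fin m, y i) ((1 / 2) ^ l) (by positivity)).1 (by
        rw [md_sum h.orl hyd]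
        refine (sum_le_card_nsmul _ _ (1 / (m : ℝ)) fun i _ => ?_).trans (by simp [hm0.ne'])
        linarith [abs_le.1 ((hy' i l le_rfl).trans (min_le_left _ _))])
      rwa [one_div, inv_pow, inv_mul_le_iff₀ (by positivity), mul_one] at h5
    have h5 := hC m fun i => j (y i)
    rw [h.radAvg hyd] at h5
    have h6 : (m : ℝ) ≤ ∑ i : Fin m, ‖j (y i)‖ ^ q := by
      simpa using card_nsmul_le_sum univ (fun i : Fin m => ‖j (y i)‖ ^ q) 1 fun i _ =>
        Real.one_le_rpow (h3 i) hq0.le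
    have h7 : (m : ℝ) ^ (1 / q) ≤ (|C| + 1) * 2 ^ l :=
      (Real.rpow_le_rpow hm0.le h6 (by positivity)).trans (h5.trans
        (mul_le_mul (by linarith [le_abs_self C]) h4 (norm_nonneg _) (by positivity)))
    have h8 := Real.rpow_le_rpow (by positivity) h7 hq0.le
    rw [← Real.rpow_mul hm0.le, one_div_mul_cancel hq0.ne', Real.rpow_one] at h8
    linarith
  rw [div_le_iff₀ hm0] at hx
  rw [hB, Real.mul_rpow (by positivity) (by positivity), rpow_two_pow hκ0] at hm2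
  calc 1 ≤ f l * m := hx
    _ ≤ f l * (2 * ((|C| + 1) ^ q * (4 ^ l * κ ^ l))) :=
      mul_le_mul_of_nonneg_left hm2 (hf.nonneg h.orl l)
    _ = _ := by ring

lemma prof_growth (h : Rep G j) (hY : NearHilbert Y) {κ : ℝ} (hκ1 : 1 < κ) (hκ2 : κ ≤ 2) :
    ∃ A : ℝ, 0 < A ∧ ∀ f, Prof 𝕜 G f → ∀ i l, 0 < f i → f i ≤ 1 →
      4 ^ l * f (i + l) ≤ A * κ ^ l * f i ∧ f i ≤ A * κ ^ l * (4 ^ l * f (i + l)) := by
  have hκ0 : 0 < κ := by linarith
  have h1 := Real.logb_pos one_lt_two hκ1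
  have h2 := Real.logb_le_logb_of_le one_lt_two hκ0 hκ2
  rw [Real.logb_self_eq_one one_lt_two] at h2
  obtain ⟨A, hA, HA⟩ := prof_type h hκ1 hκ2
    (hY.1 _ (by rw [Real.logb_inv]; linarith) (by rw [Real.logb_inv]; linarith))
  obtain ⟨B, hB, HB⟩ := prof_cotype h hκ1 (hY.2.1 _ (by linarith))
  refine ⟨A + 2 * B, by positivity, fun f hf i l h0 h3 => ?_⟩
  set m := ⌊1 / f i⌋₊ + 1 with hm
  have hm1 : 1 < m * f i := by
    rw [← div_lt_iff₀ h0, hm]; push_cast; exact Nat.lt_floor_add_one _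
  have hm2 : m * f i ≤ 2 := by
    have h4 := Nat.floor_le (div_nonneg zero_le_one h0.le)
    rw [le_div_iff₀ h0] at h4
    rw [hm]; push_cast; linarith
  have hg := (hf.shift h.orl i).nsmul h.orl m
  have h4 := HA _ hg hm2 l
  have h5 := HB _ hg hm1 l
  have hm0 : (0 : ℝ) < m := by rw [hm]; positivity
  have h6 : 0 ≤ 4 ^ l * f (i + l) := by have := hf.nonneg h.orl (i + l); positivity
  have h7 : 0 < κ ^ l := by positivity
  constructor
  · refine le_of_mul_le_mul_left ?_ hm0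
    calc m * (4 ^ l * f (i + l)) = 4 ^ l * (m * f (i + l)) := by ring
      _ ≤ A * κ ^ l * 1 := by rw [mul_one]; exact h4
      _ ≤ (A + 2 * B) * κ ^ l * (m * f i) := by gcongr; linarith
      _ = _ := by ring
  · refine le_of_mul_le_mul_left ?_ hm0
    calc m * f i ≤ 2 * 1 := by linarith
      _ ≤ 2 * (B * κ ^ l * (4 ^ l * (m * f (i + l)))) := by gcongr
      _ = m * (2 * B * κ ^ l * (4 ^ l * f (i + l))) := by ring
      _ ≤ _ := by gcongr; linarith

end Pool.Agent.MP_650c5e_an.K
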