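import Pool.Agent.MP_650c5e_an.Space

/-! Infinite dimensional subspaces are not asymptotically Hilbertian. -/

namespace Pool.Agent.MP_650c5e_an

open Finset

set_option maxHeartbeats 800000

variable {W : Type} [NormedAddCommGroup W] [NormedSpace ℝ W]

lemma exists_notMem (hW : ¬ FiniteDimensional ℝ W) {Y : Submodule ℝ W} (hY : Y.CoFG)
    (E : Submodule ℝ W) [FiniteDimensional ℝ E] : ∃ v ∈ Y, v ∉ E := by
  by_contra h
  push Not at h
  have : FiniteDimensional ℝ Y := Submodule.finiteDimensional_of_le (S₂ := E) h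
  exact hW (Module.Finite.of_submodule_quotient Y)

lemma exists_extend (hW : ¬ FiniteDimensional ℝ W) {Y : Submodule ℝ W} (hY : Y.CoFG)
    (S : Submodule ℝ W) [FiniteDimensional ℝ S] (hS : S ≤ Y) {n : ℕ}
    (hn : Module.finrank ℝ S ≤ n) :
    ∃ E : Submodule ℝ W, S ≤ E ∧ E ≤ Y ∧ FiniteDimensional ℝ E ∧ Module.finrank ℝ E = n := by
  induction n, hn using Nat.le_induction with
  | base => exact ⟨S, le_rfl, hS, inferInstance, rfl⟩
  | succ n _ ih =>
    obtain ⟨E, h1, h2, h3, h4⟩ := ih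
    obtain ⟨v, hv, hvE⟩ := exists_notMem hW hY E
    have hv0 : v ≠ 0 := fun h => hvE (h ▸ E.zero_mem)
    refine ⟨E ⊔ Submodule.span ℝ {v}, h1.trans le_sup_left,
      sup_le h2 ((Submodule.span_singleton_le_iff_mem _ _).2 hv), inferInstance, ?_⟩
    have h5 := Submodule.finrank_sup_add_finrank_inf_eq E (Submodule.span ℝ {v})
    rw [((Submodule.disjoint_span_singleton' hv0).2 hvE).eq_bot, finrank_bot,
      finrank_span_singleton hv0] at h5
    omega

lemma par_of_equiv {H : Type} [NormedAddCommGroup H] [InnerProductSpace ℝ H] (T : W ≃L[ℝ] H)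
    {K : ℝ} (hK : ‖(T : W →L[ℝ] H)‖ * ‖(T.symm : H →L[ℝ] W)‖ ≤ K) {m : ℕ} (x : Fin m → W) :
    2 ^ m * ∑ i, ‖x i‖ ^ 2 ≤ K ^ 2 * ∑ ε : Fin m → Bool, ‖∑ i, sg (ε i) • x i‖ ^ 2 ∧
    ∑ ε : Fin m → Bool, ‖∑ i, sg (ε i) • x i‖ ^ 2 ≤ K ^ 2 * (2 ^ m * ∑ i, ‖x i‖ ^ 2) := by
  set a := ‖(T : W →L[ℝ] H)‖ with ha
  set b := ‖(T.symm : H →L[ℝ] W)‖ with hb
  have ha0 : 0 ≤ a := norm_nonneg _
  have hb0 : 0 ≤ b := norm_nonneg _
  have h1 : ∀ w, ‖T w‖ ^ 2 ≤ a ^ 2 * ‖w‖ ^ 2 := fun w => by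
    rw [← mul_pow]
    exact pow_le_pow_left₀ (norm_nonneg _) ((T : W →L[ℝ] H).le_opNorm w) 2
  have h2 : ∀ w, ‖w‖ ^ 2 ≤ b ^ 2 * ‖T w‖ ^ 2 := fun w => by
    rw [← mul_pow]
    refine pow_le_pow_left₀ (norm_nonneg _) ?_ 2
    simpa using (T.symm : H →L[ℝ] W).le_opNorm (T w)
  have h3 : ∑ ε : Fin m → Bool, ‖T (∑ i, sg (ε i) • x i)‖ ^ 2 = 2 ^ m * ∑ i, ‖T (x i)‖ ^ 2 := by
    simp_rw [map_sum, map_smul]
    exact parallelogram fun i => T (x i)
  have hK2 : b ^ 2 * a ^ 2 ≤ K ^ 2 := by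
    rw [← mul_pow, mul_comm]; exact pow_le_pow_left₀ (mul_nonneg ha0 hb0) hK 2
  constructor
  · calc 2 ^ m * ∑ i, ‖x i‖ ^ 2 ≤ 2 ^ m * ∑ i, b ^ 2 * ‖T (x i)‖ ^ 2 := by
          gcongr with i; exact h2 _
      _ = b ^ 2 * ∑ ε : Fin m → Bool, ‖T (∑ i, sg (ε i) • x i)‖ ^ 2 := by
          rw [h3, ← mul_sum]; ring
      _ ≤ b ^ 2 * ∑ ε : Fin m → Bool, a ^ 2 * ‖∑ i, sg (ε i) • x i‖ ^ 2 := by
          gcongr with ε; exact h1 _
      _ ≤ _ := by
          rw [← mul_sum, ← mul_assoc]; gcongr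
  · calc _ ≤ ∑ ε : Fin m → Bool, b ^ 2 * ‖T (∑ i, sg (ε i) • x i)‖ ^ 2 :=
          sum_le_sum fun ε _ => h2 _
      _ = b ^ 2 * (2 ^ m * ∑ i, ‖T (x i)‖ ^ 2) := by rw [← mul_sum, h3]
      _ ≤ b ^ 2 * (2 ^ m * ∑ i, a ^ 2 * ‖x i‖ ^ 2) := by
          gcongr with i; exact h1 _
      _ = b ^ 2 * a ^ 2 * (2 ^ m * ∑ i, ‖x i‖ ^ 2) := by rw [← mul_sum]; ring
      _ ≤ _ := by gcongr

lemma exists_block (hW : ¬ FiniteDimensional ℝ W) (ι : W →ₗᵢ[ℝ] XX) {Y : Submodule ℝ W}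
    (hY : Y.CoFG) (c : ℕ) {δ : ℝ} (hδ : 0 < δ) :
    ∃ w ∈ Y, ∃ u : ℕ →₀ ℝ, (∀ i < c, u i = 0) ∧ ‖ι w - emb u‖ ≤ δ ∧ 1 / 2 ≤ XN u ∧
      ∀ i, |u i| ≤ 2 := by
  let f : W →ₗ[ℝ] (Fin c → ℝ) := LinearMap.pi fun i => (crd i).toLinearMap ∘ₗ ι.toLinearMap
  obtain ⟨v, hv, hv0⟩ := exists_notMem hW (hY.inf (Submodule.CoFG.ker f)) ⊥
  have hv1 : v ≠ 0 := by simpa using hv0
  set w := ‖v‖⁻¹ • v with hw
  have hw1 : ‖ι w‖ = 1 := by rw [ι.norm_map, hw]; exact norm_smul_inv_norm hv1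
  have hw2 : w ∈ Y ⊓ LinearMap.ker f := Submodule.smul_mem _ _ hv
  obtain ⟨N, hN⟩ := Metric.tendsto_atTop.1 (tendsto_trunc (ι w)) (min δ (1 / 2)) (by positivity)
  have h1 := hN N le_rfl
  rw [dist_eq_norm, norm_sub_rev] at h1
  have h2 := abs_norm_sub_norm_le (ι w) (emb (trunc N fun i => crd i (ι w)))
  rw [hw1, norm_emb, abs_le] at h2
  have h3 := min_le_right δ (1 / 2)
  refine ⟨w, hw2.1, _, fun i hi => ?_, h1.le.trans (min_le_left _ _), by linarith,
    fun i => (abs_le_XN _ i).trans (by linarith)⟩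
  rw [trunc_apply]
  split_ifs
  · exact congrFun (LinearMap.mem_ker.1 hw2.2) ⟨i, hi⟩
  · rfl

lemma exists_flat (hW : ¬ FiniteDimensional ℝ W) (ι : W →ₗᵢ[ℝ] XX) {Y : Submodule ℝ W}
    (hY : Y.CoFG) (c : ℕ) {δ η : ℝ} (hδ : 0 < δ) (hη : 0 < η) :
    ∃ w ∈ Y, ∃ x : ℕ →₀ ℝ, (∀ i < c, x i = 0) ∧ ‖ι w - emb x‖ ≤ δ ∧ XN x = 1 ∧
      ∀ i, |x i| ≤ η := by
  have key : ∀ (m : ℕ) (δ : ℝ), 0 < δ → ∃ w ∈ Y, ∃ (v : ℕ →₀ ℝ) (u : ℕ → ℕ →₀ ℝ),
      (∀ i < c, v i = 0) ∧ ‖ι w - emb v‖ ≤ m * δ ∧ (∀ i, |v i| ≤ 2) ∧ (∀ j < m, 1 / 2 ≤ XN (u j)) ∧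
      ∀ i, ∑ j ∈ range m, |u j i| ^ (3 : ℝ) ≤ |v i| ^ (3 : ℝ) := by
    intro m δ hδ
    induction m with
    | zero => exact ⟨0, Y.zero_mem, 0, 0, by simp, by simp, by simp, by simp, by simp⟩
    | succ m ih =>
      obtain ⟨w, hw, v, u, h1, h2, h3, h4, h5⟩ := ih
      obtain ⟨N, hN⟩ := v.support.exists_nat_subset_range
      obtain ⟨w', hw', u', g1, g2, g3, g4⟩ := exists_block hW ι hY (max c N) hδ
      have hor : ∀ i, v i = 0 ∨ u' i = 0 := fun i => by
        by_cases hi : i < max c N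
        · exact Or.inr (g1 i hi)
        · exact Or.inl (Finsupp.notMem_support_iff.1 fun h =>
            hi (lt_of_lt_of_le (mem_range.1 (hN h)) (le_max_right _ _)))
      refine ⟨w + w', Y.add_mem hw hw', v + u', Function.update u m u', fun i hi => ?_, ?_,
        fun i => ?_, fun j hj => ?_, fun i => ?_⟩
      · rw [Finsupp.add_apply, h1 i hi, g1 i (lt_of_lt_of_le hi (le_max_left _ _)), add_zero]
      · rw [map_add, map_add, add_sub_add_comm]
        refine (norm_add_le _ _).trans ?_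
        push_cast; linarith
      · rw [Finsupp.add_apply]
        rcases hor i with h | h
        · rw [h, zero_add]; exact g4 i
        · rw [h, add_zero]; exact h3 i
      · by_cases h : j = m
        · subst h; rw [Function.update_self]; exact g3
        · rw [Function.update_of_ne h]; exact h4 j (by omega)
      · rw [sum_range_succ, Function.update_self, Finsupp.add_apply,
          sum_congr rfl fun j hj => by rw [Function.update_of_ne (mem_range.1 hj).ne]]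
        have := h5 i
        rcases hor i with h | h
        · rw [h, abs_zero, Real.zero_rpow (by norm_num)] at this
          rw [h, zero_add]; linarith
        · rw [h, add_zero, abs_zero, Real.zero_rpow (by norm_num), add_zero]; exact this
  obtain ⟨C, hC, H⟩ := XN_qconcave (q := 3) (by norm_num)
  set B : ℝ := max 1 (2 / η) with hB
  have hB1 : 1 ≤ B := le_max_left _ _
  obtain ⟨m, hm⟩ := exists_nat_gt (8 * C * B ^ 3)
  have hm0 : (0 : ℝ) < m := lt_of_le_of_lt (by positivity) hm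
  obtain ⟨w, hw, v, u, h1, h2, h3, h4, h5⟩ := key m (δ / m) (by positivity)
  rw [mul_div_cancel₀ _ hm0.ne'] at h2
  have h6 := H (range m) u v h5
  simp_rw [show (3 : ℝ) = (3 : ℕ) by norm_num, Real.rpow_natCast] at h6
  have h7 : (m : ℝ) * (1 / 2) ^ 3 ≤ ∑ j ∈ range m, XN (u j) ^ 3 := by
    calc _ = ∑ j ∈ range m, (1 / 2 : ℝ) ^ 3 := by simp
      _ ≤ _ := sum_le_sum fun j hj => pow_le_pow_left₀ (by norm_num) (h4 j (mem_range.1 hj)) 3
  have h8 : B ≤ XN v := by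
    refine le_of_lt (lt_of_pow_lt_pow_left₀ 3 (XN_nonneg _) ?_)
    refine lt_of_mul_lt_mul_left ?_ hC.le
    linarith
  have hv : 0 < XN v := by linarith
  refine ⟨(XN v)⁻¹ • w, Y.smul_mem _ hw, (XN v)⁻¹ • v, fun i hi => by simp [h1 i hi], ?_, ?_,
    fun i => ?_⟩
  · rw [map_smul, map_smul, ← smul_sub, norm_smul, Real.norm_eq_abs, abs_of_pos (inv_pos.2 hv)]
    exact (mul_le_of_le_one_left (norm_nonneg _) (inv_le_one_of_one_le₀ (by linarith))).trans h2
  · rw [← norm_emb, map_smul, norm_smul, norm_emb, Real.norm_eq_abs, abs_of_pos (inv_pos.2 hv),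
      inv_mul_cancel₀ hv.ne']
  · rw [Finsupp.smul_apply, smul_eq_mul, abs_mul, abs_of_pos (inv_pos.2 hv), inv_mul_le_iff₀ hv]
    have h9 : 2 / η ≤ XN v := (le_max_right _ _).trans h8
    rw [div_le_iff₀ hη] at h9
    linarith [h3 i]

lemma exists_leaf (hW : ¬ FiniteDimensional ℝ W) (ι : W →ₗᵢ[ℝ] XX) {Y : Submodule ℝ W}
    (hY : Y.CoFG) (c a : ℕ) {ε : ℝ} (hε : 0 < ε) :
    ∃ (w : W) (x : ℕ →₀ ℝ) (c' a' : ℕ), w ∈ Y ∧ c ≤ c' ∧ a < a' ∧
      (∀ k, x k ≠ 0 → c ≤ k ∧ k < c') ∧ ‖ι w - emb x‖ ≤ ε ∧ XN x = 1 ∧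
      ∀ K, NK K (fun l => if l ∈ Ico a a' then 0 else prof x l) ≤ ε := by
  obtain ⟨w, hw, x, h1, h2, h3, h4⟩ := exists_flat hW ι hY c hε
    (show 0 < ε / 2 / (a + 1) / 2 ^ a by positivity)
  obtain ⟨N, hN⟩ := x.support.exists_nat_subset_range
  have hl := l1_nonneg x
  obtain ⟨n, hn⟩ := exists_pow_lt_of_lt_one (show 0 < ε / 2 / (4 * (l1 x + 1)) by positivity)
    (tw_lt_one (show -(1 / 2 : ℝ) < 0 by norm_num))
  refine ⟨w, x, max c N, max (a + 1) n, hw, le_max_left _ _, lt_of_lt_of_le (Nat.lt_succ_self a)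
    (le_max_left _ _), fun k hk => ⟨not_lt.1 fun h => hk (h1 k h), lt_of_lt_of_le
      (mem_range.1 (hN (Finsupp.mem_support_iff.2 hk))) (le_max_right _ _)⟩, h2, h3, fun K => ?_⟩
  set a' := max (a + 1) n with ha'
  have g1 : ∑ l ∈ range a, prof x l ≤ ε / 2 := by
    calc _ ≤ ∑ l ∈ range a, ε / 2 / (a + 1) := sum_le_sum fun l hl => by
          have e1 : KF (2 ^ l) x ≤ 2 ^ a * (ε / 2 / (a + 1) / 2 ^ a) := KF_le fun A hA => by
            refine (sum_le_card_nsmul _ _ _ fun i _ => h4 i).trans ?_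
            rw [nsmul_eq_mul]
            refine mul_le_mul_of_nonneg_right ?_ (by positivity)
            exact_mod_cast hA.trans (Nat.pow_le_pow_right two_pos (mem_range.1 hl).le)
          rw [mul_div_cancel₀ _ (by positivity)] at e1
          refine le_trans (mul_le_of_le_one_left (KF_nonneg _ _) ?_) e1
          exact (tw_mono (neg_nonpos.2 (by positivity))).trans tw_zero.le
      _ ≤ ε / 2 := by
          rw [sum_const, card_range, nsmul_eq_mul, mul_div_assoc', div_le_iff₀ (by positivity)]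
          nlinarith
  have g2 : ∑ l ∈ Ico a' K, prof x l ≤ ε / 2 := by
    refine (sum_prof_le x a' K).trans ?_
    have e1 : tw (-(1 / 2 * (a' : ℝ))) ≤ tw (-(1 / 2)) ^ n := by
      rw [← Real.rpow_natCast, tw_rpow]
      refine tw_mono ?_
      have : (n : ℝ) ≤ a' := by exact_mod_cast le_max_right _ _
      linarith
    rw [lt_div_iff₀ (by positivity)] at hn
    have e2 := tw_pos (-(1 / 2 * (a' : ℝ)))
    nlinarith
  refine (NK_le_sum K _).trans ?_
  calc _ ≤ ∑ l ∈ range K, (res (range a) (prof x) l * 1 + res (Ico a' K) (prof x) l * 1) := by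
        refine sum_le_sum fun l hl => ?_
        have q1 := res_nonneg (E := range a) (prof_nonneg x) l
        have q2 := res_nonneg (E := Ico a' K) (prof_nonneg x) l
        split_ifs with h
        · rw [abs_zero]; linarith
        · rw [abs_prof]
          by_cases h' : l < a
          · rw [res_of_mem (mem_range.2 h')]; linarith
          · rw [res_of_mem (E := Ico a' K) (mem_Ico.2 ⟨by
              rw [mem_Ico] at h; omega, mem_range.1 hl⟩)]
            linarith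
    _ ≤ ε := by
        rw [sum_add_distrib, sum_res_mul, sum_res_mul]
        simp only [mul_one]
        have q1 := sum_le_sum_of_subset_of_nonneg (inter_subset_right (s₁ := range K)
          (s₂ := range a)) fun l _ _ => prof_nonneg x l
        have q2 := sum_le_sum_of_subset_of_nonneg (inter_subset_right (s₁ := range K)
          (s₂ := Ico a' K)) fun l _ _ => prof_nonneg x l
        linarith

lemma mul_prof_le {x v : ℕ →₀ ℝ} {c : ℝ} (hc : 0 ≤ c) (h : ∀ k, c * |x k| ≤ |v k|) (l : ℕ) :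
    c * prof x l ≤ prof v l := by
  rcases hc.eq_or_lt with h0 | h0
  · rw [← h0, zero_mul]; exact prof_nonneg _ _
  · have := prof_comb (univ : Finset Unit) (fun _ => c⁻¹) (fun _ _ => (inv_pos.2 h0).le)
      (fun _ => v) (u := x) (fun k => by simpa [le_inv_mul_iff₀ h0] using h k) l
    simpa [le_inv_mul_iff₀ h0] using this

lemma sum_res_blocks {a : ℕ → ℕ} (ha : Monotone a) (Z : ℕ → ℝ) {b e : ℕ} (h : b ≤ e) (l : ℕ) :
    ∑ i ∈ Ico b e, res (Ico (a i) (a (i + 1))) Z l = res (Ico (a b) (a e)) Z l := by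
  have := sum_blocks ha (fun k => if l = k then Z l else 0) b e h
  simp only [sum_ite_eq] at this
  exact this

lemma compare (ι : W →ₗᵢ[ℝ] XX) {w : ℕ → W} {x : ℕ → ℕ →₀ ℝ} {c a : ℕ → ℕ} (hc : Monotone c)
    (ha : Monotone a) (hsupp : ∀ i k, x i k ≠ 0 → c i ≤ k ∧ k < c (i + 1))
    (herr : ∀ i, ‖ι (w i) - emb (x i)‖ ≤ (1 / 2) ^ i / 8) (hn : ∀ i, XN (x i) = 1)
    (hout : ∀ i K, NK K (fun l => if l ∈ Ico (a i) (a (i + 1)) then 0 else prof (x i) l) ≤
      (1 / 2) ^ i / 8) {Z : ℕ → ℝ} (hZ : ∀ i, ∀ l ∈ Ico (a i) (a (i + 1)), Z l = prof (x i) l)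
    {σ : Type} (J : Finset σ) (φ : σ → ℕ) (hφ : Set.InjOn φ J) (α : σ → ℝ) {z : ℕ → ℝ}
    (hz : ∀ l, z l = ∑ s ∈ J, |α s| * res (Ico (a (φ s)) (a (φ s + 1))) Z l) :
    NN z ^ 2 ≤ 4 * ‖∑ s ∈ J, α s • w (φ s)‖ ^ 2 ∧ ‖∑ s ∈ J, α s • w (φ s)‖ ^ 2 ≤ 16 * NN z ^ 2 := by
  classical
  set v : ℕ →₀ ℝ := ∑ s ∈ J, α s • x (φ s) with hv
  have hvk : ∀ k, v k = ∑ s ∈ J, α s * x (φ s) k := fun k => by
    rw [hv, Finsupp.finsetSum_apply]; rfl
  have c1 : ∀ s ∈ J, ∀ k, |α s| * |x (φ s) k| ≤ |v k| := by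
    intro s hs k
    by_cases h : x (φ s) k = 0
    · simp [h]
    · rw [hvk, sum_eq_single_of_mem s hs, abs_mul]
      intro s' hs' hne
      by_contra h'
      exact hne (hφ hs' hs (succ_unique hc (hsupp _ _ (right_ne_zero_of_mul h')) (hsupp _ _ h)))
  have c2 : ∀ s ∈ J, |α s| ≤ XN v := by
    intro s hs
    have := XN_mono (x := v) (u := α s • x (φ s)) fun k => by
      simpa [abs_mul] using c1 s hs k
    rwa [← norm_emb, map_smul, norm_smul, norm_emb, hn, mul_one] at this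
  have c3 : ∑ s ∈ J, |α s| * ((1 / 2 : ℝ) ^ φ s / 8) ≤ XN v / 4 := by
    have h1 : ∑ s ∈ J, (1 / 2 : ℝ) ^ φ s ≤ 2 := by
      rw [← sum_image (f := fun i => (1 / 2 : ℝ) ^ i) hφ]
      obtain ⟨N, hN⟩ := (J.image φ).exists_nat_subset_range
      exact (sum_le_sum_of_subset_of_nonneg hN fun _ _ _ => by positivity).trans
        (sum_geometric_two_le N)
    calc _ ≤ ∑ s ∈ J, XN v * ((1 / 2 : ℝ) ^ φ s / 8) :=
          sum_le_sum fun s hs => mul_le_mul_of_nonneg_right (c2 s hs) (by positivity)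
      _ = XN v * (∑ s ∈ J, (1 / 2 : ℝ) ^ φ s) / 8 := by rw [← mul_sum, ← sum_div]; ring
      _ ≤ XN v * 2 / 8 := by have := XN_nonneg v; gcongr
      _ = _ := by ring
  have c4 : ‖ι (∑ s ∈ J, α s • w (φ s)) - emb v‖ ≤ XN v / 4 := by
    rw [hv, map_sum, map_sum, ← sum_sub_distrib]
    refine (norm_sum_le _ _).trans (le_trans (sum_le_sum fun s _ => ?_) c3)
    rw [map_smul, map_smul, ← smul_sub, norm_smul]
    exact mul_le_mul_of_nonneg_left (herr _) (abs_nonneg _)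
  have c5 := (abs_norm_sub_norm_le _ _).trans c4
  rw [ι.norm_map, norm_emb, abs_le] at c5
  have hz' : ∀ l, z l = ∑ s ∈ J, |α s| * res (Ico (a (φ s)) (a (φ s + 1))) (prof (x (φ s))) l := by
    intro l
    rw [hz]
    refine sum_congr rfl fun s _ => ?_
    by_cases h : l ∈ Ico (a (φ s)) (a (φ s + 1))
    · rw [res_of_mem h, res_of_mem h, hZ _ l h]
    · rw [res_of_notMem h, res_of_notMem h]
  have hz0 : ∀ l, 0 ≤ z l := fun l => by
    rw [hz']
    exact sum_nonneg fun s _ => mul_nonneg (abs_nonneg _) (res_nonneg (prof_nonneg _) l)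
  have c6 : ∀ l, z l ≤ prof v l := by
    intro l
    rw [hz']
    by_cases h : ∃ s ∈ J, l ∈ Ico (a (φ s)) (a (φ s + 1))
    · obtain ⟨s, hs, hl⟩ := h
      rw [sum_eq_single_of_mem s hs, res_of_mem hl]
      · exact mul_prof_le (abs_nonneg _) (c1 s hs) l
      · intro s' hs' hne
        rw [res_of_notMem fun h' => hne (hφ hs' hs
          (succ_unique ha (mem_Ico.1 h') (mem_Ico.1 hl))), mul_zero]
    · push Not at h
      rw [sum_eq_zero fun s hs => by rw [res_of_notMem (h s hs), mul_zero]]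
      exact prof_nonneg _ _
  have c7 : ∀ K, NK K z ≤ XN v := fun K =>
    (NK_mono fun l _ => by rw [abs_prof, abs_of_nonneg (hz0 l)]; exact c6 l).trans (le_XN v K)
  have c8 : NN z ≤ XN v := ciSup_le c7
  have c9 : ∀ K, NK K z ≤ NN z := fun K =>
    le_ciSup (f := fun K => NK K z) ⟨XN v, by rintro _ ⟨K, rfl⟩; exact c7 K⟩ K
  have c10 : XN v ≤ NN z + XN v / 4 := XN_le fun K => by
    set out : σ → ℕ → ℝ := fun s l => |α s| *
      (if l ∈ Ico (a (φ s)) (a (φ s + 1)) then 0 else prof (x (φ s)) l) with hout'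
    refine (NK_add_le (x := z) (x' := fun l => ∑ s ∈ J, out s l) fun l _ => ?_).trans
      (add_le_add (c9 K) ((NK_sum_le J out fun l _ => abs_sum_le_sum_abs _ _).trans
        (le_trans (sum_le_sum fun s _ => ?_) c3)))
    · rw [abs_prof]
      refine (prof_comb J (fun s => |α s|) (fun _ _ => abs_nonneg _) (fun s => x (φ s))
        (fun k => ?_) l).trans (le_trans (le_of_eq ?_)
          (add_le_add (le_abs_self _) (le_abs_self _)))
      · rw [hvk]
        exact (abs_sum_le_sum_abs _ _).trans (le_of_eq (sum_congr rfl fun s _ => abs_mul _ _))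
      · rw [hz', ← sum_add_distrib]
        refine sum_congr rfl fun s _ => ?_
        simp only [hout']
        by_cases h : l ∈ Ico (a (φ s)) (a (φ s + 1))
        · rw [res_of_mem h, if_pos h]; ring
        · rw [res_of_notMem h, if_neg h]; ring
    · simp only [hout']
      rw [NK_smul, abs_abs]
      exact mul_le_mul_of_nonneg_left (hout _ K) (abs_nonneg _)
  have hN0 : 0 ≤ NN z := (NK_nonneg 0 z).trans (c9 0)
  have hF0 := norm_nonneg (∑ s ∈ J, α s • w (φ s))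
  constructor
  · have : NN z ≤ 2 * ‖∑ s ∈ J, α s • w (φ s)‖ := by linarith
    nlinarith
  · have : ‖∑ s ∈ J, α s • w (φ s)‖ ≤ 4 * NN z := by linarith
    nlinarith

theorem not_asymptotic (hW : ¬ FiniteDimensional ℝ W) (ι : W →ₗᵢ[ℝ] XX)
    (Y : ℕ → Submodule ℝ W) (hY : ∀ n, (Y n).CoFG) {K : ℝ} (hK : 0 < K)
    (par : ∀ n, ∀ m ≤ n, ∀ x : Fin m → W, (∀ i, x i ∈ Y n) →
      2 ^ m * ∑ i, ‖x i‖ ^ 2 ≤ K * ∑ ε : Fin m → Bool, ‖∑ i, sg (ε i) • x i‖ ^ 2 ∧
      ∑ ε : Fin m → Bool, ‖∑ i, sg (ε i) • x i‖ ^ 2 ≤ K * (2 ^ m * ∑ i, ‖x i‖ ^ 2)) : False := by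
  classical
  set Y' : ℕ → Submodule ℝ W := fun i => Nat.rec (Y 0) (fun i S => S ⊓ Y (i + 1)) i with hY'
  have hY1 : ∀ i, (Y' i).CoFG := fun i => by
    induction i with
    | zero => exact hY 0
    | succ i ih => exact ih.inf (hY (i + 1))
  have hY2 : ∀ n i, n ≤ i → Y' i ≤ Y n := by
    intro n i h
    induction i, h using Nat.le_induction with
    | base => cases n; exacts [le_rfl, inf_le_right]
    | succ i _ ih => exact inf_le_left.trans ih
  choose ww xx cc aa H using fun (i c a : ℕ) =>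
    exists_leaf hW ι (hY1 i) c a (show (0 : ℝ) < (1 / 2) ^ i / 8 by positivity)
  set st : ℕ → ℕ × ℕ := fun i => Nat.rec (0, 0) (fun i p => (cc i p.1 p.2, aa i p.1 p.2)) i
    with hst
  set c : ℕ → ℕ := fun i => (st i).1 with hc
  set a : ℕ → ℕ := fun i => (st i).2 with ha
  set w : ℕ → W := fun i => ww i (c i) (a i) with hw
  set x : ℕ → ℕ →₀ ℝ := fun i => xx i (c i) (a i) with hx
  have hcm : Monotone c := monotone_nat_of_le_succ fun i => (H i (c i) (a i)).2.1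
  have has : StrictMono a := strictMono_nat_of_lt_succ fun i => (H i (c i) (a i)).2.2.1
  have ham := has.monotone
  have hwY : ∀ n i, n ≤ i → w i ∈ Y n := fun n i h => hY2 n i h (H i (c i) (a i)).1
  have herr : ∀ i, ‖ι (w i) - emb (x i)‖ ≤ (1 / 2) ^ i / 8 :=
    fun i => (H i (c i) (a i)).2.2.2.2.1
  have hn : ∀ i, XN (x i) = 1 := fun i => (H i (c i) (a i)).2.2.2.2.2.1
  set Z : ℕ → ℝ := fun l => ∑ i ∈ range (l + 1), res (Ico (a i) (a (i + 1))) (prof (x i)) l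
    with hZ
  have hZ0 : ∀ l, 0 ≤ Z l := fun l => sum_nonneg fun i _ => res_nonneg (prof_nonneg _) l
  have cmp := @compare W _ _ ι w x c a hcm ham (fun i => (H i (c i) (a i)).2.2.2.1) herr hn
    (fun i => (H i (c i) (a i)).2.2.2.2.2.2) Z (fun i l hl => glue ham
      (Nat.lt_succ_of_le (has.le_apply.trans (mem_Ico.1 hl).1)) hl fun i => prof (x i))
  have hwn : ∀ i, 1 / 4 ≤ ‖w i‖ ^ 2 ∧ ‖w i‖ ^ 2 ≤ 4 := fun i => by
    have h1 := (abs_norm_sub_norm_le _ _).trans (herr i)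
    rw [ι.norm_map, norm_emb, hn, abs_le] at h1
    have h2 : (1 / 2 : ℝ) ^ i ≤ 1 := pow_le_one₀ (by norm_num) (by norm_num)
    constructor <;> nlinarith [norm_nonneg (w i)]
  have hcard : ∀ (m : ℕ) (r : ℝ), ∑ _ε : Fin m → Bool, r = 2 ^ m * r := fun m r => by simp
  refine no_asymptotic hZ0 ham (show 0 < 64 * K by positivity) (fun n => ⟨n, ?_⟩)
    (fun n => ⟨n, ?_⟩)
  · intro b hb l _ hl
    obtain ⟨p1, p2⟩ := par n l hl (fun j => w (b + j)) fun j => hwY n _ (by omega)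
    have q := fun ε : Fin l → Bool => cmp (univ : Finset (Fin l)) (fun j => b + j)
      (fun j _ j' _ h => Fin.ext (by simpa using h)) (fun j => sg (ε j))
      (z := res (Ico (a b) (a (b + l))) Z) fun k => by
        simp only [abs_sg, one_mul]
        rw [← sum_res_blocks ham Z (Nat.le_add_right b l), sum_Ico_eq_sum_range,
          Nat.add_sub_cancel_left,
          Fin.sum_univ_eq_sum_range (fun j => res (Ico (a (b + j)) (a (b + j + 1))) Z k)]
    have q1 := sum_le_sum fun ε (_ : ε ∈ univ) => (q ε).1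
    have q2 := sum_le_sum fun ε (_ : ε ∈ univ) => (q ε).2
    rw [hcard, ← mul_sum] at q1
    rw [hcard] at q2
    have r1 : (l : ℝ) / 4 ≤ ∑ j : Fin l, ‖w (b + j)‖ ^ 2 := by
      calc _ = ∑ _j : Fin l, (1 / 4 : ℝ) := by simp; ring
        _ ≤ _ := sum_le_sum fun j _ => (hwn _).1
    have r2 : ∑ j : Fin l, ‖w (b + j)‖ ^ 2 ≤ 4 * l := by
      calc _ ≤ ∑ _j : Fin l, (4 : ℝ) := sum_le_sum fun j _ => (hwn _).2
        _ = _ := by simp; ring
    have h2 : (0 : ℝ) < 2 ^ l := by positivity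
    constructor
    · refine le_of_mul_le_mul_left ?_ h2
      nlinarith [mul_le_mul_of_nonneg_left q2 hK.le, mul_le_mul_of_nonneg_left r1 h2.le]
    · refine le_of_mul_le_mul_left ?_ h2
      have h3 : 0 ≤ K * (2 ^ l * l) := by positivity
      nlinarith [mul_le_mul_of_nonneg_left (mul_le_mul_of_nonneg_left r2 h2.le) hK.le]
  · intro b e co hb hbe heb hco
    have hbm : Monotone b := monotone_nat_of_le_succ fun j => (hbe j).trans (heb j)
    set u : Fin n → W := fun j => ∑ i ∈ Ico (b j) (e j), co j • w i with hu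
    obtain ⟨p1, -⟩ := par n n le_rfl u fun j => Submodule.sum_mem _ fun i hi =>
      Submodule.smul_mem _ _ (hwY n i (hb.trans ((hbm (Nat.zero_le _)).trans (mem_Ico.1 hi).1)))
    have q1 : ∀ j : Fin n, NN (fun k => co j * res (Ico (a (b j)) (a (e j))) Z k) ^ 2 ≤
        4 * ‖u j‖ ^ 2 := fun j =>
      (cmp (Ico (b j) (e j)) id (fun _ _ _ _ h => h) (fun _ => co j) fun k => by
        simp only [id]
        rw [← mul_sum, sum_res_blocks ham Z (hbe j), abs_of_nonneg (hco j)]).1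
    have q2 : ∀ ε : Fin n → Bool, ‖∑ j, sg (ε j) • u j‖ ^ 2 ≤
        16 * NN (fun k => ∑ j ∈ range n, co j * res (Ico (a (b j)) (a (e j))) Z k) ^ 2 := by
      intro ε
      have := (cmp ((univ : Finset (Fin n)).sigma fun j => Ico (b j) (e j)) (fun s => s.2)
        (by
          rintro ⟨j, i⟩ hs ⟨j', i'⟩ hs' h
          have h1 := mem_Ico.1 (mem_sigma.1 (mem_coe.1 hs)).2
          have h2 := mem_Ico.1 (mem_sigma.1 (mem_coe.1 hs')).2
          dsimp only at h h1 h2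
          subst h
          have : j = j' := Fin.ext (succ_unique hbm ⟨h1.1, lt_of_lt_of_le h1.2 (heb _)⟩
            ⟨h2.1, lt_of_lt_of_le h2.2 (heb _)⟩)
          subst this; rfl)
        (fun s => sg (ε s.1) * co s.1)
        (z := fun k => ∑ j ∈ range n, co j * res (Ico (a (b j)) (a (e j))) Z k) fun k => by
          rw [sum_sigma, ← Fin.sum_univ_eq_sum_range
            (fun j => co j * res (Ico (a (b j)) (a (e j))) Z k)]
          refine sum_congr rfl fun j _ => ?_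
          dsimp only
          rw [← mul_sum, sum_res_blocks ham Z (hbe j), abs_mul, abs_sg, one_mul,
            abs_of_nonneg (hco j)]).2
      rw [sum_sigma] at this
      refine le_of_eq_of_le ?_ this
      congr 2
      refine sum_congr rfl fun j _ => ?_
      simp only [hu]
      rw [smul_sum]
      exact sum_congr rfl fun i _ => by rw [smul_smul]
    have q3 := sum_le_sum fun ε (_ : ε ∈ univ) => q2 ε
    have q4 := sum_le_sum fun j (_ : j ∈ univ) => q1 j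
    rw [hcard] at q3
    rw [← mul_sum, Fin.sum_univ_eq_sum_range
      (fun j => NN (fun k => co j * res (Ico (a (b j)) (a (e j))) Z k) ^ 2)] at q4
    have h2 : (0 : ℝ) < 2 ^ n := by positivity
    refine le_of_mul_le_mul_left ?_ h2
    nlinarith [mul_le_mul_of_nonneg_left q3 hK.le, mul_le_mul_of_nonneg_left q4 h2.le]

lemma not_hilbertian_XX : ¬ Hilbertian XX := by
  rintro ⟨H, _, _, _, ⟨T⟩⟩
  exact not_asymptotic not_finite_XX LinearIsometry.id (fun _ => ⊤) (fun _ => Submodule.CoFG.top)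
    (K := (‖(T : XX →L[ℝ] H)‖ * ‖(T.symm : H →L[ℝ] XX)‖ + 1) ^ 2) (by positivity)
    fun _ _ _ x _ => par_of_equiv T (by linarith) x

lemma finite_of_asymp (ι : W →ₗᵢ[ℝ] XX) (h : AsympHilbertian W) : FiniteDimensional ℝ W := by
  by_contra hW
  obtain ⟨K, hK⟩ := h
  choose Yn _ hY hE using hK
  refine not_asymptotic hW ι Yn hY (K := (|K| + 1) ^ 2) (by positivity)
    fun n m hm x hx => ?_
  have := FiniteDimensional.span_of_finite ℝ (Set.finite_range x)
  obtain ⟨E, h1, h2, h3, h4⟩ := exists_extend hW (hY n) (Submodule.span ℝ (Set.range x))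
    (Submodule.span_le.2 (by rintro _ ⟨i, rfl⟩; exact hx i))
    ((finrank_range_le_card x).trans (by simpa using hm))
  have h5 := hE n E h2 h3 h4
  obtain ⟨_, ⟨T, rfl⟩, hT⟩ := exists_lt_of_csInf_lt
    (s := {r : ℝ | ∃ T : E ≃L[ℝ] EuclideanSpace ℝ (Fin n),
      r = ‖(T : E →L[ℝ] EuclideanSpace ℝ (Fin n))‖ *
        ‖(T.symm : EuclideanSpace ℝ (Fin n) →L[ℝ] E)‖})
    ⟨_, ContinuousLinearEquiv.ofFinrankEq (by simp [h4]), rfl⟩
    (lt_of_le_of_lt h5 (show K < |K| + 1 by linarith [le_abs_self K]))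
  have := par_of_equiv T hT.le
    (fun i => (⟨x i, h1 (Submodule.subset_span ⟨i, rfl⟩)⟩ : E))
  simpa only [← Submodule.norm_coe, Submodule.coe_sum, Submodule.coe_smul] using this

theorem main : ∃ (X : Type) (_ : NormedAddCommGroup X) (_ : NormedSpace ℝ X)
    (_ : CompleteSpace X), HasSymmetricBasis X ∧ NearHilbert X ∧ ¬ Hilbertian X ∧
      ∀ Y : Submodule ℝ X, IsClosed (Y : Set X) → AsympHilbertian Y → Hilbertian Y :=
  ⟨XX, inferInstance, inferInstance, inferInstance, symmetric_XX, nearHilbert_XX,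
    not_hilbertian_XX, fun Y _ h =>
      have := finite_of_asymp Y.subtypeₗᵢ h
      ⟨EuclideanSpace ℝ (Fin (Module.finrank ℝ Y)), inferInstance, inferInstance, inferInstance,
        ⟨ContinuousLinearEquiv.ofFinrankEq (by simp)⟩⟩⟩

end Pool.Agent.MP_650c5e_an
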