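import Pool.Agent.MP_650c5e_an.ZNorm

/-! Additive entropy, the choice of a good level and the analysis of a good node. -/

namespace Pool.Agent.MP_650c5e_an

open Finset

/-- Additive entropy. -/
noncomputable def LL (y : ℕ → ℝ) (D : Finset ℕ) (t : ℕ → ℝ) : ℝ := ∑ i ∈ D, y i * Real.log (t i)

variable {y : ℕ → ℝ} {D : Finset ℕ}

lemma PP_eq_exp (hy : ∀ i, 0 ≤ y i) {t : ℕ → ℝ} (ht : ∀ i ∈ D, 0 < y i → 0 < t i) :
    PP y D t = Real.exp (LL y D t) := by
  unfold PP LL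
  rw [Real.exp_sum]
  refine prod_congr rfl fun i hi => ?_
  rcases (hy i).eq_or_lt with h | h
  · rw [← h]; simp
  · rw [Real.rpow_def_of_pos (ht i hi h), mul_comm]

lemma sum_le_sum_pos (hy : ∀ i, 0 ≤ y i) {f g : ℕ → ℝ} (h : ∀ i ∈ D, 0 < y i → f i ≤ g i) :
    ∑ i ∈ D, y i * f i ≤ ∑ i ∈ D, y i * g i :=
  sum_le_sum fun i hi => by
    rcases (hy i).eq_or_lt with h0 | h0
    · rw [← h0]; simp
    · exact mul_le_mul_of_nonneg_left (h i hi h0) h0.le

lemma sum_congr_pos (hy : ∀ i, 0 ≤ y i) {f g : ℕ → ℝ} (h : ∀ i ∈ D, 0 < y i → f i = g i) :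
    ∑ i ∈ D, y i * f i = ∑ i ∈ D, y i * g i :=
  le_antisymm (sum_le_sum_pos hy fun i hi h0 => (h i hi h0).le)
    (sum_le_sum_pos hy fun i hi h0 => (h i hi h0).ge)

lemma LL_le_sub (hy : ∀ i, 0 ≤ y i) {r : ℕ → ℝ} (hr : ∀ i ∈ D, 0 < y i → 0 < r i) :
    LL y D r ≤ ∑ i ∈ D, y i * r i - ∑ i ∈ D, y i := by
  have := sum_le_sum_pos (D := D) hy (f := fun i => Real.log (r i)) (g := fun i => r i - 1)
    fun i hi h0 => Real.log_le_sub_one_of_pos (hr i hi h0)
  simp only [mul_sub, mul_one, sum_sub_distrib] at this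
  exact this

lemma LL_div (hy : ∀ i, 0 ≤ y i) {t w : ℕ → ℝ} (ht : ∀ i ∈ D, 0 < y i → 0 < t i)
    (hw : ∀ i ∈ D, 0 < y i → 0 < w i) :
    LL y D (fun i => t i / w i) = LL y D t - LL y D w := by
  unfold LL
  rw [← sum_sub_distrib]
  simp_rw [← mul_sub]
  exact sum_congr_pos hy fun i hi h0 => Real.log_div (ht i hi h0).ne' (hw i hi h0).ne'

lemma IsOpt.LL_div_le {n : ℕ} {w : ℕ → ℝ} (hy : ∀ i, 0 ≤ y i) (h : IsOpt (BB n) y D w)
    {t : ℕ → ℝ} (ht : t ∈ BB n) (ht' : ∀ i ∈ D, 0 < y i → 0 < t i) :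
    LL y D (fun i => t i / w i) ≤ 0 := by
  have := LL_le_sub hy (r := fun i => t i / w i) fun i hi h0 => div_pos (ht' i hi h0) (h.2.1 i hi h0)
  linarith [h.2.2 t ht]

lemma IsOpt.LL_le {n : ℕ} {w : ℕ → ℝ} (hy : ∀ i, 0 ≤ y i) (h : IsOpt (BB n) y D w)
    {t : ℕ → ℝ} (ht : t ∈ BB n) (ht' : ∀ i ∈ D, 0 < y i → 0 < t i) : LL y D t ≤ LL y D w := by
  have := h.LL_div_le hy ht ht'
  rw [LL_div hy ht' h.2.1] at this
  linarith

lemma glue {A : ℕ → ℕ} (hA : Monotone A) {n r i : ℕ} (hr : r < n)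
    (hi : i ∈ Ico (A r) (A (r + 1))) (w : ℕ → ℕ → ℝ) :
    ∑ j ∈ range n, res (Ico (A j) (A (j + 1))) (w j) i = w r i := by
  rw [sum_eq_single_of_mem r (mem_range.2 hr), res_of_mem hi]
  intro j _ hj
  exact res_of_notMem fun h => hj (succ_unique hA (mem_Ico.1 h) (mem_Ico.1 hi))

lemma sum_blocks' {A : ℕ → ℕ} (hA : Monotone A) (f : ℕ → ℝ) (n : ℕ) :
    ∑ j ∈ range n, ∑ i ∈ Ico (A j) (A (j + 1)), f i = ∑ i ∈ Ico (A 0) (A n), f i := by
  rw [range_eq_Ico, sum_blocks hA f 0 n (Nat.zero_le n)]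

/-- Some level of the pattern has the property that passing from `BB 1` to `BB m` gains almost
no entropy. -/
lemma good_level (hy : ∀ i, 0 ≤ y i) (k : ℕ) (A : ℕ → ℕ → ℕ) (hA : ∀ l, Monotone (A l))
    (hAs : ∀ l < dw k ^ 2, ∀ r, A l r = A (l + 1) (r * (pat (dw k) l * dw k ^ 2)))
    (hy1 : ∑ i ∈ Ico (A 0 0) (A 0 1), y i ≤ 1)
    (hyc : ∀ l < dw k ^ 2, ∀ c < pat (dw k) (l + 1),
      (∑ i ∈ Ico (A (l + 1) c) (A (l + 1) (c + 1)), y i) * (pat (dw k) l * dw k) ≤ 2)
    (w1 wm : Finset ℕ → ℕ → ℝ) (hw1 : ∀ D, IsOpt (BB 1) y D (w1 D))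
    (hwm : ∀ D, IsOpt (BB (nk k)) y D (wm D)) :
    ∃ l < dw k ^ 2, ∑ r ∈ range (pat (dw k) l), LL y (Ico (A l r) (A l (r + 1)))
        (wm (Ico (A l r) (A l (r + 1)))) ≤
      ∑ r ∈ range (pat (dw k) l), LL y (Ico (A l r) (A l (r + 1)))
        (w1 (Ico (A l r) (A l (r + 1)))) + 2 / (k + 1) := by
  set N := dw k with hN
  have hN1 : 1 ≤ N := dw_pos k
  have hNR : (1 : ℝ) ≤ N := by exact_mod_cast hN1
  set φ : ℕ → ℝ := fun l => ∑ r ∈ range (pat N l), LL y (Ico (A l r) (A l (r + 1)))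
        (w1 (Ico (A l r) (A l (r + 1)))) with hφ
  have hpat : ∀ l, pat N l * (pat N l * N ^ 2) = pat N (l + 1) := fun l => by
    show _ = (pat N l * N) ^ 2
    ring
  have hends : ∀ l ≤ N ^ 2, A l 0 = A 0 0 ∧ A l (pat N l) = A 0 1 := by
    intro l
    induction l with
    | zero => intro _; exact ⟨rfl, rfl⟩
    | succ l ih =>
      intro hl
      have h1 := hAs l hl 0
      have h2 := hAs l hl (pat N l)
      rw [zero_mul] at h1
      rw [hpat] at h2
      exact ⟨h1 ▸ (ih (by omega)).1, h2 ▸ (ih (by omega)).2⟩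
  have hmerge : φ (N ^ 2) ≤ φ 0 + N := by
    have h1 := BB.shrink (BB_mono (Mk_le_R k)
      (merge (hA (N ^ 2)) (pat N (N ^ 2)) (w := fun r => w1 (Ico (A (N ^ 2) r) (A (N ^ 2) (r + 1))))
        fun r _ => (hw1 _).1))
    have hφ0 : φ 0 = LL y (Ico (A 0 0) (A 0 1)) (w1 (Ico (A 0 0) (A 0 1))) := by
      simp [hφ, pat]
    have hin : ∀ i ∈ Ico (A 0 0) (A 0 1), ∃ r < pat N (N ^ 2),
        i ∈ Ico (A (N ^ 2) r) (A (N ^ 2) (r + 1)) := by
      intro i hi
      rw [← (hends _ le_rfl).1, ← (hends _ le_rfl).2] at hi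
      by_contra hcon
      push Not at hcon
      have : ∀ r ≤ pat N (N ^ 2), A (N ^ 2) r ≤ i := by
        intro r
        induction r with
        | zero => intro _; exact (mem_Ico.1 hi).1
        | succ r ih =>
          intro hr
          have h3 := hcon r hr
          have h4 := ih (by omega)
          rw [mem_Ico] at h3
          omega
      exact absurd (mem_Ico.1 hi).2 (not_lt.2 (this _ le_rfl))
    have h2 := (hw1 (Ico (A 0 0) (A 0 1))).LL_le hy h1 (fun i hi h0 => by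
      obtain ⟨r, hr, hir⟩ := hin i hi
      rw [glue (hA _) hr hir]
      have := (hw1 _).2.1 i hir h0
      positivity)
    rw [← hφ0] at h2
    unfold LL at h2
    rw [← (hends _ le_rfl).1, ← (hends _ le_rfl).2, ← sum_blocks' (hA _)] at h2
    rw [← (hends _ le_rfl).1, ← (hends _ le_rfl).2, ← sum_blocks' (hA _)] at hy1
    have h3 : φ (N ^ 2) - N * ∑ r ∈ range (pat N (N ^ 2)),
        ∑ i ∈ Ico (A (N ^ 2) r) (A (N ^ 2) (r + 1)), y i ≤ φ 0 := by
      refine le_trans ?_ h2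
      simp only [hφ]
      rw [mul_sum, ← sum_sub_distrib]
      refine sum_le_sum fun r hr => ?_
      unfold LL
      rw [mul_sum, ← sum_sub_distrib]
      simp_rw [mul_comm (N : ℝ), ← mul_sub]
      refine sum_le_sum_pos hy fun i hi h0 => ?_
      rw [glue (hA _) (mem_range.1 hr) hi, Real.log_mul (by positivity) ((hw1 _).2.1 i hi h0).ne',
        Real.log_pow, one_div, Real.log_inv]
      have := Real.log_two_lt_d9
      have : (N : ℝ) * Real.log 2 ≤ N := mul_le_of_le_one_right (by positivity) (by linarith)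
      simp only [← hN]
      linarith
    nlinarith
  have hpig : ∃ l < N ^ 2, φ (l + 1) ≤ φ l + 1 / N := by
    by_contra hcon
    push Not at hcon
    have : ∀ l, l + 1 ≤ N ^ 2 → φ 0 + (l + 1) / N < φ (l + 1) := by
      intro l
      induction l with
      | zero => intro h; simpa using hcon 0 h
      | succ l ih =>
        intro h
        have h1 := ih (by omega)
        have h2 := hcon (l + 1) h
        push_cast
        rw [add_div _ 1]
        linarith
    have h1 : 1 ≤ N ^ 2 := Nat.one_le_pow _ _ hN1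
    have h2 := this (N ^ 2 - 1) (by omega)
    rw [Nat.sub_add_cancel h1] at h2
    have h3 : (((N ^ 2 - 1 : ℕ) : ℝ) + 1) / N = N := by
      rw [Nat.cast_sub h1]; push_cast; field_simp; ring
    linarith
  obtain ⟨l, hl, hl'⟩ := hpig
  refine ⟨l, hl, ?_⟩
  set Q := pat N l * N ^ 2 with hQ
  have hP : (0 : ℝ) < pat N l := by exact_mod_cast pat_pos hN1 l
  set η : ℝ := 2 / (pat N l * N) with hη
  have hcut : ∀ r ∈ range (pat N l), LL y (Ico (A l r) (A l (r + 1)))
      (wm (Ico (A l r) (A l (r + 1)))) ≤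
      ∑ c ∈ Ico (r * Q) ((r + 1) * Q), LL y (Ico (A (l + 1) c) (A (l + 1) (c + 1)))
        (w1 (Ico (A (l + 1) c) (A (l + 1) (c + 1)))) + nk k * η := by
    intro r hr
    set t := wm (Ico (A l r) (A l (r + 1))) with ht
    have hle : r * Q ≤ (r + 1) * Q := Nat.mul_le_mul_right _ (Nat.le_succ r)
    have hsub : ∀ c ∈ Ico (r * Q) ((r + 1) * Q),
        Ico (A (l + 1) c) (A (l + 1) (c + 1)) ⊆ Ico (A l r) (A l (r + 1)) := by
      intro c hc
      rw [hAs l hl r, hAs l hl (r + 1)]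
      exact Ico_subset_Ico (hA _ (mem_Ico.1 hc).1) (hA _ (mem_Ico.1 hc).2)
    have h1 := cut (hA (l + 1)) (hwm (Ico (A l r) (A l (r + 1)))).1 (Ico (r * Q) ((r + 1) * Q))
      (fun c i => y i / w1 (Ico (A (l + 1) c) (A (l + 1) (c + 1))) i)
      (fun c i => div_nonneg (hy i) ((hw1 _).1.1 i))
      (fun c => ∑ i ∈ Ico (A (l + 1) c) (A (l + 1) (c + 1)), y i) (η := η) (by positivity)
      (fun c _ => sum_nonneg fun i _ => hy i)
      (fun c hc => by
        rw [hη, le_div_iff₀ (by positivity)]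
        refine hyc l hl c ?_
        rw [← hpat]
        exact lt_of_lt_of_le (mem_Ico.1 hc).2 (Nat.mul_le_mul_right _ (mem_range.1 hr)))
      (fun c _ v hv => le_trans (le_of_eq (sum_congr rfl fun i _ => by ring))
        ((hw1 _).2.2 v (VS_subset_BB 1 (hv.mem_VS le_rfl))))
    have h2 : LL y (Ico (A l r) (A l (r + 1))) t =
        ∑ c ∈ Ico (r * Q) ((r + 1) * Q), LL y (Ico (A (l + 1) c) (A (l + 1) (c + 1))) t := by
      unfold LL
      rw [sum_blocks (hA _) _ _ _ hle, ← hAs l hl r, ← hAs l hl (r + 1)]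
    have h3 : ∀ c ∈ Ico (r * Q) ((r + 1) * Q), LL y (Ico (A (l + 1) c) (A (l + 1) (c + 1))) t ≤
        LL y (Ico (A (l + 1) c) (A (l + 1) (c + 1))) (w1 (Ico (A (l + 1) c) (A (l + 1) (c + 1)))) +
        (∑ i ∈ Ico (A (l + 1) c) (A (l + 1) (c + 1)),
          t i * (y i / w1 (Ico (A (l + 1) c) (A (l + 1) (c + 1))) i) -
        ∑ i ∈ Ico (A (l + 1) c) (A (l + 1) (c + 1)), y i) := by
      intro c hc
      have p1 : ∀ i ∈ Ico (A (l + 1) c) (A (l + 1) (c + 1)), 0 < y i → 0 < t i :=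
        fun i hi h0 => (hwm _).2.1 i (hsub c hc hi) h0
      have p2 := (hw1 (Ico (A (l + 1) c) (A (l + 1) (c + 1)))).2.1
      have h4 := LL_le_sub hy
        (r := fun i => t i / w1 (Ico (A (l + 1) c) (A (l + 1) (c + 1))) i)
        fun i hi h0 => div_pos (p1 i hi h0) (p2 i hi h0)
      rw [LL_div hy p1 p2] at h4
      have h5 : ∑ i ∈ Ico (A (l + 1) c) (A (l + 1) (c + 1)),
          y i * (t i / w1 (Ico (A (l + 1) c) (A (l + 1) (c + 1))) i) =
          ∑ i ∈ Ico (A (l + 1) c) (A (l + 1) (c + 1)),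
          t i * (y i / w1 (Ico (A (l + 1) c) (A (l + 1) (c + 1))) i) :=
        sum_congr rfl fun i _ => by ring
      linarith
    have h6 := sum_le_sum h3
    rw [sum_add_distrib, sum_sub_distrib] at h6
    linarith
  have h7 := sum_le_sum hcut
  rw [sum_add_distrib, sum_blocks' (A := fun r => r * Q)
    (fun a b hab => Nat.mul_le_mul_right _ hab), zero_mul, hpat, ← range_eq_Ico, sum_const,
    card_range, nsmul_eq_mul] at h7
  have hn : (0 : ℝ) < nk k := by exact_mod_cast nk_pos k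
  have hn1 : (1 : ℝ) ≤ nk k := by exact_mod_cast nk_pos k
  have hNe : (N : ℝ) = 2 * (k + 1) * nk k := by rw [hN, dw]; push_cast; ring
  have h8 : (pat N l : ℝ) * (nk k * η) = 1 / (k + 1) := by
    rw [hη, hNe]; field_simp
  have h9 : 1 / (N : ℝ) ≤ 1 / (k + 1) := by
    refine one_div_le_one_div_of_le (by positivity) ?_
    rw [hNe]; nlinarith [Nat.cast_nonneg (α := ℝ) k]
  have h10 : (2 : ℝ) / (k + 1) = 1 / (k + 1) + 1 / (k + 1) := by ring
  simp only [hφ] at hl'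
  linarith

/-- Analysis of a node with small entropy deficits. -/
lemma node_good (hy : ∀ i, 0 ≤ y i) {k K : ℕ} (hK : k + 1 ≤ K) (hD : ∀ i ∈ D, i < K)
    (hμ : 0 < ∑ i ∈ D, y i) {w1 wm x s : ℕ → ℝ} {t : ℕ → ℕ → ℝ} (hw1 : IsOpt (BB 1) y D w1)
    (hwm : IsOpt (BB (nk k)) y D wm) (hs : s ∈ SB 1) (ht : Adm t)
    (hx : ∀ i < K, x i ^ 2 ≤ s i * GP 0 K t i) (hx0 : ∀ i, i ∉ D → x i = 0)
    (hsp : ∀ i ∈ D, 0 < y i → 0 < s i) (htp : ∀ κ < K, ∀ i ∈ D, 0 < y i → 0 < t κ i)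
    {E : ℝ} (hE : 0 < E)
    (hsum : -(E * ∑ i ∈ D, y i) ≤ LL y D (fun i => (∑ i ∈ D, y i) * s i * w1 i / y i) +
      ∑ κ ∈ Ico 0 (k + 1), gam κ * LL y D (fun i => t κ i / wm i) +
      LL y D (fun i => w1 i / wm i)) :
    ∃ (G : Finset ℕ) (s' : ℕ → ℝ) (t' : ℕ → ℕ → ℝ), G ⊆ D ∧ s' ∈ SB (nk k) ∧ Adm t' ∧
      (∀ κ ≤ k, t' κ ∈ BB 1) ∧ (∀ i ∈ G, x i ^ 2 ≤ 16 * s' i * GP 0 K t' i) ∧
      NK K (fun i => if i ∈ G then 0 else x i) ^ 4 ≤ 42 * E := by
  classical
  set μ := ∑ i ∈ D, y i with hμdef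
  set r1 : ℕ → ℝ := fun i => μ * s i * w1 i / y i with hr1
  set r2 : ℕ → ℝ := fun i => ∏ κ ∈ Ico 0 (k + 1), (t κ i / wm i) ^ gam κ with hr2
  set r3 : ℕ → ℝ := fun i => w1 i / wm i with hr3
  have n1 : ∀ i, 0 ≤ r1 i := fun i =>
    div_nonneg (mul_nonneg (mul_nonneg hμ.le (hs.1 i)) (hw1.1.1 i)) (hy i)
  have n2 : ∀ i, 0 ≤ r2 i := fun i => prod_nonneg fun κ _ =>
    Real.rpow_nonneg (div_nonneg (ht.nonneg κ i) (hwm.1.1 i)) _
  have n3 : ∀ i, 0 ≤ r3 i := fun i => div_nonneg (hw1.1.1 i) (hwm.1.1 i)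
  have p1 : ∀ i ∈ D, 0 < y i → 0 < r1 i := fun i hi h0 =>
    div_pos (mul_pos (mul_pos hμ (hsp i hi h0)) (hw1.2.1 i hi h0)) h0
  have pt : ∀ κ ∈ Ico 0 (k + 1), ∀ i ∈ D, 0 < y i → 0 < t κ i :=
    fun κ hκ => htp κ (by have := (mem_Ico.1 hκ).2; omega)
  have p2 : ∀ i ∈ D, 0 < y i → 0 < r2 i := fun i hi h0 => prod_pos fun κ hκ =>
    Real.rpow_pos_of_pos (div_pos (pt κ hκ i hi h0) (hwm.2.1 i hi h0)) _
  have p3 : ∀ i ∈ D, 0 < y i → 0 < r3 i := fun i hi h0 =>
    div_pos (hw1.2.1 i hi h0) (hwm.2.1 i hi h0)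
  have htm : ∀ κ ∈ Ico 0 (k + 1), t κ ∈ BB (nk k) := fun κ hκ =>
    BB_mono (nk_mono (Nat.lt_succ_iff.1 (mem_Ico.1 hκ).2)) (ht κ)
  have hw1m : w1 ∈ BB (nk k) := BB_mono (nk_pos k) hw1.1
  have hgs : ∑ κ ∈ Ico 0 (k + 1), gam κ = 1 - Gam (k + 1) := by
    rw [sum_gam (Nat.zero_le _), Gam_zero]
  have m1 : ∑ i ∈ D, y i * r1 i ≤ μ := by
    calc _ ≤ ∑ i ∈ D, μ * (s i * w1 i) := sum_le_sum fun i _ => by
          rcases (hy i).eq_or_lt with h0 | h0
          · rw [← h0, zero_mul]; exact mul_nonneg hμ.le (mul_nonneg (hs.1 i) (hw1.1.1 i))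
          · simp only [hr1]; apply le_of_eq; field_simp
      _ ≤ μ := by
          rw [← mul_sum]; exact mul_le_of_le_one_right hμ.le (pair_le_one hs hw1.1 D)
  have m2 : ∑ i ∈ D, y i * r2 i ≤ μ := by
    calc _ ≤ ∑ i ∈ D, y i * (∑ κ ∈ Ico 0 (k + 1), gam κ * (t κ i / wm i) + Gam (k + 1)) := by
          refine sum_le_sum fun i _ => mul_le_mul_of_nonneg_left ?_ (hy i)
          have := amgm (Ico 0 (k + 1)) gam (fun κ => t κ i / wm i) (fun κ _ => (gam_pos κ).le)
            (by rw [hgs]; linarith [Gam_pos (k + 1)])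
            fun κ _ => div_nonneg (ht.nonneg κ i) (hwm.1.1 i)
          rw [hgs] at this
          simp only [hr2]; linarith
      _ = ∑ κ ∈ Ico 0 (k + 1), gam κ * ∑ i ∈ D, y i * (t κ i / wm i) + μ * Gam (k + 1) := by
          simp_rw [mul_add, sum_add_distrib, ← sum_mul, mul_sum]
          congr 1
          rw [sum_comm]
          exact sum_congr rfl fun κ _ => sum_congr rfl fun i _ => by ring
      _ ≤ ∑ κ ∈ Ico 0 (k + 1), gam κ * μ + μ * Gam (k + 1) := by
          gcongr with κ hκ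
          · exact (gam_pos κ).le
          · exact hwm.2.2 _ (htm κ hκ)
      _ = μ := by rw [← sum_mul, hgs]; ring
  have m3 : ∑ i ∈ D, y i * r3 i ≤ μ := hwm.2.2 _ hw1m
  have l1 : LL y D r1 ≤ 0 := by linarith [LL_le_sub hy p1]
  have l3 : LL y D r3 ≤ 0 := by linarith [LL_le_sub hy p3]
  have lt : ∀ κ ∈ Ico 0 (k + 1), gam κ * LL y D (fun i => t κ i / wm i) ≤ 0 := fun κ hκ =>
    mul_nonpos_of_nonneg_of_nonpos (gam_pos κ).le (hwm.LL_div_le hy (htm κ hκ) (pt κ hκ))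
  have e2 : LL y D r2 = ∑ κ ∈ Ico 0 (k + 1), gam κ * LL y D (fun i => t κ i / wm i) := by
    unfold LL
    simp_rw [mul_sum]
    rw [sum_comm]
    simp_rw [mul_left_comm (gam _), ← mul_sum]
    refine sum_congr_pos hy fun i hi h0 => ?_
    simp only [hr2]
    rw [Real.log_prod fun κ hκ =>
      (Real.rpow_pos_of_pos (div_pos (pt κ hκ i hi h0) (hwm.2.1 i hi h0)) _).ne']
    exact sum_congr rfl fun κ hκ => Real.log_rpow (div_pos (pt κ hκ i hi h0) (hwm.2.1 i hi h0)) _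
  have l2 : LL y D r2 ≤ 0 := e2 ▸ sum_nonpos lt
  rw [← e2] at hsum
  have c1 := conc hy (fun i _ => n1 i) m1 (ε := E * μ)
    (by rw [PP_eq_exp hy p1]; exact Real.exp_le_exp.2 (by linarith))
  have c2 := conc hy (fun i _ => n2 i) m2 (ε := E * μ)
    (by rw [PP_eq_exp hy p2]; exact Real.exp_le_exp.2 (by linarith))
  have c3 := conc hy (fun i _ => n3 i) m3 (ε := E * μ)
    (by rw [PP_eq_exp hy p3]; exact Real.exp_le_exp.2 (by linarith))
  set G := D.filter fun i => 0 < y i ∧ r1 i ≤ 2 ∧ r2 i ≤ 2 ∧ 1 / 2 ≤ r3 i with hG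
  have cG : ∑ i ∈ D, (if i ∈ G then 0 else y i) ≤ 18 * (E * μ) := by
    refine le_trans (sum_le_sum (g := fun i => (if 2 < r1 i ∨ r1 i < 1 / 2 then y i else 0) +
      (if 2 < r2 i ∨ r2 i < 1 / 2 then y i else 0) + (if 2 < r3 i ∨ r3 i < 1 / 2 then y i else 0))
      fun i hi => ?_) (by rw [sum_add_distrib, sum_add_distrib]; linarith)
    have hyi := hy i
    have q : ∀ P : Prop, 0 ≤ (if P then y i else 0) := fun P => by split_ifs; exacts [hyi, le_rfl]
    have q1 := q (2 < r1 i ∨ r1 i < 1 / 2)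
    have q2 := q (2 < r2 i ∨ r2 i < 1 / 2)
    have q3 := q (2 < r3 i ∨ r3 i < 1 / 2)
    by_cases hiG : i ∈ G
    · rw [if_pos hiG]; convert add_nonneg (add_nonneg q1 q2) q3
    · rw [if_neg hiG]
      rcases hyi.eq_or_lt with h0 | h0
      · rw [← h0]; simp
      by_cases a1 : r1 i ≤ 2
      · by_cases a2 : r2 i ≤ 2
        · have a3 : r3 i < 1 / 2 := by
            by_contra a3
            exact hiG (mem_filter.2 ⟨hi, h0, a1, a2, not_lt.1 a3⟩)
          rw [if_pos (Or.inr a3)]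
          convert le_add_of_nonneg_left (add_nonneg q1 q2)
        · rw [if_pos (Or.inl (not_le.1 a2))]
          convert (le_add_of_nonneg_left q1).trans (le_add_of_nonneg_right q3)
      · rw [if_pos (Or.inl (not_le.1 a1))]
        convert (le_add_of_nonneg_right q2).trans (le_add_of_nonneg_right q3)
  have hAdm : Adm (fun κ => if κ ≤ k then w1 else t κ) := fun κ => by
    by_cases hκ : κ ≤ k
    · simp only [hκ, if_true]; exact BB_mono (nk_pos κ) hw1.1
    · simp only [hκ, if_false]; exact ht κ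
  refine ⟨G, _, _, filter_subset _ _, hwm.dual hy hμ le_rfl, hAdm,
    fun κ hκ => by simp only [hκ, if_true]; exact hw1.1, fun i hi => ?_, ?_⟩
  · obtain ⟨hiD, h0, a1, a2, a3⟩ := mem_filter.1 hi
    have b1 := hw1.2.1 i hiD h0
    have bm := hwm.2.1 i hiD h0
    have g0 : 0 ≤ 1 - Gam (k + 1) := by linarith [Gam_le_one (k + 1)]
    have e0 : GP (k + 1) K (fun κ => if κ ≤ k then w1 else t κ) i = GP (k + 1) K t i :=
      GP_congr fun κ hκ _ => by simp only [show ¬ κ ≤ k by omega, if_false]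
    have e1 : GP 0 (k + 1) t i = r2 i * wm i ^ (1 - Gam (k + 1)) := by
      rw [← hgs, Real.rpow_sum_of_pos bm]
      simp only [hr2]
      rw [← prod_mul_distrib]
      refine prod_congr rfl fun κ _ => ?_
      rw [← Real.mul_rpow (div_nonneg (ht.nonneg κ i) bm.le) bm.le, div_mul_cancel₀ _ bm.ne']
    have f3 : wm i ≤ 2 * w1 i := by
      simp only [hr3] at a3
      rw [le_div_iff₀ bm] at a3; linarith
    have f1 : s i ≤ 4 * (μ⁻¹ * (y i / wm i)) := by
      simp only [hr1] at a1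
      rw [div_le_iff₀ h0] at a1
      have : 4 * (μ⁻¹ * (y i / wm i)) = 4 * y i / (μ * wm i) := by field_simp
      rw [this, le_div_iff₀ (by positivity)]
      nlinarith [mul_le_mul_of_nonneg_left f3 (mul_nonneg hμ.le (hs.1 i))]
    have f2 : wm i ^ (1 - Gam (k + 1)) ≤ 2 * w1 i ^ (1 - Gam (k + 1)) := by
      refine (Real.rpow_le_rpow bm.le f3 g0).trans ?_
      rw [Real.mul_rpow (by norm_num) b1.le]
      refine mul_le_mul_of_nonneg_right ?_ (by positivity)
      simpa using Real.rpow_le_rpow_of_exponent_le (show (1 : ℝ) ≤ 2 by norm_num)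
        (show 1 - Gam (k + 1) ≤ 1 by linarith [Gam_pos (k + 1)])
    have hT := GP_nonneg ht.nonneg (k + 1) K i
    refine (hx i (hD i hiD)).trans ?_
    rw [GP_split (Nat.zero_le _) hK, GP_split (Nat.zero_le _) hK, e0, e1,
      GP_const (Nat.zero_le (k + 1)) b1.le
        (fun κ _ hκ => by simp only [show κ ≤ k by omega, if_true]), Gam_zero, res_of_mem hiD]
    have := n2 i
    calc s i * (r2 i * wm i ^ (1 - Gam (k + 1)) * GP (k + 1) K t i)
        ≤ (4 * (μ⁻¹ * (y i / wm i))) * (2 * (2 * w1 i ^ (1 - Gam (k + 1))) * GP (k + 1) K t i) := by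
          gcongr
      _ = _ := by ring
  · have ht0 : t 0 ∈ BB 1 := ht 0
    have hmem : 0 ∈ Ico 0 (k + 1) := mem_Ico.2 ⟨le_rfl, Nat.succ_pos k⟩
    have d1 : -(2 * (E * μ)) ≤ LL y D (fun i => t 0 i / wm i) := by
      have d2 : LL y D r2 ≤ gam 0 * LL y D (fun i => t 0 i / wm i) := by
        rw [e2, ← add_sum_erase _ _ hmem]
        exact add_le_of_nonpos_right (sum_nonpos fun κ hκ => lt κ (mem_of_mem_erase hκ))
      have d3 := hwm.LL_div_le hy (htm 0 hmem) (pt 0 hmem)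
      have d4 : 1 / 2 ≤ gam 0 := by simpa [Gam_zero] using gam_ge 0
      nlinarith
    have d5 : LL y D (fun i => μ * (s i * t 0 i) / y i) =
        LL y D r1 + LL y D (fun i => t 0 i / wm i) - LL y D r3 := by
      unfold LL
      rw [← sum_add_distrib, ← sum_sub_distrib]
      simp_rw [← mul_add, ← mul_sub]
      refine sum_congr_pos hy fun i hi h0 => ?_
      have b0 := pt 0 hmem i hi h0
      have b1 := hw1.2.1 i hi h0
      have bm := hwm.2.1 i hi h0
      have bs := hsp i hi h0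
      rw [← Real.log_mul (p1 i hi h0).ne' (by positivity), ← Real.log_div
        (mul_pos (p1 i hi h0) (by positivity)).ne' (p3 i hi h0).ne']
      congr 1
      simp only [hr1, hr3]; field_simp
    have d6 := conc_mass hy (D := D) (h := fun i => μ * (s i * t 0 i))
      (fun i _ => mul_nonneg hμ.le (mul_nonneg (hs.1 i) (ht0.1 i)))
      (by rw [← mul_sum]; exact mul_le_of_le_one_right hμ.le (pair_le_one hs ht0 D))
      (ε := 3 * (E * μ)) (by
        rw [PP_eq_exp hy fun i hi h0 => by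
          have b0 := pt 0 hmem i hi h0
          have bs := hsp i hi h0
          positivity]
        exact Real.exp_le_exp.2 (by linarith)) G
    have d7 : ∑ i ∈ range K, s i * t 0 i * (if i ∈ D \ G then 1 else 0) ≤ 42 * E := by
      have : ∑ i ∈ range K, s i * t 0 i * (if i ∈ D \ G then 1 else 0) =
          μ⁻¹ * ∑ i ∈ D, (if i ∈ G then 0 else μ * (s i * t 0 i)) := by
        rw [mul_sum, ← sum_subset (s₁ := D) (fun i hi => mem_range.2 (hD i hi))]
        · refine sum_congr rfl fun i hi => ?_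
          by_cases hiG : i ∈ G
          · simp [hiG]
          · rw [if_pos (mem_sdiff.2 ⟨hi, hiG⟩), if_neg hiG]; field_simp
        · intro i _ hi
          rw [if_neg fun h => hi (mem_sdiff.1 h).1, mul_zero]
      rw [this, inv_mul_le_iff₀ hμ]
      linarith
    have hK1 : 1 ≤ K := by omega
    have d8 := Bl.theta (k := 1) (K := K) (x := fun i => if i ∈ G then 0 else x i)
      (h := fun i => s i * t 0 i) (θ := fun i => if i ∈ D \ G then 1 else 0)
      (fun i => mul_nonneg (hs.1 i) (ht0.1 i)) (pair_le_one hs ht0 _) hs ht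
      (fun i => by split_ifs <;> norm_num) (a := 1 / 2) (by norm_num)
      (by linarith [Gam_one_le]) (show 0 < 42 * E by positivity) d7 (fun i hi => by
        have z : 0 ≤ (if i ∈ D \ G then (1 : ℝ) else 0) ^ (1 / 2 : ℝ) *
            ((s i * t 0 i) ^ (1 - Gam 1) * s i ^ Gam 1 * GP 1 K t i) := by
          have := hs.1 i
          have := ht0.1 i
          have := GP_nonneg ht.nonneg 1 K i
          have : (0 : ℝ) ≤ if i ∈ D \ G then 1 else 0 := by split_ifs <;> norm_num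
          positivity
        by_cases hiG : i ∈ G
        · simpa only [hiG, if_true, sq, mul_zero] using z
        by_cases hiD : i ∈ D
        · rw [if_neg hiG, if_pos (mem_sdiff.2 ⟨hiD, hiG⟩), Real.one_rpow, one_mul]
          refine (hx i hi).trans (le_of_eq ?_)
          have h3 : s i = s i ^ (1 - Gam 1) * s i ^ Gam 1 := by
            rw [← Real.rpow_add' (hs.1 i) (by simp)]; simp
          rw [GP_split (Nat.zero_le 1) hK1, GP_const (Nat.zero_le 1) (ht0.1 i)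
            (fun κ _ hκ => by rw [show κ = 0 by omega]), Gam_zero,
            Real.mul_rpow (hs.1 i) (ht0.1 i)]
          conv_lhs => rw [h3]
          ring
        · simpa only [hiG, if_false, hx0 i hiD, sq, mul_zero] using z)
    have d9 := NK_le (Real.rpow_pos_of_pos (show 0 < 42 * E by positivity) _) (Bl_subset hK1 d8)
    refine (pow_le_pow_left₀ (NK_nonneg _ _) d9 4).trans (le_of_eq ?_)
    rw [← Real.rpow_natCast, ← Real.rpow_mul (by positivity)]
    norm_num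

end Pool.Agent.MP_650c5e_an
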