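import Pool.Agent.MP_650c5e_an.Loz

/-! The parameters of the construction. -/

namespace Pool.Agent.MP_650c5e_an

open Finset

/-- The pair (depth, reciprocal of the tail weight). -/
def par : ℕ → ℕ × ℕ
  | 0 => (0, 1)
  | k + 1 =>
    ((par k).1 + 1 + 2 * (k + 1) * ((par k).2 * (2 * (k + 1) *
      pat (2 * (k + 1) * R (par k).1) ((2 * (k + 1) * R (par k).1) ^ 2) * R (par k).1)),
    (par k).2 * (2 * (k + 1) *
      pat (2 * (k + 1) * R (par k).1) ((2 * (k + 1) * R (par k).1) ^ 2) * R (par k).1))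

def dk (k : ℕ) : ℕ := (par k).1

def Gk (k : ℕ) : ℕ := (par k).2

def nk (k : ℕ) : ℕ := R (dk k)

def dw (k : ℕ) : ℕ := 2 * (k + 1) * nk k

def Mk (k : ℕ) : ℕ := pat (dw k) (dw k ^ 2)

lemma Gk_succ (k : ℕ) : Gk (k + 1) = Gk k * (2 * (k + 1) * Mk k * nk k) := rfl

lemma dk_succ (k : ℕ) : dk (k + 1) = dk k + 1 + 2 * (k + 1) * Gk (k + 1) := rfl

lemma dk_zero : dk 0 = 0 := rfl

lemma Gk_zero : Gk 0 = 1 := rfl

lemma nk_zero : nk 0 = 1 := rfl

lemma nk_pos (k : ℕ) : 1 ≤ nk k := R_pos _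

lemma dw_pos (k : ℕ) : 1 ≤ dw k := by
  have := nk_pos k
  unfold dw; nlinarith

lemma pat_pos {N : ℕ} (hN : 1 ≤ N) (a : ℕ) : 1 ≤ pat N a := by
  induction a with
  | zero => exact le_rfl
  | succ a ih => exact Nat.one_le_pow _ _ (Nat.mul_pos ih hN)

lemma pat_dvd_succ (N a : ℕ) : pat N a ∣ pat N (a + 1) := by
  show pat N a ∣ (pat N a * N) ^ 2
  exact Dvd.intro (N * (pat N a * N)) (by ring)

lemma pat_dvd (N : ℕ) {a b : ℕ} (h : a ≤ b) : pat N a ∣ pat N b := by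
  induction b, h using Nat.le_induction with
  | base => exact dvd_rfl
  | succ b _ ih => exact ih.trans (pat_dvd_succ N b)

lemma Mk_pos (k : ℕ) : 1 ≤ Mk k := pat_pos (dw_pos k) _

lemma Mk_le_R (k : ℕ) : Mk k ≤ R (dw k) := pat_le_R _ (dw_pos k)

lemma Gk_pos (k : ℕ) : 1 ≤ Gk k := by
  induction k with
  | zero => exact le_rfl
  | succ k ih =>
    rw [Gk_succ]
    exact Nat.mul_pos ih (Nat.mul_pos (Nat.mul_pos (by omega) (Mk_pos k)) (nk_pos k))

lemma dk_strictMono : StrictMono dk :=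
  strictMono_nat_of_lt_succ fun k => by rw [dk_succ]; omega

lemma nk_mono : Monotone nk := fun _ _ h => R_mono (dk_strictMono.monotone h)

lemma le_dk (k : ℕ) : k ≤ dk k := dk_strictMono.le_apply

lemma le_nk (k : ℕ) : k ≤ nk k := (le_dk k).trans R_strictMono.le_apply

/-- Tail weights. -/
noncomputable def Gam (k : ℕ) : ℝ := 1 / Gk k

/-- Weights. -/
noncomputable def gam (k : ℕ) : ℝ := Gam k - Gam (k + 1)

lemma Gam_zero : Gam 0 = 1 := by simp [Gam, Gk_zero]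

lemma Gam_pos (k : ℕ) : 0 < Gam k := by
  have : (0 : ℝ) < Gk k := by exact_mod_cast Gk_pos k
  unfold Gam; positivity

lemma Gam_le_one (k : ℕ) : Gam k ≤ 1 := by
  have : (1 : ℝ) ≤ Gk k := by exact_mod_cast Gk_pos k
  unfold Gam
  rw [div_le_one (by positivity)]; exact this

lemma Gam_succ (k : ℕ) : Gam (k + 1) * (2 * (k + 1) * Mk k * nk k) = Gam k := by
  have h1 : (0 : ℝ) < Gk k := by exact_mod_cast Gk_pos k
  have h2 : (0 : ℝ) < Mk k := by exact_mod_cast Mk_pos k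
  have h3 : (0 : ℝ) < nk k := by exact_mod_cast nk_pos k
  unfold Gam
  rw [Gk_succ]; push_cast; field_simp

lemma Gam_succ_le (k : ℕ) : 2 * Gam (k + 1) ≤ Gam k := by
  have h2 : (1 : ℝ) ≤ Mk k := by exact_mod_cast Mk_pos k
  have h3 : (1 : ℝ) ≤ nk k := by exact_mod_cast nk_pos k
  have h4 : (1 : ℝ) ≤ k + 1 := by linarith [Nat.cast_nonneg (α := ℝ) k]
  have h5 : (1 : ℝ) ≤ (k + 1) * Mk k * nk k :=
    one_le_mul_of_one_le_of_one_le (one_le_mul_of_one_le_of_one_le h4 h2) h3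
  have := Gam_succ k
  nlinarith [Gam_pos (k + 1)]

lemma Gam_succ_mul_M (k : ℕ) : Gam (k + 1) * Mk k ≤ 1 / (k + 1) := by
  have h2 : (1 : ℝ) ≤ Mk k := by exact_mod_cast Mk_pos k
  have h3 : (1 : ℝ) ≤ nk k := by exact_mod_cast nk_pos k
  have h4 : (0 : ℝ) < k + 1 := by positivity
  have h5 := Gam_succ k
  have h6 := Gam_le_one k
  have h7 : 0 < Gam (k + 1) * Mk k * (k + 1) := by have := Gam_pos (k + 1); positivity
  rw [le_div_iff₀ h4]
  nlinarith

lemma Gam_succ_mul_n (k : ℕ) : Gam (k + 1) * nk k ≤ 1 := by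
  have h2 : (1 : ℝ) ≤ Mk k := by exact_mod_cast Mk_pos k
  have h3 : (1 : ℝ) ≤ nk k := by exact_mod_cast nk_pos k
  have h4 : (1 : ℝ) ≤ k + 1 := by linarith [Nat.cast_nonneg (α := ℝ) k]
  have h5 := Gam_succ k
  have h6 := Gam_le_one k
  have h7 : 0 < Gam (k + 1) * nk k := by have := Gam_pos (k + 1); positivity
  have h8 : (1 : ℝ) ≤ (k + 1) * Mk k := one_le_mul_of_one_le_of_one_le h4 h2
  nlinarith

lemma Gam_anti : Antitone Gam :=
  antitone_nat_of_succ_le fun k => by linarith [Gam_succ_le k, Gam_pos (k + 1)]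

lemma gam_ge (k : ℕ) : Gam k / 2 ≤ gam k := by
  unfold gam; linarith [Gam_succ_le k]

lemma gam_pos (k : ℕ) : 0 < gam k := lt_of_lt_of_le (half_pos (Gam_pos k)) (gam_ge k)

lemma sum_gam {a b : ℕ} (h : a ≤ b) : ∑ k ∈ Ico a b, gam k = Gam a - Gam b := by
  induction b, h using Nat.le_induction with
  | base => simp
  | succ b hab ih => rw [sum_Ico_succ_top hab, ih]; unfold gam; ring

lemma sum_gam_range (b : ℕ) : ∑ k ∈ range b, gam k = 1 - Gam b := by
  rw [range_eq_Ico, sum_gam (Nat.zero_le b), Gam_zero]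

lemma le_dk_mul_gam (k : ℕ) : (k : ℝ) ≤ dk k * gam k := by
  cases k with
  | zero => simp [dk_zero]
  | succ k =>
    have h1 : (2 : ℝ) * (k + 1) * Gk (k + 1) ≤ dk (k + 1) := by
      have : 2 * (k + 1) * Gk (k + 1) ≤ dk (k + 1) := by rw [dk_succ]; omega
      exact_mod_cast this
    have h2 : (0 : ℝ) < Gk (k + 1) := by exact_mod_cast Gk_pos (k + 1)
    have h3 : Gam (k + 1) * Gk (k + 1) = 1 := by unfold Gam; field_simp
    have h4 := gam_ge (k + 1)
    have h5 := Gam_pos (k + 1)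
    push_cast
    calc (k : ℝ) + 1 = 2 * (k + 1) * Gk (k + 1) * (Gam (k + 1) / 2) := by
          linear_combination (-(k : ℝ) - 1) * h3
      _ ≤ dk (k + 1) * gam (k + 1) := by gcongr

lemma exists_Gam_le {ε : ℝ} (hε : 0 < ε) : ∃ k, 1 ≤ k ∧ Gam k ≤ ε := by
  obtain ⟨k, hk⟩ := exists_nat_one_div_lt hε
  refine ⟨k + 1, by omega, ?_⟩
  have h2 : (1 : ℝ) ≤ Mk k := by exact_mod_cast Mk_pos k
  nlinarith [Gam_succ_mul_M k, Gam_pos (k + 1)]

lemma Gam_one_le : Gam 1 ≤ 1 / 2 := by linarith [Gam_succ_le 0, Gam_zero]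

end Pool.Agent.MP_650c5e_an
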