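import Pool.Agent.MP_650c5e_an.Tsi

/-! Polar sets, merging and cutting estimates, and the rapidly increasing sequence lemma. -/

namespace Pool.Agent.MP_650c5e_an

open Finset

section polar

variable {S : Set (ℕ → ℝ)}

lemma polar.nonneg {s : ℕ → ℝ} (h : s ∈ polar S) (i : ℕ) : 0 ≤ s i := h.1 i

lemma mem_polar_of_range (hS : ∀ v ∈ S, ∀ i, 0 ≤ v i) {s : ℕ → ℝ} (h0 : ∀ i, 0 ≤ s i)
    (h : ∀ v ∈ S, ∀ N, ∑ i ∈ range N, v i * s i ≤ 1) : s ∈ polar S := by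
  refine ⟨h0, fun v hv D => ?_⟩
  obtain ⟨N, hN⟩ := D.exists_nat_subset_range
  exact le_trans (sum_le_sum_of_subset_of_nonneg hN fun i _ _ => mul_nonneg (hS v hv i) (h0 i))
    (h v hv N)

lemma polar.solid (hS : ∀ v ∈ S, ∀ i, 0 ≤ v i) {s s' : ℕ → ℝ} (h : s ∈ polar S)
    (h0 : ∀ i, 0 ≤ s' i) (hle : ∀ i, s' i ≤ s i) : s' ∈ polar S :=
  ⟨h0, fun v hv D => le_trans (sum_le_sum fun i _ =>
    mul_le_mul_of_nonneg_left (hle i) (hS v hv i)) (h.2 v hv D)⟩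

lemma polar.anti {S' : Set (ℕ → ℝ)} (h : S ⊆ S') : polar S' ⊆ polar S :=
  fun _ hs => ⟨hs.1, fun v hv D => hs.2 v (h hv) D⟩

lemma subset_bipolar (hS : ∀ v ∈ S, ∀ i, 0 ≤ v i) : S ⊆ polar (polar S) :=
  fun v hv => ⟨hS v hv, fun s hs D => by
    simpa only [mul_comm] using hs.2 v hv D⟩

/-- Subconvex combinations. -/
lemma polar.comb {ι : Type*} (J : Finset ι) (w : ι → ℝ) (s : ι → ℕ → ℝ)
    (hw : ∀ j ∈ J, 0 ≤ w j) (hw1 : ∑ j ∈ J, w j ≤ 1) (hs : ∀ j ∈ J, s j ∈ polar S) :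
    (fun i => ∑ j ∈ J, w j * s j i) ∈ polar S := by
  refine ⟨fun i => sum_nonneg fun j hj => mul_nonneg (hw j hj) ((hs j hj).1 i), fun v hv D => ?_⟩
  calc ∑ i ∈ D, v i * ∑ j ∈ J, w j * s j i = ∑ j ∈ J, w j * ∑ i ∈ D, v i * s j i := by
        simp_rw [mul_sum]
        rw [sum_comm]
        exact sum_congr rfl fun j _ => sum_congr rfl fun i _ => by ring
    _ ≤ ∑ j ∈ J, w j * 1 :=
        sum_le_sum fun j hj => mul_le_mul_of_nonneg_left ((hs j hj).2 v hv D) (hw j hj)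
    _ ≤ 1 := by simpa using hw1

lemma polar.comb2 {s s' : ℕ → ℝ} {a b : ℝ} (ha : 0 ≤ a) (hb : 0 ≤ b) (hab : a + b ≤ 1)
    (hs : s ∈ polar S) (hs' : s' ∈ polar S) : (fun i => a * s i + b * s' i) ∈ polar S := by
  refine ⟨fun i => add_nonneg (mul_nonneg ha (hs.1 i)) (mul_nonneg hb (hs'.1 i)),
    fun v hv D => ?_⟩
  have h1 := hs.2 v hv D
  have h2 := hs'.2 v hv D
  have : ∑ i ∈ D, v i * (a * s i + b * s' i) =
      a * ∑ i ∈ D, v i * s i + b * ∑ i ∈ D, v i * s' i := by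
    simp_rw [mul_sum, ← sum_add_distrib]
    exact sum_congr rfl fun i _ => by ring
  rw [this]; nlinarith

lemma polar.isClosed : IsClosed (polar S) := by
  have : polar S = (⋂ i, {s : ℕ → ℝ | 0 ≤ s i}) ∩
      ⋂ v ∈ S, ⋂ D : Finset ℕ, {s : ℕ → ℝ | ∑ i ∈ D, v i * s i ≤ 1} := by
    ext s; simp [polar]
  rw [this]
  refine IsClosed.inter (isClosed_iInter fun i => isClosed_le continuous_const (continuous_apply i))
    (isClosed_biInter fun v _ => isClosed_iInter fun D => isClosed_le ?_ continuous_const)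
  fun_prop

lemma mem_polar_of_sum_le (hS : ∀ v ∈ S, ∀ i, v i ≤ 1) {s : ℕ → ℝ} (h0 : ∀ i, 0 ≤ s i)
    (h : ∀ D : Finset ℕ, ∑ i ∈ D, s i ≤ 1) : s ∈ polar S :=
  ⟨h0, fun v hv D => le_trans (sum_le_sum fun i _ => by
    have := hS v hv i; have := h0 i; nlinarith) (h D)⟩

lemma polar.le_one (hS : ∀ j, Pi.single j (1 : ℝ) ∈ S) {s : ℕ → ℝ} (h : s ∈ polar S) (j : ℕ) :
    s j ≤ 1 := by
  simpa using h.2 _ (hS j) {j}

lemma polar.scale (hS : ∀ v ∈ S, ∀ i, 0 ≤ v i) {s : ℕ → ℝ} (h0 : ∀ i, 0 ≤ s i) (E : Finset ℕ)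
    {c : ℝ} (hc : 0 < c) (h : ∀ v ∈ S, ∑ i ∈ E, v i * s i ≤ c) :
    (fun i => c⁻¹ * res E s i) ∈ polar S := by
  refine ⟨fun i => mul_nonneg (inv_nonneg.2 hc.le) (res_nonneg h0 i), fun v hv D => ?_⟩
  have h1 : ∑ i ∈ D, v i * (c⁻¹ * res E s i) = c⁻¹ * ∑ i ∈ D ∩ E, v i * s i := by
    rw [mul_sum, ← sum_subset (inter_subset_left (s₁ := D) (s₂ := E))]
    · exact sum_congr rfl fun i hi => by rw [res_of_mem (mem_inter.1 hi).2]; ring
    · intro i hi hi'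
      rw [res_of_notMem (fun h => hi' (mem_inter.2 ⟨hi, h⟩))]; ring
  have h2 : ∑ i ∈ D ∩ E, v i * s i ≤ c :=
    le_trans (sum_le_sum_of_subset_of_nonneg inter_subset_right
      fun i _ _ => mul_nonneg (hS v hv i) (h0 i)) (h v hv)
  rw [h1, inv_mul_le_iff₀ hc]; simpa using h2

/-- A bound on the pairings with `S` passes to the bipolar. -/
lemma bipolar_le (hS : ∀ v ∈ S, ∀ i, 0 ≤ v i) {w : ℕ → ℝ} (hw : w ∈ polar (polar S))
    {s : ℕ → ℝ} (h0 : ∀ i, 0 ≤ s i) (E : Finset ℕ) {c : ℝ} (hc : 0 ≤ c)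
    (h : ∀ v ∈ S, ∑ i ∈ E, v i * s i ≤ c) : ∑ i ∈ E, w i * s i ≤ c := by
  refine le_of_forall_gt_imp_ge_of_dense fun c' hc' => ?_
  have hpos : 0 < c' := lt_of_le_of_lt hc hc'
  have h1 := hw.2 _ (polar.scale hS h0 E hpos fun v hv => (h v hv).trans hc'.le) E
  have h2 : ∑ i ∈ E, c'⁻¹ * res E s i * w i = c'⁻¹ * ∑ i ∈ E, w i * s i := by
    rw [mul_sum]
    exact sum_congr rfl fun i hi => by rw [res_of_mem hi]; ring
  rw [h2, inv_mul_le_iff₀ hpos] at h1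
  simpa using h1

lemma polar.shR (hS0 : ∀ v ∈ S, ∀ i, 0 ≤ v i) (hS : ∀ v ∈ S, shL v ∈ S) {s : ℕ → ℝ}
    (h : s ∈ polar S) : shR s ∈ polar S := by
  refine mem_polar_of_range hS0 (fun i => by cases i; exacts [le_rfl, h.1 _]) fun v hv N => ?_
  cases N with
  | zero => simp
  | succ N =>
    rw [sum_range_succ']
    simpa [MP_650c5e_an.shR, MP_650c5e_an.shL] using h.2 _ (hS v hv) (range N)

lemma polar.shL (hS0 : ∀ v ∈ S, ∀ i, 0 ≤ v i) (hS : ∀ v ∈ S, MP_650c5e_an.shR v ∈ S)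
    {s : ℕ → ℝ} (h : s ∈ polar S) : shL s ∈ polar S := by
  refine mem_polar_of_range hS0 (fun i => h.1 _) fun v hv N => ?_
  have := h.2 _ (hS v hv) (range (N + 1))
  rw [sum_range_succ'] at this
  simpa [MP_650c5e_an.shR, MP_650c5e_an.shL] using this

end polar

lemma VS_nonneg (n : ℕ) : ∀ v ∈ VS n, ∀ i, 0 ≤ v i := fun _ hv i => (VS.bounds hv i).1

lemma SB_nonneg (n : ℕ) : ∀ v ∈ SB n, ∀ i, 0 ≤ v i := fun _ hv i => hv.1 i

lemma BB_nonneg (n : ℕ) : ∀ v ∈ BB n, ∀ i, 0 ≤ v i := fun _ hv i => hv.1 i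

lemma SB_le_one {n : ℕ} (hn : 1 ≤ n) : ∀ v ∈ SB n, ∀ i, v i ≤ 1 :=
  fun _ hv i => polar.le_one (fun j => (V.base j).mem_VS hn) hv i

lemma mem_SB_of_sum_le {n : ℕ} {s : ℕ → ℝ} (h0 : ∀ i, 0 ≤ s i)
    (h : ∀ D : Finset ℕ, ∑ i ∈ D, s i ≤ 1) : s ∈ SB n :=
  mem_polar_of_sum_le (fun _ hv i => (VS.bounds hv i).2) h0 h

lemma mem_BB_of_sum_le {n : ℕ} (hn : 1 ≤ n) {s : ℕ → ℝ} (h0 : ∀ i, 0 ≤ s i)
    (h : ∀ D : Finset ℕ, ∑ i ∈ D, s i ≤ 1) : s ∈ BB n :=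
  mem_polar_of_sum_le (SB_le_one hn) h0 h

lemma BB_le_one (n : ℕ) : ∀ v ∈ BB n, ∀ i, v i ≤ 1 := fun _ hv i =>
  polar.le_one (fun j => mem_SB_of_sum_le (fun i => by by_cases h : i = j <;> simp [h])
    fun D => by
      by_cases h : j ∈ D
      · rw [sum_eq_single_of_mem j h (fun b _ hb => by simp [hb])]; simp
      · rw [sum_eq_zero fun b hb => by
          have : b ≠ j := fun e => h (e ▸ hb)
          simp [this]]
        exact zero_le_one) hv i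

lemma VS_subset_BB (n : ℕ) : VS n ⊆ BB n := subset_bipolar (VS_nonneg n)

lemma BB_mono {n n' : ℕ} (h : n ≤ n') : BB n ⊆ BB n' := polar.anti (polar.anti (VS.mono h))

lemma SB_anti {n n' : ℕ} (h : n ≤ n') : SB n' ⊆ SB n := polar.anti (VS.mono h)

lemma BB.solid {n : ℕ} {s s' : ℕ → ℝ} (h : s ∈ BB n) (h0 : ∀ i, 0 ≤ s' i) (hle : ∀ i, s' i ≤ s i) :
    s' ∈ BB n := polar.solid (SB_nonneg n) h h0 hle

lemma SB.solid {n : ℕ} {s s' : ℕ → ℝ} (h : s ∈ SB n) (h0 : ∀ i, 0 ≤ s' i) (hle : ∀ i, s' i ≤ s i) :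
    s' ∈ SB n := polar.solid (VS_nonneg n) h h0 hle

lemma SB.shR {n : ℕ} {s : ℕ → ℝ} (h : s ∈ SB n) : shR s ∈ SB n :=
  polar.shR (VS_nonneg n) (fun _ hv => VS.shL hv) h

lemma SB.shL {n : ℕ} {s : ℕ → ℝ} (h : s ∈ SB n) : shL s ∈ SB n :=
  polar.shL (VS_nonneg n) (fun _ hv => VS.shR hv) h

lemma BB.shR {n : ℕ} {s : ℕ → ℝ} (h : s ∈ BB n) : shR s ∈ BB n :=
  polar.shR (SB_nonneg n) (fun _ hv => SB.shL hv) h

lemma BB.shL {n : ℕ} {s : ℕ → ℝ} (h : s ∈ BB n) : shL s ∈ BB n :=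
  polar.shL (SB_nonneg n) (fun _ hv => SB.shR hv) h

lemma pair_le_one {n : ℕ} {s t : ℕ → ℝ} (hs : s ∈ SB n) (ht : t ∈ BB n) (D : Finset ℕ) :
    ∑ i ∈ D, s i * t i ≤ 1 := ht.2 s hs D

lemma V.pair {v s : ℕ → ℝ} (hv : V v) {n : ℕ} (hn : 1 ≤ n) (hs : s ∈ SB n) (D : Finset ℕ) :
    ∑ i ∈ D, v i * s i ≤ 1 := hs.2 v (hv.mem_VS hn) D

lemma BB.shrink {d : ℕ} {t : ℕ → ℝ} (h : t ∈ BB (R d)) :
    (fun i => (1 / 2 : ℝ) ^ d * t i) ∈ BB 1 := by
  refine ⟨fun i => mul_nonneg (by positivity) (h.1 i), fun s hs D => ?_⟩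
  have h1 : (fun i => (1 / 2 : ℝ) ^ d * s i) ∈ SB (R d) := by
    refine ⟨fun i => mul_nonneg (by positivity) (hs.1 i), fun v hv D => ?_⟩
    have := (VS.node hv).pair le_rfl hs D
    exact le_of_eq_of_le (sum_congr rfl fun i _ => by ring) this
  have := h.2 _ h1 D
  exact le_of_eq_of_le (sum_congr rfl fun i _ => by ring) this

/-- Sums of `n` successive members of `BB 1` lie in `BB n`. -/
lemma merge {A : ℕ → ℕ} (hA : Monotone A) (n : ℕ) {w : ℕ → ℕ → ℝ} (hw : ∀ j < n, w j ∈ BB 1) :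
    (fun i => ∑ j ∈ range n, res (Ico (A j) (A (j + 1))) (w j) i) ∈ BB n := by
  refine ⟨fun i => sum_nonneg fun j hj => res_nonneg (hw j (mem_range.1 hj)).1 i,
    fun s hs D => ?_⟩
  set f : ℕ → (ℕ → ℝ) → ℝ := fun j v => ∑ i ∈ D ∩ Ico (A j) (A (j + 1)), v i * s i with hf
  have hsum : ∀ u : ℕ → ℕ → ℝ, ∑ i ∈ D, s i * ∑ j ∈ range n, res (Ico (A j) (A (j + 1))) (u j) i
      = ∑ j ∈ range n, f j (u j) := by
    intro u
    simp_rw [mul_sum]
    rw [sum_comm]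
    refine sum_congr rfl fun j _ => ?_
    simp only [hf]
    rw [← sum_res_mul]
    exact sum_congr rfl fun i _ => mul_comm _ _
  have key : ∀ r ≤ n, ∀ u : ℕ → ℕ → ℝ, (∀ j, V (u j)) →
      ∑ j ∈ range n, f j (if j < r then w j else u j) ≤ 1 := by
    intro r
    induction r with
    | zero =>
      intro _ u hu
      simp only [Nat.not_lt_zero, if_false]
      rw [← hsum]
      have : (fun i => ∑ j ∈ range n, res (Ico (A j) (A (j + 1))) (u j) i) ∈ VS n :=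
        ⟨n, le_rfl, A, _, hA, fun j => (hu j).res _,
          fun j i hne => mem_Ico.1 (mem_of_res_ne hne), rfl⟩
      simpa only [mul_comm] using hs.2 _ this D
    | succ r ih =>
      intro hr u hu
      have hrn : r ∈ range n := mem_range.2 hr
      have hsplit : ∀ g : ℕ → ℕ → ℝ, ∑ j ∈ range n, f j (g j) =
          f r (g r) + ∑ j ∈ (range n).erase r, f j (g j) :=
        fun g => (add_sum_erase _ (fun j => f j (g j)) hrn).symm
      set rest := ∑ j ∈ (range n).erase r, f j (if j < r then w j else u j) with hrest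
      have hv : ∀ v, V v → f r v ≤ 1 - rest := by
        intro v hv
        have h1 := ih (by omega) (Function.update u r v) (fun j => by
          by_cases h : j = r
          · subst h; simpa using hv
          · simpa [Function.update_of_ne h] using hu j)
        rw [hsplit] at h1
        have h2 : ∑ j ∈ (range n).erase r, f j (if j < r then w j else Function.update u r v j)
            = rest := sum_congr rfl fun j hj => by
          rw [Function.update_of_ne (mem_erase.1 hj).1]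
        rw [h2] at h1
        simp only [lt_irrefl, if_false, Function.update_self] at h1
        linarith
      have h0 : 0 ≤ 1 - rest := by simpa [hf] using hv 0 V.zero
      have h3 : f r (w r) ≤ 1 - rest :=
        bipolar_le (VS_nonneg 1) (hw r hr) hs.1 _ h0 fun v hv' => hv v (VS.one hv')
      rw [hsplit]
      have h4 : ∑ j ∈ (range n).erase r, f j (if j < r + 1 then w j else u j) = rest :=
        sum_congr rfl fun j hj => by
          have := (mem_erase.1 hj).1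
          by_cases h : j < r
          · rw [if_pos h, if_pos (by omega)]
          · rw [if_neg h, if_neg (by omega)]
      rw [h4, if_pos (Nat.lt_succ_self r)]
      linarith
  rw [hsum]
  have := key n le_rfl (fun _ => 0) (fun _ => V.zero)
  exact le_of_eq_of_le (sum_congr rfl fun j hj => by rw [if_pos (mem_range.1 hj)]) this

/-- Two systems of successive intervals meet in few pairs. -/
lemma pairs {p A : ℕ → ℕ} (hp : Monotone p) (hA : Monotone A) (r : ℕ) (J : Finset ℕ)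
    (x : ℕ → ℕ → ℝ) (a : ℕ → ℝ) {η : ℝ} (hη : 0 ≤ η) (ha0 : ∀ c ∈ J, 0 ≤ a c)
    (ha : ∀ c ∈ J, a c ≤ η) (hx : ∀ i ∈ range r, ∀ c ∈ J, x i c ≤ a c)
    (hxs : ∀ i, ∀ c ∈ J, x i c ≠ 0 →
      ∃ k, (p i ≤ k ∧ k < p (i + 1)) ∧ (A c ≤ k ∧ k < A (c + 1))) :
    ∑ i ∈ range r, ∑ c ∈ J, x i c ≤ ∑ c ∈ J, a c + r * η := by
  have h1 : ∀ i c, x i c = (if p i ≤ A c then x i c else 0) + (if p i ≤ A c then 0 else x i c) := by
    intro i c; split_ifs <;> simp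
  have h2 : ∑ i ∈ range r, ∑ c ∈ J, (if p i ≤ A c then x i c else 0) ≤ ∑ c ∈ J, a c := by
    rw [sum_comm]
    refine sum_le_sum fun c hc => ?_
    refine sum_succ_le (u := fun i _ => if p i ≤ A c then x i c else 0) hp (ha0 c hc) _ (A c)
      (fun i hi => ?_) (fun i _ hne => ?_)
    · split_ifs; exacts [hx i hi c hc, ha0 c hc]
    · by_cases h : p i ≤ A c
      · simp only [h, if_true] at hne
        obtain ⟨k, hk1, hk2⟩ := hxs i c hc hne
        omega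
      · simp [h] at hne
  have h3 : ∑ i ∈ range r, ∑ c ∈ J, (if p i ≤ A c then 0 else x i c) ≤ r * η := by
    calc _ ≤ ∑ i ∈ range r, η := sum_le_sum fun i hi => ?_
      _ = r * η := by simp
    refine sum_succ_le (u := fun c _ => if p i ≤ A c then 0 else x i c) hA hη _ (p i)
      (fun c hc => ?_) (fun c hc hne => ?_)
    · split_ifs; exacts [hη, (hx i hi c hc).trans (ha c hc)]
    · by_cases h : p i ≤ A c
      · simp [h] at hne
      · simp only [h, if_false] at hne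
        obtain ⟨k, hk1, hk2⟩ := hxs i c hc hne
        omega
  calc ∑ i ∈ range r, ∑ c ∈ J, x i c = ∑ i ∈ range r, ∑ c ∈ J, (if p i ≤ A c then x i c else 0)
        + ∑ i ∈ range r, ∑ c ∈ J, (if p i ≤ A c then 0 else x i c) := by
        rw [← sum_add_distrib]
        refine sum_congr rfl fun i _ => ?_
        rw [← sum_add_distrib]
        exact sum_congr rfl fun c _ => h1 i c
    _ ≤ _ := add_le_add h2 h3

/-- The cut estimate. -/
lemma cut {A : ℕ → ℕ} (hA : Monotone A) {m : ℕ} {t : ℕ → ℝ} (ht : t ∈ BB m) (J : Finset ℕ)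
    (σ : ℕ → ℕ → ℝ) (hσ : ∀ c i, 0 ≤ σ c i) (a : ℕ → ℝ) {η : ℝ} (hη : 0 ≤ η)
    (ha0 : ∀ c ∈ J, 0 ≤ a c) (ha : ∀ c ∈ J, a c ≤ η)
    (hV : ∀ c ∈ J, ∀ v, V v → ∑ i ∈ Ico (A c) (A (c + 1)), v i * σ c i ≤ a c) :
    ∑ c ∈ J, ∑ i ∈ Ico (A c) (A (c + 1)), t i * σ c i ≤ ∑ c ∈ J, a c + m * η := by
  obtain ⟨N, hN⟩ := (J.biUnion fun c => Ico (A c) (A (c + 1))).exists_nat_subset_range
  have hsub : ∀ c ∈ J, Ico (A c) (A (c + 1)) ⊆ range N :=
    fun c hc => (subset_biUnion_of_mem (fun c => Ico (A c) (A (c + 1))) hc).trans hN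
  have hsum : ∀ v : ℕ → ℝ, ∑ i ∈ range N, v i * ∑ c ∈ J, res (Ico (A c) (A (c + 1))) (σ c) i =
      ∑ c ∈ J, ∑ i ∈ Ico (A c) (A (c + 1)), v i * σ c i := by
    intro v
    simp_rw [mul_sum]
    rw [sum_comm]
    exact sum_congr rfl fun c hc => sum_mul_res (hsub c hc) _ _
  rw [← hsum]
  refine bipolar_le (VS_nonneg m) ht (fun i => sum_nonneg fun c _ => res_nonneg (hσ c) i) _
    (add_nonneg (sum_nonneg ha0) (by positivity)) ?_
  rintro v ⟨r, hr, p, u, hp, hu, hs, rfl⟩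
  rw [hsum]
  have h1 : ∑ c ∈ J, ∑ k ∈ Ico (A c) (A (c + 1)), (∑ i ∈ range r, u i k) * σ c k =
      ∑ i ∈ range r, ∑ c ∈ J, ∑ k ∈ Ico (A c) (A (c + 1)), u i k * σ c k := by
    rw [sum_comm]
    refine sum_congr rfl fun c _ => ?_
    simp_rw [sum_mul]
    rw [sum_comm]
  rw [h1]
  refine le_trans (pairs hp hA r J _ a hη ha0 ha (fun i _ c hc => hV c hc _ (hu i)) ?_) ?_
  · intro i c _ hne
    obtain ⟨k, hk, hk'⟩ := exists_ne_zero_of_sum_ne_zero hne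
    exact ⟨k, hs i k (left_ne_zero_of_mul hk'), mem_Ico.1 hk⟩
  · have : (r : ℝ) ≤ m := by exact_mod_cast hr
    nlinarith

end Pool.Agent.MP_650c5e_an
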