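import Pool.Agent.MP_650c5e_an.Polar

/-! The estimate for rapidly increasing sequences. -/

namespace Pool.Agent.MP_650c5e_an

open Finset

open Classical in
/-- Indicator of the event that the support of `v` meets the `j`-th window. -/
noncomputable def ind (A : ℕ → ℕ) (v : ℕ → ℝ) (j : ℕ) : ℝ :=
  if ∃ k ∈ Ico (A j) (A (j + 1)), v k ≠ 0 then 1 else 0

lemma ind_nonneg (A v j) : 0 ≤ ind A v j := by unfold ind; split_ifs <;> norm_num

lemma ind_le_one (A v j) : ind A v j ≤ 1 := by unfold ind; split_ifs <;> norm_num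

lemma le_mul_ind {A : ℕ → ℕ} {v s : ℕ → ℝ} {j : ℕ} {c : ℝ}
    (h : ∑ i ∈ Ico (A j) (A (j + 1)), v i * s i ≤ c) :
    ∑ i ∈ Ico (A j) (A (j + 1)), v i * s i ≤ c * ind A v j := by
  unfold ind
  split_ifs with h'
  · simpa using h
  · push Not at h'
    rw [sum_eq_zero fun i hi => by rw [h' i hi, zero_mul]]; simp

lemma ris_aux {d n : ℕ} {A : ℕ → ℕ} (hA : Monotone A) {σ : ℕ → ℕ → ℝ}
    (hσ : ∀ j < n, σ j ∈ SB (R (A j))) (D : ℕ) (hD : D ≤ d + 1) :
    ∀ v, V v → ∑ j ∈ range n, ∑ i ∈ Ico (A j) (A (j + 1)), v i * σ j i ≤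
      (1 / 2 : ℝ) ^ D * ∑ j ∈ range n, ind A v j + 3 * (R d : ℝ) ^ D := by
  have hR : (1 : ℝ) ≤ R d := by exact_mod_cast R_pos d
  have hone : ∀ v, V v → ∀ j ∈ range n, ∑ i ∈ Ico (A j) (A (j + 1)), v i * σ j i ≤ 1 :=
    fun v hv j hj => hv.pair (R_pos _) (hσ j (mem_range.1 hj)) _
  induction D with
  | zero =>
    intro v hv
    have : ∑ j ∈ range n, ∑ i ∈ Ico (A j) (A (j + 1)), v i * σ j i ≤ ∑ j ∈ range n, ind A v j :=
      sum_le_sum fun j hj => by simpa using le_mul_ind (hone v hv j hj)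
    simp only [pow_zero]; linarith
  | succ D ih =>
    intro v hv
    have hJ : ∀ v, 0 ≤ ∑ j ∈ range n, ind A v j := fun v => sum_nonneg fun j _ => ind_nonneg _ _ _
    have hRD : (1 : ℝ) ≤ (R d : ℝ) ^ (D + 1) := one_le_pow₀ hR
    have hpos : 0 ≤ (1 / 2 : ℝ) ^ (D + 1) * ∑ j ∈ range n, ind A v j :=
      mul_nonneg (by positivity) (hJ v)
    cases hv with
    | zero => simp only [Pi.zero_apply, zero_mul, sum_const_zero]; linarith
    | base k =>
      have : ∑ j ∈ range n, ∑ i ∈ Ico (A j) (A (j + 1)), (Pi.single k (1 : ℝ) : ℕ → ℝ) i * σ j i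
          ≤ 1 := by
        refine sum_succ_le (u := fun j _ =>
          ∑ i ∈ Ico (A j) (A (j + 1)), (Pi.single k (1 : ℝ) : ℕ → ℝ) i * σ j i) hA zero_le_one _ k
          (fun j hj => hone _ (V.base k) j hj) fun j _ hne => ?_
        obtain ⟨i, hi, hi'⟩ := exists_ne_zero_of_sum_ne_zero hne
        have : i = k := by
          by_contra h
          simp [h] at hi'
        exact this ▸ mem_Ico.1 hi
      linarith
    | node d' r p u hd' hr hp hu hs =>
      set v : ℕ → ℝ := fun j => (1 / 2 : ℝ) ^ d' * ∑ i ∈ range r, u i j with hvdef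
      have hv : V v := V.node d' r p u hd' hr hp hu hs
      by_cases hcase : d' ≤ d
      · have hrR : (r : ℝ) ≤ R d := by exact_mod_cast hr.trans (R_mono hcase)
        have h1 : ∑ j ∈ range n, ∑ k ∈ Ico (A j) (A (j + 1)), v k * σ j k =
            (1 / 2 : ℝ) ^ d' * ∑ i ∈ range r, ∑ j ∈ range n,
              ∑ k ∈ Ico (A j) (A (j + 1)), u i k * σ j k := by
          rw [sum_comm (s := range r), mul_sum]
          refine sum_congr rfl fun j _ => ?_
          rw [sum_comm (s := range r), mul_sum]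
          refine sum_congr rfl fun k _ => ?_
          simp only [hvdef]
          rw [mul_assoc, sum_mul]
        have h2 : ∑ i ∈ range r, ∑ j ∈ range n, ind A (u i) j ≤
            ∑ j ∈ range n, ind A v j + r * 1 := by
          refine pairs hp hA r _ _ _ zero_le_one (fun c _ => ind_nonneg _ _ _)
            (fun c _ => ind_le_one _ _ _) (fun i hi c _ => ?_) (fun i c _ hne => ?_)
          · unfold ind
            split_ifs with h h'
            · exact le_rfl
            · exfalso; apply h'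
              obtain ⟨k, hk, hk'⟩ := h
              refine ⟨k, hk, ?_⟩
              have : 0 < ∑ i ∈ range r, u i k :=
                sum_pos' (fun i _ => ((hu i).bounds k).1)
                  ⟨i, hi, lt_of_le_of_ne ((hu i).bounds k).1 (Ne.symm hk')⟩
              simp only [hvdef]
              positivity
            · exact zero_le_one
            · exact le_rfl
          · unfold ind at hne
            split_ifs at hne with h
            · obtain ⟨k, hk, hk'⟩ := h
              exact ⟨k, hs i k hk', mem_Ico.1 hk⟩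
            · exact absurd rfl hne
        have h3 : ∑ i ∈ range r, ∑ j ∈ range n, ∑ k ∈ Ico (A j) (A (j + 1)), u i k * σ j k ≤
            (1 / 2 : ℝ) ^ D * (∑ j ∈ range n, ind A v j + r * 1) + r * (3 * (R d : ℝ) ^ D) := by
          calc _ ≤ ∑ i ∈ range r, ((1 / 2 : ℝ) ^ D * ∑ j ∈ range n, ind A (u i) j +
                3 * (R d : ℝ) ^ D) := sum_le_sum fun i _ => ih (by omega) _ (hu i)
            _ = (1 / 2 : ℝ) ^ D * ∑ i ∈ range r, ∑ j ∈ range n, ind A (u i) j +
                r * (3 * (R d : ℝ) ^ D) := by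
                rw [sum_add_distrib, ← mul_sum]; simp
            _ ≤ _ := by gcongr
        have h4 : (1 / 2 : ℝ) ^ d' ≤ 1 / 2 := by
          calc (1 / 2 : ℝ) ^ d' ≤ (1 / 2 : ℝ) ^ 1 :=
                pow_le_pow_of_le_one (by norm_num) (by norm_num) hd'
            _ = 1 / 2 := pow_one _
        have h5 : (1 / 2 : ℝ) ^ D ≤ 1 := pow_le_one₀ (by norm_num) (by norm_num)
        have h6 : (0 : ℝ) ≤ (R d : ℝ) ^ D := by positivity
        have h7 : (R d : ℝ) ≤ (R d : ℝ) ^ (D + 1) := by
          rw [pow_succ]; nlinarith [one_le_pow₀ hR (n := D)]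
        have h8 : (r : ℝ) * (R d : ℝ) ^ D ≤ (R d : ℝ) ^ (D + 1) := by
          rw [pow_succ]; nlinarith
        have h9 : (0 : ℝ) ≤ r := Nat.cast_nonneg r
        have h10 : (0 : ℝ) ≤ (1 / 2 : ℝ) ^ D := by positivity
        have h11 := hJ v
        rw [h1]
        calc _ ≤ (1 / 2 : ℝ) ^ d' * ((1 / 2 : ℝ) ^ D * (∑ j ∈ range n, ind A v j + r * 1) +
              r * (3 * (R d : ℝ) ^ D)) := by gcongr
          _ ≤ (1 / 2 : ℝ) * ((1 / 2 : ℝ) ^ D * (∑ j ∈ range n, ind A v j + r * 1) +
              r * (3 * (R d : ℝ) ^ D)) := by gcongr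
          _ ≤ _ := by
            rw [pow_succ (1 / 2 : ℝ)]
            nlinarith [mul_le_mul_of_nonneg_right h5 h9]
      · have hw : (fun j => ∑ i ∈ range r, u i j) ∈ VS (R d') := ⟨r, hr, p, u, hp, hu, hs, rfl⟩
        have hvle : ∀ k, v k ≤ (1 / 2 : ℝ) ^ d' := fun k => by
          have := (VS.bounds hw k).2
          simp only [hvdef]
          exact mul_le_of_le_one_right (by positivity) this
        have hpow : (1 / 2 : ℝ) ^ d' ≤ (1 / 2 : ℝ) ^ (D + 1) :=
          pow_le_pow_of_le_one (by norm_num) (by norm_num) (by omega)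
        have hg : ∀ j ∈ range n, ∑ k ∈ Ico (A j) (A (j + 1)), v k * σ j k ≤
            (1 / 2 : ℝ) ^ (D + 1) * ind A v j +
            ∑ k ∈ range d', v k * res (Ico (A j) (A (j + 1))) (σ j) k +
            (if A j ≤ d' ∧ d' < A (j + 1) then (1 : ℝ) else 0) := by
          intro j hj
          have hσj := hσ j (mem_range.1 hj)
          have e1 : 0 ≤ (1 / 2 : ℝ) ^ (D + 1) * ind A v j :=
            mul_nonneg (by positivity) (ind_nonneg _ _ _)
          have e2 : 0 ≤ ∑ k ∈ range d', v k * res (Ico (A j) (A (j + 1))) (σ j) k :=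
            sum_nonneg fun k _ => mul_nonneg (hv.bounds k).1 (res_nonneg hσj.1 k)
          have e3 : 0 ≤ (if A j ≤ d' ∧ d' < A (j + 1) then (1 : ℝ) else 0) := by
            split_ifs <;> norm_num
          by_cases c1 : d' ≤ A j
          · have f1 := (SB_anti (R_mono c1) hσj).2 _ hw (Ico (A j) (A (j + 1)))
            have f2 : ∑ k ∈ Ico (A j) (A (j + 1)), v k * σ j k ≤ (1 / 2 : ℝ) ^ (D + 1) := by
              calc _ = (1 / 2 : ℝ) ^ d' *
                    ∑ k ∈ Ico (A j) (A (j + 1)), (∑ i ∈ range r, u i k) * σ j k := by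
                    rw [mul_sum]
                    exact sum_congr rfl fun k _ => by simp only [hvdef]; ring
                _ ≤ (1 / 2 : ℝ) ^ d' * 1 := by gcongr
                _ ≤ _ := by linarith
            linarith [le_mul_ind f2]
          · by_cases c2 : A (j + 1) ≤ d'
            · rw [sum_mul_res (fun k hk => mem_range.2 (by have := mem_Ico.1 hk; omega))]
              linarith
            · rw [if_pos ⟨by omega, by omega⟩]
              linarith [hone v hv j hj]
        have hs2 : ∑ j ∈ range n, ∑ k ∈ range d', v k * res (Ico (A j) (A (j + 1))) (σ j) k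
            ≤ 1 := by
          rw [sum_comm]
          calc _ ≤ ∑ k ∈ range d', (1 / 2 : ℝ) ^ d' := by
                refine sum_le_sum fun k _ => ?_
                rw [← mul_sum]
                have g1 : ∑ j ∈ range n, res (Ico (A j) (A (j + 1))) (σ j) k ≤ 1 :=
                  sum_succ_le (u := fun j => res (Ico (A j) (A (j + 1))) (σ j)) hA zero_le_one _ k
                    (fun j hj => (res_le (hσ j (mem_range.1 hj)).1 k).trans
                      (SB_le_one (R_pos _) _ (hσ j (mem_range.1 hj)) k))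
                    fun j _ hne => mem_Ico.1 (mem_of_res_ne hne)
                exact (mul_le_of_le_one_right (hv.bounds k).1 g1).trans (hvle k)
            _ = d' * (1 / 2 : ℝ) ^ d' := by simp
            _ ≤ 1 := by
                have : (d' : ℝ) ≤ 2 ^ d' := by exact_mod_cast Nat.lt_two_pow_self.le
                rw [one_div, inv_pow, ← div_eq_mul_inv, div_le_one (by positivity)]
                exact this
        have hs3 : ∑ j ∈ range n, (if A j ≤ d' ∧ d' < A (j + 1) then (1 : ℝ) else 0) ≤ 1 :=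
          sum_succ_le (u := fun j _ => if A j ≤ d' ∧ d' < A (j + 1) then (1 : ℝ) else 0) hA
            zero_le_one _ d' (fun j _ => by split_ifs <;> norm_num) fun j _ hne => by
              by_contra h; exact hne (if_neg h)
        have := sum_le_sum hg
        rw [sum_add_distrib, sum_add_distrib, ← mul_sum] at this
        linarith

/-- The sum of a rapidly increasing sequence of length `R d` is small. -/
lemma ris {d : ℕ} (hd : 1 ≤ d) {A : ℕ → ℕ} (hA : Monotone A) {σ : ℕ → ℕ → ℝ}
    (hσ : ∀ j < R d, σ j ∈ SB (R (A j))) :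
    (fun i => (2 : ℝ) ^ d / (2 * R d) *
      ∑ j ∈ range (R d), res (Ico (A j) (A (j + 1))) (σ j) i) ∈ SB 1 := by
  obtain ⟨e, rfl⟩ : ∃ e, d = e + 1 := ⟨d - 1, by omega⟩
  have hR : (0 : ℝ) < R (e + 1) := by exact_mod_cast R_pos (e + 1)
  refine ⟨fun i => mul_nonneg (by positivity)
    (sum_nonneg fun j hj => res_nonneg (hσ j (mem_range.1 hj)).1 i), fun v hv D => ?_⟩
  have hv' := VS.one hv
  have h1 := ris_aux (d := e) hA hσ (e + 1) le_rfl v hv'
  have h2 : ∑ j ∈ range (R (e + 1)), ind A v j ≤ R (e + 1) := by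
    calc _ ≤ ∑ j ∈ range (R (e + 1)), (1 : ℝ) := sum_le_sum fun j _ => ind_le_one _ _ _
      _ = _ := by simp
  have h3 : (3 : ℝ) * 2 ^ (e + 1) * (R e : ℝ) ^ (e + 1) ≤ R (e + 1) := by
    exact_mod_cast R_succ_ge e
  have h4 : ∑ i ∈ D, v i * ∑ j ∈ range (R (e + 1)), res (Ico (A j) (A (j + 1))) (σ j) i ≤
      ∑ j ∈ range (R (e + 1)), ∑ i ∈ Ico (A j) (A (j + 1)), v i * σ j i := by
    simp_rw [mul_sum]
    rw [sum_comm]
    refine sum_le_sum fun j hj => ?_
    rw [← sum_mul_res (subset_union_right (s₁ := D) (s₂ := Ico (A j) (A (j + 1)))) v (σ j)]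
    exact sum_le_sum_of_subset_of_nonneg subset_union_left fun i _ _ =>
      mul_nonneg (hv'.bounds i).1 (res_nonneg (hσ j (mem_range.1 hj)).1 i)
  have h5 : (1 / 2 : ℝ) ^ (e + 1) * 2 ^ (e + 1) = 1 := by rw [← mul_pow]; norm_num
  have h6 : (0 : ℝ) < 2 ^ (e + 1) := by positivity
  have h7 : (0 : ℝ) < (1 / 2 : ℝ) ^ (e + 1) := by positivity
  calc _ = (2 : ℝ) ^ (e + 1) / (2 * R (e + 1)) *
        ∑ i ∈ D, v i * ∑ j ∈ range (R (e + 1)), res (Ico (A j) (A (j + 1))) (σ j) i := by
        rw [mul_sum]; exact sum_congr rfl fun i _ => by ring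
    _ ≤ (2 : ℝ) ^ (e + 1) / (2 * R (e + 1)) *
        ((1 / 2 : ℝ) ^ (e + 1) * R (e + 1) + 3 * (R e : ℝ) ^ (e + 1)) := by
        gcongr
        refine h4.trans (h1.trans ?_)
        gcongr
    _ ≤ 1 := by
        rw [div_mul_eq_mul_div, div_le_one (by positivity)]
        nlinarith

end Pool.Agent.MP_650c5e_an
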