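import Pool.Agent.MP_650c5e_an.Khin

/-! The Banach space, its symmetric basis, type and cotype. -/

namespace Pool.Agent.MP_650c5e_an

open Finset UniformSpace

set_option maxHeartbeats 400000

/-- Finitely supported sequences with the symmetric norm. -/
def C00 : Type := ℕ →₀ ℝ

noncomputable instance : AddCommGroup C00 := inferInstanceAs (AddCommGroup (ℕ →₀ ℝ))

noncomputable instance : Module ℝ C00 := inferInstanceAs (Module ℝ (ℕ →₀ ℝ))

/-- The identification. -/
noncomputable def toC : (ℕ →₀ ℝ) ≃ₗ[ℝ] C00 := LinearEquiv.refl ℝ (ℕ →₀ ℝ)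

noncomputable def c00Norm : AddGroupNorm C00 where
  toFun x := XN (toC.symm x)
  map_zero' := le_antisymm (by simpa [l1] using XN_le_l1 0) (XN_nonneg _)
  add_le' x y := by rw [map_add]; exact XN_add_le _ _
  neg' x := by
    rw [map_neg]; exact le_antisymm (XN_mono fun i => by simp) (XN_mono fun i => by simp)
  eq_zero_of_map_eq_zero' x h := by
    have : toC.symm x = 0 := Finsupp.ext fun i =>
      abs_nonpos_iff.1 ((abs_le_XN (toC.symm x) i).trans (le_of_eq h))
    simpa using this

noncomputable instance : NormedAddCommGroup C00 := c00Norm.toNormedAddCommGroup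

lemma C00_norm (x : C00) : ‖x‖ = XN (toC.symm x) := rfl

noncomputable instance : NormedSpace ℝ C00 where
  norm_smul_le c x := by
    rw [C00_norm, C00_norm, map_smul]
    exact XN_le_mul (abs_nonneg c) fun i => by simp [abs_mul]

/-- The Banach space. -/
abbrev XX : Type := Completion C00

/-- The embedding of the finitely supported sequences. -/
noncomputable def emb : (ℕ →₀ ℝ) →ₗ[ℝ] XX :=
  (Completion.toComplL : C00 →L[ℝ] XX).toLinearMap ∘ₗ toC.toLinearMap

lemma emb_apply (x : ℕ →₀ ℝ) : emb x = (toC x : C00) := rfl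

lemma norm_emb (x : ℕ →₀ ℝ) : ‖emb x‖ = XN x := by
  rw [emb_apply, Completion.norm_coe, C00_norm, LinearEquiv.symm_apply_apply]

lemma dense_emb : DenseRange emb :=
  Completion.denseRange_coe.comp toC.surjective.denseRange (Completion.continuous_coe _)

/-- Coordinate functionals. -/
noncomputable def crd (i : ℕ) : XX →L[ℝ] ℝ :=
  ((Finsupp.lapply i ∘ₗ toC.symm.toLinearMap).mkContinuous 1 fun x => by
    rw [one_mul]; exact abs_le_XN _ i).fromCompletion

lemma crd_emb (i : ℕ) (x : ℕ →₀ ℝ) : crd i (emb x) = x i := by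
  rw [emb_apply, crd, ContinuousLinearMap.fromCompletion_apply_coe]; rfl

/-- Truncation. -/
noncomputable def trunc (n : ℕ) (f : ℕ → ℝ) : ℕ →₀ ℝ := ∑ i ∈ range n, Finsupp.single i (f i)

lemma trunc_apply (n : ℕ) (f : ℕ → ℝ) (j : ℕ) : trunc n f j = if j < n then f j else 0 := by
  rw [trunc, Finsupp.finsetSum_apply]
  simp [Finsupp.single_apply]

lemma emb_trunc (n : ℕ) (f : ℕ → ℝ) :
    emb (trunc n f) = ∑ i ∈ range n, f i • emb (Finsupp.single i 1) := by
  rw [trunc, map_sum]
  exact sum_congr rfl fun i _ => by rw [← map_smul]; simp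

lemma tendsto_trunc (x : XX) :
    Filter.Tendsto (fun n => emb (trunc n fun i => crd i x)) Filter.atTop (nhds x) := by
  have hcont : ∀ n, Continuous fun x : XX => emb (trunc n fun i => crd i x) := fun n => by
    simp_rw [emb_trunc]; fun_prop
  have hle : ∀ n (x : XX), ‖emb (trunc n fun i => crd i x)‖ ≤ ‖x‖ := fun n x => by
    refine dense_emb.induction_on x (isClosed_le (hcont n).norm continuous_norm) fun y => ?_
    rw [norm_emb, norm_emb]
    refine XN_mono fun i => ?_
    rw [trunc_apply, crd_emb]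
    split_ifs <;> simp
  rw [Metric.tendsto_atTop]
  intro ε hε
  obtain ⟨y, hy⟩ := dense_emb.exists_dist_lt x (half_pos hε)
  obtain ⟨N, hN⟩ := y.support.exists_nat_subset_range
  refine ⟨N, fun n hn => ?_⟩
  have h1 : trunc n (fun i => crd i x) = y + trunc n (fun i => crd i (x - emb y)) := by
    ext j
    rw [Finsupp.add_apply, trunc_apply, trunc_apply, map_sub, crd_emb]
    split_ifs with h
    · ring
    · rw [Finsupp.notMem_support_iff.1 fun h' => h (lt_of_lt_of_le (mem_range.1 (hN h')) hn)]
      simp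
  have h2 := hle n (x - emb y)
  rw [dist_eq_norm] at hy ⊢
  rw [h1, map_add, add_sub_right_comm]
  refine (norm_add_le _ _).trans_lt ?_
  rw [norm_sub_rev]
  linarith

/-- The unit vector basis. -/
noncomputable def bas : SchauderBasis ℝ XX where
  basis i := emb (Finsupp.single i 1)
  coord := crd
  ortho i j := by rw [crd_emb]; simp [Finsupp.single_apply, Pi.single_apply, eq_comm]
  expansion x := by
    rw [HasSum, SummationFilter.conditional_filter_eq_map_range, Filter.tendsto_map'_iff]
    refine (tendsto_trunc x).congr fun n => ?_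
    rw [emb_trunc]; rfl

lemma symmetric_XX : HasSymmetricBasis XX := by
  refine ⟨bas, fun π => ?_⟩
  have h : ∀ x : ℕ →₀ ℝ, ‖emb ((Finsupp.domLCongr π : (ℕ →₀ ℝ) ≃ₗ[ℝ] (ℕ →₀ ℝ)) x)‖ = ‖emb x‖ :=
    fun x => by
      rw [norm_emb, norm_emb]
      exact XN_perm π fun i => by simp [Finsupp.domLCongr_apply]
  refine ⟨((Finsupp.domLCongr π : (ℕ →₀ ℝ) ≃ₗ[ℝ] (ℕ →₀ ℝ)).extendOfIsometry emb emb
    dense_emb dense_emb h).toContinuousLinearEquiv, fun n => ?_⟩
  refine (LinearEquiv.extendOfIsometry_eq _ emb emb dense_emb dense_emb h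
    (Finsupp.single n 1)).trans ?_
  rw [Finsupp.domLCongr_single]; rfl

lemma not_finite_XX : ¬ FiniteDimensional ℝ XX := fun _ =>
  Module.Finite.not_linearIndependent_of_infinite _ bas.linearIndependent

lemma continuous_radAvg (n : ℕ) : Continuous fun x : Fin n → XX => radAvg x := by
  unfold radAvg
  refine Real.continuous_sqrt.comp (Continuous.div_const (continuous_finsetSum _ fun ε _ => ?_) _)
  refine (Continuous.norm (continuous_finsetSum _ fun i _ => ?_)).pow 2
  have h : Continuous fun x : Fin n → XX => x i := continuous_apply i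
  exact h.const_smul (if ε i then (1 : ℝ) else -1)

lemma radAvg_emb {n : ℕ} (x : Fin n → ℕ →₀ ℝ) : radAvg (fun i => emb (x i)) =
    √((∑ ε : Fin n → Bool, XN (∑ i, sg (ε i) • x i) ^ 2) / 2 ^ n) := by
  unfold radAvg
  congr 2
  refine sum_congr rfl fun ε _ => ?_
  rw [← norm_emb, map_sum]
  simp only [map_smul]; rfl

lemma continuous_lp (n : ℕ) {p : ℝ} (hp : 0 < p) :
    Continuous fun x : Fin n → XX => (∑ i, ‖x i‖ ^ p) ^ (1 / p) :=
  (Real.continuous_rpow_const (by positivity)).comp (continuous_finsetSum _ fun i _ =>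
    (Real.continuous_rpow_const hp.le).comp (continuous_apply i).norm)

lemma type_XX {p : ℝ} (hp1 : 1 ≤ p) (hp2 : p < 2) : HasType XX p := by
  obtain ⟨C, hC⟩ := type_c00 hp1 hp2
  refine ⟨C, fun n x => ?_⟩
  refine (DenseRange.piMap fun _ : Fin n => dense_emb).induction_on x
    (isClosed_le (continuous_radAvg n)
      (continuous_const.mul (continuous_lp n (by linarith)))) fun y => ?_
  have := hC n y
  rw [← radAvg_emb] at this
  simp only [← norm_emb] at this
  exact this

lemma cotype_XX {q : ℝ} (hq : 2 < q) : HasCotype XX q := by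
  obtain ⟨C, hC⟩ := cotype_c00 hq
  refine ⟨C, fun n x => ?_⟩
  refine (DenseRange.piMap fun _ : Fin n => dense_emb).induction_on x
    (isClosed_le (continuous_lp n (by linarith))
      (continuous_const.mul (continuous_radAvg n))) fun y => ?_
  have := hC n y
  rw [← radAvg_emb] at this
  simp only [← norm_emb] at this
  exact this

lemma nearHilbert_XX : NearHilbert XX := by
  refine ⟨fun p => type_XX, fun q => cotype_XX, ?_⟩
  obtain ⟨C, hC⟩ := cotype_XX (q := 3) (by norm_num)
  refine ⟨C, fun n x i => le_trans ?_ (hC n x)⟩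
  rw [one_div, Real.le_rpow_inv_iff_of_pos (norm_nonneg _)
    (sum_nonneg fun _ _ => by positivity) (by norm_num)]
  exact single_le_sum (f := fun i => ‖x i‖ ^ (3 : ℝ)) (fun _ _ => by positivity) (mem_univ i)

end Pool.Agent.MP_650c5e_an
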