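import Pool.Agent.MP_650c5e_an.ThmZ

/-! The symmetric norm built from the `K`-functional. -/

namespace Pool.Agent.MP_650c5e_an

open Finset

/-- Real powers of two. -/
noncomputable def tw (e : ℝ) : ℝ := (2 : ℝ) ^ e

lemma tw_pos (e : ℝ) : 0 < tw e := Real.rpow_pos_of_pos two_pos e

lemma tw_add (a b : ℝ) : tw (a + b) = tw a * tw b := Real.rpow_add two_pos a b

lemma tw_rpow (a p : ℝ) : tw a ^ p = tw (a * p) := (Real.rpow_mul zero_le_two a p).symm

lemma tw_nat (n : ℕ) : tw n = 2 ^ n := Real.rpow_natCast 2 n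

lemma tw_zero : tw 0 = 1 := Real.rpow_zero 2

lemma tw_one : tw 1 = 2 := Real.rpow_one 2

lemma tw_mono {a b : ℝ} (h : a ≤ b) : tw a ≤ tw b :=
  Real.rpow_le_rpow_of_exponent_le one_le_two h

lemma tw_lt_one {a : ℝ} (h : a < 0) : tw a < 1 :=
  Real.rpow_lt_one_of_one_lt_of_neg one_lt_two h

lemma tw_geom {β : ℝ} (hβ : 0 < β) (a K : ℕ) :
    ∑ r ∈ Ico a K, tw (-(β * r)) ≤ tw (-(β * a)) / (1 - tw (-β)) := by
  have h : ∀ r : ℕ, tw (-(β * r)) = tw (-β) ^ r := fun r => by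
    rw [← Real.rpow_natCast, tw_rpow]; congr 1; ring
  simp_rw [h]
  exact geom_sum_Ico_le_of_lt_one (tw_pos _).le (tw_lt_one (by linarith))

lemma tw_geom' {β : ℝ} (hβ : 0 < β) (K : ℕ) :
    ∑ r ∈ range K, tw (-(β * r)) ≤ 1 / (1 - tw (-β)) := by
  simpa [tw_zero] using tw_geom hβ 0 K

lemma tw_half : 1 / (1 - tw (-(1 / 2))) ≤ 4 := by
  have h1 : tw (-(1 / 2)) * tw (-(1 / 2)) = 1 / 2 := by
    rw [← tw_add, show -(1 / 2 : ℝ) + -(1 / 2) = -1 by ring]
    simp [tw, Real.rpow_neg_one]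
  have h2 := tw_pos (-(1 / 2))
  have h3 : tw (-(1 / 2)) ≤ 3 / 4 := by nlinarith
  rw [div_le_iff₀ (by linarith)]; linarith

lemma sum_rpow_le_rpow_sum {ι : Type*} (J : Finset ι) {a : ι → ℝ} (ha : ∀ j ∈ J, 0 ≤ a j) {p : ℝ}
    (hp : 1 ≤ p) : ∑ j ∈ J, a j ^ p ≤ (∑ j ∈ J, a j) ^ p := by
  classical
  induction J using Finset.induction_on with
  | empty => simpa using Real.rpow_nonneg le_rfl p
  | insert j J hj ih =>
    rw [sum_insert hj, sum_insert hj]
    have h1 := ih fun i hi => ha i (mem_insert_of_mem hi)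
    have h2 := Real.add_rpow_le_rpow_add (ha j (mem_insert_self _ _))
      (sum_nonneg fun i hi => ha i (mem_insert_of_mem hi)) hp
    linarith

lemma rpow_sum_le_sum_rpow {ι : Type*} (J : Finset ι) {a : ι → ℝ} (ha : ∀ j ∈ J, 0 ≤ a j) {p : ℝ}
    (hp0 : 0 < p) (hp : p ≤ 1) : (∑ j ∈ J, a j) ^ p ≤ ∑ j ∈ J, a j ^ p := by
  classical
  induction J using Finset.induction_on with
  | empty => simp [Real.zero_rpow hp0.ne']
  | insert j J hj ih =>
    rw [sum_insert hj, sum_insert hj]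
    have h1 := ih fun i hi => ha i (mem_insert_of_mem hi)
    have h2 := Real.rpow_add_le_add_rpow (ha j (mem_insert_self _ _))
      (sum_nonneg fun i hi => ha i (mem_insert_of_mem hi)) hp0.le hp
    linarith

/-- Iterated right shift. -/
def shRn (r : ℕ) (z : ℕ → ℝ) : ℕ → ℝ := fun l => if r ≤ l then z (l - r) else 0

lemma NK_shRn (K r : ℕ) (z : ℕ → ℝ) : NK K (shRn r z) ≤ NK K z := by
  induction r with
  | zero => exact le_of_eq (by congr 1)
  | succ r ih =>
    have : shRn (r + 1) z = shR (shRn r z) := by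
      funext l
      cases l with
      | zero => simp [shRn, shR]
      | succ l => simp [shRn, shR]
    rw [this]; exact (NK_shR K _).trans ih

lemma NK_shLn (K r : ℕ) (z : ℕ → ℝ) : NK K (fun l => z (l + r)) ≤ NK (K + r) z := by
  induction r generalizing K z with
  | zero => exact le_rfl
  | succ r ih =>
    have := ih K (shL z)
    exact this.trans (NK_shL (K + r) z)

lemma conv_le {K l : ℕ} (hl : l < K) (F : ℕ → ℝ → ℝ) (hF : ∀ r a, 0 ≤ F r a) (z : ℕ → ℝ) :
    ∑ m ∈ range (l + 1), F (l - m) (z m) ≤ ∑ r ∈ range K, F r (shRn r z l) := by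
  rw [← sum_flip]
  refine le_trans (le_of_eq (sum_congr rfl fun r hr => ?_))
    (sum_le_sum_of_subset_of_nonneg (range_subset_range.2 hl) fun r _ _ => hF _ _)
  have := mem_range.1 hr
  rw [show l - (l - r) = r by omega, shRn, if_pos (by omega)]

/-- The `l_1` norm. -/
noncomputable def l1 (x : ℕ →₀ ℝ) : ℝ := ∑ i ∈ x.support, |x i|

lemma l1_nonneg (x : ℕ →₀ ℝ) : 0 ≤ l1 x := sum_nonneg fun _ _ => abs_nonneg _

lemma sum_le_l1 (x : ℕ →₀ ℝ) (A : Finset ℕ) : ∑ i ∈ A, |x i| ≤ l1 x := by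
  rw [← sum_subset (inter_subset_left (s₁ := A) (s₂ := x.support))]
  · exact sum_le_sum_of_subset_of_nonneg inter_subset_right fun _ _ _ => abs_nonneg _
  · intro i hi hi'
    rw [Finsupp.notMem_support_iff.1 fun h => hi' (mem_inter.2 ⟨hi, h⟩), abs_zero]

/-- The `K`-functional: the sum of the `t` largest absolute values. -/
noncomputable def KF (t : ℕ) (x : ℕ →₀ ℝ) : ℝ :=
  ⨆ A : {A : Finset ℕ // A.card ≤ t}, ∑ i ∈ A.1, |x i|

instance (t : ℕ) : Nonempty {A : Finset ℕ // A.card ≤ t} := ⟨⟨∅, by simp⟩⟩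

lemma le_KF {t : ℕ} (x : ℕ →₀ ℝ) {A : Finset ℕ} (h : A.card ≤ t) : ∑ i ∈ A, |x i| ≤ KF t x :=
  le_ciSup (f := fun A : {A : Finset ℕ // A.card ≤ t} => ∑ i ∈ A.1, |x i|)
    ⟨l1 x, by rintro _ ⟨A, rfl⟩; exact sum_le_l1 x _⟩ ⟨A, h⟩

lemma KF_le {t : ℕ} {x : ℕ →₀ ℝ} {c : ℝ} (h : ∀ A : Finset ℕ, A.card ≤ t → ∑ i ∈ A, |x i| ≤ c) :
    KF t x ≤ c := ciSup_le fun A => h A.1 A.2

lemma KF_nonneg (t : ℕ) (x : ℕ →₀ ℝ) : 0 ≤ KF t x := by
  simpa using le_KF (t := t) x (A := ∅) (by simp)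

lemma KF_le_l1 (t : ℕ) (x : ℕ →₀ ℝ) : KF t x ≤ l1 x := KF_le fun A _ => sum_le_l1 x A

lemma abs_le_KF (x : ℕ →₀ ℝ) (i : ℕ) : |x i| ≤ KF 1 x := by
  simpa using le_KF (t := 1) x (A := {i}) (by simp)

lemma KF_comb {t : ℕ} {ι : Type*} (J : Finset ι) (c : ι → ℝ) (hc : ∀ j ∈ J, 0 ≤ c j)
    (x : ι → ℕ →₀ ℝ) {u : ℕ →₀ ℝ} (hu : ∀ i, |u i| ≤ ∑ j ∈ J, c j * |x j i|) :
    KF t u ≤ ∑ j ∈ J, c j * KF t (x j) :=
  KF_le fun A hA => by
    refine (sum_le_sum fun i _ => hu i).trans ?_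
    rw [sum_comm]
    exact sum_le_sum fun j hj => by
      rw [← mul_sum]; exact mul_le_mul_of_nonneg_left (le_KF _ hA) (hc j hj)

lemma count_lt (x : ℕ →₀ ℝ) (S : Finset ℕ) (j : ℕ) :
    #{i ∈ S | KF (2 ^ j) x / 2 ^ j < |x i|} < 2 ^ j := by
  by_contra h
  obtain ⟨A, hA, hc⟩ := exists_subset_card_eq (not_lt.1 h)
  have h1 := le_KF x hc.le
  have hne : A.Nonempty := card_pos.1 (by rw [hc]; positivity)
  have h2 : ∑ i ∈ A, KF (2 ^ j) x / 2 ^ j < ∑ i ∈ A, |x i| :=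
    sum_lt_sum_of_nonempty hne fun i hi => (mem_filter.1 (hA hi)).2
  rw [sum_const, hc, nsmul_eq_mul] at h2
  push_cast at h2
  rw [mul_div_cancel₀ _ (by positivity)] at h2
  linarith

lemma count_le (x : ℕ →₀ ℝ) (S : Finset ℕ) (j : ℕ) :
    (#{i ∈ S | KF (2 ^ j) x / 2 ^ j < |x i|} : ℝ) ≤ 2 ^ j :=
  (Nat.cast_le.2 (count_lt x S j).le).trans (le_of_eq (by push_cast; rfl))

lemma layer (S : Finset ℕ) (f lam c : ℕ → ℝ) (hf : ∀ i, 0 ≤ f i) (hlam : ∀ j, 0 ≤ lam j) {p : ℝ}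
    (hp : 0 ≤ p) (hc : ∀ j, (#{i ∈ S | lam j < f i} : ℝ) ≤ c j) {a b : ℕ} (hab : a ≤ b) :
    ∑ i ∈ S, (if f i ≤ lam a then f i ^ p else 0) ≤
      ∑ j ∈ Ico a b, c (j + 1) * lam j ^ p + #S * lam b ^ p := by
  have key : ∑ i ∈ S, (if f i ≤ lam a then f i ^ p else 0) ≤
      ∑ j ∈ Ico a b, c (j + 1) * lam j ^ p + ∑ i ∈ S, (if f i ≤ lam b then f i ^ p else 0) := by
    induction b, hab using Nat.le_induction with
    | base => simp
    | succ b hab ih =>
      rw [sum_Ico_succ_top hab]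
      have h1 : ∑ i ∈ S, (if f i ≤ lam b then f i ^ p else 0) ≤
          ∑ i ∈ S, ((if lam (b + 1) < f i then lam b ^ p else 0) +
            (if f i ≤ lam (b + 1) then f i ^ p else 0)) := by
        refine sum_le_sum fun i _ => ?_
        have q1 := Real.rpow_nonneg (hf i) p
        have q2 := Real.rpow_nonneg (hlam b) p
        by_cases h : f i ≤ lam (b + 1)
        · rw [if_neg (not_lt.2 h), if_pos h, zero_add]; split_ifs; exacts [le_rfl, q1]
        · rw [if_pos (not_le.1 h), if_neg h, add_zero]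
          split_ifs with h'
          exacts [Real.rpow_le_rpow (hf i) h' hp, q2]
      rw [sum_add_distrib, ← sum_filter (fun i => lam (b + 1) < f i), sum_const,
        nsmul_eq_mul] at h1
      have h2 := mul_le_mul_of_nonneg_right (hc (b + 1)) (Real.rpow_nonneg (hlam b) p)
      linarith
  refine key.trans (add_le_add le_rfl ?_)
  rw [← nsmul_eq_mul, ← sum_const]
  refine sum_le_sum fun i _ => ?_
  split_ifs with h
  exacts [Real.rpow_le_rpow (hf i) h hp, Real.rpow_nonneg (hlam b) p]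

/-- The dyadic profile. -/
noncomputable def prof (x : ℕ →₀ ℝ) (l : ℕ) : ℝ := tw (-(1 / 2 * l)) * KF (2 ^ l) x

lemma prof_nonneg (x : ℕ →₀ ℝ) (l : ℕ) : 0 ≤ prof x l := mul_nonneg (tw_pos _).le (KF_nonneg _ _)

lemma abs_prof (x : ℕ →₀ ℝ) (l : ℕ) : |prof x l| = prof x l := abs_of_nonneg (prof_nonneg x l)

lemma kappa_eq (x : ℕ →₀ ℝ) (j : ℕ) : KF (2 ^ j) x / 2 ^ j = tw (-(1 / 2 * j)) * prof x j := by
  rw [prof, ← mul_assoc, ← tw_add, ← tw_nat, div_eq_iff (tw_pos _).ne', mul_right_comm, ← tw_add,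
    show -(1 / 2 * (j : ℝ)) + -(1 / 2 * j) + j = 0 by ring, tw_zero, one_mul]

lemma sum_prof_le (x : ℕ →₀ ℝ) (a K : ℕ) :
    ∑ l ∈ Ico a K, prof x l ≤ 4 * tw (-(1 / 2 * a)) * l1 x := by
  calc _ ≤ ∑ l ∈ Ico a K, tw (-(1 / 2 * l)) * l1 x :=
        sum_le_sum fun l _ => mul_le_mul_of_nonneg_left (KF_le_l1 _ _) (tw_pos _).le
    _ ≤ _ := by
        rw [← sum_mul]
        refine mul_le_mul_of_nonneg_right ((tw_geom (by norm_num) a K).trans ?_) (l1_nonneg x)
        rw [div_eq_mul_one_div, mul_comm]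
        exact mul_le_mul_of_nonneg_right tw_half (tw_pos _).le

/-- The symmetric norm. -/
noncomputable def XN (x : ℕ →₀ ℝ) : ℝ := NN (prof x)

lemma NK_prof_le (x : ℕ →₀ ℝ) (K : ℕ) : NK K (prof x) ≤ 4 * l1 x := by
  refine (NK_le_sum K _).trans ?_
  simp_rw [abs_prof]
  simpa [tw_zero] using sum_prof_le x 0 K

lemma le_XN (x : ℕ →₀ ℝ) (K : ℕ) : NK K (prof x) ≤ XN x :=
  le_ciSup (f := fun K => NK K (prof x)) ⟨4 * l1 x, by rintro _ ⟨K, rfl⟩; exact NK_prof_le x K⟩ K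

lemma XN_le {x : ℕ →₀ ℝ} {c : ℝ} (h : ∀ K, NK K (prof x) ≤ c) : XN x ≤ c := ciSup_le h

lemma XN_nonneg (x : ℕ →₀ ℝ) : 0 ≤ XN x := (NK_nonneg 0 _).trans (le_XN x 0)

lemma XN_le_l1 (x : ℕ →₀ ℝ) : XN x ≤ 4 * l1 x := XN_le (NK_prof_le x)

lemma abs_le_XN (x : ℕ →₀ ℝ) (i : ℕ) : |x i| ≤ XN x := by
  refine le_trans ?_ ((abs_le_NK (prof x) Nat.one_pos).trans (le_XN x 1))
  simpa [abs_prof, prof, tw_zero] using (abs_le_KF x i).trans (le_abs_self _)

lemma prof_comb {ι : Type*} (J : Finset ι) (c : ι → ℝ) (hc : ∀ j ∈ J, 0 ≤ c j)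
    (x : ι → ℕ →₀ ℝ) {u : ℕ →₀ ℝ} (hu : ∀ i, |u i| ≤ ∑ j ∈ J, c j * |x j i|) (l : ℕ) :
    prof u l ≤ ∑ j ∈ J, c j * prof (x j) l := by
  refine (mul_le_mul_of_nonneg_left (KF_comb J c hc x hu) (tw_pos _).le).trans (le_of_eq ?_)
  rw [mul_sum]; exact sum_congr rfl fun j _ => by rw [prof]; ring

lemma XN_comb {ι : Type*} (J : Finset ι) (c : ι → ℝ) (hc : ∀ j ∈ J, 0 ≤ c j)
    (x : ι → ℕ →₀ ℝ) {u : ℕ →₀ ℝ} (hu : ∀ i, |u i| ≤ ∑ j ∈ J, c j * |x j i|) :
    XN u ≤ ∑ j ∈ J, c j * XN (x j) :=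
  XN_le fun K => by
    refine (NK_sum_le J (fun j l => c j * prof (x j) l) fun l _ => ?_).trans
      (sum_le_sum fun j hj => ?_)
    · rw [abs_prof]
      exact (prof_comb J c hc x hu l).trans (sum_le_sum fun j _ => le_abs_self _)
    · rw [NK_smul, abs_of_nonneg (hc j hj)]
      exact mul_le_mul_of_nonneg_left (le_XN _ K) (hc j hj)

lemma XN_le_mul {x u : ℕ →₀ ℝ} {c : ℝ} (hc : 0 ≤ c) (h : ∀ i, |u i| ≤ c * |x i|) :
    XN u ≤ c * XN x := by
  simpa using XN_comb (univ : Finset Unit) (fun _ => c) (fun _ _ => hc) (fun _ => x) (u := u)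
    (by simpa using h)

lemma XN_mono {x u : ℕ →₀ ℝ} (h : ∀ i, |u i| ≤ |x i|) : XN u ≤ XN x := by
  simpa using XN_le_mul (x := x) (u := u) zero_le_one (by simpa using h)

lemma XN_add_le (x y : ℕ →₀ ℝ) : XN (x + y) ≤ XN x + XN y := by
  simpa using XN_comb (univ : Finset Bool) (fun _ => 1) (fun _ _ => zero_le_one)
    (fun b => if b then x else y) (u := x + y) (by simpa using fun i => abs_add_le (x i) (y i))

lemma XN_perm (π : Equiv.Perm ℕ) {x u : ℕ →₀ ℝ} (h : ∀ i, u (π i) = x i) : XN u = XN x := by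
  have key : ∀ (π : Equiv.Perm ℕ) (x u : ℕ →₀ ℝ), (∀ i, u (π i) = x i) →
      ∀ t, KF t x ≤ KF t u := fun π x u h t => KF_le fun A hA => by
    have := le_KF u (A := A.map π.toEmbedding) (t := t) (by simpa using hA)
    simpa [h] using this
  have : prof u = prof x := by
    funext l
    rw [prof, prof, le_antisymm (key π.symm u x (fun i => by rw [← h]; simp) _) (key π x u h _)]
  rw [XN, XN, this]

lemma tendsto_XN (x : ℕ →₀ ℝ) :
    Filter.Tendsto (fun K => NK K (prof x)) Filter.atTop (nhds (XN x)) :=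
  tendsto_atTop_ciSup (NK_mono_K _) ⟨4 * l1 x, by rintro _ ⟨K, rfl⟩; exact NK_prof_le x K⟩

lemma sum_rpow_le_prof (x : ℕ →₀ ℝ) {p : ℝ} (hp : 0 < p) (l : ℕ) {A : Finset ℕ}
    (hA : A.card ≤ 2 ^ l) :
    ∑ i ∈ A, |x i| ^ p ≤ ∑ m ∈ range (l + 1), 2 * tw ((1 - p / 2) * m) * prof x m ^ p := by
  have h1 := layer A (fun i => |x i|) (fun j => KF (2 ^ j) x / 2 ^ j) (fun j => 2 ^ j)
    (fun i => abs_nonneg _) (fun j => div_nonneg (KF_nonneg _ _) (by positivity)) hp.le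
    (count_le x A) (Nat.zero_le l)
  have h2 : ∀ i, |x i| ≤ KF (2 ^ 0) x / 2 ^ 0 := fun i => by simpa using abs_le_KF x i
  simp only [h2, if_true] at h1
  have h3 : ∀ m : ℕ, 2 ^ m * (KF (2 ^ m) x / 2 ^ m) ^ p = tw ((1 - p / 2) * m) * prof x m ^ p := by
    intro m
    rw [kappa_eq, Real.mul_rpow (tw_pos _).le (prof_nonneg _ _), tw_rpow, ← tw_nat, ← mul_assoc,
      ← tw_add]
    congr 2; ring
  refine h1.trans ?_
  rw [sum_range_succ, ← range_eq_Ico]
  refine add_le_add (le_of_eq (sum_congr rfl fun m _ => ?_)) ?_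
  · rw [mul_assoc, ← h3]; ring
  · rw [mul_assoc, ← h3]
    have h4 : (#A : ℝ) ≤ 2 ^ l := by exact_mod_cast hA
    have h5 : 0 ≤ (KF (2 ^ l) x / 2 ^ l) ^ p :=
      Real.rpow_nonneg (div_nonneg (KF_nonneg _ _) (by positivity)) _
    have h6 : (0 : ℝ) ≤ 2 ^ l := by positivity
    nlinarith

/-- The symmetric norm is `p`-convex for every `p < 2`. -/
lemma XN_pconvex {p : ℝ} (hp1 : 1 ≤ p) (hp2 : p < 2) : ∃ C : ℝ, 0 < C ∧
    ∀ {ι : Type} (J : Finset ι) (x : ι → ℕ →₀ ℝ) (u : ℕ →₀ ℝ),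
      (∀ i, |u i| ^ p ≤ ∑ j ∈ J, |x j i| ^ p) → XN u ^ p ≤ C * ∑ j ∈ J, XN (x j) ^ p := by
  have hp : 0 < p := by linarith
  obtain ⟨k, -, hk⟩ := exists_Gam_le (show 0 < 2 / p - 1 by rw [sub_pos, lt_div_iff₀ hp]; linarith)
  have hpk : p / 2 * (1 + Gam k) ≤ 1 := by
    calc p / 2 * (1 + Gam k) ≤ p / 2 * (2 / p) := by gcongr; linarith
      _ = 1 := by field_simp
  set β := 1 - p / 2 with hβ
  have hβ0 : 0 < β := by linarith
  have hβ1 : 0 < 1 - tw (-β) := by linarith [tw_lt_one (show -β < 0 by linarith)]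
  refine ⟨(2 ^ dk k) ^ p * (2 * (1 / (1 - tw (-β)))), by positivity, fun J x u hu => ?_⟩
  have hS : 0 ≤ ∑ j ∈ J, XN (x j) ^ p := sum_nonneg fun j _ => Real.rpow_nonneg (XN_nonneg _) _
  have hprof : ∀ l, prof u l ^ p ≤ ∑ j ∈ J, ∑ m ∈ range (l + 1),
      2 * tw (-(β * ((l - m : ℕ) : ℝ))) * |prof (x j) m| ^ p := by
    intro l
    set B := ∑ j ∈ J, ∑ m ∈ range (l + 1), 2 * tw (β * m) * prof (x j) m ^ p with hB
    have hB0 : 0 ≤ B := sum_nonneg fun j _ => sum_nonneg fun m _ =>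
      mul_nonneg (mul_nonneg zero_le_two (tw_pos _).le) (Real.rpow_nonneg (prof_nonneg _ _) _)
    have h1 : KF (2 ^ l) u ≤ (tw (l * (p - 1)) * B) ^ p⁻¹ := KF_le fun A hA => by
      rw [Real.le_rpow_inv_iff_of_pos (sum_nonneg fun _ _ => abs_nonneg _)
        (mul_nonneg (tw_pos _).le hB0) hp]
      refine (Real.rpow_sum_le_const_mul_sum_rpow_of_nonneg A hp1 fun _ _ => abs_nonneg _).trans ?_
      refine mul_le_mul ?_ ?_ (sum_nonneg fun _ _ => by positivity) (tw_pos _).le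
      · rw [← tw_rpow, tw_nat]
        exact Real.rpow_le_rpow (by positivity) (by exact_mod_cast hA) (by linarith)
      · refine (sum_le_sum fun i _ => hu i).trans ?_
        rw [sum_comm]
        exact sum_le_sum fun j _ => sum_rpow_le_prof (x j) hp l hA
    rw [Real.le_rpow_inv_iff_of_pos (KF_nonneg _ _) (mul_nonneg (tw_pos _).le hB0) hp] at h1
    rw [prof, Real.mul_rpow (tw_pos _).le (KF_nonneg _ _)]
    refine (mul_le_mul_of_nonneg_left h1 (Real.rpow_nonneg (tw_pos _).le _)).trans (le_of_eq ?_)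
    rw [tw_rpow, ← mul_assoc, ← tw_add, hB, mul_sum]
    refine sum_congr rfl fun j _ => ?_
    rw [mul_sum]
    refine sum_congr rfl fun m hm => ?_
    rw [abs_prof, Nat.cast_sub (Nat.lt_succ_iff.1 (mem_range.1 hm)),
      show -(β * ((l : ℝ) - m)) = (-(1 / 2 * (l : ℝ)) * p + l * (p - 1)) + β * m by
        rw [hβ]; ring, tw_add _ (β * m)]
    ring
  have hK : ∀ K, k ≤ K → NK K (prof u) ^ p ≤
      (2 ^ dk k) ^ p * (2 * (1 / (1 - tw (-β)))) * ∑ j ∈ J, XN (x j) ^ p := by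
    intro K hK
    have e : ∀ r : ℕ, |(2 * tw (-(β * r))) ^ p⁻¹| ^ p = 2 * tw (-(β * r)) := fun r => by
      have := tw_pos (-(β * r))
      rw [abs_of_nonneg (by positivity), Real.rpow_inv_rpow (by positivity) hp.ne']
    refine (NK_pconvex hK hp hpk (J ×ˢ range K)
      (fun jr l => (2 * tw (-(β * jr.2))) ^ p⁻¹ * shRn jr.2 (prof (x jr.1)) l) fun l hl => ?_).trans ?_
    · rw [abs_prof, sum_product]
      refine (hprof l).trans (sum_le_sum fun j _ => ?_)
      refine (conv_le hl (fun r a => 2 * tw (-(β * r)) * |a| ^ p)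
        (fun r a => by have := tw_pos (-(β * r)); positivity) (prof (x j))).trans
        (le_of_eq (sum_congr rfl fun r _ => ?_))
      rw [abs_mul, Real.mul_rpow (abs_nonneg _) (abs_nonneg _), e]
    · rw [mul_assoc]
      refine mul_le_mul_of_nonneg_left ?_ (by positivity)
      rw [sum_product, mul_sum]
      refine sum_le_sum fun j _ => ?_
      calc _ ≤ ∑ r ∈ range K, 2 * tw (-(β * r)) * XN (x j) ^ p := by
            refine sum_le_sum fun r _ => ?_
            rw [NK_smul, Real.mul_rpow (abs_nonneg _) (NK_nonneg _ _), e]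
            refine mul_le_mul_of_nonneg_left ?_ (mul_nonneg zero_le_two (tw_pos _).le)
            exact Real.rpow_le_rpow (NK_nonneg _ _) ((NK_shRn _ _ _).trans (le_XN _ _)) hp.le
        _ ≤ _ := by
            rw [← sum_mul, ← mul_sum]
            refine mul_le_mul_of_nonneg_right ?_ (Real.rpow_nonneg (XN_nonneg _) _)
            exact mul_le_mul_of_nonneg_left (tw_geom' hβ0 K) zero_le_two
  refine le_of_tendsto (((Real.continuous_rpow_const hp.le).tendsto _).comp (tendsto_XN u)) ?_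
  filter_upwards [Filter.eventually_ge_atTop k] with K hK'
  exact hK K hK'

/-- The symmetric norm is `q`-concave for every `q > 2`. -/
lemma XN_qconcave {q : ℝ} (hq2 : 2 < q) : ∃ C : ℝ, 0 < C ∧
    ∀ {ι : Type} (J : Finset ι) (x : ι → ℕ →₀ ℝ) (u : ℕ →₀ ℝ),
      (∀ i, ∑ j ∈ J, |x j i| ^ q ≤ |u i| ^ q) → ∑ j ∈ J, XN (x j) ^ q ≤ C * XN u ^ q := by
  have hq : 0 < q := by linarith
  obtain ⟨k, -, hk⟩ := exists_Gam_le (show 0 < 1 - 2 / q by rw [sub_pos, div_lt_one hq]; linarith)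
  have hqk : 2 / q ≤ 1 - Gam k := by linarith
  set β := 1 / 2 - 1 / q with hβ
  have hβ0 : 0 < β := by
    rw [hβ, sub_pos]; exact one_div_lt_one_div_of_lt two_pos hq2
  have hβ1 : 0 < 1 - tw (-β) := by linarith [tw_lt_one (show -β < 0 by linarith)]
  refine ⟨16 ^ q * (2 * (2 ^ dk k) ^ q * (2 * (1 / (1 - tw (-β)))) ^ q), by positivity,
    fun J x u hu => ?_⟩
  set S := u.support with hS
  set κ : ℕ → ℝ := fun j => KF (2 ^ j) u / 2 ^ j with hκ
  have hκ0 : ∀ j, 0 ≤ κ j := fun j => div_nonneg (KF_nonneg _ _) (by positivity)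
  have hx0 : ∀ j ∈ J, ∀ i, i ∉ S → x j i = 0 := by
    intro j hj i hi
    have h4 : |x j i| ^ q ≤ 0 := by
      have := (single_le_sum (f := fun j => |x j i| ^ q) (fun j _ => by positivity) hj).trans (hu i)
      rwa [Finsupp.notMem_support_iff.1 hi, abs_zero, Real.zero_rpow hq.ne'] at this
    by_contra h6
    exact absurd h4 (not_le.2 (Real.rpow_pos_of_pos (abs_pos.2 h6) _))
  set τ : _ → ℕ → ℝ := fun j m => ∑ i ∈ S, (if |u i| ≤ κ m then |x j i| ^ q else 0) with hτ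
  have hτ0 : ∀ j m, 0 ≤ τ j m := fun j m => sum_nonneg fun i _ => by split_ifs <;> positivity
  set lam : _ → ℕ → ℝ := fun j m => (τ j m / 2 ^ m) ^ q⁻¹ with hlam
  have hlam0 : ∀ j m, 0 ≤ lam j m := fun j m =>
    Real.rpow_nonneg (div_nonneg (hτ0 j m) (by positivity)) _
  have hlamq : ∀ j m, lam j m ^ q = τ j m / 2 ^ m := fun j m =>
    Real.rpow_inv_rpow (div_nonneg (hτ0 j m) (by positivity)) hq.ne'
  set Q : _ → ℕ → ℝ := fun j m => tw (1 / 2 * m) * lam j m with hQ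
  have hQ0 : ∀ j m, 0 ≤ Q j m := fun j m => mul_nonneg (tw_pos _).le (hlam0 j m)
  have hcount : ∀ j ∈ J, ∀ (A : Finset ℕ) (m : ℕ),
      (#{i ∈ A | lam j m < |x j i|} : ℝ) ≤ 2 * 2 ^ m := by
    intro j hj A m
    set T := {i ∈ S | |u i| ≤ κ m ∧ lam j m < |x j i|} with hT
    have h1 : {i ∈ A | lam j m < |x j i|} ⊆ {i ∈ S | κ m < |u i|} ∪ T := by
      intro i hi
      have h2 := (mem_filter.1 hi).2
      have h3 : i ∈ S := by
        by_contra h
        rw [hx0 j hj i h, abs_zero] at h2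
        exact absurd h2 (not_lt.2 (hlam0 j m))
      by_cases h : |u i| ≤ κ m
      · exact mem_union_right _ (mem_filter.2 ⟨h3, h, h2⟩)
      · exact mem_union_left _ (mem_filter.2 ⟨h3, not_le.1 h⟩)
    have h2 : (#T : ℝ) ≤ 2 ^ m := by
      rcases T.eq_empty_or_nonempty with h | h
      · rw [h]; simp
      have h3 : ∑ i ∈ T, lam j m ^ q < ∑ i ∈ T, |x j i| ^ q :=
        sum_lt_sum_of_nonempty h fun i hi =>
          Real.rpow_lt_rpow (hlam0 j m) (mem_filter.1 hi).2.2 hq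
      have h4 : ∑ i ∈ T, |x j i| ^ q ≤ τ j m := by
        refine le_trans (le_of_eq (sum_congr rfl fun i hi => ?_))
          (sum_le_sum_of_subset_of_nonneg (filter_subset _ _) fun i _ _ => by
            split_ifs <;> positivity)
        rw [if_pos (mem_filter.1 hi).2.1]
      rw [sum_const, nsmul_eq_mul, hlamq] at h3
      by_contra h5
      have h6 : (2 : ℝ) ^ m * (τ j m / 2 ^ m) ≤ #T * (τ j m / 2 ^ m) :=
        mul_le_mul_of_nonneg_right (not_le.1 h5).le (div_nonneg (hτ0 j m) (by positivity))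
      rw [mul_div_cancel₀ _ (by positivity)] at h6
      linarith
    have h3 : (#{i ∈ S | κ m < |u i|} : ℝ) ≤ 2 ^ m := count_le u S m
    have h4 : (#{i ∈ A | lam j m < |x j i|} : ℝ) ≤ #{i ∈ S | κ m < |u i|} + #T := by
      exact_mod_cast (card_le_card h1).trans (card_union_le _ _)
    linarith
  have htop : ∀ j ∈ J, ∀ i, |x j i| ≤ lam j 0 := by
    intro j hj i
    by_cases hi : i ∈ S
    · rw [← Real.rpow_le_rpow_iff (abs_nonneg _) (hlam0 j 0) hq, hlamq, pow_zero, div_one]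
      have := single_le_sum (f := fun i => if |u i| ≤ κ 0 then |x j i| ^ q else 0)
        (fun i _ => by split_ifs <;> positivity) hi
      rwa [if_pos (by simpa [hκ] using abs_le_KF u i)] at this
    · rw [hx0 j hj i hi, abs_zero]; exact hlam0 j 0
  have hA : ∀ j ∈ J, ∀ K, NK K (prof (x j)) ≤ 16 * NK K (Q j) := by
    intro j hj K
    have h1 : ∀ l, prof (x j) l ≤ ∑ m ∈ range (l + 1),
        4 * tw (-(1 / 2 * ((l - m : ℕ) : ℝ))) * |Q j m| := by
      intro l
      have h2 : KF (2 ^ l) (x j) ≤ ∑ m ∈ range (l + 1), 4 * 2 ^ m * lam j m :=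
        KF_le fun A hA => by
          have h3 := layer A (fun i => |x j i|) (lam j) (fun m => 2 * 2 ^ m)
            (fun i => abs_nonneg _) (hlam0 j) zero_le_one (hcount j hj A) (Nat.zero_le l)
          simp only [htop j hj, if_true, Real.rpow_one] at h3
          refine h3.trans ?_
          rw [sum_range_succ, ← range_eq_Ico]
          refine add_le_add (le_of_eq (sum_congr rfl fun m _ => by ring)) ?_
          have h4 : (#A : ℝ) ≤ 2 ^ l := by exact_mod_cast hA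
          have h6 : (0 : ℝ) ≤ 2 ^ l := by positivity
          exact mul_le_mul_of_nonneg_right (by linarith) (hlam0 j l)
      refine (mul_le_mul_of_nonneg_left h2 (tw_pos _).le).trans (le_of_eq ?_)
      rw [mul_sum]
      refine sum_congr rfl fun m hm => ?_
      rw [abs_of_nonneg (hQ0 j m), Nat.cast_sub (Nat.lt_succ_iff.1 (mem_range.1 hm)), ← tw_nat]
      have : tw (-(1 / 2 * (l : ℝ))) * tw m = tw (-(1 / 2 * ((l : ℝ) - m))) * tw (1 / 2 * m) := by
        rw [← tw_add, ← tw_add]; congr 1; ring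
      simp only [hQ]
      linear_combination 4 * lam j m * this
    refine (NK_sum_le (range K) (fun r l => 4 * tw (-(1 / 2 * r)) * shRn r (Q j) l)
      fun l hl => ?_).trans ?_
    · rw [abs_prof]
      refine (h1 l).trans ((conv_le hl (fun r a => 4 * tw (-(1 / 2 * r)) * |a|)
        (fun r a => by have := tw_pos (-(1 / 2 * r)); positivity) (Q j)).trans
        (le_of_eq (sum_congr rfl fun r _ => ?_)))
      have := tw_pos (-(1 / 2 * r))
      rw [abs_mul, abs_of_pos (show 0 < 4 * tw (-(1 / 2 * r)) by positivity)]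
    · calc _ ≤ ∑ r ∈ range K, 4 * tw (-(1 / 2 * r)) * NK K (Q j) := by
            refine sum_le_sum fun r _ => ?_
            have := tw_pos (-(1 / 2 * r))
            rw [NK_smul, abs_of_pos (show 0 < 4 * tw (-(1 / 2 * r)) by positivity)]
            exact mul_le_mul_of_nonneg_left (NK_shRn _ _ _) (by positivity)
        _ ≤ _ := by
            rw [← sum_mul, ← mul_sum]
            refine mul_le_mul_of_nonneg_right ?_ (NK_nonneg _ _)
            linarith [(tw_geom' (show (0 : ℝ) < 1 / 2 by norm_num) K).trans tw_half]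
  have hB : ∀ K, k ≤ K → ∑ j ∈ J, NK K (Q j) ^ q ≤
      2 * (2 ^ dk k) ^ q * (2 * (1 / (1 - tw (-β))) * XN u) ^ q := by
    intro K hK
    set N := max K #S with hN
    set U : ℕ → ℝ := fun l => ∑ r ∈ range (N + 1), 2 * tw (-(β * r)) * prof u (l + r) with hU
    have hU0 : ∀ r l : ℕ, 0 ≤ 2 * tw (-(β * r)) * prof u (l + r) := fun r l =>
      mul_nonneg (mul_nonneg zero_le_two (tw_pos _).le) (prof_nonneg _ _)
    have h1 : NK K U ≤ 2 * (1 / (1 - tw (-β))) * XN u := by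
      refine (NK_sum_le (range (N + 1)) (fun r l => 2 * tw (-(β * r)) * prof u (l + r))
        fun l _ => abs_sum_le_sum_abs _ _).trans ?_
      calc _ ≤ ∑ r ∈ range (N + 1), 2 * tw (-(β * r)) * XN u := by
            refine sum_le_sum fun r _ => ?_
            have := tw_pos (-(β * r))
            rw [NK_smul, abs_of_pos (show 0 < 2 * tw (-(β * r)) by positivity)]
            exact mul_le_mul_of_nonneg_left ((NK_shLn _ _ _).trans (le_XN _ _)) (by positivity)
        _ ≤ _ := by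
            rw [← sum_mul, ← mul_sum]
            exact mul_le_mul_of_nonneg_right
              (mul_le_mul_of_nonneg_left (tw_geom' hβ0 _) zero_le_two) (XN_nonneg _)
    refine (NK_qconcave hK hq hqk J Q (u := U) fun l hl => ?_).trans
      (mul_le_mul_of_nonneg_left (Real.rpow_le_rpow (NK_nonneg _ _) h1 hq.le) (by positivity))
    have hlN : l ≤ N := hl.le.trans (le_max_left _ _)
    have h2 : ∑ j ∈ J, τ j l ≤ ∑ m ∈ Ico l (N + 1), 2 * 2 ^ m * κ m ^ q := by
      have h3 := layer S (fun i => |u i|) κ (fun m => 2 ^ m) (fun i => abs_nonneg _) hκ0 hq.le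
        (count_le u S) hlN
      simp only [hτ]
      rw [sum_comm, sum_Ico_succ_top hlN]
      refine le_trans (sum_le_sum fun i _ => ?_) (h3.trans (add_le_add
        (le_of_eq (sum_congr rfl fun m _ => by ring)) ?_))
      · split_ifs
        · exact hu i
        · simp
      · refine mul_le_mul_of_nonneg_right ?_ (Real.rpow_nonneg (hκ0 N) _)
        have h4 : #S ≤ 2 ^ N := (le_max_right K _).trans Nat.lt_two_pow_self.le
        have h5 : (#S : ℝ) ≤ 2 ^ N := by exact_mod_cast h4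
        have h6 : (0 : ℝ) ≤ 2 ^ N := by positivity
        linarith
    have h7 : ∀ j, |Q j l| ^ q = tw ((q / 2 - 1) * l) * τ j l := fun j => by
      rw [abs_of_nonneg (hQ0 j l)]
      simp only [hQ]
      rw [Real.mul_rpow (tw_pos _).le (hlam0 j l), hlamq, tw_rpow, ← tw_nat,
        show 1 / 2 * (l : ℝ) * q = (q / 2 - 1) * l + l by ring, tw_add]
      have := tw_pos l
      field_simp
    simp_rw [h7]
    rw [← mul_sum, abs_of_nonneg (sum_nonneg fun r _ => hU0 r l)]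
    refine (mul_le_mul_of_nonneg_left h2 (tw_pos _).le).trans
      (le_trans ?_ (sum_rpow_le_rpow_sum _ (fun r _ => hU0 r l) (by linarith)))
    rw [mul_sum, sum_Ico_eq_sum_range]
    refine le_trans (sum_le_sum fun r _ => ?_) (sum_le_sum_of_subset_of_nonneg
      (range_subset_range.2 (Nat.sub_le _ _)) fun r _ _ => Real.rpow_nonneg (hU0 r l) _)
    simp only [hκ]
    rw [kappa_eq, Real.mul_rpow (tw_pos _).le (prof_nonneg _ _),
      Real.mul_rpow (mul_nonneg zero_le_two (tw_pos _).le) (prof_nonneg _ _),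
      Real.mul_rpow zero_le_two (tw_pos _).le, tw_rpow, tw_rpow, ← tw_nat, ← mul_assoc,
      ← mul_assoc]
    refine mul_le_mul_of_nonneg_right ?_ (Real.rpow_nonneg (prof_nonneg _ _) _)
    have e1 : tw ((q / 2 - 1) * l) * (2 * tw ((l + r : ℕ) : ℝ)) *
        tw (-(1 / 2 * ((l + r : ℕ) : ℝ)) * q) = 2 * tw (-(β * r) * q) := by
      rw [mul_left_comm, mul_assoc, ← tw_add, ← tw_add]
      congr 2; push_cast; rw [hβ]; field_simp; ring
    rw [e1]
    refine mul_le_mul_of_nonneg_right ?_ (tw_pos _).le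
    simpa using Real.rpow_le_rpow_of_exponent_le one_le_two (show 1 ≤ q by linarith)
  refine le_of_tendsto (tendsto_finsetSum J fun j _ =>
    ((Real.continuous_rpow_const hq.le).tendsto _).comp (tendsto_XN (x j))) ?_
  filter_upwards [Filter.eventually_ge_atTop k] with K hK
  calc _ ≤ ∑ j ∈ J, 16 ^ q * NK K (Q j) ^ q := by
        refine sum_le_sum fun j hj => ?_
        rw [← Real.mul_rpow (by norm_num) (NK_nonneg _ _)]
        exact Real.rpow_le_rpow (NK_nonneg _ _) (hA j hj K) hq.le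
    _ ≤ 16 ^ q * (2 * (2 ^ dk k) ^ q * (2 * (1 / (1 - tw (-β))) * XN u) ^ q) := by
        rw [← mul_sum]
        exact mul_le_mul_of_nonneg_left (hB K hK) (by positivity)
    _ = _ := by
        rw [Real.mul_rpow (by positivity) (XN_nonneg _)]; ring

end Pool.Agent.MP_650c5e_an
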