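import Pool.Agent.MP_650c5e_an.Good

/-! The lattice has no asymptotically Euclidean block sequence. -/

namespace Pool.Agent.MP_650c5e_an

open Finset

/-- The lattice norm. -/
noncomputable def NN (z : ℕ → ℝ) : ℝ := ⨆ K, NK K z

lemma NN_eq {K : ℕ} {z : ℕ → ℝ} (h : ∀ i, K ≤ i → z i = 0) : NN z = NK K z := by
  have h1 : ∀ K', NK K' z ≤ NK K z := fun K' =>
    (NK_mono_K z (le_max_left K' K)).trans (NK_stab (le_max_right K' K) h).le
  exact le_antisymm (ciSup_le h1) (le_ciSup ⟨_, by rintro _ ⟨K', rfl⟩; exact h1 K'⟩ K)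

lemma NN_res {K : ℕ} {D : Finset ℕ} (hD : ∀ i ∈ D, i < K) (z : ℕ → ℝ) :
    NN (res D z) = NK K (res D z) :=
  NN_eq fun i hi => res_of_notMem fun h => absurd (hD i h) (not_lt.2 hi)

lemma NK_sq_le {K : ℕ} {x s : ℕ → ℝ} {t : ℕ → ℕ → ℝ} (hs : s ∈ SB 1) (ht : Adm t) {l : ℝ}
    (hl : 0 < l) (h : ∀ i < K, x i ^ 2 ≤ l * (s i * GP 0 K t i)) : NK K x ^ 2 ≤ l := by
  have h1 : NK K x ≤ √l := NK_le (Real.sqrt_pos.2 hl) ⟨s, hs, t, ht, fun i hi => by
    rw [mul_pow, inv_pow, Real.sq_sqrt hl.le, inv_mul_le_iff₀ hl]; exact h i hi⟩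
  calc _ ≤ √l ^ 2 := pow_le_pow_left₀ (NK_nonneg _ _) h1 2
    _ = l := Real.sq_sqrt hl.le

lemma exists_good_block {Z : ℕ → ℝ} (hZ : ∀ i, 0 ≤ Z i) {a : ℕ → ℕ} (ha : Monotone a) {C : ℝ}
    (hC : 0 < C)
    (h1 : ∀ n, ∃ i0, ∀ b, i0 ≤ b → ∀ l : ℕ, 0 < l → l ≤ n →
      l ≤ C * NN (res (Ico (a b) (a (b + l))) Z) ^ 2 ∧
      NN (res (Ico (a b) (a (b + l))) Z) ^ 2 ≤ C * l) (k b0 : ℕ) :
    ∃ (b e : ℕ) (G : Finset ℕ) (s' : ℕ → ℝ) (t' : ℕ → ℕ → ℝ), b0 ≤ b ∧ b ≤ e ∧
      0 < NN (res (Ico (a b) (a e)) Z) ∧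
      G ⊆ Ico (a b) (a e) ∧ s' ∈ SB (nk k) ∧ Adm t' ∧ (∀ κ ≤ k, t' κ ∈ BB 1) ∧
      (∀ K, ∀ i ∈ G, Z i ^ 2 ≤ 64 * NN (res (Ico (a b) (a e)) Z) ^ 2 * (s' i * GP 0 K t' i)) ∧
      NN (fun i => if i ∈ G then 0 else res (Ico (a b) (a e)) Z i) ^ 4 ≤
        10000 / (k + 1) * NN (res (Ico (a b) (a e)) Z) ^ 4 := by
  set ε : ℝ := 1 / (k + 1) with hε
  have hε0 : 0 < ε := by positivity
  set N := dw k with hN
  set M := Mk k with hM
  have hM1 : 1 ≤ M := Mk_pos k
  obtain ⟨P, hP⟩ := pow_unbounded_of_one_lt (C ^ 2) (show 1 < 1 + ε by linarith)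
  obtain ⟨i0, hi0⟩ := h1 (M ^ (P + 1))
  set β : ℕ → ℕ → ℝ := fun b l => NN (res (Ico (a b) (a (b + l))) Z) ^ 2 with hβ
  have hdiv : ∀ l ≤ N ^ 2, pat N l * (M / pat N l) = M := fun l hl =>
    Nat.mul_div_cancel' (pat_dvd N hl)
  have hdpos : ∀ l ≤ N ^ 2, 0 < M / pat N l := fun l hl =>
    Nat.pos_of_ne_zero fun h => by have := hdiv l hl; rw [h] at this; omega
  have hchain : ∃ b l0, max b0 i0 ≤ b ∧ 0 < l0 ∧ l0 * M ≤ M ^ (P + 1) ∧
      ∀ l ≤ N ^ 2, ∀ r < pat N l,
        β (b + r * (l0 * (M / pat N l))) (l0 * (M / pat N l)) * pat N l ≤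
          (1 + ε) * β b (l0 * M) := by
    by_contra hcon
    push Not at hcon
    have key : ∀ p ≤ P, ∃ b q, max b0 i0 ≤ b ∧ 0 < q ∧ M ^ (P - p) * q * M ≤ M ^ (P + 1) ∧
        (M ^ (P - p) * q * M : ℕ) * (1 + ε) ^ p ≤ C * β b (M ^ (P - p) * q * M) := by
      intro p
      induction p with
      | zero =>
        intro _
        refine ⟨max b0 i0, 1, le_rfl, one_pos, by simp [pow_succ], ?_⟩
        rw [pow_zero, mul_one]
        exact (hi0 _ (le_max_right _ _) _ (by positivity) (by simp [pow_succ])).1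
      | succ p ih =>
        intro hp
        obtain ⟨b, q, hb, hq, hlen, hα⟩ := ih (by omega)
        obtain ⟨l, hl, r, hr, hlt⟩ := hcon b (M ^ (P - p) * q) hb (by positivity) hlen
        have e1 : M ^ (P - p) * q * (M / pat N l) = M ^ (P - (p + 1)) * (q * (M / pat N l)) * M := by
          rw [show P - p = P - (p + 1) + 1 by omega, pow_succ]; ring
        have e2 : M ^ (P - p) * q * (M / pat N l) * pat N l = M ^ (P - p) * q * M := by
          rw [mul_assoc, mul_comm (M / pat N l), hdiv l hl]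
        have hpl : 1 ≤ pat N l := pat_pos (dw_pos k) l
        refine ⟨b + r * (M ^ (P - p) * q * (M / pat N l)), q * (M / pat N l), by omega,
          Nat.mul_pos hq (hdpos l hl), ?_, ?_⟩
        · rw [← e1]
          refine le_trans ?_ hlen
          rw [← e2]; exact Nat.le_mul_of_pos_right _ hpl
        · rw [← e1]
          rw [← e2] at hα
          have hplR : (0 : ℝ) < pat N l := by exact_mod_cast hpl
          refine le_of_mul_le_mul_right ?_ hplR
          rw [e2] at hα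
          have e3 : ((M ^ (P - p) * q * (M / pat N l) : ℕ) : ℝ) * pat N l =
              (M ^ (P - p) * q * M : ℕ) := by exact_mod_cast e2
          calc _ = (((M ^ (P - p) * q * (M / pat N l) : ℕ) : ℝ) * pat N l * (1 + ε) ^ p) *
                (1 + ε) := by ring
            _ ≤ C * β b (M ^ (P - p) * q * M) * (1 + ε) := by rw [e3]; gcongr
            _ = C * ((1 + ε) * β b (M ^ (P - p) * q * M)) := by ring
            _ ≤ _ := (mul_le_mul_of_nonneg_left hlt.le hC.le).trans (le_of_eq (mul_assoc _ _ _).symm)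
    obtain ⟨b, q, hb, hq, hlen, hα⟩ := key P le_rfl
    have hpos : 0 < M ^ (P - P) * q * M := by positivity
    have h2 := (hi0 b ((le_max_right _ _).trans hb) _ hpos hlen).2
    have h3 : (0 : ℝ) < (M ^ (P - P) * q * M : ℕ) := by exact_mod_cast hpos
    have h4 := hα.trans (mul_le_mul_of_nonneg_left h2 hC.le)
    nlinarith
  obtain ⟨b, l0, hb, hl0, hlen, hgood⟩ := hchain
  set A : ℕ → ℕ → ℕ := fun l r => a (b + r * (l0 * (M / pat N l))) with hAdef
  have hA : ∀ l, Monotone (A l) := fun l r r' h =>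
    ha (Nat.add_le_add_left (Nat.mul_le_mul_right _ h) _)
  have hAs : ∀ l < N ^ 2, ∀ r, A l r = A (l + 1) (r * (pat N l * N ^ 2)) := by
    intro l hl r
    have e1 : M / pat N l = pat N l * N ^ 2 * (M / pat N (l + 1)) := by
      refine Nat.eq_of_mul_eq_mul_left (pat_pos (dw_pos k) l) ?_
      rw [hdiv l hl.le]
      conv_lhs => rw [← hdiv (l + 1) hl]
      show (pat N l * N) ^ 2 * _ = _
      ring
    simp only [hAdef]
    rw [e1]; congr 2; ring
  have hends := pattern_ends hAs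
  have hA' : ∀ l r, A l (r + 1) = a (b + r * (l0 * (M / pat N l)) + l0 * (M / pat N l)) := by
    intro l r; simp only [hAdef]; congr 1; ring
  have hA00 : A 0 0 = a b := by simp [hAdef]
  have hA01 : A 0 1 = a (b + l0 * M) := by simp [hAdef, pat]
  set K := max (k + 1) (A 0 1) with hK
  have hNK : ∀ l ≤ N ^ 2, ∀ r < pat N l, ∀ i ∈ Ico (A l r) (A l (r + 1)), i < K := by
    intro l hl r hr i hi
    have := hA l (show r + 1 ≤ pat N l from hr)
    rw [(hends l hl).2] at this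
    exact lt_of_lt_of_le (mem_Ico.1 hi).2 (this.trans (le_max_right _ _))
  have hposN : ∀ l ≤ N ^ 2, ∀ r < pat N l, 0 < NN (res (Ico (A l r) (A l (r + 1))) Z) := by
    intro l hl r hr
    have hp : 0 < l0 * (M / pat N l) := Nat.mul_pos hl0 (hdpos l hl)
    have h2 := (hi0 (b + r * (l0 * (M / pat N l))) (by omega) _ hp
      ((Nat.mul_le_mul_left _ (Nat.div_le_self _ _)).trans hlen)).1
    rw [← hA'] at h2
    have h3 : (0 : ℝ) < (l0 * (M / pat N l) : ℕ) := by exact_mod_cast hp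
    refine lt_of_le_of_ne (NN_res (hNK l hl r hr) Z ▸ NK_nonneg _ _) fun e => ?_
    have e' : NN (res (Ico (a (b + r * (l0 * (M / pat N l)))) (A l (r + 1))) Z) = 0 := e.symm
    rw [e'] at h2
    linarith
  obtain ⟨l, hl, r, hr, G, s', t', hG, hs', ht', ht1, hx, hbad⟩ := good_vector
    (le_max_left (k + 1) (A 0 1)) hZ A hA hAs (le_max_right _ _)
    (fun l hl r hr => NN_res (hNK l hl r hr) Z ▸ hposN l hl r hr)
    (fun l hl r hr => by
      have h2 := hgood l hl r hr
      simp only [hβ] at h2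
      rw [← hA', ← hA00, ← hA01] at h2
      rw [← NN_res (hNK l hl r hr) Z, ← NN_res (hNK 0 (Nat.zero_le _) 0 Nat.one_pos) Z]
      exact h2)
  rw [← NN_res (hNK l hl r hr) Z] at hx hbad
  refine ⟨b + r * (l0 * (M / pat N l)), b + (r + 1) * (l0 * (M / pat N l)), G, s', _, by omega,
    Nat.add_le_add_left (Nat.mul_le_mul_right _ (Nat.le_succ r)) _, hposN l hl r hr, hG, hs',
    ht'.extend K, fun κ hκ => ?_, fun K' i hi => ?_, ?_⟩
  · simp only [show κ < K from lt_of_lt_of_le (Nat.lt_succ_of_le hκ) (le_max_left _ _), if_true]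
    exact ht1 κ hκ
  · refine (hx i hi).trans (mul_le_mul_of_nonneg_left (mul_le_mul_of_nonneg_left ?_ (hs'.1 i))
      (by positivity))
    have hiK := hNK l hl r hr i (hG hi)
    rw [← GP_extend t' hiK (le_max_left K K'), GP_split (Nat.zero_le K') (le_max_right K K')]
    exact mul_le_of_le_one_right (GP_nonneg (ht'.extend K).nonneg _ _ _)
      (GP_le_one (ht'.extend K) _ _ _)
  · rw [NN_eq (K := K) fun i hi => by
      have : res (Ico (A l r) (A l (r + 1))) Z i = 0 :=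
        res_of_notMem fun h => absurd (hNK l hl r hr i h) (not_lt.2 hi)
      split_ifs
      · rfl
      · exact this]
    exact hbad

theorem no_asymptotic {Z : ℕ → ℝ} (hZ : ∀ i, 0 ≤ Z i) {a : ℕ → ℕ} (ha : Monotone a) {C : ℝ}
    (hC : 0 < C)
    (h1 : ∀ n, ∃ i0, ∀ b, i0 ≤ b → ∀ l : ℕ, 0 < l → l ≤ n →
      l ≤ C * NN (res (Ico (a b) (a (b + l))) Z) ^ 2 ∧
      NN (res (Ico (a b) (a (b + l))) Z) ^ 2 ≤ C * l)
    (h2 : ∀ n, ∃ i0, ∀ (b e : ℕ → ℕ) (c : ℕ → ℝ), i0 ≤ b 0 → (∀ j, b j ≤ e j) →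
      (∀ j, e j ≤ b (j + 1)) → (∀ j, 0 ≤ c j) →
      ∑ j ∈ range n, NN (fun i => c j * res (Ico (a (b j)) (a (e j))) Z i) ^ 2 ≤
        C * NN (fun i => ∑ j ∈ range n, c j * res (Ico (a (b j)) (a (e j))) Z i) ^ 2) :
    False := by
  obtain ⟨k, hk⟩ := pow_unbounded_of_one_lt (1 + 3072 * C) (show (1 : ℝ) < 2 by norm_num)
  have hk1 : 1 ≤ k := by
    rcases Nat.eq_zero_or_pos k with rfl | h
    · simp at hk; linarith
    · exact h
  set d := dk k with hd
  have hd1 : 1 ≤ d := hk1.trans (le_dk k)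
  set n := R d with hn
  have hn0 : (0 : ℝ) < n := by exact_mod_cast R_pos d
  obtain ⟨i0, hi0⟩ := h2 n
  obtain ⟨k1, hk1'⟩ := exists_nat_gt (10000 * (8 * C * n) ^ 2)
  choose bb ee GG ss tt H using exists_good_block hZ ha hC h1
  set E : ℕ → ℕ := fun j => Nat.rec i0 (fun _ x => ee (max (max k k1) (a x)) x) j with hE
  set kk : ℕ → ℕ := fun j => max (max k k1) (a (E j)) with hkk
  have hEs : ∀ j, E (j + 1) = ee (kk j) (E j) := fun j => rfl
  set b : ℕ → ℕ := fun j => bb (kk j) (E j) with hb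
  have hb1 : ∀ j, E j ≤ b j := fun j => (H _ _).1
  have hb2 : ∀ j, b j ≤ E (j + 1) := fun j => (H _ _).2.1
  have hEm : Monotone E := monotone_nat_of_le_succ fun j => (hb1 j).trans (hb2 j)
  set A : ℕ → ℕ := fun j => a (E j) with hA
  have hAm : Monotone A := ha.comp hEm
  set I : ℕ → Finset ℕ := fun j => Ico (a (b j)) (a (E (j + 1))) with hI
  have hIW : ∀ j, I j ⊆ Ico (A j) (A (j + 1)) := fun j => Ico_subset_Ico (ha (hb1 j)) le_rfl
  set Nj : ℕ → ℝ := fun j => NN (res (I j) Z) with hNj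
  have hN0 : ∀ j, 0 < Nj j := fun j => (H (kk j) (E j)).2.2.1
  set G : ℕ → Finset ℕ := fun j => GG (kk j) (E j) with hG
  set s : ℕ → ℕ → ℝ := fun j => ss (kk j) (E j) with hs
  set t : ℕ → ℕ → ℕ → ℝ := fun j => tt (kk j) (E j) with ht
  have hGI : ∀ j, G j ⊆ I j := fun j => (H (kk j) (E j)).2.2.2.1
  have hs1 : ∀ j, s j ∈ SB (R (A j)) := fun j =>
    SB_anti (R_mono ((le_max_right _ _).trans (le_dk (kk j)))) (H (kk j) (E j)).2.2.2.2.1
  have ht1 : ∀ j, Adm (t j) := fun j => (H (kk j) (E j)).2.2.2.2.2.1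
  have ht2 : ∀ j, ∀ κ ≤ k, t j κ ∈ BB 1 := fun j κ hκ =>
    (H (kk j) (E j)).2.2.2.2.2.2.1 κ (hκ.trans ((le_max_left _ _).trans (le_max_left _ _)))
  have hx : ∀ j K, ∀ i ∈ G j, Z i ^ 2 ≤ 64 * Nj j ^ 2 * (s j i * GP 0 K (t j) i) :=
    fun j => (H (kk j) (E j)).2.2.2.2.2.2.2.1
  have hbad : ∀ j, NN (fun i => if i ∈ G j then 0 else res (I j) Z i) ^ 4 ≤
      10000 / (kk j + 1) * Nj j ^ 4 := fun j => (H (kk j) (E j)).2.2.2.2.2.2.2.2
  set K := max (k + 1) (A n) with hK
  have hkK : k + 1 ≤ K := le_max_left _ _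
  have hIK : ∀ j < n, ∀ i ∈ I j, i < K := fun j hj i hi =>
    lt_of_lt_of_le (mem_Ico.1 (hIW j hi)).2 ((hAm hj).trans (le_max_right _ _))
  have hlow := hi0 b (fun j => E (j + 1)) (fun j => (Nj j)⁻¹) (hb1 0) hb2 (fun j => hb1 (j + 1))
    fun j => (inv_pos.2 (hN0 j)).le
  have e1 : ∑ j ∈ range n, NN (fun i => (Nj j)⁻¹ * res (I j) Z i) ^ 2 = n := by
    rw [sum_congr rfl (g := fun _ => (1 : ℝ))]
    · simp
    · intro j hj
      rw [NN_eq (K := K) fun i hi => by
        rw [res_of_notMem fun h => absurd (hIK j (mem_range.1 hj) i h) (not_lt.2 hi), mul_zero],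
        NK_smul, ← NN_res (hIK j (mem_range.1 hj)), abs_of_pos (inv_pos.2 (hN0 j)),
        inv_mul_cancel₀ (hN0 j).ne', one_pow]
  change ∑ j ∈ range n, NN (fun i => (Nj j)⁻¹ * res (I j) Z i) ^ 2 ≤
    C * NN (fun i => ∑ j ∈ range n, (Nj j)⁻¹ * res (I j) Z i) ^ 2 at hlow
  rw [e1, NN_eq (K := K) fun i hi => sum_eq_zero fun j hj => by
    rw [res_of_notMem fun h => absurd (hIK j (mem_range.1 hj) i h) (not_lt.2 hi), mul_zero]]
    at hlow
  set g : ℕ → ℝ := fun i => ∑ j ∈ range n, (Nj j)⁻¹ * res (G j) Z i with hg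
  set bad : ℕ → ℕ → ℝ := fun j i => (Nj j)⁻¹ * (if i ∈ G j then 0 else res (I j) Z i) with hbd
  have htri : NK K (fun i => ∑ j ∈ range n, (Nj j)⁻¹ * res (I j) Z i) ≤
      NK K g + ∑ j ∈ range n, NK K (bad j) := by
    refine le_trans (NK_add_le (x := g) (x' := fun i => ∑ j ∈ range n, bad j i) fun i _ => ?_)
      (add_le_add le_rfl (NK_sum_le _ bad fun i _ => abs_sum_le_sum_abs _ _))
    refine le_trans (le_of_eq ?_) (abs_add_le _ _)
    congr 1
    simp only [hg, hbd]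
    rw [← sum_add_distrib]
    refine sum_congr rfl fun j _ => ?_
    by_cases h : i ∈ G j
    · rw [if_pos h, res_of_mem h, res_of_mem (hGI j h)]; ring
    · rw [if_neg h, res_of_notMem h]; ring
  have hb3 : ∀ j ∈ range n, NK K (bad j) ^ 2 ≤ 1 / (8 * C * n) := by
    intro j hj
    have h3 := hbad j
    rw [NN_eq (K := K) fun i hi => by
      have : res (I j) Z i = 0 :=
        res_of_notMem fun h => absurd (hIK j (mem_range.1 hj) i h) (not_lt.2 hi)
      split_ifs
      · rfl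
      · exact this] at h3
    have h4 : (10000 : ℝ) / (kk j + 1) ≤ (1 / (8 * C * n)) ^ 2 := by
      have h5 : (k1 : ℝ) ≤ kk j := by
        exact_mod_cast (le_max_right k k1).trans (le_max_left _ _)
      rw [div_pow, div_le_div_iff₀ (by positivity) (by positivity)]
      linarith
    refine (abs_le_of_sq_le_sq' ?_ (by positivity)).2
    have hp := hN0 j
    simp only [hbd]
    rw [NK_smul, abs_of_pos (inv_pos.2 hp), ← pow_mul, mul_pow, inv_pow,
      inv_mul_le_iff₀ (by positivity)]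
    refine h3.trans ?_
    rw [mul_comm]
    gcongr
  have hb4 : (∑ j ∈ range n, NK K (bad j)) ^ 2 ≤ n / (8 * C) := by
    refine (sq_sum_le_card_mul_sum_sq).trans ?_
    calc _ ≤ (#(range n) : ℝ) * ∑ j ∈ range n, 1 / (8 * C * n) := by
          gcongr with j hj
          exact hb3 j hj
      _ = _ := by
          rw [sum_const, card_range, nsmul_eq_mul]; field_simp
  have hS := ris hd1 hAm (σ := s) fun j _ => hs1 j
  set cc : ℕ → ℝ := fun κ => if κ < k then (1 / 2 : ℝ) ^ d else if κ = k then 1 else 1 / n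
    with hcc
  have hcc0 : ∀ κ, 0 ≤ cc κ := fun κ => by simp only [hcc]; split_ifs <;> positivity
  set T : ℕ → ℕ → ℝ := fun κ i =>
    cc κ * ∑ j ∈ range n, res (Ico (A j) (A (j + 1))) (t j κ) i with hT
  have hT1 : Adm T := fun κ => by
    rcases lt_trichotomy κ k with h | h | h
    · simp only [hT, hcc, h, if_true]
      exact BB_mono (nk_pos κ) (BB.shrink (merge hAm n fun j _ => ht2 j κ h.le))
    · subst h
      simp only [hT, hcc, lt_irrefl, if_true, if_false, one_mul]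
      exact merge hAm n fun j _ => ht2 j κ le_rfl
    · simp only [hT, hcc, show ¬ κ < k by omega, h.ne', if_false, mul_sum]
      refine polar.comb (range n) (fun _ => 1 / (n : ℝ)) _ (fun _ _ => by positivity)
        (by rw [sum_const, card_range, nsmul_eq_mul, mul_one_div_cancel hn0.ne']) fun j _ => ?_
      have := ht1 j κ
      exact BB.solid this (res_nonneg this.1) (res_le this.1)
  have hgain : (2 : ℝ) ^ k / 3 ≤ 2 ^ d * GP 0 K (fun κ _ => cc κ) 0 := by
    rw [GP_split (Nat.zero_le k) (by omega), GP_split (Nat.le_succ k) hkK,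
      GP_const (Nat.zero_le k) (c := (1 / 2 : ℝ) ^ d) (by positivity)
        (fun κ _ h => by simp only [hcc, h, if_true]),
      GP_const (Nat.le_succ k) (c := 1) zero_le_one
        (fun κ h h' => by simp only [hcc, show κ = k by omega, lt_irrefl, if_true, if_false]),
      GP_const hkK (c := 1 / n) (by positivity)
        (fun κ h _ => by
          simp only [hcc, show ¬ κ < k by omega, show κ ≠ k by omega, if_false]),
      Real.one_rpow, one_mul, Gam_zero]
    have f1 : (2 : ℝ) ^ k ≤ 2 ^ d * ((1 / 2 : ℝ) ^ d) ^ (1 - Gam k) := by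
      rw [one_div, inv_pow, Real.inv_rpow (by positivity), ← Real.rpow_neg (by positivity),
        ← Real.rpow_one_add' (by positivity) (by linarith [Gam_pos k]), ← Real.rpow_natCast,
        ← Real.rpow_natCast, ← Real.rpow_mul (by norm_num)]
      refine Real.rpow_le_rpow_of_exponent_le (by norm_num) ?_
      have h3 := le_dk_mul_gam k
      have h4 : gam k ≤ Gam k := by unfold gam; linarith [Gam_pos (k + 1)]
      have h5 : (dk k : ℝ) * gam k ≤ dk k * Gam k := by gcongr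
      simp only [hd]; linarith
    have f2 : (1 : ℝ) / 3 ≤ (1 / n) ^ (Gam (k + 1) - Gam K) := by
      rw [one_div (n : ℝ), Real.inv_rpow hn0.le, one_div]
      refine inv_anti₀ (by positivity) ?_
      rw [Real.rpow_def_of_pos hn0]
      refine le_trans (Real.exp_le_exp.2 ?_) (Real.exp_one_lt_d9.le.trans (by norm_num))
      have h3 : Gam (k + 1) * n ≤ 1 := Gam_succ_mul_n k
      have h4 := Real.log_le_sub_one_of_pos hn0
      have h5 : 0 ≤ Real.log n := Real.log_natCast_nonneg n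
      have h6 := Gam_pos K
      have h7 := Gam_pos (k + 1)
      nlinarith
    calc (2 : ℝ) ^ k / 3 = 2 ^ k * (1 / 3) := by ring
      _ ≤ (2 ^ d * ((1 / 2 : ℝ) ^ d) ^ (1 - Gam k)) * (1 / n) ^ (Gam (k + 1) - Gam K) := by
          gcongr
      _ = _ := by ring
  have hg2 : NK K g ^ 2 ≤ 384 * n / 2 ^ k := by
    refine NK_sq_le hS hT1 (by positivity) fun i _ => ?_
    have hnn := mul_nonneg (hS.1 i) (GP_nonneg hT1.nonneg 0 K i)
    by_cases hex : ∃ j < n, i ∈ G j
    · obtain ⟨j, hj, hij⟩ := hex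
      have hiW := hIW j (hGI j hij)
      have e2 : g i = (Nj j)⁻¹ * Z i := by
        simp only [hg]
        rw [sum_eq_single_of_mem j (mem_range.2 hj), res_of_mem hij]
        intro j' _ hj'
        rw [res_of_notMem fun h => hj' (succ_unique hAm (mem_Ico.1 (hIW j' (hGI j' h)))
          (mem_Ico.1 hiW)), mul_zero]
      have e3 : GP 0 K T i = GP 0 K (t j) i * GP 0 K (fun κ _ => cc κ) 0 := by
        rw [← GP_mul (fun κ => (ht1 j).nonneg κ i) hcc0]
        exact GP_congr fun κ _ _ => by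
          simp only [hT]
          rw [glue hAm hj hiW (fun j => t j κ), mul_comm]
      have hp := hN0 j
      have h3 := hx j K i hij
      have h4 : 0 ≤ s j i * GP 0 K (t j) i :=
        mul_nonneg ((hs1 j).1 i) (GP_nonneg (ht1 j).nonneg _ _ _)
      rw [e2, e3, glue hAm hj hiW s, mul_pow, inv_pow, inv_mul_le_iff₀ (by positivity)]
      refine h3.trans ?_
      calc 64 * Nj j ^ 2 * (s j i * GP 0 K (t j) i)
          = Nj j ^ 2 * (192 / 2 ^ k * (s j i * GP 0 K (t j) i) * (2 ^ k / 3)) := by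
            field_simp; ring
        _ ≤ Nj j ^ 2 * (192 / 2 ^ k * (s j i * GP 0 K (t j) i) *
            (2 ^ d * GP 0 K (fun κ _ => cc κ) 0)) := by gcongr
        _ = _ := by
            have : (R d : ℝ) ≠ 0 := hn0.ne'
            simp only [hn]
            field_simp; ring
    · push Not at hex
      have e2 : g i = 0 := sum_eq_zero fun j hj => by
        rw [res_of_notMem (hex j (mem_range.1 hj)), mul_zero]
      rw [e2, sq, mul_zero]
      exact mul_nonneg (by positivity) hnn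
  have hfin : NK K (fun i => ∑ j ∈ range n, (Nj j)⁻¹ * res (I j) Z i) ^ 2 ≤
      2 * (384 * n / 2 ^ k) + 2 * (n / (8 * C)) := by
    refine (pow_le_pow_left₀ (NK_nonneg _ _) htri 2).trans ?_
    nlinarith [sq_nonneg (NK K g - ∑ j ∈ range n, NK K (bad j))]
  have h5 : C * (2 * (384 * n / 2 ^ k) + 2 * (n / (8 * C))) = n * (768 * C / 2 ^ k + 1 / 4) := by
    field_simp; ring
  have h6 : 768 * C / 2 ^ k ≤ 1 / 4 := by
    rw [div_le_iff₀ (by positivity)]; linarith
  have h7 := hlow.trans (mul_le_mul_of_nonneg_left hfin hC.le)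
  nlinarith

end Pool.Agent.MP_650c5e_an
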