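import Mathlib

/-! A mixed Tsirelson norming set, its polar sets, and the basic combinatorial estimates. -/

namespace Pool.Agent.MP_650c5e_an

open Finset

/-- Sizes of the levels of the partition pattern. -/
def pat (N : ℕ) : ℕ → ℕ
  | 0 => 1
  | a + 1 => (pat N a * N) ^ 2

/-- The number of successive pieces allowed at weight `2^(-d)`. -/
def R : ℕ → ℕ
  | 0 => 1
  | d + 1 => max (3 * 2 ^ (d + 1) * (R d) ^ (d + 1)) (pat (d + 1) ((d + 1) ^ 2))

lemma R_pos (d : ℕ) : 1 ≤ R d := by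
  induction d with
  | zero => simp [R]
  | succ d ih =>
    have h1 : 1 ≤ 2 ^ (d + 1) := Nat.one_le_two_pow
    have h2 : 1 ≤ (R d) ^ (d + 1) := Nat.one_le_pow _ _ ih
    have h3 : 1 ≤ 3 * 2 ^ (d + 1) * (R d) ^ (d + 1) := by nlinarith [Nat.mul_le_mul h1 h2]
    exact le_trans h3 (le_max_left _ _)

lemma R_succ_ge (d : ℕ) : 3 * 2 ^ (d + 1) * (R d) ^ (d + 1) ≤ R (d + 1) := le_max_left _ _

lemma pat_le_R (d : ℕ) (hd : 1 ≤ d) : pat d (d ^ 2) ≤ R d := by
  obtain ⟨e, rfl⟩ : ∃ e, d = e + 1 := ⟨d - 1, by omega⟩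
  exact le_max_right _ _

lemma R_lt_succ (d : ℕ) : R d < R (d + 1) := by
  have h0 := R_pos d
  have h1 : 1 ≤ 2 ^ (d + 1) := Nat.one_le_two_pow
  have h2 : R d ≤ (R d) ^ (d + 1) := Nat.le_self_pow (by omega) _
  have h3 := R_succ_ge d
  nlinarith [Nat.mul_le_mul h1 h2]

lemma R_strictMono : StrictMono R := strictMono_nat_of_lt_succ R_lt_succ

lemma R_mono : Monotone R := R_strictMono.monotone

/-- The norming set. -/
inductive V : (ℕ → ℝ) → Prop
  | zero : V 0
  | base (j : ℕ) : V (Pi.single j 1)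
  | node (d n : ℕ) (p : ℕ → ℕ) (u : ℕ → ℕ → ℝ) (hd : 1 ≤ d) (hn : n ≤ R d) (hp : Monotone p)
      (hu : ∀ i, V (u i)) (hs : ∀ i j, u i j ≠ 0 → p i ≤ j ∧ j < p (i + 1)) :
      V (fun j => (1 / 2 : ℝ) ^ d * ∑ i ∈ range n, u i j)

/-- Sums of at most `n` successive members of the norming set. -/
def VS (n : ℕ) : Set (ℕ → ℝ) :=
  {v | ∃ r ≤ n, ∃ (p : ℕ → ℕ) (u : ℕ → ℕ → ℝ), Monotone p ∧ (∀ i, V (u i)) ∧
    (∀ i j, u i j ≠ 0 → p i ≤ j ∧ j < p (i + 1)) ∧ v = fun j => ∑ i ∈ range r, u i j}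

/-- The polar of a set of nonnegative sequences. -/
def polar (S : Set (ℕ → ℝ)) : Set (ℕ → ℝ) :=
  {s | (∀ i, 0 ≤ s i) ∧ ∀ v ∈ S, ∀ D : Finset ℕ, ∑ i ∈ D, v i * s i ≤ 1}

def SB (n : ℕ) : Set (ℕ → ℝ) := polar (VS n)

def BB (n : ℕ) : Set (ℕ → ℝ) := polar (SB n)

/-- Restriction to a finite set. -/
def res (E : Finset ℕ) (v : ℕ → ℝ) : ℕ → ℝ := fun j => if j ∈ E then v j else 0

def shL (v : ℕ → ℝ) : ℕ → ℝ := fun j => v (j + 1)

def shR (v : ℕ → ℝ) : ℕ → ℝ
  | 0 => 0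
  | j + 1 => v j

lemma succ_unique {p : ℕ → ℕ} (hp : Monotone p) {i i' j : ℕ} (h : p i ≤ j ∧ j < p (i + 1))
    (h' : p i' ≤ j ∧ j < p (i' + 1)) : i = i' := by
  rcases lt_trichotomy i i' with hlt | heq | hlt
  · have := hp (show i + 1 ≤ i' from hlt); omega
  · exact heq
  · have := hp (show i' + 1 ≤ i from hlt); omega

lemma sum_succ_le {p : ℕ → ℕ} (hp : Monotone p) {u : ℕ → ℕ → ℝ} {c : ℝ} (hc : 0 ≤ c)
    (J : Finset ℕ) (j : ℕ) (hu : ∀ i ∈ J, u i j ≤ c)
    (hs : ∀ i ∈ J, u i j ≠ 0 → p i ≤ j ∧ j < p (i + 1)) :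
    ∑ i ∈ J, u i j ≤ c := by
  by_cases h : ∃ i ∈ J, u i j ≠ 0
  · obtain ⟨i, hi, hne⟩ := h
    rw [sum_eq_single_of_mem i hi]
    · exact hu i hi
    · intro i' hi' hne'
      by_contra h0
      exact hne' (succ_unique hp (hs i' hi' h0) (hs i hi hne))
  · push Not at h
    rw [sum_eq_zero h]; exact hc

lemma V.bounds {v : ℕ → ℝ} (h : V v) : ∀ j, 0 ≤ v j ∧ v j ≤ 1 := by
  induction h with
  | zero => intro j; simp
  | base k => intro j; by_cases hj : j = k <;> simp [hj]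
  | node d n p u hd hn hp hu hs ih =>
    intro j
    have h0 : 0 ≤ ∑ i ∈ range n, u i j := sum_nonneg fun i _ => (ih i j).1
    have h1 : ∑ i ∈ range n, u i j ≤ 1 :=
      sum_succ_le hp zero_le_one _ j (fun i _ => (ih i j).2) (fun i _ => hs i j)
    have h2 : (1 / 2 : ℝ) ^ d ≤ 1 := pow_le_one₀ (by norm_num) (by norm_num)
    have h3 : (0 : ℝ) ≤ (1 / 2 : ℝ) ^ d := by positivity
    exact ⟨mul_nonneg h3 h0, by nlinarith⟩

lemma VS.bounds {n : ℕ} {v : ℕ → ℝ} (h : v ∈ VS n) (j : ℕ) : 0 ≤ v j ∧ v j ≤ 1 := by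
  obtain ⟨r, -, p, u, hp, hu, hs, rfl⟩ := h
  exact ⟨sum_nonneg fun i _ => ((hu i).bounds j).1,
    sum_succ_le hp zero_le_one _ j (fun i _ => ((hu i).bounds j).2) (fun i _ => hs i j)⟩

lemma res_nonneg {E : Finset ℕ} {v : ℕ → ℝ} (h : ∀ i, 0 ≤ v i) (i : ℕ) : 0 ≤ res E v i := by
  unfold res; split_ifs; exacts [h i, le_rfl]

lemma res_le {E : Finset ℕ} {v : ℕ → ℝ} (h : ∀ i, 0 ≤ v i) (i : ℕ) : res E v i ≤ v i := by
  unfold res; split_ifs; exacts [le_rfl, h i]

lemma res_of_mem {E : Finset ℕ} {v : ℕ → ℝ} {i : ℕ} (h : i ∈ E) : res E v i = v i := if_pos h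

lemma res_of_notMem {E : Finset ℕ} {v : ℕ → ℝ} {i : ℕ} (h : i ∉ E) : res E v i = 0 := if_neg h

lemma mem_of_res_ne {E : Finset ℕ} {v : ℕ → ℝ} {i : ℕ} (h : res E v i ≠ 0) : i ∈ E := by
  by_contra h'; exact h (res_of_notMem h')

lemma sum_mul_res {E W : Finset ℕ} (h : W ⊆ E) (t s : ℕ → ℝ) :
    ∑ i ∈ E, t i * res W s i = ∑ i ∈ W, t i * s i := by
  rw [← sum_subset h]
  · exact sum_congr rfl fun i hi => by rw [res_of_mem hi]
  · intro i _ hi; rw [res_of_notMem hi, mul_zero]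

lemma sum_res_mul {E W : Finset ℕ} (t s : ℕ → ℝ) :
    ∑ i ∈ E, res W t i * s i = ∑ i ∈ E ∩ W, t i * s i := by
  rw [← sum_subset (inter_subset_left (s₁ := E) (s₂ := W))]
  · exact sum_congr rfl fun i hi => by rw [res_of_mem (mem_inter.1 hi).2]
  · intro i hi hi'
    rw [res_of_notMem (fun h => hi' (mem_inter.2 ⟨hi, h⟩)), zero_mul]

lemma V.res {v : ℕ → ℝ} (h : V v) (E : Finset ℕ) : V (res E v) := by
  induction h with
  | zero =>
    have : MP_650c5e_an.res E 0 = 0 := by funext j; simp [MP_650c5e_an.res]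
    rw [this]; exact V.zero
  | base k =>
    by_cases hk : k ∈ E
    · have : MP_650c5e_an.res E (Pi.single k 1) = Pi.single k 1 := by
        funext j; by_cases hj : j = k <;> simp [MP_650c5e_an.res, hj, hk]
      rw [this]; exact V.base k
    · have : MP_650c5e_an.res E (Pi.single k 1) = 0 := by
        funext j; by_cases hj : j = k <;> simp [MP_650c5e_an.res, hj, hk]
      rw [this]; exact V.zero
  | node d n p u hd hn hp hu hs ih =>
    have : MP_650c5e_an.res E (fun j => (1 / 2 : ℝ) ^ d * ∑ i ∈ range n, u i j) =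
        fun j => (1 / 2 : ℝ) ^ d * ∑ i ∈ range n, MP_650c5e_an.res E (u i) j := by
      funext j; by_cases hj : j ∈ E <;> simp [MP_650c5e_an.res, hj]
    rw [this]
    refine V.node d n p _ hd hn hp ih fun i j hne => hs i j ?_
    intro h0; apply hne; simp [MP_650c5e_an.res, h0]

lemma V.shL {v : ℕ → ℝ} (h : V v) : V (shL v) := by
  induction h with
  | zero => exact V.zero
  | base k =>
    cases k with
    | zero =>
      have : MP_650c5e_an.shL (Pi.single 0 1) = 0 := by funext j; simp [MP_650c5e_an.shL]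
      rw [this]; exact V.zero
    | succ k =>
      have : MP_650c5e_an.shL (Pi.single (k + 1) 1) = Pi.single k 1 := by
        funext j; by_cases hj : j = k <;> simp [MP_650c5e_an.shL, hj]
      rw [this]; exact V.base k
  | node d n p u hd hn hp hu hs ih =>
    refine V.node d n (fun i => p i - 1) (fun i => MP_650c5e_an.shL (u i)) hd hn
      (fun a b hab => Nat.sub_le_sub_right (hp hab) 1) ih fun i j hne => ?_
    have := hs i (j + 1) hne
    omega

lemma V.shR {v : ℕ → ℝ} (h : V v) : V (shR v) := by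
  induction h with
  | zero =>
    have : MP_650c5e_an.shR 0 = 0 := by funext j; cases j <;> simp [MP_650c5e_an.shR]
    rw [this]; exact V.zero
  | base k =>
    have : MP_650c5e_an.shR (Pi.single k 1) = Pi.single (k + 1) 1 := by
      funext j
      cases j with
      | zero => simp [MP_650c5e_an.shR]
      | succ j => by_cases hj : j = k <;> simp [MP_650c5e_an.shR, hj]
    rw [this]; exact V.base _
  | node d n p u hd hn hp hu hs ih =>
    have : MP_650c5e_an.shR (fun j => (1 / 2 : ℝ) ^ d * ∑ i ∈ range n, u i j) =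
        fun j => (1 / 2 : ℝ) ^ d * ∑ i ∈ range n, MP_650c5e_an.shR (u i) j := by
      funext j; cases j <;> simp [MP_650c5e_an.shR]
    rw [this]
    refine V.node d n (fun i => p i + 1) _ hd hn
      (fun a b hab => Nat.add_le_add_right (hp hab) 1) ih fun i j hne => ?_
    cases j with
    | zero => simp [MP_650c5e_an.shR] at hne
    | succ j =>
      have := hs i j hne
      omega

lemma VS.shL {n : ℕ} {v : ℕ → ℝ} (h : v ∈ VS n) : shL v ∈ VS n := by
  obtain ⟨r, hr, p, u, hp, hu, hs, rfl⟩ := h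
  refine ⟨r, hr, fun i => p i - 1, fun i => MP_650c5e_an.shL (u i),
    fun a b hab => Nat.sub_le_sub_right (hp hab) 1, fun i => (hu i).shL, fun i j hne => ?_, rfl⟩
  have := hs i (j + 1) hne
  dsimp only
  omega

lemma VS.shR {n : ℕ} {v : ℕ → ℝ} (h : v ∈ VS n) : shR v ∈ VS n := by
  obtain ⟨r, hr, p, u, hp, hu, hs, rfl⟩ := h
  refine ⟨r, hr, fun i => p i + 1, fun i => MP_650c5e_an.shR (u i),
    fun a b hab => Nat.add_le_add_right (hp hab) 1, fun i => (hu i).shR, fun i j hne => ?_, ?_⟩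
  · cases j with
    | zero => simp [MP_650c5e_an.shR] at hne
    | succ j =>
      have := hs i j hne
      dsimp only
      omega
  · funext j; cases j <;> simp [MP_650c5e_an.shR]

lemma V.finsupp {v : ℕ → ℝ} (h : V v) : ∃ N, ∀ j, v j ≠ 0 → j < N := by
  cases h with
  | zero => exact ⟨0, by simp⟩
  | base k =>
    refine ⟨k + 1, fun j hj => ?_⟩
    by_cases h : j = k
    · omega
    · simp [h] at hj
  | node d n p u hd hn hp hu hs =>
    refine ⟨p n, fun j hj => ?_⟩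
    have h1 : ∑ i ∈ range n, u i j ≠ 0 := fun h => hj (by simp [h])
    obtain ⟨i, hi, hne⟩ := exists_ne_zero_of_sum_ne_zero h1
    have := (hs i j hne).2
    have := hp (show i + 1 ≤ n from mem_range.1 hi)
    omega

lemma V.mem_VS {v : ℕ → ℝ} (h : V v) {n : ℕ} (hn : 1 ≤ n) : v ∈ VS n := by
  obtain ⟨N, hN⟩ := h.finsupp
  refine ⟨1, hn, fun i => if i = 0 then 0 else N, fun i => if i = 0 then v else 0, ?_, ?_, ?_, ?_⟩
  · intro a b hab
    by_cases ha : a = 0
    · simp [ha]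
    · have : b ≠ 0 := by omega
      simp [ha, this]
  · intro i; by_cases hi : i = 0
    · simp [hi, h]
    · simp [hi, V.zero]
  · intro i j hne
    by_cases hi : i = 0
    · simp only [hi, if_true] at hne
      simp [hi, hN j hne]
    · simp [hi] at hne
  · funext j; simp

lemma VS.one {v : ℕ → ℝ} (h : v ∈ VS 1) : V v := by
  obtain ⟨r, hr, p, u, hp, hu, hs, rfl⟩ := h
  interval_cases r
  · exact V.zero
  · simpa using hu 0

lemma VS.mono {n n' : ℕ} (h : n ≤ n') : VS n ⊆ VS n' := by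
  rintro v ⟨r, hr, rest⟩
  exact ⟨r, hr.trans h, rest⟩

lemma VS.node {d : ℕ} {v : ℕ → ℝ} (h : v ∈ VS (R d)) :
    V (fun j => (1 / 2 : ℝ) ^ d * v j) := by
  rcases Nat.eq_zero_or_pos d with rfl | hd
  · simpa using VS.one h
  · obtain ⟨r, hr, p, u, hp, hu, hs, rfl⟩ := h
    exact V.node d r p u hd hr hp hu hs

lemma one_mem_VS {n K : ℕ} (h : K ≤ n) : res (range K) 1 ∈ VS n := by
  refine ⟨K, h, id, fun i => Pi.single i 1, monotone_id, fun i => V.base i, ?_, ?_⟩
  · intro i j hne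
    by_cases hj : j = i
    · simp [hj]
    · simp [hj] at hne
  · funext j
    by_cases hj : j ∈ range K
    · rw [res_of_mem hj, sum_eq_single_of_mem j hj]
      · simp
      · intro b _ hb; simp [Ne.symm hb]
    · rw [res_of_notMem hj, sum_eq_zero]
      intro i hi
      have : j ≠ i := fun h => hj (h ▸ hi)
      simp [this]

end Pool.Agent.MP_650c5e_an
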