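import Pool.Agent.MP_650c5e_an.Ball

/-! The lattice seminorms `NK K` and their supremum `NN`. -/

namespace Pool.Agent.MP_650c5e_an

open Finset

lemma Ball.solid {K : ℕ} {x x' : ℕ → ℝ} (hx : x ∈ Ball K) (h : ∀ i < K, |x' i| ≤ |x i|) :
    x' ∈ Ball K := by
  obtain ⟨s, hs, t, ht, hx⟩ := hx
  exact ⟨s, hs, t, ht, fun i hi => (sq_le_sq.2 (h i hi)).trans (hx i hi)⟩

lemma mem_Ball_of_sum {K : ℕ} {x : ℕ → ℝ} (h : ∑ i ∈ range K, |x i| ≤ 1) : x ∈ Ball K := by
  have h0 : ∀ i, 0 ≤ res (range K) (fun i => |x i|) i := res_nonneg fun i => abs_nonneg _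
  have h1 : ∀ D : Finset ℕ, ∑ i ∈ D, res (range K) (fun i => |x i|) i ≤ 1 := by
    intro D
    have := sum_res_mul (E := D) (W := range K) (fun i => |x i|) (fun _ => 1)
    simp only [mul_one] at this
    rw [this]
    exact (sum_le_sum_of_subset_of_nonneg inter_subset_right fun i _ _ => abs_nonneg _).trans h
  refine ⟨_, mem_SB_of_sum_le h0 h1, fun _ => res (range K) (fun i => |x i|),
    fun k => mem_BB_of_sum_le (nk_pos k) h0 h1, fun i hi => ?_⟩
  have h2 : |x i| ≤ 1 := by simpa [res_of_mem (mem_range.2 hi)] using h1 {i}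
  rw [GP_const (Nat.zero_le K) (abs_nonneg (x i)) (fun _ _ _ => res_of_mem (mem_range.2 hi)),
    res_of_mem (mem_range.2 hi), ← sq_abs, sq]
  refine mul_le_mul_of_nonneg_left ?_ (abs_nonneg _)
  rcases (abs_nonneg (x i)).eq_or_lt with e | e
  · rw [← e]; exact Real.rpow_nonneg le_rfl _
  · have := Real.rpow_le_rpow_of_exponent_ge e h2
      (show Gam 0 - Gam K ≤ 1 by linarith [Gam_zero, Gam_pos K])
    simpa using this

lemma Ball.abs_le {K : ℕ} {x : ℕ → ℝ} (hx : x ∈ Ball K) {i : ℕ} (hi : i < K) : |x i| ≤ 1 := by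
  obtain ⟨s, hs, t, ht, hx⟩ := hx
  rw [← sq_le_one_iff_abs_le_one]
  exact (hx i hi).trans (mul_le_one₀ (SB_le_one le_rfl s hs i) (GP_nonneg ht.nonneg _ _ _)
    (GP_le_one ht _ _ _))

lemma Ball.of_succ {K : ℕ} {x : ℕ → ℝ} (hx : x ∈ Ball (K + 1)) : x ∈ Ball K := by
  obtain ⟨s, hs, t, ht, hx⟩ := hx
  refine ⟨s, hs, t, ht, fun i hi => (hx i (by omega)).trans ?_⟩
  rw [GP_split (Nat.zero_le K) (Nat.le_succ K)]
  exact mul_le_mul_of_nonneg_left (mul_le_of_le_one_right (GP_nonneg ht.nonneg _ _ _)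
    (GP_le_one ht _ _ _)) (hs.1 i)

lemma GP_extend {K K' : ℕ} (t : ℕ → ℕ → ℝ) {i : ℕ} (hi : i < K) (hK : K ≤ K') :
    GP 0 K' (fun k => if k < K then t k else res (range K) 1) i = GP 0 K t i := by
  rw [GP_split (Nat.zero_le K) hK, GP_const hK zero_le_one
    (fun k hk _ => by simp only [show ¬ k < K by omega, if_false, res_of_mem (mem_range.2 hi)]; rfl),
    Real.one_rpow, mul_one]
  exact GP_congr fun k _ hk => by simp only [hk, if_true]

lemma Adm.extend {t : ℕ → ℕ → ℝ} (ht : Adm t) (K : ℕ) :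
    Adm (fun k => if k < K then t k else res (range K) 1) := by
  intro k
  by_cases hk : k < K
  · simp only [hk, if_true]; exact ht k
  · simp only [hk, if_false]
    exact VS_subset_BB _ (one_mem_VS ((not_lt.1 hk).trans (le_nk k)))

lemma Ball.extend {K K' : ℕ} {x : ℕ → ℝ} (hx : x ∈ Ball K) (hK : K ≤ K')
    (h0 : ∀ i, K ≤ i → x i = 0) : x ∈ Ball K' := by
  obtain ⟨s, hs, t, ht, hx⟩ := hx
  refine ⟨s, hs, _, ht.extend K, fun i _ => ?_⟩
  by_cases hi : i < K
  · rw [GP_extend t hi hK]; exact hx i hi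
  · rw [h0 i (not_lt.1 hi)]
    simpa using mul_nonneg (hs.1 i) (GP_nonneg (ht.extend K).nonneg _ _ _)

lemma Ball.shR {K : ℕ} {x : ℕ → ℝ} (hx : x ∈ Ball K) : shR x ∈ Ball K := by
  obtain ⟨s, hs, t, ht, hx⟩ := hx
  refine ⟨_, SB.shR hs, fun k => MP_650c5e_an.shR (t k), fun k => BB.shR (ht k), fun i hi => ?_⟩
  cases i with
  | zero => simp [MP_650c5e_an.shR]
  | succ i => exact hx i (by omega)

lemma Ball.shL {K : ℕ} {x : ℕ → ℝ} (hx : x ∈ Ball (K + 1)) : shL x ∈ Ball K := by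
  obtain ⟨s, hs, t, ht, hx⟩ := hx
  refine ⟨_, SB.shL hs, fun k => MP_650c5e_an.shL (t k), fun k => BB.shL (ht k), fun i hi => ?_⟩
  refine (hx (i + 1) (by omega)).trans ?_
  rw [GP_split (Nat.zero_le K) (Nat.le_succ K)]
  exact mul_le_mul_of_nonneg_left (mul_le_of_le_one_right (GP_nonneg ht.nonneg _ _ _)
    (GP_le_one ht _ _ _)) (hs.1 _)

lemma Ball_subset' {k K : ℕ} (hk : k ≤ K) {x : ℕ → ℝ} (hx : x ∈ Ball K) :
    (fun i => (1 / 2 : ℝ) ^ dk k * x i) ∈ Bl k K := by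
  rcases Nat.eq_zero_or_pos k with rfl | h
  · simpa [Bl_zero, dk_zero] using hx
  · exact Ball_subset h hk hx

/-- The seminorm at stage `K`. -/
noncomputable def NK (K : ℕ) (x : ℕ → ℝ) : ℝ :=
  sInf {l : ℝ | 0 < l ∧ (fun i => l⁻¹ * x i) ∈ Ball K}

lemma NK_le {K : ℕ} {x : ℕ → ℝ} {l : ℝ} (hl : 0 < l) (h : (fun i => l⁻¹ * x i) ∈ Ball K) :
    NK K x ≤ l := csInf_le ⟨0, fun _ h => h.1.le⟩ ⟨hl, h⟩

lemma NK_nonneg (K : ℕ) (x : ℕ → ℝ) : 0 ≤ NK K x := Real.sInf_nonneg fun _ h => h.1.le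

lemma mem_of_sum_lt {K : ℕ} {x : ℕ → ℝ} {l : ℝ} (h : ∑ i ∈ range K, |x i| < l) :
    (fun i => l⁻¹ * x i) ∈ Ball K := by
  have hl : 0 < l := lt_of_le_of_lt (sum_nonneg fun i _ => abs_nonneg _) h
  refine mem_Ball_of_sum ?_
  simp_rw [abs_mul, ← mul_sum, abs_of_pos (inv_pos.2 hl)]
  rw [inv_mul_le_iff₀ hl]; simpa using h.le

lemma mem_of_NK_lt {K : ℕ} {x : ℕ → ℝ} {l : ℝ} (h : NK K x < l) :
    (fun i => l⁻¹ * x i) ∈ Ball K := by
  have hne : {l : ℝ | 0 < l ∧ (fun i => l⁻¹ * x i) ∈ Ball K}.Nonempty :=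
    ⟨∑ i ∈ range K, |x i| + 1, by positivity, mem_of_sum_lt (by linarith)⟩
  obtain ⟨l', ⟨h0, hl'⟩, hlt⟩ := exists_lt_of_csInf_lt hne h
  refine Ball.solid hl' fun i _ => ?_
  rw [abs_mul, abs_mul, abs_of_pos (inv_pos.2 h0), abs_of_pos (inv_pos.2 (h0.trans hlt))]
  exact mul_le_mul_of_nonneg_right (inv_anti₀ h0 hlt.le) (abs_nonneg _)

lemma NK_le_sum (K : ℕ) (x : ℕ → ℝ) : NK K x ≤ ∑ i ∈ range K, |x i| :=
  le_of_forall_gt_imp_ge_of_dense fun _ hl =>
    NK_le (lt_of_le_of_lt (sum_nonneg fun _ _ => abs_nonneg _) hl) (mem_of_sum_lt hl)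

lemma NK_le_NK {K K' : ℕ} {x x' : ℕ → ℝ}
    (h : ∀ l : ℝ, 0 < l → (fun i => l⁻¹ * x i) ∈ Ball K → (fun i => l⁻¹ * x' i) ∈ Ball K') :
    NK K' x' ≤ NK K x :=
  le_of_forall_gt_imp_ge_of_dense fun l hl =>
    have h0 := lt_of_le_of_lt (NK_nonneg K x) hl
    NK_le h0 (h l h0 (mem_of_NK_lt hl))

lemma NK_mono {K : ℕ} {x x' : ℕ → ℝ} (h : ∀ i < K, |x' i| ≤ |x i|) : NK K x' ≤ NK K x :=
  NK_le_NK fun l _ hx => Ball.solid hx fun i hi => by
    rw [abs_mul, abs_mul]; exact mul_le_mul_of_nonneg_left (h i hi) (abs_nonneg _)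

lemma abs_le_NK {K : ℕ} (x : ℕ → ℝ) {i : ℕ} (hi : i < K) : |x i| ≤ NK K x :=
  le_of_forall_gt_imp_ge_of_dense fun l hl => by
    have h0 := lt_of_le_of_lt (NK_nonneg K x) hl
    have := Ball.abs_le (mem_of_NK_lt hl) hi
    rw [abs_mul, abs_of_pos (inv_pos.2 h0), inv_mul_le_iff₀ h0] at this
    simpa using this

lemma NK_mono_K (x : ℕ → ℝ) : Monotone fun K => NK K x :=
  monotone_nat_of_le_succ fun _ => NK_le_NK fun _ _ h => Ball.of_succ h

lemma NK_stab {K K' : ℕ} {x : ℕ → ℝ} (hK : K ≤ K') (h0 : ∀ i, K ≤ i → x i = 0) :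
    NK K' x = NK K x :=
  le_antisymm (NK_le_NK fun _ _ h => Ball.extend h hK fun i hi => by rw [h0 i hi, mul_zero])
    (NK_mono_K x hK)

lemma NK_shR (K : ℕ) (x : ℕ → ℝ) : NK K (shR x) ≤ NK K x :=
  NK_le_NK fun l _ h => by
    have : (fun i => l⁻¹ * shR x i) = shR fun i => l⁻¹ * x i := by
      funext i; cases i <;> simp [shR]
    rw [this]; exact Ball.shR h

lemma NK_shL (K : ℕ) (x : ℕ → ℝ) : NK K (shL x) ≤ NK (K + 1) x :=
  NK_le_NK fun _ _ h => Ball.shL h

lemma NK_smul_le (K : ℕ) (c : ℝ) (x : ℕ → ℝ) : NK K (fun i => c * x i) ≤ |c| * NK K x := by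
  rcases eq_or_ne c 0 with rfl | hc
  · simpa using NK_le_sum K (fun _ => 0)
  have hc' : 0 < |c| := abs_pos.2 hc
  rw [← inv_mul_le_iff₀ hc']
  refine le_of_forall_gt_imp_ge_of_dense fun l hl => ?_
  have h0 := lt_of_le_of_lt (NK_nonneg K x) hl
  rw [inv_mul_le_iff₀ hc']
  refine NK_le (by positivity) (Ball.solid (mem_of_NK_lt hl) fun i _ => le_of_eq ?_)
  simp only [abs_mul, abs_inv, abs_abs]
  field_simp

lemma NK_smul (K : ℕ) (c : ℝ) (x : ℕ → ℝ) : NK K (fun i => c * x i) = |c| * NK K x := by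
  refine le_antisymm (NK_smul_le K c x) ?_
  rcases eq_or_ne c 0 with rfl | hc
  · simpa using NK_nonneg K (fun _ => 0)
  have hc' : 0 < |c| := abs_pos.2 hc
  have := NK_smul_le K c⁻¹ (fun i => c * x i)
  simp only [inv_mul_cancel_left₀ hc, abs_inv] at this
  rwa [← le_inv_mul_iff₀ hc']

/-- Lattice `p`-convexity. -/
lemma NK_pconvex {k K : ℕ} (hk : k ≤ K) {p : ℝ} (hp : 0 < p) (hpk : p / 2 * (1 + Gam k) ≤ 1)
    {ι : Type*} (J : Finset ι) (x : ι → ℕ → ℝ) {u : ℕ → ℝ}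
    (hu : ∀ i < K, |u i| ^ p ≤ ∑ j ∈ J, |x j i| ^ p) :
    NK K u ^ p ≤ (2 ^ dk k) ^ p * ∑ j ∈ J, NK K (x j) ^ p := by
  set c : ℝ := (1 / 2 : ℝ) ^ dk k with hc
  have hc0 : 0 < c := by positivity
  have hcC : c * 2 ^ dk k = 1 := by rw [hc, ← mul_pow]; norm_num
  have key : ∀ δ : ℝ, 0 < δ →
      NK K u ^ p ≤ (2 ^ dk k) ^ p * (∑ j ∈ J, (NK K (x j) + δ) ^ p + δ) := by
    intro δ hδ
    have hl : ∀ j, 0 < NK K (x j) + δ := fun j => by linarith [NK_nonneg K (x j)]
    have hs0 : 0 ≤ ∑ j ∈ J, (NK K (x j) + δ) ^ p :=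
      sum_nonneg fun j _ => Real.rpow_nonneg (hl j).le _
    set S := ∑ j ∈ J, (NK K (x j) + δ) ^ p + δ with hS
    have hS0 : 0 < S := by positivity
    have hSp : 0 < S ^ p⁻¹ := Real.rpow_pos_of_pos hS0 _
    have hSpp : (S ^ p⁻¹) ^ p = S := Real.rpow_inv_rpow hS0.le hp.ne'
    have h1 : (fun i => (2 ^ dk k * S ^ p⁻¹)⁻¹ * u i) ∈ Bl k K := by
      refine Bl.comb hk hp hpk J (fun j => (NK K (x j) + δ) ^ p / S)
        (fun j _ => div_nonneg (Real.rpow_nonneg (hl j).le _) hS0.le) ?_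
        (fun j i => c * ((NK K (x j) + δ)⁻¹ * x j i))
        (fun j _ => Ball_subset' hk (mem_of_NK_lt (by linarith))) fun i hi => ?_
      · rw [← sum_div, div_le_one hS0]; linarith
      · have e1 : |(2 ^ dk k * S ^ p⁻¹)⁻¹ * u i| ^ p = c ^ p / S * |u i| ^ p := by
          have : ((2 : ℝ) ^ dk k * S ^ p⁻¹)⁻¹ = c / S ^ p⁻¹ := by
            field_simp; linarith
          rw [this, abs_mul, abs_of_pos (by positivity),
            Real.mul_rpow (by positivity) (abs_nonneg _), Real.div_rpow hc0.le hSp.le, hSpp]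
        have e2 : ∀ j, (NK K (x j) + δ) ^ p / S * |c * ((NK K (x j) + δ)⁻¹ * x j i)| ^ p =
            c ^ p / S * |x j i| ^ p := by
          intro j
          have := hl j
          have h3 : 0 < (NK K (x j) + δ) ^ p := Real.rpow_pos_of_pos this _
          rw [abs_mul, abs_mul, abs_of_pos hc0, abs_of_pos (inv_pos.2 this),
            Real.mul_rpow hc0.le (by positivity), Real.mul_rpow (by positivity) (abs_nonneg _),
            Real.inv_rpow this.le]
          field_simp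
        simp_rw [e1, e2, ← mul_sum]
        exact mul_le_mul_of_nonneg_left (hu i hi) (by positivity)
    have h2 := NK_le (by positivity) (Bl_subset hk h1)
    calc NK K u ^ p ≤ (2 ^ dk k * S ^ p⁻¹) ^ p := Real.rpow_le_rpow (NK_nonneg _ _) h2 hp.le
      _ = _ := by rw [Real.mul_rpow (by positivity) hSp.le, hSpp]
  have hlim : Filter.Tendsto
      (fun δ : ℝ => ((2 : ℝ) ^ dk k) ^ p * (∑ j ∈ J, (NK K (x j) + δ) ^ p + δ))
      (nhdsWithin 0 (Set.Ioi 0))
      (nhds (((2 : ℝ) ^ dk k) ^ p * (∑ j ∈ J, (NK K (x j) + 0) ^ p + 0))) := by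
    refine Filter.Tendsto.mono_left (Continuous.tendsto ?_ 0) nhdsWithin_le_nhds
    refine continuous_const.mul (Continuous.add (continuous_finsetSum _ fun j _ => ?_)
      continuous_id)
    exact (Real.continuous_rpow_const hp.le).comp (continuous_const.add continuous_id)
  simp only [add_zero] at hlim
  exact ge_of_tendsto hlim (eventually_nhdsWithin_of_forall key)

lemma NK_sum_le {K : ℕ} {ι : Type*} (J : Finset ι) (x : ι → ℕ → ℝ) {u : ℕ → ℝ}
    (hu : ∀ i < K, |u i| ≤ ∑ j ∈ J, |x j i|) : NK K u ≤ ∑ j ∈ J, NK K (x j) := by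
  have := NK_pconvex (Nat.zero_le K) one_pos (by rw [Gam_zero]; norm_num) J x (u := u)
    (by simpa using hu)
  simpa [dk_zero] using this

lemma NK_add_le {K : ℕ} {x x' u : ℕ → ℝ} (hu : ∀ i < K, |u i| ≤ |x i| + |x' i|) :
    NK K u ≤ NK K x + NK K x' := by
  have := NK_sum_le (K := K) (univ : Finset Bool) (fun b => if b then x else x') (u := u)
    (by simpa using hu)
  simpa using this

/-- Lattice `q`-concavity. -/
lemma NK_qconcave {k K : ℕ} (hk : k ≤ K) {q : ℝ} (hq : 0 < q) (hqk : 2 / q ≤ 1 - Gam k)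
    {ι : Type*} (J : Finset ι) (x : ι → ℕ → ℝ) {u : ℕ → ℝ}
    (hu : ∀ i < K, ∑ j ∈ J, |x j i| ^ q ≤ |u i| ^ q) :
    ∑ j ∈ J, NK K (x j) ^ q ≤ 2 * (2 ^ dk k) ^ q * NK K u ^ q := by
  set c : ℝ := (1 / 2 : ℝ) ^ dk k with hc
  have hc0 : 0 < c := by positivity
  have hcC : c * 2 ^ dk k = 1 := by rw [hc, ← mul_pow]; norm_num
  have key : ∀ δ : ℝ, 0 < δ →
      ∑ j ∈ J, NK K (x j) ^ q ≤ 2 * (2 ^ dk k) ^ q * (NK K u + δ) ^ q := by
    intro δ hδ
    set l := NK K u + δ with hl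
    have hl0 : 0 < l := by linarith [NK_nonneg K u]
    obtain ⟨h, s, t, h0, h1, hs, ht, H⟩ :=
      Ball_subset' hk (mem_of_NK_lt (show NK K u < l by linarith))
    set θ : ι → ℕ → ℝ := fun j i => |x j i| ^ q / |u i| ^ q with hθ
    have hθ0 : ∀ j i, 0 ≤ θ j i := fun j i => by positivity
    set η : ι → ℝ := fun j => ∑ i ∈ range K, h i * θ j i + 1 / (J.card + 1) with hη
    have hη0 : ∀ j, 0 < η j := fun j => by
      have : 0 ≤ ∑ i ∈ range K, h i * θ j i := sum_nonneg fun i _ => mul_nonneg (h0 i) (hθ0 j i)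
      positivity
    have h2 : ∀ j ∈ J, NK K (x j) ^ q ≤ η j * ((2 ^ dk k) ^ q * l ^ q) := by
      intro j hj
      have h3 := Bl.theta (k := k) (K := K) (x := fun i => c * (l⁻¹ * x j i)) h0 h1 hs ht (hθ0 j)
        (show 0 < 2 / q by positivity) hqk (hη0 j)
        (le_add_of_nonneg_right (by positivity)) (fun i hi => by
          refine le_trans (le_of_eq ?_) (mul_le_mul_of_nonneg_left (H i hi)
            (Real.rpow_nonneg (hθ0 j i) _))
          have e : ∀ a : ℝ, (|a| ^ q) ^ (2 / q) = a ^ 2 := fun a => by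
            rw [← Real.rpow_mul (abs_nonneg a), mul_div_cancel₀ _ hq.ne', ← sq_abs]
            exact Real.rpow_two _
          simp only [hθ]
          rw [Real.div_rpow (by positivity) (by positivity), e, e]
          rcases eq_or_ne (u i) 0 with hu0 | hu0
          · have h4 : |x j i| ^ q ≤ 0 := by
              have := (single_le_sum (f := fun j => |x j i| ^ q)
                (fun j _ => by positivity) hj).trans (hu i hi)
              rwa [hu0, abs_zero, Real.zero_rpow hq.ne'] at this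
            have h5 : x j i = 0 := by
              by_contra h6
              exact absurd h4 (not_le.2 (Real.rpow_pos_of_pos (abs_pos.2 h6) _))
            simp [h5]
          · rw [← hc]; field_simp)
      have h4 : 0 < η j ^ (2 / q / 2) := Real.rpow_pos_of_pos (hη0 j) _
      have h5 : NK K (x j) ≤ η j ^ (2 / q / 2) * (2 ^ dk k * l) := by
        refine NK_le (by positivity) ?_
        have : (fun i => (η j ^ (2 / q / 2) * (2 ^ dk k * l))⁻¹ * x j i) =
            fun i => (η j ^ (2 / q / 2))⁻¹ * (c * (l⁻¹ * x j i)) := by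
          funext i
          have : c = (2 ^ dk k)⁻¹ := by rw [hc, one_div, inv_pow]
          rw [this]; field_simp
        rw [this]; exact Bl_subset hk h3
      refine (Real.rpow_le_rpow (NK_nonneg _ _) h5 hq.le).trans (le_of_eq ?_)
      rw [Real.mul_rpow h4.le (by positivity), Real.mul_rpow (by positivity) hl0.le,
        ← Real.rpow_mul (hη0 j).le, show 2 / q / 2 * q = 1 by field_simp, Real.rpow_one]
    have h6 : ∑ j ∈ J, η j ≤ 2 := by
      simp only [hη]
      rw [sum_add_distrib, sum_comm, sum_const, nsmul_eq_mul]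
      have h7 : (J.card : ℝ) * (1 / (J.card + 1)) ≤ 1 := by
        rw [mul_one_div, div_le_one (by positivity)]; linarith
      have h8 : ∑ i ∈ range K, ∑ j ∈ J, h i * θ j i ≤ ∑ i ∈ range K, h i := by
        refine sum_le_sum fun i hi => ?_
        rw [← mul_sum]
        refine mul_le_of_le_one_right (h0 i) ?_
        simp only [hθ]
        rw [← sum_div]
        exact div_le_one_of_le₀ (hu i (mem_range.1 hi)) (by positivity)
      linarith
    calc _ ≤ ∑ j ∈ J, η j * ((2 ^ dk k) ^ q * l ^ q) := sum_le_sum h2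
      _ = (∑ j ∈ J, η j) * ((2 ^ dk k) ^ q * l ^ q) := by rw [sum_mul]
      _ ≤ 2 * ((2 ^ dk k) ^ q * l ^ q) := by gcongr
      _ = _ := by ring
  have hlim : Filter.Tendsto
      (fun δ : ℝ => 2 * ((2 : ℝ) ^ dk k) ^ q * (NK K u + δ) ^ q)
      (nhdsWithin 0 (Set.Ioi 0)) (nhds (2 * ((2 : ℝ) ^ dk k) ^ q * (NK K u + 0) ^ q)) := by
    refine Filter.Tendsto.mono_left (Continuous.tendsto ?_ 0) nhdsWithin_le_nhds
    exact continuous_const.mul
      ((Real.continuous_rpow_const hq.le).comp (continuous_const.add continuous_id))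
  simp only [add_zero] at hlim
  exact ge_of_tendsto hlim (eventually_nhdsWithin_of_forall key)

/-- A norming functional. -/
lemma exists_norming (K : ℕ) {U : ℕ → ℝ} (hU : ∀ i, 0 ≤ U i) :
    ∃ f : ℕ → ℝ, (∀ i, 0 ≤ f i) ∧ (∀ x : ℕ → ℝ, ∑ i ∈ range K, f i * |x i| ≤ NK K x) ∧
      ∑ i ∈ range K, f i * U i = NK K U := by
  rcases eq_or_ne U 0 with rfl | hU0
  · exact ⟨0, fun _ => le_rfl, fun x => by simpa using NK_nonneg K x,
      by simpa using le_antisymm (NK_nonneg K 0) (by simpa using NK_le_sum K 0)⟩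
  obtain ⟨g, hg1, hg2⟩ := exists_extension_of_le_sublinear
    (LinearPMap.mkSpanSingleton (K := ℝ) U (NK K U) hU0) (NK K)
    (fun c hc x => by
      have := NK_smul K c x
      rwa [abs_of_pos hc] at this)
    (fun x y => NK_add_le fun i _ => abs_add_le _ _)
    (by
      rintro ⟨x, hx⟩
      obtain ⟨c, rfl⟩ := Submodule.mem_span_singleton.1 hx
      rw [LinearPMap.mkSpanSingleton'_apply]
      have := NK_smul K c U
      have h2 := mul_le_mul_of_nonneg_right (le_abs_self c) (NK_nonneg K U)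
      exact h2.trans (le_of_eq this.symm))
  have hgU : g U = NK K U := by
    have := hg1 ⟨U, Submodule.mem_span_singleton_self U⟩
    rw [LinearPMap.mkSpanSingleton_apply] at this
    exact this
  have hres : ∀ x : ℕ → ℝ, g (res (range K) x) = ∑ i ∈ range K, g (Pi.single i 1) * x i := by
    intro x
    have : res (range K) x = ∑ i ∈ range K, x i • (Pi.single i 1 : ℕ → ℝ) := by
      funext j
      rw [Finset.sum_apply]
      by_cases hj : j ∈ range K
      · rw [res_of_mem hj, sum_eq_single_of_mem j hj]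
        · simp
        · intro b _ hb; simp [Ne.symm hb]
      · rw [res_of_notMem hj, sum_eq_zero]
        intro i hi
        have : j ≠ i := fun h => hj (h ▸ hi)
        simp [this]
    rw [this, map_sum]
    exact sum_congr rfl fun i _ => by rw [map_smul, smul_eq_mul, mul_comm]
  have h1 : ∀ x : ℕ → ℝ, ∑ i ∈ range K, |g (Pi.single i 1)| * |x i| ≤ NK K x := by
    intro x
    have h2 := hg2 (res (range K) fun i => SignType.sign (g (Pi.single i 1)) * |x i|)
    rw [hres] at h2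
    refine le_trans (le_of_eq (sum_congr rfl fun i _ => ?_)) (h2.trans (NK_mono fun i hi => ?_))
    · rw [← mul_assoc, self_mul_sign]
    · rw [res_of_mem (mem_range.2 hi), abs_mul, abs_abs]
      refine mul_le_of_le_one_left (abs_nonneg _) ?_
      rcases lt_trichotomy (g (Pi.single i 1)) 0 with h | h | h <;> simp [h]
  refine ⟨fun i => |g (Pi.single i 1)|, fun i => abs_nonneg _, h1, le_antisymm ?_ ?_⟩
  · simpa only [abs_of_nonneg (hU _)] using h1 U
  · have h2 : g (U - res (range K) U) ≤ 0 := by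
      refine (hg2 _).trans ((NK_le_sum K _).trans (le_of_eq (sum_eq_zero fun i hi => ?_)))
      simp [res_of_mem hi]
    rw [map_sub, hgU, hres] at h2
    refine le_trans (by linarith) (sum_le_sum (f := fun i => g (Pi.single i 1) * U i)
      fun i _ => mul_le_mul_of_nonneg_right (le_abs_self _) (hU i))

end Pool.Agent.MP_650c5e_an
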